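import Pool.Agent.Lib.MP_6498db_nt.W.Defs

/-! WALSH, row Split: coprime factors of `m k^2`, `m` squarefree. -/

set_option autoImplicit false

namespace Pool.Agent.Wal

/-- The squarefree part is unique. -/
private theorem split_unique {x y c d : ℕ} (hx : Squarefree x) (hy : Squarefree y) (hc : c ≠ 0)
    (hd : d ≠ 0) (h : x * c ^ 2 = y * d ^ 2) : x = y := by
  refine Nat.eq_of_factorization_eq hx.ne_zero hy.ne_zero fun p => ?_
  have h1 := congrArg (fun n => n.factorization p) h
  rw [Nat.factorization_mul hx.ne_zero (pow_ne_zero 2 hc),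
    Nat.factorization_mul hy.ne_zero (pow_ne_zero 2 hd), Nat.factorization_pow,
    Nat.factorization_pow] at h1
  simp only [Finsupp.add_apply, Finsupp.smul_apply, smul_eq_mul] at h1
  have h2 := hx.natFactorization_le_one p
  have h3 := hy.natFactorization_le_one p
  omega

/-- Every positive integer is squarefree times square (`Nat.sq_mul_squarefree`).  Proof: write `u = a r^2`, `v = b s^2`
with `a, b` squarefree; `a, b` are coprime, so `a b` is squarefree and `a b (r s)^2 = m k^2`; the squarefree part is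
unique (e.g. compare `padicValNat` parities of every prime, or `Nat.sqrt`-free: `a b m` is a square, both squarefree). -/
theorem split_sq (m : ℕ) (hm : Squarefree m) (u v k : ℕ) (hu : u ≠ 0) (hv : v ≠ 0) (hc : u.Coprime v)
    (h : u * v = m * k ^ 2) :
    ∃ a b r s : ℕ, a * b = m ∧ u = a * r ^ 2 ∧ v = b * s ^ 2 := by
  obtain ⟨a, r, ha, hsa⟩ := Nat.sq_mul_squarefree u
  obtain ⟨b, s, hb, hsb⟩ := Nat.sq_mul_squarefree v
  have hr : r ≠ 0 := by
    rintro rfl
    exact hu (by rw [← ha]; simp)
  have hs : s ≠ 0 := by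
    rintro rfl
    exact hv (by rw [← hb]; simp)
  have hk : k ≠ 0 := by
    rintro rfl
    exact mul_ne_zero hu hv (by rw [h]; simp)
  have hab : a.Coprime b :=
    (hc.coprime_dvd_left (Dvd.intro_left _ ha)).coprime_dvd_right (Dvd.intro_left _ hb)
  have hsq : Squarefree (a * b) := (Nat.squarefree_mul hab).2 ⟨hsa, hsb⟩
  refine ⟨a, b, r, s, ?_, ?_, ?_⟩
  · refine split_unique (c := r * s) (d := k) hsq hm (mul_ne_zero hr hs) hk ?_
    rw [← h, ← ha, ← hb]
    ring
  · rw [← ha]; ring
  · rw [← hb]; ring

end Pool.Agent.Wal
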