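import Pool.Agent.Lib.MP_6498db_nt.W.Mert
import Pool.Agent.Lib.MP_695920_nt.SparseA

/-! WALSH, row Chi: upper bound for the sum of a real character over the primes. -/

set_option autoImplicit false

namespace Pool.Agent.Wal

open Finset

private theorem abel_le (a w : ℕ → ℝ) (Q : ℝ) (hQ : ∀ N, |∑ n ∈ Ioc 0 N, a n| ≤ Q)
    (hw : ∀ n, 1 ≤ n → w (n + 1) ≤ w n) (hw0 : ∀ n, 1 ≤ n → 0 ≤ w n) (M N : ℕ) (hMN : M < N) :
    ∑ n ∈ Ioc M N, a n * w n ≤ 2 * Q * w (M + 1) := by
  have hAs : ∀ n, ∑ k ∈ Ioc 0 (n + 1), a k = ∑ k ∈ Ioc 0 n, a k + a (n + 1) := fun n =>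
    Finset.sum_Ioc_succ_top (Nat.zero_le n) a
  obtain ⟨A, hA⟩ : ∃ A : ℕ → ℝ, ∀ n, ∑ k ∈ Ioc 0 n, a k = A n := ⟨_, fun n => rfl⟩
  simp only [hA] at hAs hQ
  have hb : ∀ n, A n - A M ≤ 2 * Q := fun n => by
    have h1 := abs_le.1 (hQ n)
    have h2 := abs_le.1 (hQ M)
    linarith
  have key : ∀ k, ∑ n ∈ Ioc M (M + 1 + k), a n * w n ≤
      (A (M + 1 + k) - A M) * w (M + 1 + k) + 2 * Q * (w (M + 1) - w (M + 1 + k)) := by
    intro k
    induction k with
    | zero =>
      rw [add_zero, Finset.sum_Ioc_succ_top (le_refl M), Finset.Ioc_self, Finset.sum_empty, hAs]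
      apply le_of_eq
      ring
    | succ k ih =>
      have e : M + 1 + (k + 1) = (M + 1 + k) + 1 := by ring
      rw [e, Finset.sum_Ioc_succ_top (by omega), hAs]
      have h1 : 0 ≤ w (M + 1 + k) - w (M + 1 + k + 1) := sub_nonneg.2 (hw _ (by omega))
      have h2 := mul_le_mul_of_nonneg_right (hb (M + 1 + k)) h1
      nlinarith
  obtain ⟨k, rfl⟩ := Nat.exists_eq_add_of_le hMN
  have e : M.succ + k = M + 1 + k := rfl
  rw [e]
  refine (key k).trans ?_
  have h2 := mul_le_mul_of_nonneg_right (hb (M + 1 + k)) (hw0 (M + 1 + k) (by omega))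
  nlinarith

/-- `∑_{n ≤ q} 1/n ≤ log q + 1`. -/
private theorem harm_le (q : ℕ) (hq : 1 ≤ q) : ∑ n ∈ Ioc 0 q, (1 : ℝ) / n ≤ Real.log q + 1 := by
  induction q, hq using Nat.le_induction with
  | base => simp
  | succ q hq ih =>
    rw [Finset.sum_Ioc_succ_top (Nat.zero_le q)]
    have h0 : (0 : ℝ) < q := by exact_mod_cast hq
    have h1 : (1 : ℝ) / ((q + 1 : ℕ) : ℝ) ≤ Real.log ((q + 1 : ℕ) : ℝ) - Real.log q := by
      have h2 := Real.add_one_le_exp (-(Real.log ((q + 1 : ℕ) : ℝ) - Real.log q))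
      have h3 : Real.exp (-(Real.log ((q + 1 : ℕ) : ℝ) - Real.log q)) = q / ((q + 1 : ℕ) : ℝ) := by
        rw [neg_sub, Real.exp_sub, Real.exp_log h0, Real.exp_log (by positivity)]
      rw [h3] at h2
      have h4 : (q : ℝ) / ((q + 1 : ℕ) : ℝ) = 1 - 1 / ((q + 1 : ℕ) : ℝ) := by
        push_cast
        field_simp
        ring
      rw [h4] at h2
      linarith
    linarith

/-- Primes in `(x^k, x^(k+1)]`. -/
private theorem tail_le (x : ℕ) (hx : 3 ≤ x) (K : ℕ) :
    ∑ p ∈ (prs (x ^ (K + 1))).filter (fun p => x < p), (p : ℝ) ^ (-(1 + 1 / Real.log x)) ≤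
      4 * ∑ k ∈ range K, Real.exp (-1) ^ (k + 1) := by
  have hx0 : (0 : ℝ) < x := by positivity
  have hx3 : (3 : ℝ) ≤ x := by exact_mod_cast hx
  have hlx : 0 < Real.log x := Real.log_pos (by linarith)
  induction K with
  | zero =>
    rw [zero_add, pow_one, Finset.range_zero, Finset.sum_empty, mul_zero]
    apply le_of_eq
    apply Finset.sum_eq_zero
    intro p hp
    rw [mem_filter, mem_prs] at hp
    omega
  | succ K ih =>
    have hsub : (prs (x ^ (K + 1 + 1))).filter (fun p => x < p) ⊆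
        (prs (x ^ (K + 1))).filter (fun p => x < p) ∪
          (Ioc (x ^ (K + 1)) (x ^ (K + 1 + 1))).filter Nat.Prime := by
      intro p hp
      rw [mem_filter, mem_prs] at hp
      rw [mem_union, mem_filter, mem_filter, mem_prs, mem_Ioc]
      by_cases h : p ≤ x ^ (K + 1)
      · exact Or.inl ⟨⟨hp.1.1, h⟩, hp.2⟩
      · exact Or.inr ⟨⟨by omega, hp.1.2⟩, hp.1.1⟩
    have hnn : ∀ p : ℕ, 0 ≤ (p : ℝ) ^ (-(1 + 1 / Real.log x)) := fun p => by positivity
    refine (Finset.sum_le_sum_of_subset_of_nonneg hsub fun p _ _ => hnn p).trans ?_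
    have hdis : Disjoint ((prs (x ^ (K + 1))).filter (fun p => x < p))
        ((Ioc (x ^ (K + 1)) (x ^ (K + 1 + 1))).filter Nat.Prime) := by
      rw [Finset.disjoint_left]
      intro p hp hp'
      rw [mem_filter, mem_prs] at hp
      rw [mem_filter, mem_Ioc] at hp'
      exact absurd hp.1.2 (not_le.2 hp'.1.1)
    rw [Finset.sum_union hdis]
    rw [Finset.sum_range_succ, mul_add]
    refine add_le_add ih ?_
    have h1 : ∀ p ∈ (Ioc (x ^ (K + 1)) (x ^ (K + 1 + 1))).filter Nat.Prime,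
        (p : ℝ) ^ (-(1 + 1 / Real.log x)) ≤ Real.exp (-1) ^ (K + 1) * (1 / p) := by
      intro p hp
      rw [mem_filter, mem_Ioc] at hp
      have hp0 : (0 : ℝ) < p := by exact_mod_cast hp.2.pos
      have h2 : ((x : ℝ) ^ (K + 1)) ≤ p := by exact_mod_cast hp.1.1.le
      rw [neg_add, Real.rpow_add hp0, Real.rpow_neg_one, mul_comm, one_div (p : ℝ)]
      refine mul_le_mul_of_nonneg_right ?_ (by positivity)
      have h3 : (p : ℝ) ^ (-(1 / Real.log x)) ≤ ((x : ℝ) ^ (K + 1)) ^ (-(1 / Real.log x)) := by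
        apply Real.rpow_le_rpow_of_nonpos (by positivity) h2
        rw [neg_nonpos]
        positivity
      refine h3.trans (le_of_eq ?_)
      rw [← Real.rpow_natCast (x : ℝ), ← Real.rpow_mul hx0.le, Real.rpow_def_of_pos hx0,
        ← Real.exp_nat_mul]
      congr 1
      field_simp
    refine (Finset.sum_le_sum h1).trans ?_
    rw [← Finset.mul_sum, mul_comm]
    refine mul_le_mul_of_nonneg_right ?_ (by positivity)
    have h2 := Pool.Agent.Lib.MP_695920_nt.sum_inv_primes_Ioc_le (x ^ (K + 1) : ℕ) (x ^ (K + 1 + 1) : ℕ)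
      (by
        have : 2 ≤ x ^ (K + 1) := by
          calc 2 ≤ x := by omega
            _ = x ^ 1 := (pow_one x).symm
            _ ≤ x ^ (K + 1) := Nat.pow_le_pow_right (by omega) (by omega)
        exact_mod_cast this)
      (by exact_mod_cast Nat.pow_le_pow_right (by omega : 0 < x) (by omega : K + 1 ≤ K + 1 + 1))
    rw [Nat.floor_natCast, Nat.floor_natCast] at h2
    refine h2.trans ?_
    have h3 : Real.log ((x ^ (K + 1 + 1) : ℕ) : ℝ) / Real.log ((x ^ (K + 1) : ℕ) : ℝ) =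
        ((K : ℝ) + 2) / (K + 1) := by
      push_cast
      rw [Real.log_pow, Real.log_pow]
      push_cast
      field_simp
      ring
    rw [h3]
    have h4 : ((K : ℝ) + 2) / (K + 1) ≤ 2 := by
      rw [div_le_iff₀ (by positivity)]
      linarith [(Nat.cast_nonneg K : (0 : ℝ) ≤ K)]
    have h5 : Real.log (((K : ℝ) + 2) / (K + 1)) ≤ Real.log 2 := Real.log_le_log (by positivity) h4
    linarith [Real.log_two_lt_d9]

private theorem key (χ : ℕ →*₀ ℝ) (hχ : ∀ n, |χ n| ≤ 1) (Q : ℕ) (hQ : 1 ≤ Q)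
    (hs : ∀ N, |∑ n ∈ Ioc 0 N, χ n| ≤ Q) (x : ℕ) (hx : 3 ≤ x) :
    ∑ p ∈ prs x, χ p / p ≤ Real.log (Real.log Q + 4) + 7 := by
  have hx0 : (0 : ℝ) < x := by positivity
  have hx3 : (3 : ℝ) ≤ x := by exact_mod_cast hx
  have hlx : 1 ≤ Real.log x := by
    rw [Real.le_log_iff_exp_le hx0]
    linarith [Real.exp_one_lt_d9]
  have hlx0 : 0 < Real.log x := by linarith
  obtain ⟨s, hsd⟩ : ∃ s : ℝ, s = 1 + 1 / Real.log x := ⟨_, rfl⟩
  have hs1 : 1 < s := by
    rw [hsd]
    have : 0 < 1 / Real.log x := by positivity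
    linarith
  let f : ℕ →*₀ ℝ :=
    { toFun := fun n => χ n * (n : ℝ) ^ (-s)
      map_zero' := by rw [map_zero, zero_mul]
      map_one' := by rw [map_one, Nat.cast_one, Real.one_rpow, one_mul]
      map_mul' := fun a b => by
        rw [map_mul, Nat.cast_mul, Real.mul_rpow (Nat.cast_nonneg a) (Nat.cast_nonneg b)]
        ring }
  have hf : ∀ n : ℕ, f n = χ n * (n : ℝ) ^ (-s) := fun n => rfl
  have hfn : ∀ n : ℕ, ‖f n‖ ≤ (n : ℝ) ^ (-s) := fun n => by
    rw [hf, norm_mul, Real.norm_eq_abs, Real.norm_eq_abs, abs_of_nonneg (a := (n : ℝ) ^ (-s)) (by positivity)]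
    exact mul_le_of_le_one_left (by positivity) (hχ n)
  have hsum : Summable (‖f ·‖) :=
    Summable.of_nonneg_of_le (fun n => norm_nonneg _) hfn (Real.summable_nat_rpow.2 (by linarith))
  -- the partial sums
  have hw : ∀ n : ℕ, 1 ≤ n → ((n + 1 : ℕ) : ℝ) ^ (-s) ≤ (n : ℝ) ^ (-s) := by
    intro n hn
    apply Real.rpow_le_rpow_of_nonpos (by exact_mod_cast hn) (by push_cast; linarith)
    linarith
  have hpart : ∀ N : ℕ, ∑ n ∈ range N, f n ≤ Real.log Q + 3 := by
    intro N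
    have e1 : ∀ N, ∑ n ∈ range (N + 1), f n = ∑ n ∈ Ioc 0 N, f n := by
      intro N
      induction N with
      | zero => rw [Finset.sum_range_one, map_zero, Finset.Ioc_self, Finset.sum_empty]
      | succ N ih => rw [Finset.sum_range_succ, ih, Finset.sum_Ioc_succ_top (Nat.zero_le N)]
    have hfle : ∀ n ∈ Ioc 0 Q, f n ≤ (1 : ℝ) / n := by
      intro n hn
      rw [mem_Ioc] at hn
      have hn1 : (1 : ℝ) ≤ n := by exact_mod_cast hn.1
      refine (le_abs_self _).trans ((hfn n).trans ?_)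
      rw [one_div, ← Real.rpow_neg_one]
      exact Real.rpow_le_rpow_of_exponent_le hn1 (by linarith)
    have hharm := harm_le Q hQ
    rcases Nat.eq_zero_or_pos N with rfl | hN
    · rw [Finset.range_zero, Finset.sum_empty]
      have := Real.log_natCast_nonneg Q
      linarith
    obtain ⟨N, rfl⟩ := Nat.exists_eq_add_of_le' hN
    rw [e1]
    rcases le_or_gt N Q with hNQ | hNQ
    · have h1 : ∑ n ∈ Ioc 0 N, f n ≤ ∑ n ∈ Ioc 0 N, (1 : ℝ) / n :=
        Finset.sum_le_sum fun n hn => hfle n (Finset.Ioc_subset_Ioc_right hNQ hn)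
      have h2 : ∑ n ∈ Ioc 0 N, (1 : ℝ) / n ≤ ∑ n ∈ Ioc 0 Q, (1 : ℝ) / n :=
        Finset.sum_le_sum_of_subset_of_nonneg (Finset.Ioc_subset_Ioc_right hNQ)
          fun n _ _ => by positivity
      linarith
    · have h1 : ∑ n ∈ Ioc 0 N, f n = ∑ n ∈ Ioc 0 Q, f n + ∑ n ∈ Ioc Q N, f n :=
        (Finset.sum_Ioc_consecutive _ (Nat.zero_le Q) hNQ.le).symm
      have h2 : ∑ n ∈ Ioc 0 Q, f n ≤ ∑ n ∈ Ioc 0 Q, (1 : ℝ) / n := Finset.sum_le_sum hfle
      have h3 := abel_le (fun n => χ n) (fun n => (n : ℝ) ^ (-s)) Q hs hw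
        (fun n _ => by positivity) Q N hNQ
      have h4 : ((Q + 1 : ℕ) : ℝ) ^ (-s) ≤ 1 / (Q + 1 : ℕ) := by
        rw [one_div, ← Real.rpow_neg_one]
        exact Real.rpow_le_rpow_of_exponent_le (by push_cast; linarith [(Nat.cast_nonneg Q : (0:ℝ) ≤ Q)])
          (by linarith)
      have h5 : 2 * (Q : ℝ) * ((Q + 1 : ℕ) : ℝ) ^ (-s) ≤ 2 := by
        calc 2 * (Q : ℝ) * ((Q + 1 : ℕ) : ℝ) ^ (-s) ≤ 2 * (Q : ℝ) * (1 / (Q + 1 : ℕ)) :=
              mul_le_mul_of_nonneg_left h4 (by positivity)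
          _ ≤ 2 := by
              push_cast
              rw [mul_one_div, div_le_iff₀ (by positivity)]
              linarith
      have h6 : ∑ n ∈ Ioc Q N, f n ≤ 2 := h3.trans h5
      linarith
  have hL : ∑' n, f n ≤ Real.log Q + 3 :=
    le_of_tendsto' hsum.of_norm.hasSum.tendsto_sum_nat hpart
  -- the Euler product
  have hE := EulerProduct.eulerProduct_completely_multiplicative hsum
  have hev : ∀ᶠ n in Filter.atTop, ∏ p ∈ Nat.primesBelow n, (1 - f p)⁻¹ < Real.log Q + 4 :=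
    hE.eventually_lt_const (by linarith)
  obtain ⟨n0, hn0⟩ := Filter.eventually_atTop.1 hev
  obtain ⟨K, hK⟩ : ∃ K : ℕ, n0 ≤ x ^ (K + 1) + 1 :=
    ⟨n0, ((Nat.lt_pow_self (by omega : 1 < x)).le.trans
      (Nat.pow_le_pow_right (by omega) (Nat.le_succ n0))).trans (Nat.le_succ _)⟩
  have hprod := hn0 _ hK
  have hPB : Nat.primesBelow (x ^ (K + 1) + 1) = prs (x ^ (K + 1)) := by
    ext p
    rw [Nat.mem_primesBelow, mem_prs, Nat.lt_succ_iff]
    exact and_comm
  rw [hPB] at hprod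
  have hp1 : ∀ p ∈ prs (x ^ (K + 1)), Real.exp (f p) ≤ (1 - f p)⁻¹ := by
    intro p hp
    have hpp := (mem_prs.1 hp).1
    have hlt : f p < 1 := by
      refine (le_abs_self _).trans_lt ((hfn p).trans_lt ?_)
      exact Real.rpow_lt_one_of_one_lt_of_neg (by exact_mod_cast hpp.one_lt) (by linarith)
    rw [← one_div, le_div_iff₀ (by linarith)]
    have h1 := Real.add_one_le_exp (-(f p))
    have h2 : Real.exp (f p) * Real.exp (-(f p)) = 1 := by rw [← Real.exp_add, add_neg_cancel, Real.exp_zero]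
    nlinarith [Real.exp_pos (f p)]
  have hexp : Real.exp (∑ p ∈ prs (x ^ (K + 1)), f p) < Real.log Q + 4 := by
    rw [Real.exp_sum]
    exact (Finset.prod_le_prod (fun p _ => (Real.exp_pos _).le) hp1).trans_lt hprod
  have hmain : ∑ p ∈ prs (x ^ (K + 1)), f p ≤ Real.log (Real.log Q + 4) := by
    have h1 := Real.log_le_log (Real.exp_pos _) hexp.le
    rwa [Real.log_exp] at h1
  -- the tail
  have htail := tail_le x hx K
  rw [← hsd] at htail
  have hgeo : 4 * ∑ k ∈ range K, Real.exp (-1) ^ (k + 1) ≤ 4 := by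
    have h1 : Real.exp (-1) ≤ 1 / 2 := by
      rw [Real.exp_neg, ← one_div]
      exact one_div_le_one_div_of_le (by norm_num) (by linarith [Real.exp_one_gt_d9])
    have h2 : ∑ k ∈ range K, Real.exp (-1) ^ (k + 1) ≤ 1 := by
      have h3 : ∀ K : ℕ, ∑ k ∈ range K, (1 / 2 : ℝ) ^ (k + 1) = 1 - (1 / 2) ^ K := by
        intro K
        induction K with
        | zero => simp
        | succ K ih =>
          rw [Finset.sum_range_succ, ih]
          ring
      calc ∑ k ∈ range K, Real.exp (-1) ^ (k + 1) ≤ ∑ k ∈ range K, (1 / 2 : ℝ) ^ (k + 1) :=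
            Finset.sum_le_sum fun k _ => pow_le_pow_left₀ (Real.exp_pos _).le h1 _
        _ = 1 - (1 / 2) ^ K := h3 K
        _ ≤ 1 := by
            have : (0 : ℝ) ≤ (1 / 2) ^ K := by positivity
            linarith
    linarith
  have hsplit : ∑ p ∈ prs (x ^ (K + 1)), f p =
      ∑ p ∈ prs x, f p + ∑ p ∈ (prs (x ^ (K + 1))).filter (fun p => x < p), f p := by
    rw [← Finset.sum_filter_not_add_sum_filter (prs (x ^ (K + 1))) (fun p => x < p)]
    congr 1
    refine Finset.sum_congr ?_ fun _ _ => rfl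
    ext p
    rw [mem_filter, mem_prs, mem_prs, not_lt]
    constructor
    · exact fun h => ⟨h.1.1, h.2⟩
    · intro h
      refine ⟨⟨h.1, h.2.trans ?_⟩, h.2⟩
      calc x = x ^ 1 := (pow_one x).symm
        _ ≤ x ^ (K + 1) := Nat.pow_le_pow_right (by omega) (by omega)
  have htail2 : -(∑ p ∈ (prs (x ^ (K + 1))).filter (fun p => x < p), f p) ≤ 4 := by
    rw [← Finset.sum_neg_distrib]
    refine (Finset.sum_le_sum fun p _ => ?_).trans (htail.trans hgeo)
    exact (neg_le_abs _).trans (hfn p)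
  -- the primes up to `x`
  have hfirst : ∑ p ∈ prs x, χ p / p ≤ ∑ p ∈ prs x, f p + 3 := by
    have h1 : ∀ p ∈ prs x, χ p / p - f p ≤ (1 / Real.log x) * (Real.log p / p) := by
      intro p hp
      have hpp := (mem_prs.1 hp).1
      have hp0 : (0 : ℝ) < p := by exact_mod_cast hpp.pos
      have h2 : f p = χ p / p * (p : ℝ) ^ (-(1 / Real.log x)) := by
        rw [hf, hsd, neg_add, Real.rpow_add hp0, Real.rpow_neg_one]
        ring
      have h3 : (1 : ℝ) - (p : ℝ) ^ (-(1 / Real.log x)) ≤ (1 / Real.log x) * Real.log p := by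
        have h4 := Real.add_one_le_exp (Real.log p * (-(1 / Real.log x)))
        rw [← Real.rpow_def_of_pos hp0] at h4
        linarith
      have h5 : 0 ≤ (1 : ℝ) - (p : ℝ) ^ (-(1 / Real.log x)) := by
        rw [sub_nonneg]
        apply Real.rpow_le_one_of_one_le_of_nonpos (by exact_mod_cast hpp.one_lt.le)
        rw [neg_nonpos]
        positivity
      calc χ p / p - f p = χ p / p * (1 - (p : ℝ) ^ (-(1 / Real.log x))) := by rw [h2]; ring
        _ ≤ 1 / p * (1 - (p : ℝ) ^ (-(1 / Real.log x))) := by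
            refine mul_le_mul_of_nonneg_right ?_ h5
            exact div_le_div_of_nonneg_right ((le_abs_self _).trans (hχ p)) hp0.le
        _ ≤ 1 / p * ((1 / Real.log x) * Real.log p) := mul_le_mul_of_nonneg_left h3 (by positivity)
        _ = (1 / Real.log x) * (Real.log p / p) := by ring
    have h2 : ∑ p ∈ prs x, (χ p / p - f p) ≤ ∑ p ∈ prs x, (1 / Real.log x) * (Real.log p / p) :=
      Finset.sum_le_sum h1
    rw [Finset.sum_sub_distrib, ← Finset.mul_sum] at h2
    have h3 : ∑ p ∈ prs x, Real.log p / p ≤ Pool.Agent.Lib.MP_695920_nt.mert x := by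
      unfold Pool.Agent.Lib.MP_695920_nt.mert
      refine Finset.sum_le_sum_of_subset_of_nonneg ?_ fun p hp _ => ?_
      · intro p hp
        rw [mem_prs] at hp
        rw [mem_filter, mem_Icc]
        exact ⟨⟨Nat.zero_le _, hp.2⟩, hp.1⟩
      · exact div_nonneg (Real.log_natCast_nonneg p) (Nat.cast_nonneg p)
    have h4 := Pool.Agent.Lib.MP_695920_nt.mert_le x (by omega)
    have h5 : (1 / Real.log x) * ∑ p ∈ prs x, Real.log p / p ≤ 3 := by
      calc (1 / Real.log x) * ∑ p ∈ prs x, Real.log p / p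
          ≤ (1 / Real.log x) * (Real.log x + Real.log 4) :=
            mul_le_mul_of_nonneg_left (h3.trans h4) (by positivity)
        _ ≤ 3 := by
            rw [one_div_mul_eq_div, div_le_iff₀ hlx0]
            have h6 : Real.log 4 = 2 * Real.log 2 := by
              rw [show (4 : ℝ) = 2 ^ 2 by norm_num, Real.log_pow]
              norm_num
            have := Real.log_two_lt_d9
            linarith
    linarith
  linarith

/-- Proof. `χ = jchi d` of `Lib/MP_695920_nt/JacobiChar.lean` (completely multiplicative, `χ(p) = (d/p)` for odd `p`,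
`χ(2) = 0`), `|∑_{n ≤ N} χ(n)| ≤ 4 |d|` (`jchi_sum_le` in `SparseA.lean`; `IsRC` in `RealChar.lean`). Let
`σ = 1 + 1/log x`, `L = ∑ χ(n) n^(-σ) > 0`. (i) `L ≤ ∑_{n ≤ q} 1/n + 2q · q^(-σ) ≤ log q + 3`, `q = 4|d|` (Abel).
(ii) `log L = - ∑_p log(1 - χ(p) p^(-σ)) ≥ ∑_p χ(p) p^(-σ) - 1` (Euler product:
`EulerProduct.eulerProduct_completely_multiplicative_hasProd`, or the finite form; `|∑_p ∑_{k ≥ 2}| ≤ ∑ 1/(p(p-1)) ≤ 1`).
(iii) `∑_{p ≤ x} (1/p - p^(-σ)) ≤ ∑_{p ≤ x} log p/(p log x) ≤ 2` (`1 - e^(-t) ≤ t`, `mert_le`) and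
`∑_{p > x} p^(-σ) = O(1)` (dyadic pieces and Chebyshev/`mert_le`). Hence `∑_{p ≤ x} χ(p)/p ≤ log(log q + 3) + C`. -/
theorem chi_up : ∃ C : ℝ, ∀ d : ℤ, d ≠ 0 → ¬ IsSquare d → ∀ x : ℕ, 3 ≤ x →
    ∑ p ∈ (prs x).filter (fun p => 2 < p), (jacobiSym d p : ℝ) / p ≤
      Real.log (Real.log (|(d : ℝ)| + 3)) + C := by
  refine ⟨Real.log 8 + 7, fun d hd hsq x hx => ?_⟩
  have hd1 : 1 ≤ d.natAbs := Int.natAbs_pos.2 hd
  let χ : ℕ →*₀ ℝ :=
    { toFun := Pool.Agent.Lib.MP_695920_nt.jchi d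
      map_zero' := by
        unfold Pool.Agent.Lib.MP_695920_nt.jchi
        rw [if_neg (by decide)]
      map_one' := Pool.Agent.Lib.MP_695920_nt.jchi_one d
      map_mul' := Pool.Agent.Lib.MP_695920_nt.jchi_mul d }
  have hχ : ∀ n, χ n = Pool.Agent.Lib.MP_695920_nt.jchi d n := fun n => rfl
  have h1 := key χ (fun n => by
      rw [hχ]
      rcases Pool.Agent.Lib.MP_695920_nt.jchi_val d n with h | h | h <;> rw [h] <;> norm_num)
    (4 * d.natAbs) (by omega) (fun N => by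
      have := Pool.Agent.Lib.MP_695920_nt.jchi_sum_le d hd hsq N
      push_cast
      exact this) x hx
  have h2 : ∑ p ∈ (prs x).filter (fun p => 2 < p), (jacobiSym d p : ℝ) / p =
      ∑ p ∈ prs x, χ p / p := by
    rw [← Finset.sum_filter_add_sum_filter_not (prs x) (fun p => 2 < p) (fun p => χ p / p)]
    have h3 : ∑ p ∈ (prs x).filter (fun p => ¬ 2 < p), χ p / p = 0 := by
      apply Finset.sum_eq_zero
      intro p hp
      rw [mem_filter, mem_prs] at hp
      have h4 : p = 2 := le_antisymm (not_lt.1 hp.2) hp.1.1.two_le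
      rw [hχ, h4]
      unfold Pool.Agent.Lib.MP_695920_nt.jchi
      rw [if_neg (by decide), zero_div]
    rw [h3, add_zero]
    apply Finset.sum_congr rfl
    intro p hp
    rw [mem_filter, mem_prs] at hp
    rw [hχ, Pool.Agent.Lib.MP_695920_nt.jchi_odd (hp.1.1.odd_of_ne_two (by omega))]
  rw [h2]
  refine h1.trans ?_
  have habs : |(d : ℝ)| = (d.natAbs : ℝ) := by rw [Nat.cast_natAbs, Int.cast_abs]
  rw [habs]
  have hn1 : (1 : ℝ) ≤ (d.natAbs : ℝ) := by exact_mod_cast hd1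
  obtain ⟨t, ht⟩ : ∃ t : ℝ, t = (d.natAbs : ℝ) := ⟨_, rfl⟩
  rw [← ht] at hn1 ⊢
  have h5 : Real.log ((4 * d.natAbs : ℕ) : ℝ) = Real.log 4 + Real.log t := by
    rw [ht]
    push_cast
    rw [Real.log_mul (by norm_num) (by positivity)]
  rw [h5]
  have h6 : Real.log 4 ≤ Real.log (t + 3) := Real.log_le_log (by norm_num) (by linarith)
  have h7 : Real.log t ≤ Real.log (t + 3) := Real.log_le_log (by linarith) (by linarith)
  have h8 : 1 ≤ Real.log 4 := by
    rw [Real.le_log_iff_exp_le (by norm_num)]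
    linarith [Real.exp_one_lt_d9]
  have h9 : Real.log (Real.log 4 + Real.log t + 4) ≤ Real.log (8 * Real.log (t + 3)) := by
    apply Real.log_le_log
    · have := Real.log_nonneg hn1
      linarith
    · linarith
  rw [Real.log_mul (by norm_num) (by linarith)] at h9
  linarith

end Pool.Agent.Wal
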