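import Pool.Agent.Lib.MP_6498db_nt.W.Hr
import Pool.Agent.Lib.MP_6498db_nt.W.Chi

/-! WALSH, row BOne: small `b`. -/

set_option autoImplicit false

namespace Pool.Agent.Wal

open Finset

private theorem b1_pt (d : ℕ) (p : ℕ) (hp : p.Prime) :
    (1 / 2 : ℝ) * (if p ≡ 1 [MOD 4] then (1 : ℝ) / p else 0)
      - (1 / 4 : ℝ) * (if 2 < p then (jacobiSym (d : ℤ) p : ℝ) / p else 0)
      - (1 / 4 : ℝ) * (if 2 < p then (jacobiSym (-(d : ℤ)) p : ℝ) / p else 0)
      - (1 / 2 : ℝ) * (if p ∣ d then (1 : ℝ) / p else 0) ≤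
    (if 3 < p ∧ p % 4 = 1 ∧ jacobiSym (d : ℤ) p = -1 then (1 : ℝ) / p else 0) := by
  have hp0 : (0 : ℝ) < p := by exact_mod_cast hp.pos
  have hinv : (0 : ℝ) ≤ 1 / p := by positivity
  have hD : (0 : ℝ) ≤ (1 / 2 : ℝ) * (if p ∣ d then (1 : ℝ) / p else 0) := by
    split_ifs
    · positivity
    · simp
  have hR : (0 : ℝ) ≤ (if 3 < p ∧ p % 4 = 1 ∧ jacobiSym (d : ℤ) p = -1 then (1 : ℝ) / p else 0) := by
    split_ifs
    · positivity
    · exact le_rfl
  by_cases h2 : 2 < p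
  · have hodd : Odd p := hp.odd_of_ne_two (by omega)
    have hneg := jacobiSym.neg (d : ℤ) hodd
    have h4 : p % 4 = 1 ∨ p % 4 = 3 := by
      have := Nat.odd_iff.1 hodd
      omega
    rcases h4 with h4 | h4
    · have h3 : 3 < p := by
        by_contra h
        interval_cases p
        omega
      have hm : p ≡ 1 [MOD 4] := by
        unfold Nat.ModEq
        omega
      rw [ZMod.χ₄_nat_one_mod_four h4, one_mul] at hneg
      rw [hneg, if_pos hm, if_pos h2]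
      rcases jacobiSym.trichotomy (d : ℤ) p with h | h | h
      · have hdvd : p ∣ d := by
          have : NeZero p := ⟨hp.ne_zero⟩
          have h5 := jacobiSym.eq_zero_iff_not_coprime.1 h
          rw [Int.gcd_natCast_natCast] at h5
          by_contra h6
          exact h5 ((Nat.Prime.coprime_iff_not_dvd hp).2 h6).symm
        rw [h] at hR ⊢
        rw [if_pos hdvd]
        simp only [Int.cast_zero, zero_div, mul_zero, sub_zero]
        linarith
      · rw [h] at hR ⊢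
        have e : (1 / 2 : ℝ) * (1 / p) - 1 / 4 * (((1 : ℤ) : ℝ) / p) - 1 / 4 * (((1 : ℤ) : ℝ) / p)
          = 0 := by
          push_cast
          ring
        rw [e]
        linarith
      · rw [h, if_pos (show 3 < p ∧ p % 4 = 1 ∧ (-1 : ℤ) = -1 from ⟨h3, h4, rfl⟩)]
        have e : (1 / 2 : ℝ) * (1 / p) - 1 / 4 * (((-1 : ℤ) : ℝ) / p) -
            1 / 4 * (((-1 : ℤ) : ℝ) / p) = 1 / p := by
          push_cast
          ring
        rw [e]
        linarith
    · have hm : ¬ p ≡ 1 [MOD 4] := by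
        unfold Nat.ModEq
        omega
      rw [ZMod.χ₄_nat_three_mod_four h4] at hneg
      rw [hneg, if_neg hm, if_pos h2, if_pos h2]
      have e : (1 / 2 : ℝ) * 0 - 1 / 4 * ((jacobiSym (d : ℤ) p : ℝ) / p) -
            1 / 4 * (((-1 * jacobiSym (d : ℤ) p : ℤ) : ℝ) / p) = 0 := by
        push_cast
        ring
      rw [e]
      linarith
  · have hp2 : p = 2 := by
      have := hp.two_le
      omega
    have hm : ¬ p ≡ 1 [MOD 4] := by
      subst hp2
      decide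
    rw [if_neg hm, if_neg h2, if_neg h2]
    linarith

/-- Proof. For odd `p ∤ d`: `[p ≡ 1 mod 4, (d/p) = -1] = (1 + ψ(p) - χ(p) - ψχ(p))/4` with `ψ(p) = (-1/p)`,
`χ(p) = (d/p)`, `ψχ(p) = (-d/p)`; for `p ∣ d` the right side is `(1 + ψ(p))/4 ≤ 1/2`, the left is `0`. Sum over
`3 < p ≤ x` of `1/p`: `∑ 1/p ≥ loglog x - C` (`mert_lo`), `∑ ψ(p)/p ≥ -ε loglog x - C` (`mertAP 4`),
`∑ χ/p, ∑ ψχ/p ≤ loglog(d+3) + C` (`chi_up` for `d`, `-d`), `∑_{p ∣ d} 1/p ≤ ∑_{p ≤ d+3} 1/p ≤ loglog(d+3) + C`. -/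
theorem b1_primes (ε : ℝ) (hε : 0 < ε) : ∃ C : ℝ, ∀ d : ℕ, 0 < d → ¬ IsSquare (d : ℤ) → ∀ x : ℕ, 3 ≤ x →
    (1 / 4 - ε) * Real.log (Real.log x) - Real.log (Real.log (d + 3)) - C ≤
      ∑ p ∈ (prs x).filter (fun p => 3 < p ∧ p % 4 = 1 ∧ jacobiSym (d : ℤ) p = -1), (1 : ℝ) / p := by
  obtain ⟨C1, h1⟩ := mertAP 4 (by norm_num) ε hε
  obtain ⟨C2, h2⟩ := chi_up
  obtain ⟨C3, h3⟩ := mert_up
  refine ⟨(C1 + C2 + C3) / 2, ?_⟩
  intro d hd hsq x hx
  have hlx : 0 < Real.log (Real.log x) := by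
    apply Real.log_pos
    rw [Real.lt_log_iff_exp_lt (by positivity)]
    have h3x : (3 : ℝ) ≤ x := by exact_mod_cast hx
    have := Real.exp_one_lt_d9
    linarith
  have hd3 : 3 ≤ d + 3 := by omega
  -- pieces
  have a1 := h1 1 (by norm_num) x hx
  have a2 := h2 (d : ℤ) (by exact_mod_cast hd.ne') hsq x hx
  have a3 := h2 (-(d : ℤ)) (by
      have : (d : ℤ) ≠ 0 := by exact_mod_cast hd.ne'
      exact neg_ne_zero.2 this) (by
      rintro ⟨y, hy⟩
      have h5 : (0 : ℤ) ≤ y * y := mul_self_nonneg y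
      have h6 : (0 : ℤ) < (d : ℤ) := by exact_mod_cast hd
      omega) x hx
  have a4 := h3 (d + 3) hd3
  have e2 : |((d : ℤ) : ℝ)| = (d : ℝ) := by
    push_cast
    exact abs_of_nonneg (Nat.cast_nonneg d)
  have e3 : |((-(d : ℤ) : ℤ) : ℝ)| = (d : ℝ) := by
    push_cast
    rw [abs_neg]
    exact abs_of_nonneg (Nat.cast_nonneg d)
  rw [e2] at a2
  rw [e3] at a3
  push_cast at a4
  have ht : ((Nat.totient 4 : ℕ) : ℝ) = 2 := by
    have : Nat.totient 4 = 2 := by decide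
    rw [this]
    norm_num
  rw [ht] at a1
  have a1' := (abs_le.1 a1).1
  have a5 : ∑ p ∈ prs x, (if p ∣ d then (1 : ℝ) / p else 0) ≤
      ∑ p ∈ prs (d + 3), (1 : ℝ) / p := by
    rw [← sum_filter]
    refine sum_le_sum_of_subset_of_nonneg ?_ (fun p _ _ => by positivity)
    intro p hp
    rw [mem_filter, mem_prs] at hp
    rw [mem_prs]
    exact ⟨hp.1.1, le_trans (Nat.le_of_dvd hd hp.2) (by omega)⟩
  have key : ∑ p ∈ prs x, ((1 / 2 : ℝ) * (if p ≡ 1 [MOD 4] then (1 : ℝ) / p else 0)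
      - (1 / 4 : ℝ) * (if 2 < p then (jacobiSym (d : ℤ) p : ℝ) / p else 0)
      - (1 / 4 : ℝ) * (if 2 < p then (jacobiSym (-(d : ℤ)) p : ℝ) / p else 0)
      - (1 / 2 : ℝ) * (if p ∣ d then (1 : ℝ) / p else 0)) ≤
      ∑ p ∈ (prs x).filter (fun p => 3 < p ∧ p % 4 = 1 ∧ jacobiSym (d : ℤ) p = -1), (1 : ℝ) / p := by
    rw [sum_filter]
    exact sum_le_sum (fun p hp => b1_pt d p (mem_prs.1 hp).1)
  rw [sum_sub_distrib, sum_sub_distrib, sum_sub_distrib, ← mul_sum, ← mul_sum, ← mul_sum, ← mul_sum,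
    ← sum_filter, ← sum_filter, ← sum_filter] at key
  refine le_trans ?_ key
  have : 0 < ε * Real.log (Real.log x) := mul_pos hε hlx
  have hh : (1 / 4 - ε) * Real.log (Real.log x) = Real.log (Real.log x) / 4 -
    ε * Real.log (Real.log x) := by ring
  linarith

/-- Proof. `hr` with `f p = 0` for `3 < p`, `p ≡ 1` mod 4, `(d/p) = -1`, `f p = 1` otherwise, and `b1_primes`. -/
theorem b1_count (ε : ℝ) (hε : 0 < ε) : ∃ C : ℝ, ∀ d : ℕ, 0 < d → ¬ IsSquare (d : ℤ) → ∀ Y : ℕ, 3 ≤ Y →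
    ∀ S : Finset ℕ, (∀ a ∈ S, a ∈ sqs Y ∧
      ∀ p : ℕ, p.Prime → 3 < p → p % 4 = 1 → p ∣ a → jacobiSym (d : ℤ) p ≠ -1) →
    (S.card : ℝ) ≤ C * Y * Real.log Y ^ (-(1 / 4 - ε)) * Real.log (d + 3) := by
  obtain ⟨C1, h1⟩ := b1_primes ε hε
  obtain ⟨C2, hC2, h2⟩ := hr
  refine ⟨C2 * Real.exp C1, ?_⟩
  intro d hd hsq Y hY S hS
  classical
  have hlogY : 0 < Real.log Y := by
    apply Real.log_pos
    have : (3 : ℝ) ≤ Y := by exact_mod_cast hY
    linarith
  have hlogd : 0 < Real.log ((d : ℝ) + 3) := by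
    apply Real.log_pos
    have : (0 : ℝ) ≤ d := Nat.cast_nonneg d
    linarith
  have hf0 : ∀ p : ℕ, (0 : ℝ) ≤
      (if 3 < p ∧ p % 4 = 1 ∧ jacobiSym (d : ℤ) p = -1 then (0 : ℝ) else 1) := by
    intro p
    split_ifs
    · exact le_rfl
    · exact zero_le_one
  have hf4 : ∀ p : ℕ,
      (if 3 < p ∧ p % 4 = 1 ∧ jacobiSym (d : ℤ) p = -1 then (0 : ℝ) else 1) ≤ 4 := by
    intro p
    split_ifs <;> norm_num
  have h3 := h2 (fun p => if 3 < p ∧ p % 4 = 1 ∧ jacobiSym (d : ℤ) p = -1 then (0 : ℝ) else 1)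
    hf0 hf4 Y (by omega)
  have h4 : (S.card : ℝ) ≤ ∑ n ∈ sqs Y,
      PF (fun p => if 3 < p ∧ p % 4 = 1 ∧ jacobiSym (d : ℤ) p = -1 then (0 : ℝ) else 1) n := by
    have e1 : (S.card : ℝ) = ∑ n ∈ S,
        PF (fun p => if 3 < p ∧ p % 4 = 1 ∧ jacobiSym (d : ℤ) p = -1 then (0 : ℝ) else 1) n := by
      rw [Finset.cast_card]
      refine sum_congr rfl (fun n hn => ?_)
      unfold PF
      symm
      refine prod_eq_one (fun p hp => ?_)
      have hp1 := Nat.prime_of_mem_primeFactors hp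
      have hp2 := Nat.dvd_of_mem_primeFactors hp
      rw [if_neg]
      rintro ⟨h5, h6, h7⟩
      exact (hS n hn).2 p hp1 h5 h6 hp2 h7
    rw [e1]
    refine sum_le_sum_of_subset_of_nonneg (fun n hn => (hS n hn).1) (fun n _ _ => ?_)
    unfold PF
    exact prod_nonneg (fun p _ => hf0 p)
  have h5 : ∑ p ∈ prs Y,
      ((if 3 < p ∧ p % 4 = 1 ∧ jacobiSym (d : ℤ) p = -1 then (0 : ℝ) else 1) - 1) / (p : ℝ) =
      - ∑ p ∈ (prs Y).filter (fun p => 3 < p ∧ p % 4 = 1 ∧ jacobiSym (d : ℤ) p = -1),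
        (1 : ℝ) / p := by
    rw [sum_filter, ← sum_neg_distrib]
    refine sum_congr rfl (fun p _ => ?_)
    split_ifs
    · ring
    · simp
  have h6 := h1 d hd hsq Y hY
  have h7 : Real.exp (∑ p ∈ prs Y,
      ((if 3 < p ∧ p % 4 = 1 ∧ jacobiSym (d : ℤ) p = -1 then (0 : ℝ) else 1) - 1) / (p : ℝ)) ≤
      Real.exp C1 * (Real.log Y ^ (-(1 / 4 - ε)) * Real.log (d + 3)) := by
    rw [h5]
    have e1 : Real.log Y ^ (-(1 / 4 - ε)) = Real.exp (Real.log (Real.log Y) * (-(1 / 4 - ε))) :=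
      Real.rpow_def_of_pos hlogY _
    have e2 : Real.log ((d : ℝ) + 3) = Real.exp (Real.log (Real.log ((d : ℝ) + 3))) :=
      (Real.exp_log hlogd).symm
    rw [e1]
    conv_rhs => rw [e2]
    rw [← Real.exp_add, ← Real.exp_add]
    apply Real.exp_le_exp.2
    linarith
  calc (S.card : ℝ) ≤ _ := h4
    _ ≤ _ := h3
    _ ≤ C2 * Y * (Real.exp C1 * (Real.log Y ^ (-(1 / 4 - ε)) * Real.log (d + 3))) := by
        refine mul_le_mul_of_nonneg_left h7 ?_
        have : (0 : ℝ) ≤ Y := Nat.cast_nonneg Y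
        positivity
    _ = _ := by ring

private theorem b1_harm (N : ℕ) : ∑ b ∈ Icc 1 N, (1 : ℝ) / b ≤ 1 + Real.log N := by
  have h := harmonic_le_one_add_log N
  rw [harmonic_eq_sum_Icc] at h
  push_cast at h
  refine le_trans (le_of_eq (sum_congr rfl (fun b _ => ?_))) h
  rw [one_div]

private theorem six_le_exp : (6 : ℝ) ≤ Real.exp 2 := by
  have h4 := Real.exp_one_gt_d9
  have h5 : Real.exp 2 = Real.exp 1 * Real.exp 1 := by
    rw [← Real.exp_add]
    norm_num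
  rw [h5]
  nlinarith

/-- Proof. `Z = exp((log X)^(2δ)) ≤ X^(1/2)` for large `X`. Sum `b1_count` (`ε = 1/16`, `d = c b`, `Y = X / b`,
`log Y ≥ (log X)/3`) over the `b ≤ Z`: `≤ C X (log X)^(-3/16) log(3Z + 3) ∑_{b ≤ Z} 1/b ≤ C X (log X)^(-3/16 + 4δ)`.
(`a` is squarefree because `m` is.) -/
theorem b1 (c : ℕ) (hc1 : 1 ≤ c) (hc3 : c ≤ 3) (δ : ℝ) (hδ : 0 < δ) (hδ2 : δ ≤ 1 / 64) :
    ∃ C : ℝ, ∀ X : ℕ, 3 ≤ X → ∀ S : Finset ℕ,
      (∀ m ∈ S, m ∈ sqs X ∧ ∃ a b : ℕ, a * b = m ∧ (b : ℝ) ≤ Real.exp (Real.log X ^ (2 * δ)) ∧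
        ¬ IsSquare (c * b) ∧ ∀ p : ℕ, p.Prime → 3 < p → p % 4 = 1 → p ∣ a →
          jacobiSym ((c * b : ℕ) : ℤ) p = 1) →
      (S.card : ℝ) ≤ C * X * Real.log X ^ (-(1 / 8 : ℝ)) := by
  obtain ⟨C0, h0⟩ := b1_count (1 / 16) (by norm_num)
  have hC1 : 0 ≤ max C0 0 := le_max_right _ _
  have hC01 : C0 ≤ max C0 0 := le_max_left _ _
  set C1 : ℝ := max C0 0 with hC1def
  refine ⟨2 + 12 * C1, ?_⟩
  intro X hX S hS
  classical
  have hX0 : (0 : ℝ) < X := by
    have : 0 < X := by omega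
    exact_mod_cast this
  have hX3 : (3 : ℝ) ≤ X := by exact_mod_cast hX
  have hL0 : 0 < Real.log X := Real.log_pos (by linarith)
  have hLexp : Real.exp (Real.log X) = X := Real.exp_log hX0
  set L : ℝ := Real.log X with hL
  have hLp : 0 < L ^ (-(1 / 8 : ℝ)) := Real.rpow_pos_of_pos hL0 _
  by_cases hbig : L < 16
  · have h1 : S.card ≤ X := by
      have : S ⊆ Icc 1 X := by
        intro m hm
        have := mem_sqs.1 (hS m hm).1
        rw [mem_Icc]
        exact ⟨this.1, this.2.1⟩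
      have h2 := card_le_card this
      rw [Nat.card_Icc] at h2
      omega
    have h2 : (S.card : ℝ) ≤ X := by exact_mod_cast h1
    have h3 : (1 / 2 : ℝ) ≤ L ^ (-(1 / 8 : ℝ)) := by
      have e1 : (256 : ℝ) ^ (-(1 / 8 : ℝ)) = 1 / 2 := by
        have : (256 : ℝ) = 2 ^ (8 : ℝ) := by
          norm_num
        rw [this, ← Real.rpow_mul (by norm_num)]
        norm_num
      rw [← e1]
      exact Real.rpow_le_rpow_of_nonpos hL0 (by linarith) (by norm_num)
    have h4 : (0 : ℝ) ≤ 12 * C1 * X * L ^ (-(1 / 8 : ℝ)) := by positivity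
    have h5 : (X : ℝ) * (1 / 2) ≤ X * L ^ (-(1 / 8 : ℝ)) := mul_le_mul_of_nonneg_left h3 hX0.le
    have h6 : (2 + 12 * C1) * X * L ^ (-(1 / 8 : ℝ)) =
      2 * (X * L ^ (-(1 / 8 : ℝ))) + 12 * C1 * X * L ^ (-(1 / 8 : ℝ)) := by ring
    linarith
  · have hL16 : 16 ≤ L := not_lt.1 hbig
    set M : ℝ := L ^ (2 * δ) with hM
    have hM1 : 1 ≤ M := Real.one_le_rpow (by linarith) (by linarith)
    have hM4 : M ≤ L / 4 := by
      have h1 : M ≤ L ^ (1 / 2 : ℝ) := Real.rpow_le_rpow_of_exponent_le (by linarith) (by linarith)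
      rw [← Real.sqrt_eq_rpow] at h1
      have h2 : 4 ≤ Real.sqrt L := by
        apply Real.le_sqrt_of_sq_le
        linarith
      have h3 : Real.sqrt L * Real.sqrt L = L := Real.mul_self_sqrt hL0.le
      nlinarith
    set N : ℕ := ⌊Real.exp M⌋₊ with hN
    have hNle : (N : ℝ) ≤ Real.exp M := Nat.floor_le (Real.exp_pos _).le
    have hN1 : 1 ≤ N := by
      rw [hN]
      apply Nat.le_floor
      push_cast
      exact Real.one_le_exp (by linarith)
    set B : Finset ℕ := (Icc 1 N).filter (fun b => ¬ IsSquare (c * b)) with hB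
    set T : ℕ → Finset ℕ := fun b => (sqs (X / b)).filter (fun a => ∀ p : ℕ, p.Prime → 3 < p →
      p % 4 = 1 → p ∣ a → jacobiSym ((c * b : ℕ) : ℤ) p = 1) with hT
    have hsub : S ⊆ B.biUnion (fun b => (T b).image (fun a => a * b)) := by
      intro m hm
      obtain ⟨hm1, a, b, hab, hb, hsq, hp⟩ := hS m hm
      obtain ⟨hm2, hm3, hm4⟩ := mem_sqs.1 hm1
      have ha0 : 0 < a := by
        rcases Nat.eq_zero_or_pos a with h | h
        · rw [h, zero_mul] at hab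
          omega
        · exact h
      have hb0 : 0 < b := by
        rcases Nat.eq_zero_or_pos b with h | h
        · rw [h, mul_zero] at hab
          omega
        · exact h
      rw [mem_biUnion]
      refine ⟨b, ?_, ?_⟩
      · rw [hB, mem_filter, mem_Icc]
        exact ⟨⟨hb0, Nat.le_floor hb⟩, hsq⟩
      · rw [mem_image]
        refine ⟨a, ?_, hab⟩
        rw [hT]
        simp only [mem_filter]
        refine ⟨mem_sqs.2 ⟨ha0, ?_, ?_⟩, hp⟩
        · rw [Nat.le_div_iff_mul_le hb0]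
          omega
        · rw [← hab] at hm4
          exact hm4.of_mul_left
    have hcard : (S.card : ℝ) ≤ ∑ b ∈ B, ((T b).card : ℝ) := by
      have h1 : S.card ≤ ∑ b ∈ B, (T b).card := by
        refine le_trans (card_le_card hsub) (le_trans card_biUnion_le ?_)
        exact sum_le_sum (fun b _ => card_image_le)
      exact_mod_cast h1
    have hpow : 0 < L ^ (-(3 / 16 : ℝ)) := Real.rpow_pos_of_pos hL0 _
    have hTb : ∀ b ∈ B, ((T b).card : ℝ) ≤
        (C1 * X * (2 * L ^ (-(3 / 16 : ℝ))) * (3 * M)) * (1 / b) := by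
      intro b hb
      rw [hB, mem_filter, mem_Icc] at hb
      obtain ⟨⟨hb1, hbN⟩, hbsq⟩ := hb
      have hb0 : (0 : ℝ) < b := by exact_mod_cast hb1
      have hb1' : (1 : ℝ) ≤ b := by exact_mod_cast hb1
      have hbM : (b : ℝ) ≤ Real.exp M := le_trans (by exact_mod_cast hbN) hNle
      have hbL : (b : ℝ) ≤ Real.exp (L / 4) := le_trans hbM (Real.exp_le_exp.2 hM4)
      have hY1 : (X : ℝ) / b - 1 ≤ ((X / b : ℕ) : ℝ) := by
        have h1 := Nat.div_add_mod X b
        have h2 := Nat.mod_lt X (show b > 0 by omega)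
        have h3 : (X : ℝ) = b * ((X / b : ℕ) : ℝ) + ((X % b : ℕ) : ℝ) := by exact_mod_cast h1.symm
        have h4 : ((X % b : ℕ) : ℝ) ≤ b := by exact_mod_cast h2.le
        rw [sub_le_iff_le_add, div_le_iff₀ hb0, add_mul, one_mul, mul_comm]
        linarith
      have hY2 : Real.exp (L / 2) ≤ ((X / b : ℕ) : ℝ) := by
        refine le_trans ?_ hY1
        have h1 : Real.exp (L / 2) * Real.exp (L / 4) ≤ (X : ℝ) / b := by
          rw [le_div_iff₀ hb0, ← Real.exp_add]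
          have h2 : Real.exp (L / 2 + L / 4) * b ≤ Real.exp (L / 2 + L / 4) * Real.exp (L / 4) :=
            mul_le_mul_of_nonneg_left hbL (Real.exp_pos _).le
          refine le_trans h2 ?_
          rw [← Real.exp_add, ← hLexp]
          apply Real.exp_le_exp.2
          linarith
        have h2 : (1 : ℝ) ≤ Real.exp (L / 2) := Real.one_le_exp (by linarith)
        have h3 : (5 : ℝ) ≤ Real.exp (L / 4) := by
          have := Real.add_one_le_exp (L / 4)
          linarith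
        have h4 : Real.exp (L / 2) * 5 ≤ Real.exp (L / 2) * Real.exp (L / 4) :=
          mul_le_mul_of_nonneg_left h3 (Real.exp_pos _).le
        linarith
      have hY8 : (9 : ℝ) ≤ ((X / b : ℕ) : ℝ) := by
        refine le_trans ?_ hY2
        have := Real.add_one_le_exp (L / 2)
        linarith
      have hY3 : 3 ≤ X / b := by
        have : 9 ≤ X / b := by exact_mod_cast hY8
        omega
      have hlogY : L / 2 ≤ Real.log ((X / b : ℕ) : ℝ) := by
        rw [Real.le_log_iff_exp_le (by linarith)]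
        exact hY2
      have hmain := h0 (c * b) (Nat.mul_pos (by omega) (by omega)) (by
        rintro ⟨y, hy⟩
        apply hbsq
        refine ⟨y.natAbs, ?_⟩
        have : ((c * b : ℕ) : ℤ) = ((y.natAbs * y.natAbs : ℕ) : ℤ) := by
          rw [hy]
          push_cast
          rw [abs_mul_abs_self]
        exact_mod_cast this) (X / b) hY3 (T b) (by
        intro a ha
        rw [hT] at ha
        simp only [mem_filter] at ha
        refine ⟨ha.1, fun p hp h3 h4 hpa => ?_⟩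
        rw [ha.2 p hp h3 h4 hpa]
        norm_num)
      have e1 : (-(1 / 4 - 1 / 16) : ℝ) = -(3 / 16 : ℝ) := by norm_num
      rw [e1] at hmain
      have hp1 : Real.log ((X / b : ℕ) : ℝ) ^ (-(3 / 16 : ℝ)) ≤ 2 * L ^ (-(3 / 16 : ℝ)) := by
        have h1 : Real.log ((X / b : ℕ) : ℝ) ^ (-(3 / 16 : ℝ)) ≤ (L / 2) ^ (-(3 / 16 : ℝ)) :=
          Real.rpow_le_rpow_of_nonpos (by linarith) hlogY (by norm_num)
        refine le_trans h1 ?_
        rw [Real.div_rpow hL0.le (by norm_num), div_le_iff₀ (Real.rpow_pos_of_pos (by norm_num) _)]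
        have h2 : (1 / 2 : ℝ) ≤ 2 ^ (-(3 / 16 : ℝ)) := by
          have h3 : (2 : ℝ) ^ (-1 : ℝ) ≤ 2 ^ (-(3 / 16 : ℝ)) :=
            Real.rpow_le_rpow_of_exponent_le (by norm_num) (by norm_num)
          rw [Real.rpow_neg_one] at h3
          linarith
        have h5 : (2 * L ^ (-(3 / 16 : ℝ))) * (1 / 2) ≤
            (2 * L ^ (-(3 / 16 : ℝ))) * 2 ^ (-(3 / 16 : ℝ)) :=
          mul_le_mul_of_nonneg_left h2 (by positivity)
        linarith
      have hp2 : Real.log (((c * b : ℕ) : ℝ) + 3) ≤ 3 * M := by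
        have h1 : ((c * b : ℕ) : ℝ) + 3 ≤ Real.exp 2 * Real.exp M := by
          have h2 : ((c * b : ℕ) : ℝ) ≤ 3 * b := by
            push_cast
            have : (c : ℝ) ≤ 3 := by exact_mod_cast hc3
            exact mul_le_mul_of_nonneg_right this hb0.le
          have h6 : (0 : ℝ) < Real.exp M := Real.exp_pos _
          have h7 : 6 * Real.exp M ≤ Real.exp 2 * Real.exp M :=
            mul_le_mul_of_nonneg_right six_le_exp h6.le
          linarith
        rw [← Real.exp_add] at h1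
        have h2 := Real.log_le_log (by positivity) h1
        rw [Real.log_exp] at h2
        linarith
      have hp2' : 0 ≤ Real.log (((c * b : ℕ) : ℝ) + 3) := by
        apply Real.log_nonneg
        have : (0 : ℝ) ≤ ((c * b : ℕ) : ℝ) := Nat.cast_nonneg _
        linarith
      have hp1' : 0 ≤ Real.log ((X / b : ℕ) : ℝ) ^ (-(3 / 16 : ℝ)) :=
        Real.rpow_nonneg (by linarith) _
      have hY4 : ((X / b : ℕ) : ℝ) ≤ X / b := Nat.cast_div_le
      have hY0 : (0 : ℝ) ≤ ((X / b : ℕ) : ℝ) := Nat.cast_nonneg _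
      calc ((T b).card : ℝ) ≤ C0 * ((X / b : ℕ) : ℝ) *
            Real.log ((X / b : ℕ) : ℝ) ^ (-(3 / 16 : ℝ)) * Real.log (((c * b : ℕ) : ℝ) + 3) := hmain
        _ ≤ C1 * ((X / b : ℕ) : ℝ) *
            Real.log ((X / b : ℕ) : ℝ) ^ (-(3 / 16 : ℝ)) * Real.log (((c * b : ℕ) : ℝ) + 3) := by
            gcongr
        _ ≤ C1 * ((X : ℝ) / b) * (2 * L ^ (-(3 / 16 : ℝ))) * (3 * M) := by
            gcongr
        _ = _ := by ring
    have hsum : ∑ b ∈ B, (1 : ℝ) / b ≤ 2 * M := by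
      have h1 : ∑ b ∈ B, (1 : ℝ) / b ≤ ∑ b ∈ Icc 1 N, (1 : ℝ) / b :=
        sum_le_sum_of_subset_of_nonneg (filter_subset _ _) (fun b _ _ => by positivity)
      have h2 := b1_harm N
      have h3 : Real.log N ≤ M := by
        have hN0 : (0 : ℝ) < N := by exact_mod_cast hN1
        have := Real.log_le_log hN0 hNle
        rwa [Real.log_exp] at this
      linarith
    have hM2 : M * M ≤ L ^ (1 / 16 : ℝ) := by
      rw [hM, ← Real.rpow_add hL0]
      exact Real.rpow_le_rpow_of_exponent_le (by linarith) (by linarith)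
    have hfin : L ^ (-(3 / 16 : ℝ)) * L ^ (1 / 16 : ℝ) = L ^ (-(1 / 8 : ℝ)) := by
      rw [← Real.rpow_add hL0]
      norm_num
    calc (S.card : ℝ) ≤ ∑ b ∈ B, ((T b).card : ℝ) := hcard
      _ ≤ ∑ b ∈ B, (C1 * X * (2 * L ^ (-(3 / 16 : ℝ))) * (3 * M)) * (1 / b) := sum_le_sum hTb
      _ = (C1 * X * (2 * L ^ (-(3 / 16 : ℝ))) * (3 * M)) * ∑ b ∈ B, (1 : ℝ) / b := by
          rw [mul_sum]
      _ ≤ (C1 * X * (2 * L ^ (-(3 / 16 : ℝ))) * (3 * M)) * (2 * M) := by
          refine mul_le_mul_of_nonneg_left hsum ?_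
          positivity
      _ = 12 * C1 * X * (L ^ (-(3 / 16 : ℝ)) * (M * M)) := by ring
      _ ≤ 12 * C1 * X * (L ^ (-(3 / 16 : ℝ)) * L ^ (1 / 16 : ℝ)) := by
          gcongr
      _ = 12 * C1 * X * L ^ (-(1 / 8 : ℝ)) := by rw [hfin]
      _ ≤ (2 + 12 * C1) * X * L ^ (-(1 / 8 : ℝ)) := by
          have : 0 ≤ X * L ^ (-(1 / 8 : ℝ)) := by positivity
          nlinarith

end Pool.Agent.Wal
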