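import Pool.Agent.Lib.MP_6498db_nt.W.RDefs

/-! WALSH, row SmRo: smooth and rough parts. -/

set_option autoImplicit false

namespace Pool.Agent.Wal

open Finset

theorem sm_mul_ro (z n : ℕ) (hn : Squarefree n) : sm z n * ro z n = n := by
  unfold sm ro
  have h1 : (n.primeFactors.filter fun p => z < p) = n.primeFactors.filter fun p => ¬ p ≤ z := by
    refine Finset.filter_congr fun p _ => ?_
    rw [not_le]
  rw [h1, Finset.prod_filter_mul_prod_filter_not]
  exact Nat.prod_primeFactors_of_squarefree hn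

theorem prime_dvd_ro (z n p : ℕ) (hp : p.Prime) (h : p ∣ ro z n) : p ∣ n ∧ z < p := by
  unfold ro at h
  obtain ⟨q, hq, hpq⟩ := (hp.prime.dvd_finsetProd_iff _).1 h
  rw [Finset.mem_filter] at hq
  have hqp := Nat.prime_of_mem_primeFactors hq.1
  have h1 : p = q := (Nat.prime_dvd_prime_iff_eq hp hqp).1 hpq
  subst h1
  exact ⟨Nat.dvd_of_mem_primeFactors hq.1, hq.2⟩

theorem ro_rough (z n : ℕ) : Rough z (ro z n) := fun p hp h => (prime_dvd_ro z n p hp h).2

/-- all primes of the smooth part are `≤ z` -/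
theorem sm_smooth (z n p : ℕ) (hp : p.Prime) (h : p ∣ sm z n) : p ≤ z := by
  unfold sm at h
  obtain ⟨q, hq, hpq⟩ := (hp.prime.dvd_finsetProd_iff _).1 h
  rw [Finset.mem_filter] at hq
  have hqp := Nat.prime_of_mem_primeFactors hq.1
  have h1 : p = q := (Nat.prime_dvd_prime_iff_eq hp hqp).1 hpq
  subst h1
  exact hq.2

theorem prime_dvd_ro_of (z n p : ℕ) (hp : p.Prime) (hn : n ≠ 0) (h : p ∣ n) (hz : z < p) : p ∣ ro z n := by
  unfold ro
  refine Finset.dvd_prod_of_mem (fun p => p) ?_
  rw [Finset.mem_filter]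
  exact ⟨Nat.mem_primeFactors.2 ⟨hp, h, hn⟩, hz⟩

theorem sm_pos (z n : ℕ) : 0 < sm z n := by
  unfold sm
  refine Finset.prod_pos fun p hp => ?_
  exact (Nat.prime_of_mem_primeFactors (Finset.mem_filter.1 hp).1).pos

theorem ro_pos (z n : ℕ) : 0 < ro z n := by
  unfold ro
  refine Finset.prod_pos fun p hp => ?_
  exact (Nat.prime_of_mem_primeFactors (Finset.mem_filter.1 hp).1).pos

/-- uniqueness: if `s` has only primes `≤ z`, `r` only primes `> z`, `s r` squarefree, these are the parts of `s r` -/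
theorem sm_ro_unique (z s r : ℕ) (h : Squarefree (s * r)) (hs : ∀ p : ℕ, p.Prime → p ∣ s → p ≤ z)
    (hr : Rough z r) : sm z (s * r) = s ∧ ro z (s * r) = r := by
  have h0 : s * r ≠ 0 := h.ne_zero
  have hs0 : s ≠ 0 := left_ne_zero_of_mul h0
  have hr0 : r ≠ 0 := right_ne_zero_of_mul h0
  have hss : Squarefree s := h.squarefree_of_dvd (Dvd.intro _ rfl)
  have hrr : Squarefree r := h.squarefree_of_dvd (Dvd.intro_left _ rfl)
  constructor
  · unfold sm
    have h1 : ((s * r).primeFactors.filter fun p => p ≤ z) = s.primeFactors := by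
      ext p
      rw [Finset.mem_filter, Nat.mem_primeFactors, Nat.mem_primeFactors]
      constructor
      · rintro ⟨⟨hp, hd, -⟩, hz⟩
        rcases (Nat.Prime.dvd_mul hp).1 hd with h2 | h2
        · exact ⟨hp, h2, hs0⟩
        · have := hr p hp h2
          omega
      · rintro ⟨hp, hd, -⟩
        exact ⟨⟨hp, Dvd.dvd.mul_right hd r, h0⟩, hs p hp hd⟩
    rw [h1]
    exact Nat.prod_primeFactors_of_squarefree hss
  · unfold ro
    have h1 : ((s * r).primeFactors.filter fun p => z < p) = r.primeFactors := by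
      ext p
      rw [Finset.mem_filter, Nat.mem_primeFactors, Nat.mem_primeFactors]
      constructor
      · rintro ⟨⟨hp, hd, -⟩, hz⟩
        rcases (Nat.Prime.dvd_mul hp).1 hd with h2 | h2
        · have := hs p hp h2
          omega
        · exact ⟨hp, h2, hr0⟩
      · rintro ⟨hp, hd, -⟩
        exact ⟨⟨hp, Dvd.dvd.mul_left hd s, h0⟩, hr p hp hd⟩
    rw [h1]
    exact Nat.prod_primeFactors_of_squarefree hrr

theorem wt_ro (P : ℕ → Prop) (z n : ℕ) : wt P z n = wt P 0 (ro z n) := by
  classical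
  unfold wt
  have h1 : (ro z n).primeFactors = n.primeFactors.filter fun p => z < p := by
    unfold ro
    exact Nat.primeFactors_prod fun p hp =>
      Nat.prime_of_mem_primeFactors (Finset.mem_filter.1 hp).1
  rw [h1, Finset.filter_filter]
  congr 1
  refine Finset.filter_congr fun p hp => ?_
  have hp0 := (Nat.prime_of_mem_primeFactors hp).pos
  constructor
  · rintro ⟨h2, h3⟩
    exact ⟨h2, hp0, h3⟩
  · rintro ⟨h2, -, h3⟩
    exact ⟨h2, h3⟩

end Pool.Agent.Wal
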