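import Pool.Agent.Lib.MP_6498db_nt.W.Rl
import Pool.Agent.Lib.MP_6498db_nt.W.SmRo

/-! WALSH, row Engine. -/

set_option autoImplicit false

namespace Pool.Agent.Wal

open Finset

private theorem en_sum {α β : Type} (S : Finset α) (T : Finset β) (e : α → β) (f : α → ℝ)
    (g : β → ℝ) (hg : ∀ t ∈ T, 0 ≤ g t) (he : ∀ a ∈ S, f a ≠ 0 → e a ∈ T ∧ f a ≤ g (e a))
    (hi : ∀ a ∈ S, ∀ a' ∈ S, f a ≠ 0 → f a' ≠ 0 → e a = e a' → a = a') :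
    ∑ a ∈ S, f a ≤ ∑ t ∈ T, g t := by
  classical
  have h1 : ∑ a ∈ S, f a = ∑ a ∈ S.filter (fun a => f a ≠ 0), f a :=
    (Finset.sum_filter_ne_zero S).symm
  rw [h1]
  have h2 : ∑ a ∈ S.filter (fun a => f a ≠ 0), f a ≤
      ∑ a ∈ S.filter (fun a => f a ≠ 0), g (e a) :=
    Finset.sum_le_sum fun a ha => (he a (mem_filter.1 ha).1 (mem_filter.1 ha).2).2
  refine h2.trans ?_
  have h3 : ∑ a ∈ S.filter (fun a => f a ≠ 0), g (e a) =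
      ∑ t ∈ (S.filter (fun a => f a ≠ 0)).image e, g t := by
    rw [Finset.sum_image]
    intro a ha a' ha' h
    exact hi a (mem_filter.1 ha).1 a' (mem_filter.1 ha').1 (mem_filter.1 ha).2
      (mem_filter.1 ha').2 h
  rw [h3]
  refine Finset.sum_le_sum_of_subset_of_nonneg ?_ fun t ht _ => hg t ht
  intro t ht
  obtain ⟨a, ha, rfl⟩ := mem_image.1 ht
  exact (he a (mem_filter.1 ha).1 (mem_filter.1 ha).2).1

private def enP (X : ℕ) : Finset (ℕ × ℕ) := (Icc 1 X ×ˢ Icc 1 X).filter fun p => p.1 * p.2 ≤ X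

private theorem mem_enP {X : ℕ} {p : ℕ × ℕ} : p ∈ enP X ↔ 1 ≤ p.1 ∧ 1 ≤ p.2 ∧ p.1 * p.2 ≤ X := by
  unfold enP
  rw [mem_filter, mem_product, mem_Icc, mem_Icc]
  constructor
  · rintro ⟨⟨⟨h1, -⟩, ⟨h2, -⟩⟩, h3⟩
    exact ⟨h1, h2, h3⟩
  · rintro ⟨h1, h2, h3⟩
    exact ⟨⟨⟨h1, (Nat.le_mul_of_pos_right _ h2).trans h3⟩, h2,
      (Nat.le_mul_of_pos_left _ h1).trans h3⟩, h3⟩

open Classical in
private theorem en_S2 (X : ℕ) (Q : ℕ → ℕ → Prop) (F : ℕ → ℕ → ℝ) :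
    S2 X Q F = ∑ p ∈ enP X, if Q p.1 p.2 then F p.1 p.2 else 0 := by
  unfold S2 enP
  rw [Finset.sum_filter, Finset.sum_product]
  refine Finset.sum_congr rfl fun a ha => ?_
  refine Eq.trans ?_ (Finset.sum_filter (fun b => a * b ≤ X)
    (fun b => if Q a b then F a b else 0))
  refine Finset.sum_congr ?_ fun _ _ => rfl
  ext b
  have ha' := (mem_Icc.1 ha).1
  rw [mem_filter, mem_Icc, mem_Icc, Nat.le_div_iff_mul_le ha', mul_comm]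
  constructor
  · rintro ⟨h1, h2⟩
    exact ⟨⟨h1, (Nat.le_mul_of_pos_left _ ha').trans h2⟩, h2⟩
  · rintro ⟨⟨h1, -⟩, h2⟩
    exact ⟨h1, h2⟩

/-- the smoothness of the fixed parts -/
private def enS (z a₀ b₀ : ℕ) : Prop := ∀ p : ℕ, p.Prime → p ∣ a₀ * b₀ → p ≤ z

open Classical in
private noncomputable def enA (z : ℕ) (VA : ℕ → ℝ) (a₀ b₀ a₁ : ℕ) : ℝ :=
  if Squarefree (a₀ * b₀ * a₁) ∧ enS z a₀ b₀ then VA (a₀ * a₁) else 0

open Classical in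
private noncomputable def enB (z : ℕ) (VB : ℕ → ℝ) (a₀ b₀ b₁ : ℕ) : ℝ :=
  if Squarefree (a₀ * b₀ * b₁) ∧ enS z a₀ b₀ then VB (b₀ * b₁) else 0

private theorem enA_bd {z : ℕ} {VA : ℕ → ℝ} (h : ∀ n, 0 ≤ VA n ∧ VA n ≤ 1) (a₀ b₀ a₁ : ℕ) :
    0 ≤ enA z VA a₀ b₀ a₁ ∧ enA z VA a₀ b₀ a₁ ≤ 1 := by
  unfold enA
  split_ifs
  · exact h _
  · exact ⟨le_rfl, zero_le_one⟩

private theorem enB_bd {z : ℕ} {VB : ℕ → ℝ} (h : ∀ n, 0 ≤ VB n ∧ VB n ≤ 1) (a₀ b₀ b₁ : ℕ) :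
    0 ≤ enB z VB a₀ b₀ b₁ ∧ enB z VB a₀ b₀ b₁ ≤ 1 := by
  unfold enB
  split_ifs
  · exact h _
  · exact ⟨le_rfl, zero_le_one⟩

/-- the decomposition -/
private theorem en_dec (D : Dat) (z X : ℕ) (VA VB : ℕ → ℝ) (hA : ∀ n, 0 ≤ VA n ∧ VA n ≤ 1)
    (hB : ∀ n, 0 ≤ VB n ∧ VB n ≤ 1) :
    S2 X (fun a b => Squarefree (a * b) ∧ ro z a ≠ 1 ∧ ro z b ≠ 1 ∧ FitsZ D z a b)
        (fun a b => VA a * VB b * 2 ^ (wt D.aC z a + wt D.bC z b)) ≤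
      ∑ p ∈ enP X, S2 (X / (p.1 * p.2)) (fun a b => RS z a b ∧ FitsR D p.1 (D.c * p.2) a b)
        (fun a b => enA z VA p.1 p.2 a * enB z VB p.1 p.2 b *
          2 ^ (wt D.aC 0 a + wt D.bC 0 b)) := by
  classical
  simp only [en_S2]
  rw [Finset.sum_sigma']
  refine en_sum _ _ (fun p => ⟨(sm z p.1, sm z p.2), (ro z p.1, ro z p.2)⟩) _ _ ?_ ?_ ?_
  · intro t _
    split_ifs
    · exact mul_nonneg (mul_nonneg (enA_bd hA _ _ _).1 (enB_bd hB _ _ _).1)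
        (pow_nonneg zero_le_two _)
    · exact le_rfl
  · rintro ⟨a, b⟩ hab hne
    dsimp only at hne ⊢
    have hQ : Squarefree (a * b) ∧ ro z a ≠ 1 ∧ ro z b ≠ 1 ∧ FitsZ D z a b := by
      by_contra h
      exact hne (if_neg h)
    rw [if_pos hQ]
    obtain ⟨hsq, hra, hrb, hF⟩ := hQ
    obtain ⟨ha, hb, hX⟩ := mem_enP.1 hab
    dsimp only at ha hb hX
    have hsa : Squarefree a := hsq.squarefree_of_dvd (dvd_mul_right a b)
    have hsb : Squarefree b := hsq.squarefree_of_dvd (dvd_mul_left b a)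
    have ea := sm_mul_ro z a hsa
    have eb := sm_mul_ro z b hsb
    have e4 : sm z a * sm z b * (ro z a * ro z b) = a * b := by
      calc sm z a * sm z b * (ro z a * ro z b) = (sm z a * ro z a) * (sm z b * ro z b) := by ring
        _ = a * b := by rw [ea, eb]
    have hroA := ro_pos z a
    have hroB := ro_pos z b
    have hsmA := sm_pos z a
    have hsmB := sm_pos z b
    have hpos : 0 < sm z a * sm z b := Nat.mul_pos hsmA hsmB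
    refine ⟨?_, ?_⟩
    · rw [mem_sigma, mem_enP, mem_enP]
      refine ⟨⟨hsmA, hsmB, ?_⟩, hroA, hroB, ?_⟩
      · dsimp only
        refine le_trans ?_ hX
        rw [← e4]
        exact Nat.le_mul_of_pos_right _ (Nat.mul_pos hroA hroB)
      · dsimp only
        rw [Nat.le_div_iff_mul_le hpos, mul_comm, e4]
        exact hX
    · have hRS : RS z (ro z a) (ro z b) := by
        refine ⟨hsq.squarefree_of_dvd (mul_dvd_mul ?_ ?_), ro_rough z a, ro_rough z b,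
          lt_of_le_of_ne hroA (Ne.symm hra), lt_of_le_of_ne hroB (Ne.symm hrb)⟩
        · exact ⟨sm z a, by rw [mul_comm, ea]⟩
        · exact ⟨sm z b, by rw [mul_comm, eb]⟩
      have hFR : FitsR D (sm z a) (D.c * sm z b) (ro z a) (ro z b) := by
        constructor
        · intro p hp hpa hC
          obtain ⟨h2, h3⟩ := prime_dvd_ro z a p hp hpa
          rw [mul_assoc, eb]
          exact hF.ca p hp h3 h2 hC
        · intro q hq hqb hC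
          obtain ⟨h2, h3⟩ := prime_dvd_ro z b q hq hqb
          rw [ea]
          exact hF.cb q hq h3 h2 hC
      have hS : enS z (sm z a) (sm z b) := by
        intro p hp hd
        rcases (Nat.Prime.dvd_mul hp).1 hd with h | h
        · exact sm_smooth z a p hp h
        · exact sm_smooth z b p hp h
      have hqa : Squarefree (sm z a * sm z b * ro z a) := by
        refine hsq.squarefree_of_dvd ⟨ro z b, ?_⟩
        rw [← e4]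
        ring
      have hqb : Squarefree (sm z a * sm z b * ro z b) := by
        refine hsq.squarefree_of_dvd ⟨ro z a, ?_⟩
        rw [← e4]
        ring
      rw [if_pos ⟨hRS, hFR⟩, enA, enB, if_pos ⟨hqa, hS⟩, if_pos ⟨hqb, hS⟩, ea, eb, wt_ro D.aC z a,
        wt_ro D.bC z b]
  · rintro ⟨a, b⟩ _ ⟨a', b'⟩ _ hne hne' h
    dsimp only at hne hne'
    have hQ : Squarefree (a * b) := by
      by_contra h
      exact hne (if_neg fun h' => h h'.1)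
    have hQ' : Squarefree (a' * b') := by
      by_contra h
      exact hne' (if_neg fun h' => h h'.1)
    have h1 := congrArg (fun t : (Σ _ : ℕ × ℕ, ℕ × ℕ) => t.1) h
    have h2 := congrArg (fun t : (Σ _ : ℕ × ℕ, ℕ × ℕ) => t.2) h
    obtain ⟨e1, e2⟩ := Prod.mk.inj h1
    obtain ⟨e3, e4⟩ := Prod.mk.inj h2
    refine Prod.ext ?_ ?_
    · change a = a'
      rw [← sm_mul_ro z a (hQ.squarefree_of_dvd (dvd_mul_right a b)),
        ← sm_mul_ro z a' (hQ'.squarefree_of_dvd (dvd_mul_right a' b')), e1, e3]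
    · change b = b'
      rw [← sm_mul_ro z b (hQ.squarefree_of_dvd (dvd_mul_left b a)),
        ← sm_mul_ro z b' (hQ'.squarefree_of_dvd (dvd_mul_left b' a')), e2, e4]

/-- the main terms -/
private theorem en_main (z X : ℕ) (VA VB : ℕ → ℝ) (hA : ∀ n, 0 ≤ VA n ∧ VA n ≤ 1)
    (hB : ∀ n, 0 ≤ VB n ∧ VB n ≤ 1) :
    ∑ p ∈ enP X, S2 (2 * (X / (p.1 * p.2))) (fun a b => RS z a b)
        (fun a b => enA z VA p.1 p.2 a * enB z VB p.1 p.2 b) ≤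
      S2 (2 * X) (fun a b => Squarefree (a * b)) (fun a b => VA a * VB b) := by
  classical
  rw [en_S2]
  have h1 : ∀ p ∈ enP X, S2 (2 * (X / (p.1 * p.2))) (fun a b => RS z a b)
      (fun a b => enA z VA p.1 p.2 a * enB z VB p.1 p.2 b) =
      ∑ q ∈ enP (2 * (X / (p.1 * p.2))), if RS z q.1 q.2 then
        enA z VA p.1 p.2 q.1 * enB z VB p.1 p.2 q.2 else 0 := fun p _ => en_S2 _ _ _
  rw [Finset.sum_congr rfl h1, Finset.sum_sigma']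
  have key : ∀ a₀ b₀ a₁ b₁ : ℕ, (if RS z a₁ b₁ then enA z VA a₀ b₀ a₁ * enB z VB a₀ b₀ b₁ else
      (0 : ℝ)) ≠ 0 → RS z a₁ b₁ ∧ Squarefree (a₀ * b₀ * a₁) ∧ Squarefree (a₀ * b₀ * b₁) ∧
      enS z a₀ b₀ ∧ (if RS z a₁ b₁ then enA z VA a₀ b₀ a₁ * enB z VB a₀ b₀ b₁ else (0 : ℝ)) =
        VA (a₀ * a₁) * VB (b₀ * b₁) := by
    intro a₀ b₀ a₁ b₁ h
    have h2 : RS z a₁ b₁ := by
      by_contra h'
      exact h (if_neg h')
    rw [if_pos h2] at h ⊢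
    have h3 : Squarefree (a₀ * b₀ * a₁) ∧ enS z a₀ b₀ := by
      by_contra h'
      exact left_ne_zero_of_mul h (if_neg h')
    have h4 : Squarefree (a₀ * b₀ * b₁) ∧ enS z a₀ b₀ := by
      by_contra h'
      exact right_ne_zero_of_mul h (if_neg h')
    exact ⟨h2, h3.1, h4.1, h3.2, by rw [enA, enB, if_pos h3, if_pos h4]⟩
  refine en_sum _ _ (fun t : (Σ _ : ℕ × ℕ, ℕ × ℕ) => (t.1.1 * t.2.1, t.1.2 * t.2.2)) _ _ ?_ ?_ ?_
  · intro t _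
    split_ifs
    · exact mul_nonneg (hA _).1 (hB _).1
    · exact le_rfl
  · rintro ⟨⟨a₀, b₀⟩, ⟨a₁, b₁⟩⟩ ht hne
    dsimp only at hne ⊢
    obtain ⟨hRS, h2, h3, h4, h5⟩ := key _ _ _ _ hne
    rw [mem_sigma, mem_enP, mem_enP] at ht
    obtain ⟨⟨ha₀, hb₀, hX⟩, ha₁, hb₁, hX'⟩ := ht
    dsimp only at ha₀ hb₀ hX ha₁ hb₁ hX'
    have e : a₀ * a₁ * (b₀ * b₁) = a₀ * b₀ * (a₁ * b₁) := by ring
    refine ⟨?_, ?_⟩
    · rw [mem_enP]
      refine ⟨Nat.mul_pos ha₀ ha₁, Nat.mul_pos hb₀ hb₁, ?_⟩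
      dsimp only
      rw [e]
      calc a₀ * b₀ * (a₁ * b₁) ≤ a₀ * b₀ * (2 * (X / (a₀ * b₀))) := Nat.mul_le_mul_left _ hX'
        _ = 2 * (a₀ * b₀ * (X / (a₀ * b₀))) := by ring
        _ ≤ 2 * X := Nat.mul_le_mul_left _ (Nat.mul_div_le _ _)
    · have hsq : Squarefree (a₀ * a₁ * (b₀ * b₁)) := by
        rw [e]
        have c1 : Nat.Coprime (a₀ * b₀) a₁ := Nat.coprime_of_squarefree_mul h2
        have c2 : Nat.Coprime (a₀ * b₀) b₁ := Nat.coprime_of_squarefree_mul h3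
        exact (Nat.squarefree_mul (Nat.Coprime.mul_right c1 c2)).2
          ⟨h2.squarefree_of_dvd (dvd_mul_right _ _), hRS.1⟩
      rw [h5, if_pos hsq]
  · rintro ⟨⟨a₀, b₀⟩, ⟨a₁, b₁⟩⟩ _ ⟨⟨a₀', b₀'⟩, ⟨a₁', b₁'⟩⟩ _ hne hne' h
    obtain ⟨hRS, h2, h3, h4, -⟩ := key _ _ _ _ hne
    obtain ⟨hRS', h2', h3', h4', -⟩ := key _ _ _ _ hne'
    obtain ⟨ea, eb⟩ := Prod.mk.inj h
    have uA : sm z (a₀ * a₁) = a₀ ∧ ro z (a₀ * a₁) = a₁ :=
      sm_ro_unique z a₀ a₁ (h2.squarefree_of_dvd ⟨b₀, by ring⟩)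
        (fun p hp hd => h4 p hp (hd.mul_right _)) hRS.2.1
    have uB : sm z (b₀ * b₁) = b₀ ∧ ro z (b₀ * b₁) = b₁ :=
      sm_ro_unique z b₀ b₁ (h3.squarefree_of_dvd ⟨a₀, by ring⟩)
        (fun p hp hd => h4 p hp (hd.mul_left _)) hRS.2.2.1
    have uA' : sm z (a₀' * a₁') = a₀' ∧ ro z (a₀' * a₁') = a₁' :=
      sm_ro_unique z a₀' a₁' (h2'.squarefree_of_dvd ⟨b₀', by ring⟩)
        (fun p hp hd => h4' p hp (hd.mul_right _)) hRS'.2.1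
    have uB' : sm z (b₀' * b₁') = b₀' ∧ ro z (b₀' * b₁') = b₁' :=
      sm_ro_unique z b₀' b₁' (h3'.squarefree_of_dvd ⟨a₀', by ring⟩)
        (fun p hp hd => h4' p hp (hd.mul_left _)) hRS'.2.2.1
    rw [ea] at uA
    rw [eb] at uB
    obtain rfl : a₀ = a₀' := uA.1.symm.trans uA'.1
    obtain rfl : a₁ = a₁' := uA.2.symm.trans uA'.2
    obtain rfl : b₀ = b₀' := uB.1.symm.trans uB'.1
    obtain rfl : b₁ = b₁' := uB.2.symm.trans uB'.2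
    rfl

/-- the errors -/
private theorem en_err (X : ℕ) (hX : 1 ≤ X) :
    ∑ p ∈ enP X, ((X / (p.1 * p.2) : ℕ) : ℝ) *
        (1 + Real.log ((X / (p.1 * p.2) : ℕ) : ℝ)) ^ 5 ≤ X * (1 + Real.log X) ^ 7 := by
  have hX0 : (0 : ℝ) ≤ X := Nat.cast_nonneg X
  have hl : 0 ≤ Real.log X := Real.log_natCast_nonneg X
  have hH : ∑ n ∈ Icc 1 X, ((n : ℝ))⁻¹ ≤ 1 + Real.log X := by
    have h := harmonic_le_one_add_log X
    rw [harmonic_eq_sum_Icc] at h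
    push_cast at h
    exact h
  have h1 : ∀ p ∈ enP X, ((X / (p.1 * p.2) : ℕ) : ℝ) *
      (1 + Real.log ((X / (p.1 * p.2) : ℕ) : ℝ)) ^ 5 ≤
      X * (1 + Real.log X) ^ 5 * ((p.1 : ℝ)⁻¹ * (p.2 : ℝ)⁻¹) := by
    intro p hp
    obtain ⟨h1, h2, h3⟩ := mem_enP.1 hp
    have hpos : 0 < p.1 * p.2 := Nat.mul_pos h1 h2
    have h4 : 1 ≤ X / (p.1 * p.2) := (Nat.one_le_div_iff hpos).2 h3
    have h5 : ((X / (p.1 * p.2) : ℕ) : ℝ) ≤ X * ((p.1 : ℝ)⁻¹ * (p.2 : ℝ)⁻¹) := by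
      refine (Nat.cast_div_le).trans ?_
      push_cast
      rw [div_eq_mul_inv, mul_inv]
    have h6 : Real.log ((X / (p.1 * p.2) : ℕ) : ℝ) ≤ Real.log X := by
      refine Real.log_le_log (by exact_mod_cast h4) ?_
      exact_mod_cast Nat.div_le_self X (p.1 * p.2)
    have h7 : 0 ≤ Real.log ((X / (p.1 * p.2) : ℕ) : ℝ) := Real.log_natCast_nonneg _
    have h8 : (1 + Real.log ((X / (p.1 * p.2) : ℕ) : ℝ)) ^ 5 ≤ (1 + Real.log X) ^ 5 :=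
      pow_le_pow_left₀ (by linarith) (by linarith) 5
    calc ((X / (p.1 * p.2) : ℕ) : ℝ) * (1 + Real.log ((X / (p.1 * p.2) : ℕ) : ℝ)) ^ 5 ≤
        (X * ((p.1 : ℝ)⁻¹ * (p.2 : ℝ)⁻¹)) * (1 + Real.log X) ^ 5 :=
          mul_le_mul h5 h8 (pow_nonneg (by linarith) 5) (by positivity)
      _ = X * (1 + Real.log X) ^ 5 * ((p.1 : ℝ)⁻¹ * (p.2 : ℝ)⁻¹) := by ring
  refine (Finset.sum_le_sum h1).trans ?_
  rw [← Finset.mul_sum]
  have h2 : ∑ p ∈ enP X, ((p.1 : ℝ)⁻¹ * (p.2 : ℝ)⁻¹) ≤ (1 + Real.log X) ^ 2 := by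
    calc ∑ p ∈ enP X, ((p.1 : ℝ)⁻¹ * (p.2 : ℝ)⁻¹) ≤
        ∑ p ∈ Icc 1 X ×ˢ Icc 1 X, ((p.1 : ℝ)⁻¹ * (p.2 : ℝ)⁻¹) :=
          Finset.sum_le_sum_of_subset_of_nonneg (Finset.filter_subset _ _)
            fun p _ _ => by positivity
      _ = (∑ n ∈ Icc 1 X, ((n : ℝ))⁻¹) * ∑ n ∈ Icc 1 X, ((n : ℝ))⁻¹ := by
          rw [Finset.sum_product, Finset.sum_mul_sum]
      _ ≤ (1 + Real.log X) * (1 + Real.log X) :=
          mul_le_mul hH hH (Finset.sum_nonneg fun n _ => by positivity) (by linarith)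
      _ = (1 + Real.log X) ^ 2 := by ring
  calc X * (1 + Real.log X) ^ 5 * ∑ p ∈ enP X, ((p.1 : ℝ)⁻¹ * (p.2 : ℝ)⁻¹) ≤
      X * (1 + Real.log X) ^ 5 * (1 + Real.log X) ^ 2 :=
        mul_le_mul_of_nonneg_left h2 (mul_nonneg hX0 (pow_nonneg (by linarith) 5))
    _ = X * (1 + Real.log X) ^ 7 := by ring

/-- THE ENGINE. Proof. Write `a = a₀ a₁`, `b = b₀ b₁` (`sm`, `ro`). For fixed `a₀, b₀` (with `a₀ b₀ ≤ X`) apply
`rough_engine` with `X' = X / (a₀ b₀)`, `A0 = a₀`, `B0 = D.c * b₀`, `VA' a₁ = VA (a₀ a₁)`, `VB' b₁ = VB (b₀ b₁)`: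
`FitsZ D z a b` gives `FitsR D a₀ (D.c b₀) a₁ b₁`, `a₁, b₁ > 1`, `RS z a₁ b₁`, `wt P z a = wt P 0 a₁`. The main terms
`2 ∑_{a₀,b₀} ∑_{a₁ b₁ ≤ 2 X'} [..] VA (a₀ a₁) VB (b₀ b₁)` are at most the full main sum (only `a₀, b₀` with
`a₀ a₁ b₀ b₁` squarefree matter: restrict `VA'` and `VB'` to `a₁` prime to `a₀ b₀`, `b₁` prime to `a₀ b₀`, i.e. put
`VA' a₁ = VA (a₀ a₁)` if `Squarefree (a₀ b₀ a₁)` and all primes of `a₀` are `≤ z`, `0` otherwise; same for `VB'`; the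
decomposition of `a` is unique, `sm_ro_unique`; `a₀ a₁ b₀ b₁ ≤ a₀ b₀ · 2 X' ≤ 2 X`). Errors:
`∑_{a₀, b₀ ≤ X} C (X/(a₀ b₀)) z^(-1/6) (1 + log X)^5 ≤ C X z^(-1/6) (1 + log X)^7`. -/
theorem engine : ∃ C : ℝ, 0 < C ∧ ∀ (D : Dat), (∀ p, D.s p = 1 ∨ D.s p = -1) →
    (∀ p, D.t p = 1 ∨ D.t p = -1) → ∀ (z X : ℕ), 2 ≤ z → 1 ≤ X →
    ∀ VA VB : ℕ → ℝ, (∀ n, 0 ≤ VA n ∧ VA n ≤ 1) → (∀ n, 0 ≤ VB n ∧ VB n ≤ 1) →
    S2 X (fun a b => Squarefree (a * b) ∧ ro z a ≠ 1 ∧ ro z b ≠ 1 ∧ FitsZ D z a b)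
        (fun a b => VA a * VB b * 2 ^ (wt D.aC z a + wt D.bC z b)) ≤
      2 * S2 (2 * X) (fun a b => Squarefree (a * b)) (fun a b => VA a * VB b) +
        C * X * (z : ℝ) ^ (-(1 / 6 : ℝ)) * (1 + Real.log X) ^ 7 := by
  obtain ⟨C, hC, hR⟩ := rough_engine
  refine ⟨C, hC, fun D hs ht z X hz hX VA VB hA hB => ?_⟩
  refine (en_dec D z X VA VB hA hB).trans ?_
  have h1 : ∀ p ∈ enP X, S2 (X / (p.1 * p.2))
      (fun a b => RS z a b ∧ FitsR D p.1 (D.c * p.2) a b)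
      (fun a b => enA z VA p.1 p.2 a * enB z VB p.1 p.2 b * 2 ^ (wt D.aC 0 a + wt D.bC 0 b)) ≤
      2 * S2 (2 * (X / (p.1 * p.2))) (fun a b => RS z a b)
        (fun a b => enA z VA p.1 p.2 a * enB z VB p.1 p.2 b) +
      C * (z : ℝ) ^ (-(1 / 6 : ℝ)) * (((X / (p.1 * p.2) : ℕ) : ℝ) *
        (1 + Real.log ((X / (p.1 * p.2) : ℕ) : ℝ)) ^ 5) := by
    intro p hp
    obtain ⟨h1, h2, h3⟩ := mem_enP.1 hp
    have h4 : 1 ≤ X / (p.1 * p.2) := (Nat.one_le_div_iff (Nat.mul_pos h1 h2)).2 h3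
    refine (hR D hs ht z (X / (p.1 * p.2)) p.1 (D.c * p.2) hz h4 (enA z VA p.1 p.2)
      (enB z VB p.1 p.2) (enA_bd hA _ _) (enB_bd hB _ _)).trans (le_of_eq ?_)
    ring
  refine (Finset.sum_le_sum h1).trans ?_
  rw [Finset.sum_add_distrib, ← Finset.mul_sum, ← Finset.mul_sum]
  refine add_le_add (mul_le_mul_of_nonneg_left (en_main z X VA VB hA hB) zero_le_two) ?_
  have h2 : 0 ≤ C * (z : ℝ) ^ (-(1 / 6 : ℝ)) :=
    mul_nonneg hC.le (Real.rpow_nonneg (Nat.cast_nonneg z) _)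
  refine (mul_le_mul_of_nonneg_left (en_err X hX) h2).trans (le_of_eq ?_)
  ring

end Pool.Agent.Wal
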