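import Pool.Agent.Lib.MP_6498db_nt.W.Defs
import Pool.Agent.Lib.MP_695920_nt.Analytic
import Pool.Agent.Lib.MP_695920_nt.Mertens
import Pool.Agent.Lib.MP_629a14_nt.Rob.PiAP

/-! WALSH, row Mert: Mertens' estimates, also in progressions.
Look at `Lib/MP_695920_nt/Analytic.lean` (`sum_inv_primes_le`, `mert_le`), `Lib/MP_695920_nt/Mertens.lean` (`mert_ge`),
`Lib/MP_629a14_nt/Rob/PiAP.lean` (`pi_ap`, `theta_ap`) and grep for an existing lower bound of `∑ 1/p`. -/

set_option autoImplicit false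

namespace Pool.Agent.Wal

open Finset

namespace MertAux

theorem prs_eq (x : ℕ) : prs x = (Icc 0 x).filter Nat.Prime := by
  ext p
  rw [mem_prs, mem_filter, mem_Icc]
  exact ⟨fun h => ⟨⟨Nat.zero_le _, h.2⟩, h.1⟩, fun h => ⟨h.2, h.1.2⟩⟩

theorem sum_prs_succ (x : ℕ) (f : ℕ → ℝ) :
    ∑ p ∈ prs (x + 1), f p = ∑ p ∈ prs x, f p + if (x + 1).Prime then f (x + 1) else 0 := by
  unfold prs
  rw [sum_filter, sum_filter, Finset.sum_Icc_succ_top (by omega)]

theorem log_ge (x : ℕ) (hx : 3 ≤ x) : 1 ≤ Real.log x := by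
  have h3 : (3 : ℝ) ≤ x := by exact_mod_cast hx
  rw [Real.le_log_iff_exp_le (by linarith)]
  have := Real.exp_one_lt_d9
  linarith

/-- the step of the logarithm -/
theorem dlog (x : ℕ) (hx : 3 ≤ x) : 1 / ((x : ℝ) + 1) ≤ Real.log ((x : ℝ) + 1) - Real.log x ∧
    Real.log ((x : ℝ) + 1) - Real.log x ≤ 1 / (x : ℝ) := by
  have h3 : (3 : ℝ) ≤ x := by exact_mod_cast hx
  have h0 : (0 : ℝ) < x := by linarith
  rw [← Real.log_div (by positivity) (by positivity)]
  constructor
  · have h2 := Real.one_sub_inv_le_log_of_pos (x := ((x : ℝ) + 1) / x) (by positivity)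
    refine le_trans (le_of_eq ?_) h2
    field_simp
    ring
  · have h2 := Real.log_le_sub_one_of_pos (x := ((x : ℝ) + 1) / x) (by positivity)
    refine h2.trans (le_of_eq ?_)
    field_simp
    ring

/-- the step of the iterated logarithm -/
theorem dloglog (x : ℕ) (hx : 3 ≤ x) :
    (Real.log ((x : ℝ) + 1) - Real.log x) / Real.log ((x : ℝ) + 1) ≤
      Real.log (Real.log ((x : ℝ) + 1)) - Real.log (Real.log x) ∧
    Real.log (Real.log ((x : ℝ) + 1)) - Real.log (Real.log x) ≤
      (Real.log ((x : ℝ) + 1) - Real.log x) / Real.log x := by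
  have h1 := log_ge x hx
  have h2 := dlog x hx
  have h0 : (0 : ℝ) < x := by
    have h3 : (3 : ℝ) ≤ x := by exact_mod_cast hx
    linarith
  have h3 : 0 < 1 / ((x : ℝ) + 1) := by positivity
  have h4 : 1 ≤ Real.log ((x : ℝ) + 1) := by linarith
  have hL0 : Real.log (x : ℝ) ≠ 0 := by linarith
  have hL1 : Real.log ((x : ℝ) + 1) ≠ 0 := by linarith
  have h6 := Real.log_div hL1 hL0
  constructor
  · have h5 := Real.one_sub_inv_le_log_of_pos (x := Real.log ((x : ℝ) + 1) / Real.log x)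
      (by positivity)
    rw [h6] at h5
    refine le_trans (le_of_eq ?_) h5
    rw [inv_div, sub_div, div_self hL1]
  · have h5 := Real.log_le_sub_one_of_pos (x := Real.log ((x : ℝ) + 1) / Real.log x)
      (by positivity)
    rw [h6] at h5
    refine h5.trans (le_of_eq ?_)
    rw [sub_div, div_self hL0]

/-- partial summation -/
theorem step_inv (a n : ℝ) (hn : 0 < n) (i : ℝ) :
    (i / (n + 1) - (a + i) / (n + 1)) + a / n = a / (n * (n + 1)) := by
  field_simp
  ring

theorem step_est (f : ℝ) (x : ℕ) (hx : 3 ≤ x) (c e : ℝ) (hc : 0 ≤ c)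
    (he : |f * Real.log x / (x : ℝ) - c| ≤ e) :
    |f / ((x : ℝ) * (x + 1)) - c * (Real.log (Real.log ((x : ℝ) + 1)) - Real.log (Real.log x))| ≤
      e * (Real.log (Real.log ((x : ℝ) + 1)) - Real.log (Real.log x)) +
        (e + c) * (1 / (x : ℝ) - 1 / ((x : ℝ) + 1)) := by
  have h1 := log_ge x hx
  obtain ⟨h2, h2'⟩ := dlog x hx
  obtain ⟨h3, h3'⟩ := dloglog x hx
  have h0 : (0 : ℝ) < x := by
    have h3 : (3 : ℝ) ≤ x := by exact_mod_cast hx
    linarith
  have h4 : 0 < 1 / ((x : ℝ) + 1) := by positivity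
  have h5 : 1 ≤ Real.log ((x : ℝ) + 1) := by linarith
  obtain ⟨L, hL⟩ : ∃ L, L = Real.log (x : ℝ) := ⟨_, rfl⟩
  obtain ⟨L', hL'⟩ : ∃ L', L' = Real.log ((x : ℝ) + 1) := ⟨_, rfl⟩
  obtain ⟨g, hg⟩ : ∃ g, g = Real.log (Real.log ((x : ℝ) + 1)) - Real.log (Real.log x) := ⟨_, rfl⟩
  obtain ⟨n, hn⟩ : ∃ n : ℝ, n = (x : ℝ) := ⟨_, rfl⟩
  rw [← hg] at h3 h3' ⊢
  rw [← hL, ← hL'] at h2 h2' h3 h3'
  rw [← hL] at h1 he
  rw [← hL'] at h5
  rw [← hn] at h0 h2 h2' he ⊢
  obtain ⟨w, hw⟩ : ∃ w, w = 1 / ((n + 1) * L) := ⟨_, rfl⟩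
  have hL0 : 0 < L := by linarith
  have hL0' : 0 < L' := by linarith
  have hd : 1 / n - 1 / (n + 1) = 1 / (n * (n + 1)) := by
    field_simp
    ring
  have hw0 : 0 ≤ w := by rw [hw]; positivity
  have hup : g ≤ w + (1 / n - 1 / (n + 1)) := by
    have e1 : (L' - L) / L ≤ (1 / n) / L := div_le_div_of_nonneg_right h2' hL0.le
    have e2 : (1 / n) / L = w + 1 / (n * (n + 1) * L) := by
      rw [hw]
      field_simp
    have e3 : 1 / (n * (n + 1) * L) ≤ 1 / (n * (n + 1)) := by
      apply one_div_le_one_div_of_le (by positivity)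
      nlinarith [mul_pos h0 (show (0 : ℝ) < n + 1 by linarith)]
    rw [hd]
    linarith
  have hlo : w - (1 / n - 1 / (n + 1)) ≤ g := by
    have e1 : (1 / (n + 1)) / L' ≤ (L' - L) / L' := div_le_div_of_nonneg_right h2 hL0'.le
    have e2 : w - (1 / (n + 1)) / L' = (L' - L) / ((n + 1) * L * L') := by
      rw [hw]
      field_simp
    have e3 : (L' - L) / ((n + 1) * L * L') ≤ (1 / n) / (n + 1) := by
      have e4 : (L' - L) / ((n + 1) * L * L') ≤ (1 / n) / ((n + 1) * L * L') :=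
        div_le_div_of_nonneg_right h2' (by positivity)
      refine e4.trans ?_
      apply div_le_div_of_nonneg_left (by positivity) (by positivity)
      have e5 : 1 ≤ L * L' := by nlinarith
      nlinarith [mul_le_mul_of_nonneg_left e5 (show (0 : ℝ) ≤ n + 1 by linarith)]
    have e4 : (1 / n) / (n + 1) = 1 / (n * (n + 1)) := by
      field_simp
    rw [hd]
    linarith
  obtain ⟨D, hD⟩ : ∃ D, D = 1 / n - 1 / (n + 1) := ⟨_, rfl⟩
  rw [← hD] at hup hlo ⊢
  have hfu : f / (n * (n + 1)) = (f * L / n) * w := by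
    rw [hw]
    field_simp
  rw [hfu]
  obtain ⟨u, hu⟩ : ∃ u, u = f * L / n := ⟨_, rfl⟩
  rw [← hu] at he ⊢
  have he0 : 0 ≤ e := (abs_nonneg _).trans he
  have h6 : u * w - c * g = (u - c) * w + c * (w - g) := by ring
  rw [h6]
  have h7 : |w - g| ≤ D := by
    rw [abs_le]
    constructor <;> linarith
  calc |(u - c) * w + c * (w - g)| ≤ |(u - c) * w| + |c * (w - g)| := abs_add_le _ _
    _ = |u - c| * w + c * |w - g| := by rw [abs_mul, abs_mul, abs_of_nonneg hw0, abs_of_nonneg hc]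
    _ ≤ e * w + c * D := add_le_add (mul_le_mul_of_nonneg_right he hw0)
        (mul_le_mul_of_nonneg_left h7 hc)
    _ ≤ e * (g + D) + c * D := by
        have := mul_le_mul_of_nonneg_left (show w ≤ g + D by linarith) he0
        linarith
    _ = e * g + (e + c) * D := by ring

theorem sum_filter_le (P : ℕ → Prop) [DecidablePred P] (x : ℕ) :
    0 ≤ ∑ p ∈ (prs x).filter P, (1 : ℝ) / p ∧ ∑ p ∈ (prs x).filter P, (1 : ℝ) / p ≤ x := by
  constructor
  · exact Finset.sum_nonneg fun p _ => by positivity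
  · calc ∑ p ∈ (prs x).filter P, (1 : ℝ) / p ≤ ∑ p ∈ (prs x).filter P, (1 : ℝ) := by
          refine Finset.sum_le_sum fun p hp => ?_
          have h1 := (mem_prs.1 (Finset.mem_filter.1 hp).1).1.one_le
          have h2 : (1 : ℝ) ≤ p := by exact_mod_cast h1
          rw [div_le_one (by linarith)]
          exact h2
      _ = (((prs x).filter P).card : ℝ) := by simp
      _ ≤ x := by
          have h1 : ((prs x).filter P).card ≤ x := by
            calc ((prs x).filter P).card ≤ (Icc 1 x).card :=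
                  Finset.card_le_card ((Finset.filter_subset _ _).trans (Finset.filter_subset _ _))
              _ = x := by simp
          exact_mod_cast h1

/-- one class -/
theorem one_class (q : ℕ) (hq : 1 ≤ q) (ε : ℝ) (hε : 0 < ε) (r : ℕ) (hr : r.Coprime q) :
    ∃ C : ℝ, 0 ≤ C ∧ ∀ x : ℕ, 3 ≤ x →
    |∑ p ∈ (prs x).filter (fun p => p ≡ r [MOD q]), (1 : ℝ) / p -
      Real.log (Real.log x) / q.totient| ≤ ε * Real.log (Real.log x) + C := by
  classical
  obtain ⟨c, hc⟩ : ∃ c : ℝ, c = 1 / (q.totient : ℝ) := ⟨_, rfl⟩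
  have hc0 : 0 ≤ c := by rw [hc]; positivity
  obtain ⟨f, hf⟩ : ∃ f : ℕ → ℝ, ∀ x, f x =
      (((Icc 1 x).filter (fun n => n.Prime ∧ n ≡ r [MOD q])).card : ℝ) := ⟨_, fun _ => rfl⟩
  obtain ⟨s, hs⟩ : ∃ s : ℕ → ℝ, ∀ x, s x =
      ∑ p ∈ (prs x).filter (fun p => p ≡ r [MOD q]), (1 : ℝ) / p := ⟨_, fun _ => rfl⟩
  have hlim := Pool.Agent.Lib.MP_629a14_nt.Rob.pi_ap q r hq hr
  rw [← hc] at hlim
  have hev := Metric.tendsto_nhds.1 hlim ε hε
  simp only [Real.dist_eq, ← hf] at hev
  obtain ⟨N, hN⟩ := Filter.eventually_atTop.1 hev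
  have hfs : ∀ x, f (x + 1) = f x + if (x + 1).Prime ∧ (x + 1) ≡ r [MOD q] then 1 else 0 := by
    intro x
    rw [hf, hf, Finset.card_filter, Finset.card_filter, Finset.sum_Icc_succ_top (by omega)]
    push_cast
    rfl
  have hss : ∀ x, s (x + 1) = s x +
      (if (x + 1).Prime ∧ (x + 1) ≡ r [MOD q] then 1 else 0) / ((x : ℝ) + 1) := by
    intro x
    rw [hs, hs, Finset.sum_filter, Finset.sum_filter, sum_prs_succ]
    congr 1
    by_cases h1 : (x + 1).Prime
    · by_cases h2 : (x + 1) ≡ r [MOD q]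
      · rw [if_pos h1, if_pos h2, if_pos ⟨h1, h2⟩]
        push_cast
        rfl
      · rw [if_pos h1, if_neg h2, if_neg (fun h => h2 h.2), zero_div]
    · rw [if_neg h1, if_neg (fun h => h1 h.1), zero_div]
  obtain ⟨m, hm3, hmN⟩ : ∃ m, 3 ≤ m ∧ N ≤ m := ⟨max 3 N, le_max_left _ _, le_max_right _ _⟩
  have hf0 : ∀ x, 0 ≤ f x := fun x => by rw [hf]; positivity
  have hfx : ∀ x, f x ≤ x := by
    intro x
    rw [hf]
    have h1 := Finset.card_filter_le (Icc 1 x) (fun n => n.Prime ∧ n ≡ r [MOD q])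
    rw [Nat.card_Icc, Nat.add_sub_cancel] at h1
    exact_mod_cast h1
  obtain ⟨K, hK⟩ : ∃ K : ℝ, K = |s m - f m / m - c * Real.log (Real.log m)| := ⟨_, rfl⟩
  have hK0 : 0 ≤ K := by rw [hK]; positivity
  have hmain : ∀ x, m ≤ x → |s x - f x / x - c * Real.log (Real.log x)| ≤
      K + ε * (Real.log (Real.log x) - Real.log (Real.log m)) + (ε + c) * (1 / (m : ℝ) - 1 / x) := by
    intro x hx
    induction x, hx using Nat.le_induction with
    | base =>
      rw [sub_self, sub_self, mul_zero, mul_zero, add_zero, add_zero, hK]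
    | succ x hx ih =>
      have hx3 : 3 ≤ x := hm3.trans hx
      have hx0 : (0 : ℝ) < x := by
        have h3 : (3 : ℝ) ≤ x := by exact_mod_cast hx3
        linarith
      have h1 := step_est (f x) x hx3 c ε hc0 (hN x (hmN.trans hx)).le
      have h2 : s (x + 1) - f (x + 1) / ((x + 1 : ℕ) : ℝ) = s x - f x / x + f x / (x * (x + 1)) := by
        rw [hss, hfs]
        push_cast
        have h3 := step_inv (f x) x hx0
          (if (x + 1).Prime ∧ (x + 1) ≡ r [MOD q] then 1 else 0)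
        linarith
      rw [h2]
      push_cast at h1 ⊢
      have h4 : s x - f x / x + f x / (x * (x + 1)) - c * Real.log (Real.log ((x : ℝ) + 1)) =
          (s x - f x / x - c * Real.log (Real.log x)) + (f x / ((x : ℝ) * (x + 1)) -
            c * (Real.log (Real.log ((x : ℝ) + 1)) - Real.log (Real.log x))) := by ring
      rw [h4]
      refine (abs_add_le _ _).trans ?_
      nlinarith
  refine ⟨K + (ε + c) + 1 + m + (ε + c) * |Real.log (Real.log m)|, by positivity, fun x hx => ?_⟩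
  have hx1 := log_ge x hx
  have hm1 := log_ge m hm3
  have hLx : 0 ≤ Real.log (Real.log x) := Real.log_nonneg hx1
  have hLm : 0 ≤ Real.log (Real.log m) := Real.log_nonneg hm1
  have hx0 : (0 : ℝ) < x := by
    have h3 : (3 : ℝ) ≤ x := by exact_mod_cast hx
    linarith
  have hm0 : (0 : ℝ) < m := by
    have h3 : (3 : ℝ) ≤ m := by exact_mod_cast hm3
    linarith
  rw [← hs, div_eq_mul_one_div, ← hc, abs_of_nonneg hLm]
  rcases le_total m x with h | h
  · have h1 := hmain x h
    have h2 : 0 ≤ f x / x := by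
      have := hf0 x
      positivity
    have h3 : f x / x ≤ 1 := by
      rw [div_le_one hx0]
      exact hfx x
    have h4 : (ε + c) * (1 / (m : ℝ) - 1 / x) ≤ ε + c := by
      have h5 : 1 / (m : ℝ) - 1 / x ≤ 1 := by
        have h6 : 1 / (m : ℝ) ≤ 1 := by
          rw [div_le_one hm0]
          have : 1 ≤ m := by omega
          exact_mod_cast this
        have h7 : 0 < 1 / (x : ℝ) := by positivity
        linarith
      nlinarith
    have h5 : 0 ≤ (ε + c) * Real.log (Real.log m) := by positivity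
    have h6 : 0 ≤ ε * Real.log (Real.log m) := by positivity
    rw [abs_le] at h1 ⊢
    constructor <;> nlinarith
  · have h1 := sum_filter_le (fun p => p ≡ r [MOD q]) x
    rw [← hs] at h1
    have h2 : Real.log (Real.log x) ≤ Real.log (Real.log m) := by
      apply Real.log_le_log (by linarith)
      apply Real.log_le_log hx0
      exact_mod_cast h
    have h3 : (x : ℝ) ≤ m := by exact_mod_cast h
    have h4 : 0 ≤ ε * Real.log (Real.log m) := by positivity
    have h5 : Real.log (Real.log x) * c ≤ Real.log (Real.log m) * c :=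
      mul_le_mul_of_nonneg_right h2 hc0
    have h6 : 0 ≤ Real.log (Real.log x) * c := by positivity
    have h7 : 0 ≤ ε * Real.log (Real.log x) := by positivity
    rw [abs_le]
    constructor <;> nlinarith

end MertAux

open MertAux

theorem mert_up : ∃ C : ℝ, ∀ x : ℕ, 3 ≤ x →
    ∑ p ∈ prs x, (1 : ℝ) / p ≤ Real.log (Real.log x) + C := by
  refine ⟨4, fun x hx => ?_⟩
  have h := Pool.Agent.Lib.MP_695920_nt.sum_inv_primes_le x (by omega)
  rw [prs_eq]
  exact h

/-- by partial summation from `mert_ge`, or from `mertAP 1`-like results with exact constant: `∑_{p ≤ x} log p / p ≥ log x - 3`. -/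
theorem mert_lo : ∃ C : ℝ, ∀ x : ℕ, 3 ≤ x →
    Real.log (Real.log x) - C ≤ ∑ p ∈ prs x, (1 : ℝ) / p := by
  obtain ⟨s, hs⟩ : ∃ s : ℕ → ℝ, ∀ x, s x = ∑ p ∈ prs x, (1 : ℝ) / p := ⟨_, fun _ => rfl⟩
  obtain ⟨M, hM⟩ : ∃ M : ℕ → ℝ, ∀ x, M x = ∑ p ∈ prs x, Real.log p / p := ⟨_, fun _ => rfl⟩
  have hM3 : ∀ x : ℕ, 1 ≤ x → Real.log x - 3 ≤ M x := by
    intro x hx
    have h := Pool.Agent.Lib.MP_695920_nt.mert_ge x hx
    rw [hM, prs_eq]
    exact h
  have hM0 : ∀ x : ℕ, 0 ≤ M x := by
    intro x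
    have h := Pool.Agent.Lib.MP_695920_nt.mert_nonneg x
    rw [hM, prs_eq]
    exact h
  obtain ⟨K, hK⟩ : ∃ K : ℝ, K = Real.log (Real.log (3 : ℕ)) + 3 / Real.log (3 : ℕ) + 1 / ((3 : ℕ) - 1 : ℝ) -
      (s 3 - M 3 / Real.log (3 : ℕ)) := ⟨_, rfl⟩
  have hmain : ∀ x : ℕ, 3 ≤ x → Real.log (Real.log x) + 3 / Real.log x + 1 / ((x : ℝ) - 1) - K ≤
      s x - M x / Real.log x := by
    intro x hx
    induction x, hx using Nat.le_induction with
    | base =>
      rw [hK]
      linarith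
    | succ x hx ih =>
      have h1 := log_ge x hx
      obtain ⟨h2, h2'⟩ := dlog x hx
      obtain ⟨h3, h3'⟩ := dloglog x hx
      have hx3 : (3 : ℝ) ≤ x := by exact_mod_cast hx
      have h0 : (0 : ℝ) < x := by linarith
      have h4 : 0 < 1 / ((x : ℝ) + 1) := by positivity
      have h5 : 1 ≤ Real.log ((x : ℝ) + 1) := by linarith
      have hs1 : s (x + 1) = s x + if (x + 1).Prime then 1 / ((x : ℝ) + 1) else 0 := by
        rw [hs, hs, sum_prs_succ]
        push_cast
        rfl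
      have hM1 : M (x + 1) = M x + if (x + 1).Prime then Real.log ((x : ℝ) + 1) / ((x : ℝ) + 1) else 0 := by
        rw [hM, hM, sum_prs_succ]
        push_cast
        rfl
      have h6 : s (x + 1) - M (x + 1) / Real.log ((x : ℝ) + 1) =
          s x - M x / Real.log ((x : ℝ) + 1) := by
        rw [hs1, hM1]
        by_cases hp : (x + 1).Prime
        · rw [if_pos hp, if_pos hp]
          field_simp
          ring
        · rw [if_neg hp, if_neg hp]
          ring
      have hm := hM3 x (by omega)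
      push_cast
      rw [h6]
      obtain ⟨L, hL⟩ : ∃ L, L = Real.log (x : ℝ) := ⟨_, rfl⟩
      obtain ⟨L', hL'⟩ : ∃ L', L' = Real.log ((x : ℝ) + 1) := ⟨_, rfl⟩
      rw [← hL, ← hL'] at h2 h2' h3 h3'
      rw [← hL'] at h5 ⊢
      rw [← hL] at h1 ih hm
      have hL0 : 0 < L := by linarith
      have hL0' : 0 < L' := by linarith
      have h7 : M x / L - M x / L' = M x * (1 / L - 1 / L') := by ring
      have h8 : 0 ≤ 1 / L - 1 / L' := by
        have : 1 / L' ≤ 1 / L := one_div_le_one_div_of_le hL0 (by linarith)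
        linarith
      have h9 : (L - 3) * (1 / L - 1 / L') ≤ M x * (1 / L - 1 / L') :=
        mul_le_mul_of_nonneg_right hm h8
      have h10 : (L - 3) * (1 / L - 1 / L') = (L' - L) / L' - 3 / L + 3 / L' := by
        field_simp
        ring
      have h11 : (L' - L) / L - (L' - L) / L' ≤ 1 / ((x : ℝ) - 1) - 1 / x := by
        have e1 : (L' - L) / L - (L' - L) / L' = (L' - L) * (L' - L) / (L * L') := by
          field_simp
        have e2 : (L' - L) * (L' - L) / (L * L') ≤ (L' - L) * (L' - L) := by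
          apply div_le_self (mul_self_nonneg _)
          nlinarith
        have e3 : (L' - L) * (L' - L) ≤ (1 / x) * (1 / x) :=
          mul_self_le_mul_self (by linarith) h2'
        have e4 : (1 / (x : ℝ)) * (1 / x) ≤ 1 / ((x : ℝ) - 1) - 1 / x := by
          have e5 : 1 / ((x : ℝ) - 1) - 1 / x = 1 / ((x - 1) * x) := by
            have : (x : ℝ) - 1 ≠ 0 := by
              have : (0 : ℝ) < (x : ℝ) - 1 := by linarith
              exact this.ne'
            field_simp
            ring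
          rw [e5, one_div_mul_one_div]
          apply one_div_le_one_div_of_le
          · have : (0 : ℝ) < (x : ℝ) - 1 := by linarith
            positivity
          · nlinarith
        linarith
      have h12 : (x : ℝ) + 1 - 1 = x := by ring
      rw [h12]
      linarith
  refine ⟨K, fun x hx => ?_⟩
  have h1 := hmain x hx
  have h2 := log_ge x hx
  have hx3 : (3 : ℝ) ≤ x := by exact_mod_cast hx
  have h3 : 0 ≤ M x / Real.log x := by
    have := hM0 x
    positivity
  have h4 : 0 ≤ 3 / Real.log (x : ℝ) := by positivity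
  have h5 : 0 ≤ 1 / ((x : ℝ) - 1) := by
    have : (0 : ℝ) < (x : ℝ) - 1 := by linarith
    positivity
  rw [← hs]
  linarith

/-- Proof. `θ(x; q, r) = (1/φ(q) + o(1)) x` (`theta_ap` with the prime number theorem in progressions of the library,
`Rob/PiAP.lean`) or `π(x; q, r) ~ x / (φ(q) log x)` (`pi_ap`), uniformly in the finitely many classes `r`; partial
summation: for `x ≥ x_0(ε)` the dyadic piece `∑_{t < p ≤ 2t, p ≡ r} 1/p` compares with the same sum over all classes
divided by `φ(q)`, or: `∑_{p ≤ x, p ≡ r} 1/p = π(x;q,r)/x + ∑_{n < x} π(n;q,r) / (n (n+1))` and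
`∑_{2 ≤ n ≤ x} 1/(n log n) = log log x + O(1)`. -/
theorem mertAP (q : ℕ) (hq : 1 ≤ q) (ε : ℝ) (hε : 0 < ε) : ∃ C : ℝ, ∀ r : ℕ, r.Coprime q → ∀ x : ℕ, 3 ≤ x →
    |∑ p ∈ (prs x).filter (fun p => p ≡ r [MOD q]), (1 : ℝ) / p - Real.log (Real.log x) / q.totient| ≤
      ε * Real.log (Real.log x) + C := by
  classical
  have h : ∀ r : ℕ, ∃ C : ℝ, 0 ≤ C ∧ (r.Coprime q → ∀ x : ℕ, 3 ≤ x →
      |∑ p ∈ (prs x).filter (fun p => p ≡ r [MOD q]), (1 : ℝ) / p -
        Real.log (Real.log x) / q.totient| ≤ ε * Real.log (Real.log x) + C) := by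
    intro r
    by_cases hr : r.Coprime q
    · obtain ⟨C, h1, h2⟩ := one_class q hq ε hε r hr
      exact ⟨C, h1, fun _ => h2⟩
    · exact ⟨0, le_rfl, fun h => absurd h hr⟩
  choose C hC0 hC using h
  refine ⟨∑ r ∈ range q, C r, fun r hr x hx => ?_⟩
  have h1 : (r % q).Coprime q := by
    rw [Nat.Coprime, ← Nat.gcd_rec, Nat.gcd_comm]
    exact hr
  have h2 := hC (r % q) h1 x hx
  have h3 : (prs x).filter (fun p => p ≡ r % q [MOD q]) = (prs x).filter (fun p => p ≡ r [MOD q]) := by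
    refine Finset.filter_congr fun p _ => ?_
    unfold Nat.ModEq
    rw [Nat.mod_mod]
  rw [h3] at h2
  refine h2.trans ?_
  have h4 : C (r % q) ≤ ∑ r ∈ range q, C r :=
    Finset.single_le_sum (fun i _ => hC0 i) (Finset.mem_range.2 (Nat.mod_lt _ (by omega)))
  linarith

/-- From `mertAP 24 (ε/2)`, difference of two sums. -/
theorem mert24 (ε : ℝ) (hε : 0 < ε) : ∃ C : ℝ, ∀ r ∈ cls, ∀ y x : ℕ, 3 ≤ y → y ≤ x →
    |∑ p ∈ (prs x).filter (fun p => y < p ∧ p % 24 = r), (1 : ℝ) / p -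
        (Real.log (Real.log x) - Real.log (Real.log y)) / 8| ≤ ε * Real.log (Real.log x) + C := by
  classical
  obtain ⟨C, hC⟩ := mertAP 24 (by norm_num) (ε / 2) (by positivity)
  refine ⟨2 * C, fun r hr y x hy hyx => ?_⟩
  have hrc : r.Coprime 24 ∧ r < 24 := by
    revert hr
    unfold cls
    revert r
    decide
  have hx : 3 ≤ x := hy.trans hyx
  have h1 := hC r hrc.1 x hx
  have h2 := hC r hrc.1 y hy
  have hphi : Nat.totient 24 = 8 := by decide
  rw [hphi] at h1 h2
  have hmod : ∀ p : ℕ, p ≡ r [MOD 24] ↔ p % 24 = r := by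
    intro p
    unfold Nat.ModEq
    rw [Nat.mod_eq_of_lt hrc.2]
  have h3 : ∑ p ∈ (prs x).filter (fun p => p ≡ r [MOD 24]), (1 : ℝ) / p =
      ∑ p ∈ (prs x).filter (fun p => y < p ∧ p % 24 = r), (1 : ℝ) / p +
      ∑ p ∈ (prs y).filter (fun p => p ≡ r [MOD 24]), (1 : ℝ) / p := by
    rw [← Finset.sum_union]
    · refine Finset.sum_congr ?_ fun _ _ => rfl
      ext p
      simp only [mem_filter, mem_union, mem_prs, hmod]
      constructor
      · rintro ⟨⟨ha, hb⟩, hc⟩
        rcases lt_or_ge y p with h | h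
        · exact Or.inl ⟨⟨ha, hb⟩, h, hc⟩
        · exact Or.inr ⟨⟨ha, h⟩, hc⟩
      · rintro (⟨⟨ha, hb⟩, hc, hd⟩ | ⟨⟨ha, hb⟩, hc⟩)
        · exact ⟨⟨ha, hb⟩, hd⟩
        · exact ⟨⟨ha, hb.trans hyx⟩, hc⟩
    · rw [Finset.disjoint_left]
      intro p hp hq
      simp only [mem_filter, mem_prs] at hp hq
      omega
  rw [h3] at h1
  have h4 : Real.log (Real.log y) ≤ Real.log (Real.log x) := by
    have hy1 := log_ge y hy
    apply Real.log_le_log (by linarith)
    apply Real.log_le_log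
    · have : (3 : ℝ) ≤ y := by exact_mod_cast hy
      linarith
    · exact_mod_cast hyx
  have h5 : ε / 2 * Real.log (Real.log y) ≤ ε / 2 * Real.log (Real.log x) :=
    mul_le_mul_of_nonneg_left h4 (by positivity)
  push_cast at h1 h2
  rw [abs_le] at h1 h2 ⊢
  constructor <;> linarith

end Pool.Agent.Wal
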