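import Pool.Agent.Lib.MP_6498db_nt.W.Defs

/-! WALSH, row HrB: Euler product bound. -/

set_option autoImplicit false

namespace Pool.Agent.Wal

open Finset

/-- Proof. `∑_{k ≤ Y squarefree} ∏_{p ∣ k} f p / p ≤ ∏_{p ≤ Y} (1 + f p / p)` (`k ↦ k.primeFactors` is injective from
`sqs Y` to the subsets of `prs Y`; `Finset.prod_one_add` / `Finset.prod_add`), and `1 + t ≤ exp t`. -/
theorem hr_prod (f : ℕ → ℝ) (h0 : ∀ p, 0 ≤ f p) (Y : ℕ) :
    ∑ k ∈ sqs Y, PF f k / k ≤ Real.exp (∑ p ∈ prs Y, f p / p) := by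
  classical
  have h1 : ∀ k ∈ sqs Y, PF f k / k = ∏ p ∈ k.primeFactors, f p / p := by
    intro k hk
    obtain ⟨-, -, h3⟩ := mem_sqs.1 hk
    have h4 : (k : ℝ) = ∏ p ∈ k.primeFactors, (p : ℝ) := by
      rw [← Nat.cast_prod, Nat.prod_primeFactors_of_squarefree h3]
    rw [PF, Finset.prod_div_distrib]
    exact congrArg _ h4
  have hnn : ∀ t : Finset ℕ, 0 ≤ ∏ p ∈ t, f p / p := fun t =>
    Finset.prod_nonneg fun p _ => div_nonneg (h0 p) (Nat.cast_nonneg p)
  have h2 : ∑ k ∈ sqs Y, PF f k / k ≤ ∑ t ∈ (prs Y).powerset, ∏ p ∈ t, f p / p := by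
    rw [Finset.sum_congr rfl h1]
    have hinj : Set.InjOn Nat.primeFactors (sqs Y : Set ℕ) := by
      intro a ha b hb hab
      have ha' := (mem_sqs.1 (Finset.mem_coe.1 ha)).2.2
      have hb' := (mem_sqs.1 (Finset.mem_coe.1 hb)).2.2
      rw [← Nat.prod_primeFactors_of_squarefree ha', ← Nat.prod_primeFactors_of_squarefree hb']
      exact congrArg (fun s : Finset ℕ => ∏ p ∈ s, p) hab
    rw [← Finset.sum_image (f := fun t : Finset ℕ => ∏ p ∈ t, f p / p) hinj]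
    refine Finset.sum_le_sum_of_subset_of_nonneg ?_ fun t _ _ => hnn t
    intro t ht
    obtain ⟨k, hk, rfl⟩ := Finset.mem_image.1 ht
    obtain ⟨h3, h4, -⟩ := mem_sqs.1 hk
    rw [Finset.mem_powerset]
    intro p hp
    have h5 := Nat.mem_primeFactors.1 hp
    exact mem_prs.2 ⟨h5.1, (Nat.le_of_dvd (by omega) h5.2.1).trans h4⟩
  refine h2.trans ?_
  rw [← Finset.prod_one_add, Real.exp_sum]
  refine Finset.prod_le_prod (fun p _ => ?_) fun p _ => ?_
  · have := div_nonneg (h0 p) (Nat.cast_nonneg (α := ℝ) p)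
    linarith
  · rw [add_comm]
    exact Real.add_one_le_exp _

end Pool.Agent.Wal
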