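import Pool.Agent.Lib.MP_6498db_nt.W.HrA
import Pool.Agent.Lib.MP_6498db_nt.W.HrB
import Pool.Agent.Lib.MP_6498db_nt.W.Mert

/-! WALSH, row Hr: the Halberstam-Richert inequality. -/

set_option autoImplicit false

namespace Pool.Agent.Wal

open Finset

/-- Proof. `Y = 1, 2`: trivial bounds. `Y ≥ 3`: `log Y ∑ F(n) = ∑ F(n) log n + ∑ F(n) log (Y/n)`,
`log (Y/n) ≤ Y/n`, so `log Y ∑ F(n) ≤ 9 Y ∑ F(k)/k ≤ 9 Y exp(∑ f(p)/p)` by `hr_log`, `hr_prod`, and
`exp(∑ f(p)/p) = exp(∑ (f(p)-1)/p) exp(∑ 1/p) ≤ exp(∑ (f(p)-1)/p) e^C log Y` by `mert_up`. -/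
theorem hr : ∃ C : ℝ, 1 ≤ C ∧ ∀ f : ℕ → ℝ, (∀ p, 0 ≤ f p) → (∀ p, f p ≤ 4) → ∀ Y : ℕ, 1 ≤ Y →
    ∑ n ∈ sqs Y, PF f n ≤ C * Y * Real.exp (∑ p ∈ prs Y, (f p - 1) / p) := by
  obtain ⟨C₀, hC₀⟩ := mert_up
  have hE : 0 < Real.exp C₀ := Real.exp_pos _
  refine ⟨1 + 9 * Real.exp C₀, by linarith, fun f h0 h4 Y hY => ?_⟩
  have hpf : ∀ n, 0 ≤ PF f n := fun n => Finset.prod_nonneg fun p _ => h0 p
  have hPF1 : PF f 1 = 1 := by simp [PF]
  have hPF2 : PF f 2 = f 2 := by simp [PF, Nat.prime_two.primeFactors]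
  rcases Nat.lt_or_ge Y 3 with hY3 | hY3
  · obtain rfl | rfl : Y = 1 ∨ Y = 2 := by omega
    · have h1 : ∑ n ∈ sqs 1, PF f n ≤ ∑ n ∈ ({1} : Finset ℕ), PF f n := by
        refine Finset.sum_le_sum_of_subset_of_nonneg (fun n hn => ?_) fun n _ _ => hpf n
        have := mem_sqs.1 hn
        rw [Finset.mem_singleton]
        omega
      have h2 : prs 1 = ∅ := by
        refine Finset.eq_empty_of_forall_notMem fun p hp => ?_
        have h3 := mem_prs.1 hp
        have h4 := h3.1.two_le
        omega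
      rw [Finset.sum_singleton, hPF1] at h1
      rw [h2, Finset.sum_empty, Real.exp_zero]
      push_cast
      linarith
    · have h1 : ∑ n ∈ sqs 2, PF f n ≤ ∑ n ∈ ({1, 2} : Finset ℕ), PF f n := by
        refine Finset.sum_le_sum_of_subset_of_nonneg (fun n hn => ?_) fun n _ _ => hpf n
        have := mem_sqs.1 hn
        rw [Finset.mem_insert, Finset.mem_singleton]
        omega
      have h2 : prs 2 = {2} := by
        ext p
        rw [mem_prs, Finset.mem_singleton]
        constructor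
        · rintro ⟨h3, h5⟩
          have := h3.two_le
          omega
        · rintro rfl
          exact ⟨Nat.prime_two, le_rfl⟩
      rw [Finset.sum_pair (by norm_num), hPF1, hPF2] at h1
      rw [h2, Finset.sum_singleton]
      push_cast
      have h3 := Real.add_one_le_exp ((f 2 - 1) / 2)
      have h4 := h0 2
      have h5 : (1 + f 2) / 2 ≤ Real.exp ((f 2 - 1) / 2) := by linarith
      have h6 : 0 < Real.exp ((f 2 - 1) / 2) := Real.exp_pos _
      nlinarith [mul_pos hE h6]
  · have hYR : (3 : ℝ) ≤ Y := by exact_mod_cast hY3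
    have hY0 : (0 : ℝ) < Y := by linarith
    have hlogY : 0 < Real.log Y := Real.log_pos (by linarith)
    have hm := hC₀ Y hY3
    -- step 1
    have h1 : Real.log Y * ∑ n ∈ sqs Y, PF f n ≤ 9 * Y * ∑ k ∈ sqs Y, PF f k / k := by
      have h2 : Real.log Y * ∑ n ∈ sqs Y, PF f n ≤
          ∑ n ∈ sqs Y, PF f n * Real.log n + Y * ∑ k ∈ sqs Y, PF f k / k := by
        rw [Finset.mul_sum, Finset.mul_sum, ← Finset.sum_add_distrib]
        refine Finset.sum_le_sum fun n hn => ?_
        obtain ⟨hn1, -, -⟩ := mem_sqs.1 hn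
        have hn0 : (0 : ℝ) < n := by exact_mod_cast hn1
        have h3 : Real.log Y = Real.log n + Real.log (Y / n) := by
          rw [Real.log_div hY0.ne' hn0.ne']
          ring
        have h4 : Real.log (Y / n) ≤ Y / n := by
          have h5 := Real.log_le_sub_one_of_pos (div_pos hY0 hn0)
          linarith
        calc Real.log Y * PF f n = PF f n * Real.log n + PF f n * Real.log (Y / n) := by
              rw [h3]
              ring
          _ ≤ PF f n * Real.log n + PF f n * (Y / n) := by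
              have := mul_le_mul_of_nonneg_left h4 (hpf n)
              linarith
          _ = PF f n * Real.log n + Y * (PF f n / n) := by ring
      have h5 := hr_log f h0 h4 Y hY
      linarith
    -- step 2
    have h2 : ∑ k ∈ sqs Y, PF f k / k ≤
        Real.exp (∑ p ∈ prs Y, (f p - 1) / p) * (Real.exp C₀ * Real.log Y) := by
      refine (hr_prod f h0 Y).trans ?_
      have h3 : ∑ p ∈ prs Y, f p / p =
          ∑ p ∈ prs Y, (f p - 1) / p + ∑ p ∈ prs Y, (1 : ℝ) / p := by
        rw [← Finset.sum_add_distrib]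
        exact Finset.sum_congr rfl fun p _ => by ring
      rw [h3, Real.exp_add]
      refine mul_le_mul_of_nonneg_left ?_ (Real.exp_pos _).le
      calc Real.exp (∑ p ∈ prs Y, (1 : ℝ) / p) ≤ Real.exp (Real.log (Real.log Y) + C₀) :=
            Real.exp_le_exp.2 hm
        _ = Real.exp C₀ * Real.log Y := by
            rw [Real.exp_add, Real.exp_log hlogY]
            ring
    have h3 : Real.log Y * ∑ n ∈ sqs Y, PF f n ≤
        Real.log Y * (9 * Real.exp C₀ * Y * Real.exp (∑ p ∈ prs Y, (f p - 1) / p)) := by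
      refine h1.trans ?_
      calc 9 * Y * ∑ k ∈ sqs Y, PF f k / k
          ≤ 9 * Y * (Real.exp (∑ p ∈ prs Y, (f p - 1) / p) * (Real.exp C₀ * Real.log Y)) :=
            mul_le_mul_of_nonneg_left h2 (by positivity)
        _ = Real.log Y * (9 * Real.exp C₀ * Y * Real.exp (∑ p ∈ prs Y, (f p - 1) / p)) := by
            ring
    have h6 := le_of_mul_le_mul_left h3 hlogY
    refine h6.trans ?_
    have h7 : 0 ≤ (Y : ℝ) * Real.exp (∑ p ∈ prs Y, (f p - 1) / p) := by positivity
    nlinarith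

end Pool.Agent.Wal
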