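import Pool.Agent.Lib.MP_6498db_nt.W.HrB
import Pool.Agent.Lib.MP_6498db_nt.W.Mert
import Pool.Agent.Lib.MP_6498db_nt.W.Hr

/-! WALSH, row Rank: Rankin's bound, the smooth part is rarely large. -/

set_option autoImplicit false

namespace Pool.Agent.Wal

open Finset

private theorem rank_exp (δ : ℝ) (hδ : 0 < δ) : ∃ C : ℝ, 0 ≤ C ∧ ∀ L : ℝ, 1 ≤ L →
    L ^ 2 * Real.exp (-(L ^ δ)) ≤ C * L ^ (-(1 : ℝ)) := by
  obtain ⟨n, hn⟩ := exists_nat_ge (3 / δ)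
  refine ⟨n.factorial, Nat.cast_nonneg _, fun L hL => ?_⟩
  have hL0 : 0 < L := by linarith
  have hu : 1 ≤ L ^ δ := Real.one_le_rpow hL hδ.le
  have h1 : L ^ (3 : ℝ) ≤ (L ^ δ) ^ n := by
    rw [← Real.rpow_natCast, ← Real.rpow_mul hL0.le]
    refine Real.rpow_le_rpow_of_exponent_le hL ?_
    have := (div_le_iff₀ hδ).1 hn
    linarith
  have h2 := Real.pow_div_factorial_le_exp (L ^ δ) (by linarith) n
  have hf : (0 : ℝ) < n.factorial := by exact_mod_cast n.factorial_pos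
  rw [div_le_iff₀ hf] at h2
  have h3 : L ^ (3 : ℝ) ≤ Real.exp (L ^ δ) * n.factorial := h1.trans h2
  have h4 : L ^ 2 = L ^ (3 : ℝ) * L ^ (-(1 : ℝ)) := by
    rw [← Real.rpow_add hL0, ← Real.rpow_natCast]
    norm_num
  have h5 : 0 < L ^ (-(1 : ℝ)) := Real.rpow_pos_of_pos hL0 _
  rw [h4, Real.exp_neg]
  have h6 : 0 < Real.exp (L ^ δ) := Real.exp_pos _
  rw [← div_eq_mul_inv, div_le_iff₀ h6]
  nlinarith

/-- Proof. `L = log z` (`≤ (log X)^δ`), `η = 1/L`. `S.card ≤ ∑_{m ∈ sqs X} (sm z m / Z)^η`, `Z = exp((log X)^(2δ))`;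
group by `s = sm z m`: `≤ Z^(-η) ∑_{s z-smooth squarefree} s^η X / s ≤ X Z^(-η) ∏_{p ≤ z} (1 + p^(η-1))
≤ X exp(-(log X)^δ) exp(e ∑_{p ≤ z} 1/p)` (`p^η ≤ e`), `≤ C X exp(-(log X)^δ) (log X)^3 ≤ C' X / log X`. -/
theorem rank (δ : ℝ) (hδ : 0 < δ) (hδ2 : δ ≤ 1 / 2) : ∃ C : ℝ, ∀ X : ℕ, 3 ≤ X → ∀ S : Finset ℕ,
    (∀ m ∈ S, m ∈ sqs X ∧ Real.exp (Real.log X ^ (2 * δ)) < (sm (zz δ X) m : ℝ)) →
    (S.card : ℝ) ≤ C * X * Real.log X ^ (-(1 : ℝ)) := by
  classical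
  obtain ⟨C₁, hC₁⟩ := mert_up
  obtain ⟨C₂, hC₂1, hC₂⟩ := hr
  obtain ⟨C₃, hC₃0, hC₃⟩ := rank_exp δ hδ
  refine ⟨C₂ * Real.exp (2 * C₁) * C₃, fun X hX S hS => ?_⟩
  have hL : 1 ≤ Real.log X := by
    have h3 : (3 : ℝ) ≤ X := by exact_mod_cast hX
    rw [Real.le_log_iff_exp_le (by linarith)]
    have := Real.exp_one_lt_d9
    linarith
  set L := Real.log X with hLd
  have hL0 : 0 < L := by linarith
  set z := zz δ X with hz
  set η := L ^ (-δ) with hη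
  have hη0 : 0 < η := Real.rpow_pos_of_pos hL0 _
  have hzle : (z : ℝ) ≤ Real.exp (L ^ δ) := Nat.floor_le (Real.exp_pos _).le
  set g : ℕ → ℝ := fun p => if p ≤ z then (p : ℝ) ^ η else 1 with hg
  have hpe : ∀ p : ℕ, p ≤ z → (p : ℝ) ^ η ≤ 3 := by
    intro p hp
    have h1 : (p : ℝ) ≤ Real.exp (L ^ δ) := (Nat.cast_le.2 hp).trans hzle
    have h2 := Real.rpow_le_rpow (Nat.cast_nonneg p) h1 hη0.le
    have h3 : Real.exp (L ^ δ) ^ η = Real.exp 1 := by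
      rw [← Real.exp_mul, hη, ← Real.rpow_add hL0, add_neg_cancel, Real.rpow_zero]
    rw [h3] at h2
    have := Real.exp_one_lt_d9
    linarith
  have hg0 : ∀ p, 0 ≤ g p := by
    intro p
    simp only [hg]
    split_ifs
    · exact Real.rpow_nonneg (Nat.cast_nonneg p) _
    · exact zero_le_one
  have hg3 : ∀ p, g p ≤ 3 := by
    intro p
    simp only [hg]
    split_ifs with h
    · exact hpe p h
    · norm_num
  -- the sum of the multiplicative function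
  have h1 : ∑ m ∈ sqs X, PF g m ≤ C₂ * X * (Real.exp (2 * C₁) * L ^ 2) := by
    refine (hC₂ g hg0 (fun p => (hg3 p).trans (by norm_num)) X (by omega)).trans ?_
    refine mul_le_mul_of_nonneg_left ?_ (mul_nonneg (by linarith) (Nat.cast_nonneg X))
    have h2 : ∑ p ∈ prs X, (g p - 1) / p ≤ 2 * (Real.log L + C₁) := by
      refine le_trans ?_ (mul_le_mul_of_nonneg_left (hC₁ X hX) (by norm_num))
      rw [Finset.mul_sum]
      refine Finset.sum_le_sum fun p hp => ?_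
      have hp0 : (0 : ℝ) < p := by exact_mod_cast (mem_prs.1 hp).1.pos
      rw [mul_one_div]
      exact div_le_div_of_nonneg_right (by linarith [hg3 p]) hp0.le
    refine (Real.exp_le_exp.2 h2).trans ?_
    have h3 : Real.exp (2 * (Real.log L + C₁)) = Real.exp (2 * C₁) * L ^ 2 := by
      have e : 2 * (Real.log L + C₁) = 2 * C₁ + Real.log L + Real.log L := by ring
      rw [e, Real.exp_add, Real.exp_add, Real.exp_log hL0]
      ring
    exact h3.le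
  -- the weight of an element of `S`
  have h2 : ∀ m ∈ S, 1 ≤ Real.exp (-(L ^ δ)) * PF g m := by
    intro m hm
    obtain ⟨-, h3⟩ := hS m hm
    have h4 : PF g m = (sm z m : ℝ) ^ η := by
      unfold PF sm
      rw [Nat.cast_prod, ← Real.finsetProd_rpow _ _ (fun p _ => Nat.cast_nonneg p),
        Finset.prod_filter]
    have h5 : Real.exp (L ^ δ) ≤ (sm z m : ℝ) ^ η := by
      have h6 := Real.rpow_le_rpow (Real.exp_pos _).le h3.le hη0.le
      have h7 : Real.exp (L ^ (2 * δ)) ^ η = Real.exp (L ^ δ) := by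
        rw [← Real.exp_mul, hη, ← Real.rpow_add hL0]
        congr 2
        ring
      rw [h7] at h6
      exact h6
    rw [h4, Real.exp_neg]
    have h8 : 0 < Real.exp (L ^ δ) := Real.exp_pos _
    rw [inv_mul_eq_div, le_div_iff₀ h8, one_mul]
    exact h5
  have hPF : ∀ m, 0 ≤ PF g m := fun m => Finset.prod_nonneg fun p _ => hg0 p
  have h3 : (S.card : ℝ) ≤ Real.exp (-(L ^ δ)) * ∑ m ∈ sqs X, PF g m := by
    calc (S.card : ℝ) = ∑ m ∈ S, (1 : ℝ) := by simp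
      _ ≤ ∑ m ∈ S, Real.exp (-(L ^ δ)) * PF g m := Finset.sum_le_sum h2
      _ ≤ ∑ m ∈ sqs X, Real.exp (-(L ^ δ)) * PF g m :=
        Finset.sum_le_sum_of_subset_of_nonneg (fun m hm => (hS m hm).1) fun m _ _ =>
          mul_nonneg (Real.exp_pos _).le (hPF m)
      _ = Real.exp (-(L ^ δ)) * ∑ m ∈ sqs X, PF g m := by rw [Finset.mul_sum]
  have h4 := hC₃ L hL
  have h5 : 0 ≤ C₂ * X * Real.exp (2 * C₁) :=
    mul_nonneg (mul_nonneg (by linarith) (Nat.cast_nonneg X)) (Real.exp_pos _).le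
  calc (S.card : ℝ) ≤ Real.exp (-(L ^ δ)) * ∑ m ∈ sqs X, PF g m := h3
    _ ≤ Real.exp (-(L ^ δ)) * (C₂ * X * (Real.exp (2 * C₁) * L ^ 2)) :=
      mul_le_mul_of_nonneg_left h1 (Real.exp_pos _).le
    _ = C₂ * X * Real.exp (2 * C₁) * (L ^ 2 * Real.exp (-(L ^ δ))) := by ring
    _ ≤ C₂ * X * Real.exp (2 * C₁) * (C₃ * L ^ (-(1 : ℝ))) := mul_le_mul_of_nonneg_left h4 h5
    _ = C₂ * Real.exp (2 * C₁) * C₃ * X * L ^ (-(1 : ℝ)) := by ring

end Pool.Agent.Wal
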