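import Pool.Agent.Lib.MP_6498db_nt.W.BxDefs

/-! WALSH: definitions for the engine. DO NOT EDIT (owner helper52). -/

set_option autoImplicit false

namespace Pool.Agent.Wal

open Finset

/-- the conditions for rough numbers `a, b` with fixed twists `A0`, `B0` -/
structure FitsR (D : Dat) (A0 B0 a b : ℕ) : Prop where
  ca : ∀ p : ℕ, p.Prime → p ∣ a → D.aC p → jacobiSym ((B0 * b : ℕ) : ℤ) p = D.s p
  cb : ∀ q : ℕ, q.Prime → q ∣ b → D.bC q → jacobiSym ((A0 * a : ℕ) : ℤ) q = D.t q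

/-- the conditions at the primes larger than `z` -/
structure FitsZ (D : Dat) (z a b : ℕ) : Prop where
  ca : ∀ p : ℕ, p.Prime → z < p → p ∣ a → D.aC p → jacobiSym ((D.c * b : ℕ) : ℤ) p = D.s p
  cb : ∀ q : ℕ, q.Prime → z < q → q ∣ b → D.bC q → jacobiSym (a : ℤ) q = D.t q

/-- the number of primes `p > z` of `n` with `P p` -/
noncomputable def wt (P : ℕ → Prop) (z n : ℕ) : ℕ := by
  classical exact (n.primeFactors.filter (fun p => z < p ∧ P p)).card

open Classical in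
/-- `∑_{a b ≤ X} [Q a b] F a b` -/
noncomputable def S2 (X : ℕ) (Q : ℕ → ℕ → Prop) (F : ℕ → ℕ → ℝ) : ℝ :=
  ∑ a ∈ Icc 1 X, ∑ b ∈ Icc 1 (X / a), if Q a b then F a b else 0

end Pool.Agent.Wal
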