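import Pool.Agent.Lib.MP_6498db_nt.W.Hr
import Pool.Agent.Lib.MP_6498db_nt.W.RDefs

/-! WALSH, row MainSum: the main term of the engine. -/

set_option autoImplicit false

namespace Pool.Agent.Wal

open Finset

/-- Grouping by the product. -/
private theorem mainSum_group (vA vB : ℕ → ℝ) (N : ℕ) (hA : ∀ p, 0 ≤ vA p) (hB : ∀ p, 0 ≤ vB p) :
    S2 N (fun a b => Squarefree (a * b)) (fun a b => PF vA a * PF vB b) ≤
      ∑ m ∈ sqs N, PF (fun p => vA p + vB p) m := by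
  classical
  have h1 : S2 N (fun a b => Squarefree (a * b)) (fun a b => PF vA a * PF vB b) =
      ∑ x ∈ ((Icc 1 N).sigma fun a => Icc 1 (N / a)).filter
        (fun x : (_ : ℕ) × ℕ => Squarefree (x.1 * x.2)), PF vA x.1 * PF vB x.2 := by
    rw [Finset.sum_filter, Finset.sum_sigma]
    unfold S2
    refine Finset.sum_congr rfl fun a _ => Finset.sum_congr rfl fun b _ => ?_
    by_cases h : Squarefree (a * b)
    · rw [if_pos h, if_pos h]
    · rw [if_neg h, if_neg h]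
  have h2 : ∑ m ∈ sqs N, PF (fun p => vA p + vB p) m =
      ∑ y ∈ (sqs N).sigma (fun m => m.primeFactors.powerset),
        (∏ p ∈ y.2, vA p) * ∏ p ∈ y.1.primeFactors \ y.2, vB p := by
    rw [Finset.sum_sigma]
    refine Finset.sum_congr rfl fun m _ => ?_
    unfold PF
    rw [Finset.prod_add]
  rw [h1, h2]
  set S := ((Icc 1 N).sigma fun a => Icc 1 (N / a)).filter
        (fun x : (_ : ℕ) × ℕ => Squarefree (x.1 * x.2)) with hS
  let φ : ((_ : ℕ) × ℕ) → ((_ : ℕ) × Finset ℕ) := fun x => ⟨x.1 * x.2, x.1.primeFactors⟩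
  have hmem : ∀ x ∈ S, 1 ≤ x.1 ∧ 1 ≤ x.2 ∧ x.1 * x.2 ≤ N ∧ Squarefree (x.1 * x.2) := by
    intro x hx
    rw [hS, Finset.mem_filter, Finset.mem_sigma, mem_Icc, mem_Icc] at hx
    obtain ⟨⟨⟨h3, h4⟩, h5, h6⟩, h7⟩ := hx
    exact ⟨h3, h5, by
      have := (Nat.le_div_iff_mul_le (by omega)).1 h6
      rwa [mul_comm] at this, h7⟩
  have hinj : Set.InjOn φ (S : Set ((_ : ℕ) × ℕ)) := by
    rintro ⟨a, b⟩ hx ⟨a', b'⟩ hx' heq
    obtain ⟨e1, e2, -, e4⟩ := hmem _ (Finset.mem_coe.1 hx)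
    obtain ⟨e1', e2', -, e4'⟩ := hmem _ (Finset.mem_coe.1 hx')
    dsimp only at e1 e2 e4 e1' e2' e4'
    have h3 : a * b = a' * b' := congrArg Sigma.fst heq
    have h4 : a.primeFactors = a'.primeFactors := congrArg (fun y => y.2) heq
    have h5 : a = a' := by
      rw [← Nat.prod_primeFactors_of_squarefree e4.of_mul_left,
        ← Nat.prod_primeFactors_of_squarefree e4'.of_mul_left, h4]
    subst h5
    have h6 : b = b' := Nat.eq_of_mul_eq_mul_left (by omega) h3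
    rw [h6]
  have h3 : ∑ x ∈ S, PF vA x.1 * PF vB x.2 =
      ∑ y ∈ S.image φ, (∏ p ∈ y.2, vA p) * ∏ p ∈ y.1.primeFactors \ y.2, vB p := by
    rw [Finset.sum_image hinj]
    refine Finset.sum_congr rfl fun x hx => ?_
    obtain ⟨e1, e2, -, e4⟩ := hmem x hx
    have hc : x.1.Coprime x.2 := Nat.coprime_of_squarefree_mul e4
    have h5 : (x.1 * x.2).primeFactors \ x.1.primeFactors = x.2.primeFactors := by
      rw [Nat.primeFactors_mul (by omega) (by omega), Finset.union_sdiff_cancel_left]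
      exact Nat.disjoint_primeFactors (by omega) (by omega) |>.2 hc
    change _ = (∏ p ∈ x.1.primeFactors, vA p) *
      ∏ p ∈ (x.1 * x.2).primeFactors \ x.1.primeFactors, vB p
    rw [h5]
    rfl
  rw [h3]
  refine Finset.sum_le_sum_of_subset_of_nonneg ?_ fun y _ _ =>
    mul_nonneg (Finset.prod_nonneg fun p _ => hA p) (Finset.prod_nonneg fun p _ => hB p)
  intro y hy
  obtain ⟨x, hx, rfl⟩ := Finset.mem_image.1 hy
  obtain ⟨e1, e2, e3, e4⟩ := hmem x hx
  refine Finset.mem_sigma.2 ⟨mem_sqs.2 ⟨?_, e3, e4⟩, Finset.mem_powerset.2 ?_⟩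
  · exact Nat.mul_pos e1 e2
  · exact Nat.primeFactors_mono (Dvd.intro _ rfl) (Nat.mul_ne_zero (by omega) (by omega))

/-- Proof. Group by `m = a b` (squarefree): `∑_{a b = m} PF vA a PF vB b = ∏_{p ∣ m} (vA p + vB p)
≤ ∏_{p ∣ m} (2 if p ≤ z, 1 otherwise)`, and `hr`: `≤ C N exp(∑_{p ≤ z} 1/p) ≤ C' N log z` (`mert_up`). -/
theorem main_sum : ∃ C : ℝ, 0 < C ∧ ∀ (vA vB : ℕ → ℝ) (z N : ℕ), 3 ≤ z → 1 ≤ N →
    (∀ p, 0 ≤ vA p ∧ vA p ≤ 1) → (∀ p, 0 ≤ vB p ∧ vB p ≤ 1) →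
    (∀ p : ℕ, p.Prime → z < p → vA p + vB p ≤ 1) →
    S2 N (fun a b => Squarefree (a * b)) (fun a b => PF vA a * PF vB b) ≤ C * N * Real.log z := by
  classical
  obtain ⟨C₁, hC₁, H⟩ := hr
  obtain ⟨C₂, hM⟩ := mert_up
  refine ⟨C₁ * Real.exp C₂, mul_pos (by linarith) (Real.exp_pos _), ?_⟩
  intro vA vB z N hz hN hA hB hAB
  refine (mainSum_group vA vB N (fun p => (hA p).1) fun p => (hB p).1).trans ?_
  set f : ℕ → ℝ := fun p => if p ≤ z then 2 else 1 with hf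
  have h1 : ∑ m ∈ sqs N, PF (fun p => vA p + vB p) m ≤ ∑ m ∈ sqs N, PF f m := by
    refine Finset.sum_le_sum fun m _ => ?_
    unfold PF
    refine Finset.prod_le_prod (fun p _ => add_nonneg (hA p).1 (hB p).1) fun p hp => ?_
    rw [hf]
    dsimp only
    split_ifs with h
    · linarith [(hA p).2, (hB p).2]
    · exact hAB p (Nat.mem_primeFactors.1 hp).1 (not_le.1 h)
  have h2 : ∀ p, 0 ≤ f p := by
    intro p
    rw [hf]
    dsimp only
    split_ifs <;> norm_num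
  have h3 : ∀ p, f p ≤ 4 := by
    intro p
    rw [hf]
    dsimp only
    split_ifs <;> norm_num
  have h4 : ∑ p ∈ prs N, (f p - 1) / p ≤ ∑ p ∈ prs z, (1 : ℝ) / p := by
    have h5 : ∑ p ∈ prs N, (f p - 1) / p = ∑ p ∈ (prs N).filter (fun p => p ≤ z), (1 : ℝ) / p := by
      rw [Finset.sum_filter]
      refine Finset.sum_congr rfl fun p _ => ?_
      rw [hf]
      dsimp only
      split_ifs <;> norm_num
    rw [h5]
    refine Finset.sum_le_sum_of_subset_of_nonneg ?_ fun p _ _ => by positivity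
    intro p hp
    rw [Finset.mem_filter, mem_prs] at hp
    exact mem_prs.2 ⟨hp.1.1, hp.2⟩
  have hlz : 0 < Real.log z := Real.log_pos (by
    have : (3 : ℝ) ≤ z := by exact_mod_cast hz
    linarith)
  have h6 : Real.exp (∑ p ∈ prs N, (f p - 1) / p) ≤ Real.exp C₂ * Real.log z := by
    calc Real.exp (∑ p ∈ prs N, (f p - 1) / p)
        ≤ Real.exp (Real.log (Real.log z) + C₂) := Real.exp_le_exp.2 (h4.trans (hM z hz))
      _ = Real.exp C₂ * Real.log z := by rw [Real.exp_add, Real.exp_log hlz, mul_comm]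
  calc ∑ m ∈ sqs N, PF (fun p => vA p + vB p) m ≤ ∑ m ∈ sqs N, PF f m := h1
    _ ≤ C₁ * N * Real.exp (∑ p ∈ prs N, (f p - 1) / p) := H f h2 h3 N hN
    _ ≤ C₁ * N * (Real.exp C₂ * Real.log z) :=
        mul_le_mul_of_nonneg_left h6 (mul_nonneg (by linarith) (Nat.cast_nonneg N))
    _ = C₁ * Real.exp C₂ * N * Real.log z := by ring

end Pool.Agent.Wal
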