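import Pool.Agent.Lib.MP_6498db_nt.W.Split

/-! WALSH, row A4b: `n = 4`, `x` odd. -/

set_option autoImplicit false

namespace Pool.Agent.Wal

private theorem b_four (m k T : ℕ) (hm : Squarefree m) (h : 16 * T = m * k ^ 2) : ∃ j, k = 4 * j := by
  have h2 : ¬ 4 ∣ m := by
    rintro ⟨c, hc⟩
    have := hm 2 ⟨c, by omega⟩
    exact absurd (Nat.isUnit_iff.mp this) (by norm_num)
  have hk : 2 ∣ k := by
    by_contra hk
    have h1 : Nat.Coprime 4 (k ^ 2) := by
      have : Nat.Coprime 2 k := (Nat.Prime.coprime_iff_not_dvd Nat.prime_two).mpr hk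
      exact (Nat.Coprime.pow 2 2 this)
    exact h2 (h1.dvd_of_dvd_mul_right ⟨4 * T, by rw [← h]; ring⟩)
  obtain ⟨i, rfl⟩ := hk
  have h' : 4 * T = m * i ^ 2 := by
    have : 4 * (4 * T) = 4 * (m * i ^ 2) := by rw [show 4 * (4 * T) = 16 * T by ring, h]; ring
    exact Nat.eq_of_mul_eq_mul_left (by norm_num) this
  have hi : 2 ∣ i := by
    by_contra hk
    have h1 : Nat.Coprime 4 (i ^ 2) := by
      have : Nat.Coprime 2 i := (Nat.Prime.coprime_iff_not_dvd Nat.prime_two).mpr hk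
      exact (Nat.Coprime.pow 2 2 this)
    exact h2 (h1.dvd_of_dvd_mul_right ⟨T, by rw [← h']⟩)
  obtain ⟨j, rfl⟩ := hi
  exact ⟨j, by ring⟩

private theorem b_four_mod (p x : ℕ) (hp : p.Prime) (h3 : 3 < p) (h : p ∣ x ^ 2 + 1) : p % 4 = 1 := by
  have := Fact.mk hp
  have h1 : ((x : ZMod p)) ^ 2 = -1 := by
    have : ((x ^ 2 + 1 : ℕ) : ZMod p) = 0 := (ZMod.natCast_eq_zero_iff _ _).mpr h
    push_cast at this
    exact eq_neg_of_add_eq_zero_left this
  have h2 := ZMod.mod_four_ne_three_of_sq_eq_neg_one h1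
  have h4 : p % 2 = 1 := hp.eq_two_or_odd.resolve_left (by omega)
  omega

private theorem b_symb (p b s T : ℕ) (hp : p.Prime) (h : b * s ^ 2 = 4 * T + 1) (hT : p ∣ T) :
    jacobiSym (b : ℤ) p = 1 := by
  have := Fact.mk hp
  have h1 : (b : ZMod p) * (s : ZMod p) ^ 2 = 1 := by
    have h2 : (T : ZMod p) = 0 := (ZMod.natCast_eq_zero_iff _ _).mpr hT
    have h3 : ((b * s ^ 2 : ℕ) : ZMod p) = ((4 * T + 1 : ℕ) : ZMod p) := by rw [h]
    push_cast at h3
    rw [h3, h2]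
    ring
  have hs : (s : ZMod p) ≠ 0 := by
    intro h0
    rw [h0] at h1
    norm_num at h1
  have hb : (b : ZMod p) ≠ 0 := by
    intro h0
    rw [h0] at h1
    norm_num at h1
  rw [← jacobiSym.legendreSym.to_jacobiSym, legendreSym.eq_one_iff' p hb]
  refine ⟨(s : ZMod p)⁻¹, ?_⟩
  field_simp
  rw [← h1]

/-- Proof. `x` odd, `V = (x^2+1)/2` odd, `T = (x^2-1)/8 > 0`, `V = 4T + 1`, coprime; `x^4 - 1 = 16 V T = m k^2`, so
`4 ∣ k` (`m` squarefree; e.g. `16 ∣ m k^2` gives `4 ∣ k` or use the squarefree part) and `V T = m (k/4)^2`; `split_sq`: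
`T = a r^2`, `V = b s^2`, `a b = m`. `b = 1`: second alternative. `b > 1`: `Fits dat5 a b`: primes of `V` are `1` mod
4; `p ∣ a` odd: `b s^2 = V = 4T + 1 ≡ 1`. -/
theorem a4_odd (m : ℕ) (hm : Squarefree m) (x : ℕ) (hx : Odd x) (hx2 : 2 ≤ x) (k : ℕ)
    (h : x ^ 4 = m * k ^ 2 + 1) :
    (∃ a b : ℕ, a * b = m ∧ Fits dat5 a b) ∨
      ∃ v t : ℕ, 0 < t ∧ x ^ 2 + 1 = 2 * v ^ 2 ∧ x ^ 2 = 8 * (m * t ^ 2) + 1 := by
  obtain ⟨T, hT0, hT⟩ : ∃ T : ℕ, 0 < T ∧ x ^ 2 = 8 * T + 1 := by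
    obtain ⟨j, hj⟩ := hx
    obtain ⟨T, hT⟩ := (Nat.even_mul_succ_self j)
    have hj1 : 0 < j := by omega
    refine ⟨T, ?_, ?_⟩
    · have : 0 < j * (j + 1) := by positivity
      have h2 : j * (j + 1) = T + T := hT
      omega
    · have h2 : j * (j + 1) = T + T := hT
      rw [hj]
      nlinarith [h2]
  have h16 : 16 * (T * (4 * T + 1)) = m * k ^ 2 := by
    have h1 : x ^ 4 = (8 * T + 1) ^ 2 := by rw [← hT]; ring
    have h2 : (8 * T + 1) ^ 2 = 16 * (T * (4 * T + 1)) + 1 := by ring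
    omega
  obtain ⟨j, rfl⟩ := b_four m k _ hm h16
  have hj : T * (4 * T + 1) = m * j ^ 2 := by
    have : 16 * (T * (4 * T + 1)) = 16 * (m * j ^ 2) := by rw [h16]; ring
    exact Nat.eq_of_mul_eq_mul_left (by norm_num) this
  have hcop : T.Coprime (4 * T + 1) := by
    rw [mul_comm 4 T, Nat.coprime_mul_left_add_right]
    exact Nat.coprime_one_right T
  obtain ⟨a, b, r, s, hab, hu, hv⟩ := split_sq m hm T (4 * T + 1) j (by omega) (by omega) hcop hj
  by_cases hb1 : b = 1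
  · right
    refine ⟨s, r, ?_, ?_, ?_⟩
    · rcases Nat.eq_zero_or_pos r with h0 | h0
      · rw [h0] at hu
        omega
      · exact h0
    · rw [hT]
      rw [hb1] at hv
      omega
    · rw [hT]
      have : a = m := by rw [← hab, hb1, mul_one]
      rw [← this, ← hu]
  · left
    refine ⟨a, b, hab, ?_⟩
    have hbs : Squarefree b := hm.squarefree_of_dvd (hab ▸ Dvd.intro_left a rfl)
    refine ⟨?_, ?_, ?_, ?_, ?_⟩
    · rintro ⟨c, hc⟩
      have hc' : b = c * c := by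
        have : dat5.c * b = b := by unfold dat5; simp
        rw [this] at hc
        exact hc
      have h1 : IsUnit c := hbs c (by rw [← hc'])
      rw [Nat.isUnit_iff] at h1
      rw [h1] at hc'
      exact hb1 hc'
    · have h1 : Odd (b * s ^ 2) := by rw [← hv]; exact ⟨2 * T, by ring⟩
      exact Nat.Odd.of_mul_left h1
    · intro p hp h3 hpb
      have h1 : p ∣ x ^ 2 + 1 := by
        have h2 : x ^ 2 + 1 = 2 * (b * s ^ 2) := by rw [← hv, hT]; ring
        rw [h2]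
        exact Dvd.dvd.mul_left (hpb.mul_right _) _
      exact b_four_mod p x hp h3 h1
    · intro p hp h3 hpa _
      have h1 : ((dat5.c * b : ℕ) : ℤ) = (b : ℤ) := by
        have : dat5.c * b = b := by unfold dat5; simp
        rw [this]
      rw [h1]
      exact b_symb p b s T hp hv.symm (by rw [hu]; exact hpa.mul_right _)
    · intro q hq h3 hqb hf
      exact absurd hf (by unfold dat5; simp)

private theorem b_split (a b c : ℕ) (hc : a.Coprime b) (h : a * b = c ^ 2) :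
    ∃ d e : ℕ, a = d ^ 2 ∧ b = e ^ 2 := by
  obtain ⟨d, hd⟩ := exists_eq_pow_of_mul_eq_pow (Nat.isUnit_iff.mpr hc) h
  obtain ⟨e, he⟩ := exists_eq_pow_of_mul_eq_pow (Nat.isUnit_iff.mpr hc.symm) (by rw [mul_comm]; exact h)
  exact ⟨d, e, hd, he⟩

/-- Proof. `q = 2v - x > 0`, `w = x - v ≥ 0`, `q^2 - 2w^2 = 1`, `x = q + 2w`; `w` is even, `q` odd,
`((q-1)/2) ((q+1)/2) = 2 (w/2)^2`, consecutive integers, so coprime: one is a square, the other twice a square:
there are `n, l` and `η = ±1` with `(q+η)/2 = n^2`, `(q-η)/2 = 2 l^2`, `n^2 - 2l^2 = η`, `w = 2nl`,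
`x = 2n^2 - η + 4nl`; `x^2 - 1 = (x-1)(x+1) = 8 n l (n+l)(n+2l)` for both signs. `x > 1` gives `n, l > 0`. -/
theorem a4_pell (x v : ℕ) (hx : 1 < x) (hxo : Odd x) (h : x ^ 2 + 1 = 2 * v ^ 2) :
    ∃ (n l : ℕ) (η : ℤ), (η = 1 ∨ η = -1) ∧ 0 < n ∧ 0 < l ∧ (n : ℤ) ^ 2 - 2 * (l : ℤ) ^ 2 = η ∧
      x ^ 2 = 8 * (n * l * (n + l) * (n + 2 * l)) + 1 := by
  have hvx : v ≤ x := by
    by_contra hc
    push Not at hc
    nlinarith
  have hxv : x < 2 * v := by
    by_contra hc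
    push Not at hc
    nlinarith
  obtain ⟨w, hw⟩ := Nat.exists_eq_add_of_le hvx
  obtain ⟨q, hq⟩ := Nat.exists_eq_add_of_le hxv.le
  -- `x = q + 2 w`, `v = q + w`
  have hv : v = q + w := by omega
  have hx' : x = q + 2 * w := by omega
  have hqw : q ^ 2 = 2 * w ^ 2 + 1 := by
    rw [hv, hx'] at h
    nlinarith
  have hqo : q % 2 = 1 := by
    obtain ⟨i, hi⟩ := hxo
    omega
  obtain ⟨Q, hQ⟩ : ∃ Q, q = 2 * Q + 1 := ⟨q / 2, by omega⟩
  have hQ2 : 4 * (Q * (Q + 1)) = 2 * w ^ 2 := by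
    rw [hQ] at hqw
    nlinarith
  have hwe : 2 ∣ w := by
    obtain ⟨T, hT⟩ := Nat.even_mul_succ_self Q
    have hT' : Q * (Q + 1) = T + T := hT
    have h1 : 2 ∣ w ^ 2 := ⟨2 * T, by omega⟩
    exact Nat.prime_two.dvd_of_dvd_pow h1
  obtain ⟨W, hW⟩ := hwe
  have hQW : Q * (Q + 1) = 2 * W ^ 2 := by
    rw [hW] at hQ2
    nlinarith
  have hcop : Q.Coprime (Q + 1) := Nat.coprime_self_add_right.mpr (Nat.coprime_one_right Q)
  rcases Nat.even_or_odd' Q with ⟨R, hR | hR⟩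
  · -- `Q = 2 R`
    have hRW : R * (Q + 1) = W ^ 2 := by
      have : 2 * (R * (Q + 1)) = 2 * W ^ 2 := by rw [← hQW, hR]; ring
      exact Nat.eq_of_mul_eq_mul_left (by norm_num) this
    have hc1 : R.Coprime (Q + 1) := Nat.Coprime.coprime_dvd_left ⟨2, by rw [hR]; ring⟩ hcop
    obtain ⟨l, n, hl, hn⟩ := b_split R (Q + 1) W hc1 hRW
    have hWn : W = n * l := by
      have : W ^ 2 = (n * l) ^ 2 := by rw [← hRW, hl, hn]; ring
      exact Nat.pow_left_injective (n := 2) (by norm_num) this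
    have hnl : n ^ 2 = 2 * l ^ 2 + 1 := by rw [← hn, hR, hl]
    have hxe : x = 4 * l ^ 2 + 1 + 4 * (n * l) := by
      rw [hx', hQ, hR, hl, hW, hWn]; ring
    have hl0 : 0 < l := by
      rcases Nat.eq_zero_or_pos l with h0 | h0
      · exfalso
        rw [h0] at hxe
        simp at hxe
        omega
      · exact h0
    have hn0 : 0 < n := by
      rcases Nat.eq_zero_or_pos n with h0 | h0
      · rw [h0] at hnl
        simp at hnl
      · exact h0
    refine ⟨n, l, 1, Or.inl rfl, hn0, hl0, ?_, ?_⟩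
    · have : ((n ^ 2 : ℕ) : ℤ) = ((2 * l ^ 2 + 1 : ℕ) : ℤ) := by rw [hnl]
      push_cast at this
      linarith
    · have h1 : n * (n + 2 * l) = 2 * l ^ 2 + 1 + 2 * (n * l) := by rw [← hnl]; ring
      have h2 : n * l * (n + l) * (n + 2 * l) = l * (n + l) * (n * (n + 2 * l)) := by ring
      rw [h2, h1, hxe]
      ring
  · -- `Q = 2 R + 1`
    have hRW : Q * (R + 1) = W ^ 2 := by
      have h1 : Q * (Q + 1) = 2 * (Q * (R + 1)) := by
        have : Q + 1 = 2 * (R + 1) := by omega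
        rw [this]
        ring
      omega
    have hc1 : Q.Coprime (R + 1) := Nat.Coprime.coprime_dvd_right ⟨2, by omega⟩ hcop
    obtain ⟨n, l, hn, hl⟩ := b_split Q (R + 1) W hc1 hRW
    have hWn : W = n * l := by
      have : W ^ 2 = (n * l) ^ 2 := by rw [← hRW, hl, hn]; ring
      exact Nat.pow_left_injective (n := 2) (by norm_num) this
    have hnl : n ^ 2 + 1 = 2 * l ^ 2 := by rw [← hn, ← hl]; omega
    have hxe : x = 2 * n ^ 2 + 1 + 4 * (n * l) := by
      rw [hx', hQ, hn, hW, hWn]; ring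
    have hn0 : 0 < n := by
      rcases Nat.eq_zero_or_pos n with h0 | h0
      · rw [h0] at hnl
        omega
      · exact h0
    have hl0 : 0 < l := by
      rcases Nat.eq_zero_or_pos l with h0 | h0
      · rw [h0] at hnl
        simp at hnl
      · exact h0
    refine ⟨n, l, -1, Or.inr rfl, hn0, hl0, ?_, ?_⟩
    · have : ((n ^ 2 + 1 : ℕ) : ℤ) = ((2 * l ^ 2 : ℕ) : ℤ) := by rw [hnl]
      push_cast at this
      linarith
    · have h1 : 2 * (l * (n + l)) = n ^ 2 + 1 + 2 * (n * l) := by rw [hnl]; ring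
      have h2 : 8 * (n * l * (n + l) * (n + 2 * l)) = 4 * (2 * (l * (n + l))) * (n * (n + 2 * l)) := by ring
      rw [h2, h1, hxe]
      ring

end Pool.Agent.Wal
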