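import Pool.Agent.Lib.MP_6498db_nt.W.Split

/-! WALSH, row A4c: `n = 4`, the two-sided datum. -/

set_option autoImplicit false

namespace Pool.Agent.Wal

private theorem a4c_gcd {p : ℕ} (hp : p.Prime) {x : ℤ} (hx : ¬ (p : ℤ) ∣ x) : x.gcd p = 1 := by
  have h1 : ¬ p ∣ x.natAbs := fun h => hx (Int.natCast_dvd.2 h)
  have h2 : p.Coprime x.natAbs := (Nat.Prime.coprime_iff_not_dvd hp).2 h1
  exact h2.symm

private theorem a4c_sq {p : ℕ} (hp : p.Prime) {x : ℤ} (hx : ¬ (p : ℤ) ∣ x) :
    jacobiSym (x ^ 2) p = 1 := jacobiSym.sq_one' (a4c_gcd hp hx)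

private theorem a4c_congr {p : ℕ} {x y : ℤ} (h : (p : ℤ) ∣ x - y) :
    jacobiSym x p = jacobiSym y p :=
  jacobiSym.mod_left' (Int.emod_eq_emod_iff_emod_sub_eq_zero.2 (Int.emod_eq_zero_of_dvd h))

/-- The symbol of the squarefree part. -/
private theorem a4c_part {p : ℕ} (hp : p.Prime) {v b s : ℤ} (h : v = b * s ^ 2)
    (hv : ¬ (p : ℤ) ∣ v) : jacobiSym v p = jacobiSym b p := by
  have hs : ¬ (p : ℤ) ∣ s := by
    intro hd
    apply hv
    rw [h, sq]
    exact Dvd.dvd.mul_left (Dvd.dvd.mul_right hd _) _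
  rw [h, jacobiSym.mul_left, a4c_sq hp hs, mul_one]

private theorem a4c_neg {p : ℕ} (hp : Odd p) :
    (p % 4 = 1 → jacobiSym (-1) p = 1) ∧ (p % 4 = 3 → jacobiSym (-1) p = -1) := by
  rw [jacobiSym.at_neg_one hp, ZMod.χ₄_nat_eq_if_mod_four]
  constructor
  · intro h
    rw [if_neg (by omega), if_pos h]
  · intro h
    rw [if_neg (by omega), if_neg (by omega)]

private theorem a4c_two {p : ℕ} (hp : Odd p) (h : jacobiSym 2 p = 1) : p % 8 = 1 ∨ p % 8 = 7 := by
  rw [jacobiSym.at_two hp, ZMod.χ₈_nat_eq_if_mod_eight] at h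
  have h2 : p % 2 = 1 := Nat.odd_iff.1 hp
  by_contra hcon
  rw [if_neg (by omega), if_neg hcon] at h
  norm_num at h

private theorem a4c_ntwo {p : ℕ} (hp : Odd p) (h : jacobiSym (-2) p = 1) :
    p % 8 = 1 ∨ p % 8 = 3 := by
  rw [jacobiSym.at_neg_two hp, ZMod.χ₈'_nat_eq_if_mod_eight] at h
  have h2 : p % 2 = 1 := Nat.odd_iff.1 hp
  by_contra hcon
  rw [if_neg (by omega), if_neg hcon] at h
  norm_num at h

/-- Proof. `n` is odd (`n^2 = 2l^2 ± 1`), `gcd(n, l) = 1`, so `n, l, n+l, n+2l` are pairwise coprime and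
`u = l (n+l)`, `v = n (n+2l)` are coprime, `v` odd; `split_sq`: `u = a r^2`, `v = b s^2`, `a b = m`, `b` odd.
`b ≠ 1`: otherwise `n = f^2`, `n + 2l = g^2` (coprime, product a square), `f, g` odd, `2l = g^2 - f^2 ≡ 0` mod 8, `l`
even, so `η ≡ n^2 ≡ 1`, `η = 1`, `f^4 - 1 = 2l^2`, `((f^2+1)/2) (f^2-1) = l^2` coprime factors (`(f^2+1)/2` odd), so
`f^2 - 1` is a square, `f = 1`, `l = 0`, contradiction.
`p ∣ a`, `p > 3`: `p ∣ l`: `v ≡ n^2`, `(b/p) = 1`, and `η ≡ n^2` gives `(η/p) = 1`; `p ∣ n+l`: `n + 2l ≡ l ≡ -n`,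
`v ≡ -n^2`, `η = n^2 - 2l^2 ≡ -n^2`: `(b/p) = (-1/p) = (η/p)`. And `(η/p) = 1` if `p % 4 = 1`, and for `p % 4 = 3`
`(η/p) = η` (`(-1/p) = -1`). So `(b/p) = s(p)` with `s(p) = 1` if `p % 4 = 1`, `η` otherwise. [If `p % 4 = 3`, `p ∣ l`:
`(η/p) = 1` forces `η = 1`, fine; `p ∣ n+l`: `(-1/p) = (η/p)` forces `η = -1`... in all cases `(b/p) = (η/p)`.]
`q ∣ b`, `q > 3`: `q ∣ n`: `u ≡ l^2`, `(a/q) = 1`, `-2l^2 ≡ η`, `(-2η/q) = 1`: `η = 1`: `q ≡ 1, 3` mod 8; `η = -1`:
`q ≡ 1, 7` mod 8. `q ∣ n + 2l`: `n ≡ -2l`, `n + l ≡ -l`, `u ≡ -l^2`, `(a/q) = (-1/q)`; `η ≡ 4l^2 - 2l^2 = 2l^2`,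
`(2η/q) = 1`: `η = 1`: `q ≡ 1, 7` mod 8; `η = -1`: `q ≡ 1, 3` mod 8. So never `q ≡ 5` mod 8, and `(a/q) = 1` for
`q ≡ 1`, `= η` for `q ≡ 3`, `= -η` for `q ≡ 7` mod 8. -/
theorem a4_fits (m : ℕ) (hm : Squarefree m) (n l t : ℕ) (hn : 0 < n) (hl : 0 < l) (η : ℤ)
    (hη : η = 1 ∨ η = -1) (h : (n : ℤ) ^ 2 - 2 * (l : ℤ) ^ 2 = η)
    (hm' : n * l * (n + l) * (n + 2 * l) = m * t ^ 2) : ∃ a b : ℕ, a * b = m ∧ Fits (dat7 η) a b := by
  -- `n` is odd
  have hno : n % 2 = 1 := by
    by_contra hcon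
    obtain ⟨k, hk⟩ : ∃ k, n = 2 * k := ⟨n / 2, by omega⟩
    rw [hk] at h
    push_cast at h
    have h1 : 2 * (2 * (k : ℤ) ^ 2 - (l : ℤ) ^ 2) = η := by linear_combination h
    rcases hη with rfl | rfl <;> omega
  -- `n`, `l` are coprime
  have hunit : IsUnit η := by
    rcases hη with rfl | rfl
    · exact isUnit_one
    · exact isUnit_one.neg
  have hcop : n.Coprime l := by
    rw [Nat.coprime_iff_gcd_eq_one]
    have h1 : ((n.gcd l : ℕ) : ℤ) ∣ η := by
      rw [← h]
      have g1 : ((n.gcd l : ℕ) : ℤ) ∣ (n : ℤ) := Int.natCast_dvd_natCast.2 (Nat.gcd_dvd_left _ _)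
      have g2 : ((n.gcd l : ℕ) : ℤ) ∣ (l : ℤ) := Int.natCast_dvd_natCast.2 (Nat.gcd_dvd_right _ _)
      rw [sq, sq]
      exact dvd_sub (Dvd.dvd.mul_right g1 _) (Dvd.dvd.mul_left (Dvd.dvd.mul_right g2 _) _)
    have h2 := isUnit_of_dvd_unit h1 hunit
    simpa using Int.isUnit_iff_natAbs_eq.1 h2
  have c1 : l.Coprime n := hcop.symm
  have c2 : l.Coprime (n + 2 * l) := by
    have : l.Coprime (n + l * 2) := by simpa using c1
    rwa [mul_comm] at this
  have c3 : (n + l).Coprime n := by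
    rw [Nat.coprime_comm]
    simpa using hcop
  have c4 : (n + l).Coprime (n + 2 * l) := by
    have e : n + 2 * l = l + (n + l) := by ring
    rw [e]
    have : (n + l).Coprime l := by simpa using hcop
    simpa using this
  have cop : (l * (n + l)).Coprime (n * (n + 2 * l)) :=
    Nat.Coprime.mul_left (Nat.Coprime.mul_right c1 c2) (Nat.Coprime.mul_right c3 c4)
  obtain ⟨a, b, r, s, hab, hu, hv⟩ := split_sq m hm (l * (n + l)) (n * (n + 2 * l)) t
    (by positivity) (by positivity) cop (by rw [← hm']; ring)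
  have huZ : (l : ℤ) * (n + l) = a * (r : ℤ) ^ 2 := by exact_mod_cast hu
  have hvZ : (n : ℤ) * (n + 2 * l) = b * (s : ℤ) ^ 2 := by exact_mod_cast hv
  have hvodd : (n * (n + 2 * l)) % 2 = 1 := by
    rw [Nat.mul_mod, hno]
    omega
  have hbodd : Odd b := by
    rw [Nat.odd_iff]
    by_contra hcon
    have h0 : 2 ∣ b := by omega
    have h1 : 2 ∣ n * (n + 2 * l) := by rw [hv]; exact Dvd.dvd.mul_right h0 _
    omega
  -- a common prime does not exist
  have hnot : ∀ p : ℕ, p.Prime → p ∣ l * (n + l) → ¬ p ∣ n * (n + 2 * l) := by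
    intro p hp h1 h2
    have h3 := Nat.dvd_gcd h1 h2
    rw [cop] at h3
    exact hp.one_lt.ne' (Nat.dvd_one.1 h3)
  refine ⟨a, b, hab, ?_, hbodd, ?_, ?_, ?_⟩
  · -- `b` is not a square
    intro hsq
    have hb1 : b = 1 := by
      obtain ⟨x, hx⟩ := hsq
      change 1 * b = x * x at hx
      rw [one_mul] at hx
      have h1 : x * x ∣ m := by rw [← hx, ← hab]; exact Dvd.intro_left _ rfl
      have h2 := Nat.isUnit_iff.1 (hm x h1)
      rw [hx, h2]
    subst hb1
    rw [one_mul] at hv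
    have c5 : n.Coprime (n + 2 * l) := by
      have g1 : n.Coprime (2 * l) := by
        refine Nat.Coprime.mul_right ?_ hcop
        rw [Nat.coprime_comm, Nat.coprime_two_left, Nat.odd_iff]
        exact hno
      simpa using g1
    obtain ⟨a', b', f, g, hab', hf, hg⟩ := split_sq 1 squarefree_one n (n + 2 * l) s
      (by omega) (by omega) c5 (by rw [hv, one_mul])
    have ha' : a' = 1 := Nat.eq_one_of_mul_eq_one_right hab'
    have hb' : b' = 1 := Nat.eq_one_of_mul_eq_one_left hab'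
    subst ha' hb'
    rw [one_mul] at hf hg
    have hfo : f % 2 = 1 := by
      by_contra hcon
      have h0 : 2 ∣ f := by omega
      have h1 : 2 ∣ n := by rw [hf, sq]; exact Dvd.dvd.mul_right h0 _
      omega
    have hgo : g % 2 = 1 := by
      by_contra hcon
      have h0 : 2 ∣ g := by omega
      have h1 : 2 ∣ n + 2 * l := by rw [hg, sq]; exact Dvd.dvd.mul_right h0 _
      omega
    have m8 : ∀ f : ℕ, f % 2 = 1 → f ^ 2 % 8 = 1 := by
      intro f hf
      have : f % 8 = 1 ∨ f % 8 = 3 ∨ f % 8 = 5 ∨ f % 8 = 7 := by omega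
      rcases this with h | h | h | h <;> simp [Nat.pow_mod, h]
    have f8 := m8 f hfo
    have g8 := m8 g hgo
    rw [← hf] at f8
    rw [← hg] at g8
    have l4 : l % 4 = 0 := by omega
    -- `η = 1`
    have hη1 : η = 1 := by
      rcases hη with rfl | rfl
      · rfl
      · exfalso
        obtain ⟨k, hk⟩ : ∃ k, l = 4 * k := ⟨l / 4, by omega⟩
        have n8 := m8 n hno
        obtain ⟨j, hj⟩ : ∃ j, n ^ 2 = 8 * j + 1 := ⟨n ^ 2 / 8, by omega⟩
        have hjZ : (n : ℤ) ^ 2 = 8 * j + 1 := by exact_mod_cast hj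
        rw [hjZ, hk] at h
        push_cast at h
        have h1 : 8 * (j : ℤ) + 1 - 8 * (4 * (k : ℤ) ^ 2) = -1 := by linear_combination h
        omega
    subst hη1
    -- `(f^2 + 1) / 2 * (f^2 - 1) = l^2`
    have h1 : n ^ 2 = 2 * l ^ 2 + 1 := by
      have : (n : ℤ) ^ 2 = 2 * (l : ℤ) ^ 2 + 1 := by linear_combination h
      exact_mod_cast this
    obtain ⟨k, hk⟩ : ∃ k, n = 2 * k + 1 := ⟨n / 2, by omega⟩
    -- `n - 1 = 2 k`, `(n + 1) / 2 = k + 1`
    have h2 : (2 * k) * (k + 1) = 1 * l ^ 2 := by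
      rw [hk] at h1
      nlinarith
    have h3 : (2 * k).Coprime (k + 1) := by
      have k4 : k % 2 = 0 := by omega
      refine Nat.Coprime.mul_left ?_ ?_
      · rw [Nat.coprime_two_left, Nat.odd_iff]
        omega
      · simp
    have hk0 : k ≠ 0 := by
      rintro rfl
      have hl2 : l ^ 2 = 0 := by
        rw [one_mul, mul_zero, zero_mul] at h2
        exact h2.symm
      have hl0 : l = 0 := by simpa using hl2
      omega
    obtain ⟨a', b', x, y, hab', hx, hy⟩ := split_sq 1 squarefree_one (2 * k) (k + 1) l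
      (by omega) (by omega) h3 h2
    have ha' : a' = 1 := Nat.eq_one_of_mul_eq_one_right hab'
    subst ha'
    rw [one_mul] at hx
    -- `f^2 = x^2 + 1`
    have h4 : f ^ 2 = x ^ 2 + 1 := by omega
    have h5 : x < f := by
      by_contra hcon
      push Not at hcon
      have := Nat.pow_le_pow_left hcon 2
      omega
    have h6 : (x + 1) ^ 2 ≤ f ^ 2 := Nat.pow_le_pow_left h5 2
    have h7 : x = 0 := by nlinarith
    rw [h7] at hx
    omega
  · -- primes of `b`
    intro q hq hq3 hqb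
    change q % 8 ≠ 5
    have hqo : Odd q := hq.odd_of_ne_two (by omega)
    have hqv : q ∣ n * (n + 2 * l) := by rw [hv]; exact Dvd.dvd.mul_right hqb _
    have hql : ¬ q ∣ l * (n + l) := fun h1 => hnot q hq h1 hqv
    have hl' : ¬ (q : ℤ) ∣ (l : ℤ) := fun h1 =>
      hql (Dvd.dvd.mul_right (Int.natCast_dvd_natCast.1 h1) _)
    rcases (hq.dvd_mul).1 hqv with h1 | h1
    · have h1' : (q : ℤ) ∣ (n : ℤ) := Int.natCast_dvd_natCast.2 h1
      have e1 : jacobiSym (-2 * (l : ℤ) ^ 2) q = jacobiSym η q := by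
        apply a4c_congr
        have : -2 * (l : ℤ) ^ 2 - η = - ((n : ℤ) * n) := by rw [← h]; ring
        rw [this]
        exact (Dvd.dvd.mul_right h1' _).neg_right
      rw [jacobiSym.mul_left, a4c_sq hq hl', mul_one] at e1
      rcases hη with rfl | rfl
      · rw [jacobiSym.one_left] at e1
        have := a4c_ntwo hqo e1
        omega
      · have e2 : jacobiSym 2 q = 1 := by
          have h2 : jacobiSym (-2) q = jacobiSym (-1) q * jacobiSym 2 q := by
            rw [← jacobiSym.mul_left]; norm_num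
          rw [h2] at e1
          have h3 : jacobiSym (-1) q ≠ 0 := by
            rcases (show q % 4 = 1 ∨ q % 4 = 3 by have := Nat.odd_iff.1 hqo; omega) with h4 | h4
            · rw [(a4c_neg hqo).1 h4]; norm_num
            · rw [(a4c_neg hqo).2 h4]; norm_num
          exact mul_left_cancel₀ h3 (by rw [e1, mul_one])
        have := a4c_two hqo e2
        omega
    · have h1' : (q : ℤ) ∣ (n : ℤ) + 2 * l := by exact_mod_cast (Int.natCast_dvd_natCast.2 h1)
      have e1 : jacobiSym (2 * (l : ℤ) ^ 2) q = jacobiSym η q := by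
        apply a4c_congr
        have : 2 * (l : ℤ) ^ 2 - η = - (((n : ℤ) + 2 * l) * (n - 2 * l)) := by rw [← h]; ring
        rw [this]
        exact (Dvd.dvd.mul_right h1' _).neg_right
      rw [jacobiSym.mul_left, a4c_sq hq hl', mul_one] at e1
      rcases hη with rfl | rfl
      · rw [jacobiSym.one_left] at e1
        have := a4c_two hqo e1
        omega
      · have e2 : jacobiSym (-2) q = 1 := by
          have h2 : jacobiSym (-2) q = jacobiSym (-1) q * jacobiSym 2 q := by
            rw [← jacobiSym.mul_left]; norm_num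
          rw [h2, e1]
          rcases (show q % 4 = 1 ∨ q % 4 = 3 by have := Nat.odd_iff.1 hqo; omega) with h4 | h4
          · rw [(a4c_neg hqo).1 h4]; norm_num
          · rw [(a4c_neg hqo).2 h4]; norm_num
        have := a4c_ntwo hqo e2
        omega
  · -- primes of `a`
    intro p hp hp3 hpa _
    have hpo : Odd p := hp.odd_of_ne_two (by omega)
    have hpu : p ∣ l * (n + l) := by rw [hu]; exact Dvd.dvd.mul_right hpa _
    have hpv : ¬ (p : ℤ) ∣ (n : ℤ) * (n + 2 * l) := by
      intro h1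
      exact hnot p hp hpu (by exact_mod_cast h1)
    have hpn : ¬ (p : ℤ) ∣ (n : ℤ) := fun h1 => hpv (Dvd.dvd.mul_right h1 _)
    have hbv : jacobiSym ((b : ℤ)) p = jacobiSym ((n : ℤ) * (n + 2 * l)) p :=
      (a4c_part hp hvZ hpv).symm
    change jacobiSym ((1 * b : ℕ) : ℤ) p = if p % 4 = 1 then 1 else η
    rw [one_mul, hbv]
    have hp4 : p % 4 = 1 ∨ p % 4 = 3 := by have := Nat.odd_iff.1 hpo; omega
    rcases (hp.dvd_mul).1 hpu with h1 | h1
    · have h1' : (p : ℤ) ∣ (l : ℤ) := Int.natCast_dvd_natCast.2 h1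
      have e1 : jacobiSym ((n : ℤ) * (n + 2 * l)) p = 1 := by
        rw [← a4c_sq hp hpn]
        apply a4c_congr
        have : (n : ℤ) * (n + 2 * l) - n ^ 2 = l * (2 * n) := by ring
        rw [this]
        exact Dvd.dvd.mul_right h1' _
      have e2 : jacobiSym η p = 1 := by
        rw [← a4c_sq hp hpn]
        apply a4c_congr
        have : η - (n : ℤ) ^ 2 = l * (-2 * l) := by rw [← h]; ring
        rw [this]
        exact Dvd.dvd.mul_right h1' _
      rw [e1]
      split_ifs with h4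
      · rfl
      · rcases hη with rfl | rfl
        · rfl
        · rw [(a4c_neg hpo).2 (by omega)] at e2
          norm_num at e2
    · have h1' : (p : ℤ) ∣ (n : ℤ) + l := by exact_mod_cast (Int.natCast_dvd_natCast.2 h1)
      have e1 : jacobiSym ((n : ℤ) * (n + 2 * l)) p = jacobiSym (-1) p := by
        have h2 : jacobiSym (-1 * (n : ℤ) ^ 2) p = jacobiSym (-1) p := by
          rw [jacobiSym.mul_left, a4c_sq hp hpn, mul_one]
        rw [← h2]
        apply a4c_congr
        have : (n : ℤ) * (n + 2 * l) - -1 * n ^ 2 = (n + l) * (2 * n) := by ring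
        rw [this]
        exact Dvd.dvd.mul_right h1' _
      have e2 : jacobiSym η p = jacobiSym (-1) p := by
        have h2 : jacobiSym (-1 * (n : ℤ) ^ 2) p = jacobiSym (-1) p := by
          rw [jacobiSym.mul_left, a4c_sq hp hpn, mul_one]
        rw [← h2]
        apply a4c_congr
        have : η - -1 * (n : ℤ) ^ 2 = (n + l) * (2 * (n - l)) := by rw [← h]; ring
        rw [this]
        exact Dvd.dvd.mul_right h1' _
      rw [e1]
      split_ifs with h4
      · exact (a4c_neg hpo).1 h4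
      · have h5 := (a4c_neg hpo).2 (by omega)
        rw [h5]
        rcases hη with rfl | rfl
        · rw [jacobiSym.one_left, h5] at e2
          norm_num at e2
        · rfl
  · -- the symbols of the primes of `b`
    intro q hq hq3 hqb _
    have hqo : Odd q := hq.odd_of_ne_two (by omega)
    have hqv : q ∣ n * (n + 2 * l) := by rw [hv]; exact Dvd.dvd.mul_right hqb _
    have hqu : ¬ q ∣ l * (n + l) := fun h1 => hnot q hq h1 hqv
    have hqu' : ¬ (q : ℤ) ∣ (l : ℤ) * (n + l) := by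
      intro h1
      exact hqu (by exact_mod_cast h1)
    have hl' : ¬ (q : ℤ) ∣ (l : ℤ) := fun h1 => hqu' (Dvd.dvd.mul_right h1 _)
    have hau : jacobiSym (a : ℤ) q = jacobiSym ((l : ℤ) * (n + l)) q :=
      (a4c_part hq huZ hqu').symm
    change jacobiSym (a : ℤ) q = if q % 8 = 1 then 1 else if q % 8 = 3 then η else -η
    rw [hau]
    have hq2 := Nat.odd_iff.1 hqo
    have hq4 : q % 4 = 1 ∨ q % 4 = 3 := by omega
    have hJ : jacobiSym (-2) q = jacobiSym (-1) q * jacobiSym 2 q := by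
      rw [← jacobiSym.mul_left]; norm_num
    rcases (hq.dvd_mul).1 hqv with h1 | h1
    · have h1' : (q : ℤ) ∣ (n : ℤ) := Int.natCast_dvd_natCast.2 h1
      have e0 : jacobiSym ((l : ℤ) * (n + l)) q = 1 := by
        rw [← a4c_sq hq hl']
        apply a4c_congr
        have : (l : ℤ) * (n + l) - l ^ 2 = n * l := by ring
        rw [this]
        exact Dvd.dvd.mul_right h1' _
      have e1 : jacobiSym (-2 * (l : ℤ) ^ 2) q = jacobiSym η q := by
        apply a4c_congr
        have : -2 * (l : ℤ) ^ 2 - η = - ((n : ℤ) * n) := by rw [← h]; ring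
        rw [this]
        exact (Dvd.dvd.mul_right h1' _).neg_right
      rw [jacobiSym.mul_left, a4c_sq hq hl', mul_one] at e1
      rw [e0]
      rcases hη with rfl | rfl
      · rw [jacobiSym.one_left] at e1
        rcases a4c_ntwo hqo e1 with h8 | h8
        · rw [if_pos h8]
        · rw [if_neg (by omega), if_pos h8]
      · have e2 : jacobiSym 2 q = 1 := by
          rw [hJ] at e1
          have h3 : jacobiSym (-1) q ≠ 0 := by
            rcases hq4 with h4 | h4
            · rw [(a4c_neg hqo).1 h4]; norm_num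
            · rw [(a4c_neg hqo).2 h4]; norm_num
          exact mul_left_cancel₀ h3 (by rw [e1, mul_one])
        rcases a4c_two hqo e2 with h8 | h8
        · rw [if_pos h8]
        · rw [if_neg (by omega), if_neg (by omega)]
          norm_num
    · have h1' : (q : ℤ) ∣ (n : ℤ) + 2 * l := by exact_mod_cast (Int.natCast_dvd_natCast.2 h1)
      have e0 : jacobiSym ((l : ℤ) * (n + l)) q = jacobiSym (-1) q := by
        have h2 : jacobiSym (-1 * (l : ℤ) ^ 2) q = jacobiSym (-1) q := by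
          rw [jacobiSym.mul_left, a4c_sq hq hl', mul_one]
        rw [← h2]
        apply a4c_congr
        have : (l : ℤ) * (n + l) - -1 * l ^ 2 = (n + 2 * l) * l := by ring
        rw [this]
        exact Dvd.dvd.mul_right h1' _
      have e1 : jacobiSym (2 * (l : ℤ) ^ 2) q = jacobiSym η q := by
        apply a4c_congr
        have : 2 * (l : ℤ) ^ 2 - η = - (((n : ℤ) + 2 * l) * (n - 2 * l)) := by rw [← h]; ring
        rw [this]
        exact (Dvd.dvd.mul_right h1' _).neg_right
      rw [jacobiSym.mul_left, a4c_sq hq hl', mul_one] at e1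
      rw [e0]
      rcases hη with rfl | rfl
      · rw [jacobiSym.one_left] at e1
        rcases a4c_two hqo e1 with h8 | h8
        · rw [if_pos h8, (a4c_neg hqo).1 (by omega)]
        · rw [if_neg (by omega), if_neg (by omega), (a4c_neg hqo).2 (by omega)]
      · have e2 : jacobiSym (-2) q = 1 := by
          rw [hJ, e1]
          rcases hq4 with h4 | h4
          · rw [(a4c_neg hqo).1 h4]; norm_num
          · rw [(a4c_neg hqo).2 h4]; norm_num
        rcases a4c_ntwo hqo e2 with h8 | h8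
        · rw [if_pos h8, (a4c_neg hqo).1 (by omega)]
        · rw [if_neg (by omega), if_pos h8, (a4c_neg hqo).2 (by omega)]

end Pool.Agent.Wal
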