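import Pool.Agent.Lib.MP_6498db_nt.W.Split

/-! WALSH, row A3b: `n = 3`, `w = 1 + 3 c`. -/

set_option autoImplicit false

namespace Pool.Agent.Wal

/-- Proof. `B = 3c^2 + 3c + 1 > 0` is odd and prime to `c` and to 3; `split_sq` gives `|c| = a r^2`, `B = b s^2`,
`a b = m`. If `b = 1`: second alternative (`v = s`, `t = r`, `a = m`). If `b > 1`: `Fits dat1 a b`: `b` squarefree and
`> 1` is not a square, odd; a prime `p > 3` with `p ∣ B` divides `w^2 + w + 1 = 3 B` with `w = 1 + 3c`, so `p ≡ 1` mod 3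
(the order of `w` mod `p` is 3); for `p ∣ a`: `p ∣ c`, `b s^2 = B ≡ 1` mod `p`, so `jacobiSym b p = 1`. -/
theorem a3_three (m : ℕ) (hm : Squarefree m) (c : ℤ) (hc : c ≠ 0) (k : ℕ) (hk : k ≠ 0)
    (h : |c| * (3 * c ^ 2 + 3 * c + 1) = (m : ℤ) * (k : ℤ) ^ 2) :
    (∃ a b : ℕ, a * b = m ∧ Fits dat1 a b) ∨
      ∃ v t : ℕ, t ≠ 0 ∧ (v : ℤ) ^ 2 = 3 * c ^ 2 + 3 * c + 1 ∧ |c| = (m : ℤ) * (t : ℤ) ^ 2 := by
  have hBpos : 0 < 3 * c ^ 2 + 3 * c + 1 := by nlinarith [sq_nonneg (2 * c + 1)]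
  obtain ⟨B, hB⟩ : ∃ B : ℕ, (B : ℤ) = 3 * c ^ 2 + 3 * c + 1 :=
    ⟨(3 * c ^ 2 + 3 * c + 1).toNat, Int.toNat_of_nonneg hBpos.le⟩
  have hB0 : B ≠ 0 := by
    rintro rfl
    rw [← hB] at hBpos
    simp at hBpos
  have hu : ((c.natAbs : ℕ) : ℤ) = |c| := Int.natCast_natAbs c
  have hmul : c.natAbs * B = m * k ^ 2 := by
    have h1 : ((c.natAbs * B : ℕ) : ℤ) = ((m * k ^ 2 : ℕ) : ℤ) := by
      push_cast
      rw [← h, hB]
    exact_mod_cast h1
  have hco : Nat.Coprime c.natAbs B := by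
    have h1 : IsCoprime c (B : ℤ) := ⟨-(3 * c + 3), 1, by rw [hB]; ring⟩
    have h2 := Int.isCoprime_iff_gcd_eq_one.1 h1
    rw [Int.gcd, Int.natAbs_natCast] at h2
    exact h2
  obtain ⟨a, b, r, t, hab, hua, hBb⟩ := split_sq m hm c.natAbs B k (Int.natAbs_ne_zero.2 hc) hB0
    hco hmul
  have hBbZ : ((b : ℤ)) * (t : ℤ) ^ 2 = 3 * c ^ 2 + 3 * c + 1 := by
    rw [← hB, hBb]
    push_cast
    ring
  by_cases hb1 : b = 1
  · right
    subst hb1
    rw [mul_one] at hab
    subst hab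
    refine ⟨t, r, ?_, ?_, ?_⟩
    · rintro rfl
      apply hc
      rw [← Int.natAbs_eq_zero, hua]
      ring
    · rw [← hBbZ]
      push_cast
      ring
    · rw [← hu, hua]
      push_cast
      ring
  · left
    refine ⟨a, b, hab, ?_⟩
    have hbm : b ∣ m := ⟨a, by rw [← hab]; ring⟩
    have hbs : Squarefree b := hm.squarefree_of_dvd hbm
    have hB2 : b ∣ B := ⟨t ^ 2, hBb⟩
    refine ⟨?_, ?_, ?_, ?_, ?_⟩
    · change ¬ IsSquare (1 * b)
      rw [one_mul]
      rintro ⟨x, hx⟩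
      have h1 := hbs x ⟨1, by rw [mul_one]; exact hx⟩
      have h2 : x = 1 := Nat.isUnit_iff.1 h1
      rw [h2] at hx
      exact hb1 hx
    · have h1 : Odd B := by
        have h2 : Odd (B : ℤ) := by
          rw [hB]
          have h3 : 3 * c ^ 2 + 3 * c + 1 = 3 * (c * (c + 1)) + 1 := by ring
          rw [h3]
          exact ((Int.even_mul_succ_self c).mul_left 3).add_one
        exact_mod_cast h2
      exact Odd.of_dvd_nat h1 hB2
    · intro p hp h3 hpb
      change p % 3 = 1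
      have : Fact p.Prime := ⟨hp⟩
      have h1 : ((3 * c ^ 2 + 3 * c + 1 : ℤ) : ZMod p) = 0 := by
        rw [← hB]
        rw [ZMod.intCast_zmod_eq_zero_iff_dvd]
        exact_mod_cast hpb.trans hB2
      push_cast at h1
      have h3p : (3 : ZMod p) ≠ 0 := by
        intro h4
        have h5 : ((3 : ℕ) : ZMod p) = 0 := by exact_mod_cast h4
        rw [ZMod.natCast_eq_zero_iff] at h5
        exact absurd (Nat.le_of_dvd (by norm_num) h5) (not_le.2 h3)
      set w : ZMod p := 1 + 3 * (c : ZMod p) with hw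
      have hw3 : w ^ 3 = 1 := by
        rw [hw]
        linear_combination (9 * (c : ZMod p)) * h1
      have hw1 : w ≠ 1 := by
        intro h4
        rw [hw] at h4
        have h5 : (3 : ZMod p) * (c : ZMod p) = 0 := by linear_combination h4
        rcases mul_eq_zero.1 h5 with h6 | h6
        · exact h3p h6
        · rw [h6] at h1
          simp at h1
      have hord : orderOf w = 3 := orderOf_eq_prime hw3 hw1
      have hw0 : w ≠ 0 := by
        intro h4
        rw [h4] at hw3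
        simp at hw3
      have h4 := ZMod.orderOf_dvd_card_sub_one hw0
      rw [hord] at h4
      have h5 := hp.two_le
      omega
    · intro p hp h3 hpa _
      change jacobiSym ((1 * b : ℕ) : ℤ) p = 1
      have : Fact p.Prime := ⟨hp⟩
      have hpc : ((c : ℤ) : ZMod p) = 0 := by
        rw [ZMod.intCast_zmod_eq_zero_iff_dvd]
        have h4 : p ∣ c.natAbs := hua ▸ (hpa.trans (Dvd.intro _ rfl))
        exact Int.natCast_dvd.2 h4
      have h5 : (((b : ℤ) * (t : ℤ) ^ 2 : ℤ) : ZMod p) = ((3 * c ^ 2 + 3 * c + 1 : ℤ) : ZMod p) := by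
        rw [hBbZ]
      push_cast at h5
      rw [hpc] at h5
      have h6 : (b : ZMod p) * (t : ZMod p) ^ 2 = 1 := by
        rw [h5]
        ring
      have ht0 : (t : ZMod p) ≠ 0 := by
        intro h7
        rw [h7] at h6
        simp at h6
      have hb0 : ((b : ℤ) : ZMod p) ≠ 0 := by
        intro h7
        have h8 : (b : ZMod p) = 0 := by exact_mod_cast h7
        rw [h8] at h6
        simp at h6
      rw [one_mul, ← jacobiSym.legendreSym.to_jacobiSym, legendreSym.eq_one_iff p hb0]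
      refine ⟨(t : ZMod p)⁻¹, ?_⟩
      have h9 : ((b : ℤ) : ZMod p) = (b : ZMod p) := by push_cast; rfl
      rw [h9]
      field_simp
      linear_combination h6
    · intro q _ _ _ hf
      exact hf.elim

end Pool.Agent.Wal
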