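import Pool.Agent.Lib.MP_6498db_nt.W.Split

/-! WALSH, row A3c: the Pell equation `v^2 = 3c^2 + 3c + 1`. -/

set_option autoImplicit false

namespace Pool.Agent.Wal

/-- Proof. `(2v-1)(2v+1) = 3 (2c+1)^2`, the factors are coprime and odd, so (`split_sq` with `m = 3`) one is `3 r^2`,
the other `s^2`; `2v - 1 = 3r^2, 2v + 1 = s^2` gives `s^2 ≡ 2` mod 3, impossible; so `2v - 1 = s^2`, `2v + 1 = 3r^2`,
`3r^2 - s^2 = 2`, `r, s` odd positive, `|2c+1| = r s`, `s ≥ r` (`s^2 - r^2 = 2 r^2 - 2 ≥ 0`).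
Put `a = (3r - s)/2`, `u = (s - r)/2`: `a^2 - 3u^2 = 1`, `s = a + 3u`, `r = a + u`, `r s = 1 + 6u^2 + 4 a u`.
If `2c + 1 = r s`: `c = u (2a + 3u)` (`ε = 1`; `u > 0` because `c ≠ 0`).
If `2c + 1 = - r s`: `|c| = (r s + 1)/2 = 1 + 3u^2 + 2au = a (a + 2u)`; with `a' = 2a + 3u`, `u' = a + 2u` one has
`a'^2 - 3u'^2 = 1`, `u' (2a' - 3u') = (a + 2u) a = |c|` (`ε = -1`, `u' > 0`). -/
theorem a3_pell (c : ℤ) (hc : c ≠ 0) (v : ℕ) (h : (v : ℤ) ^ 2 = 3 * c ^ 2 + 3 * c + 1) :
    ∃ (a u : ℕ) (ε : ℤ), (ε = 1 ∨ ε = -1) ∧ 0 < u ∧ 0 < a ∧ a ^ 2 = 3 * u ^ 2 + 1 ∧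
      |c| = (u : ℤ) * (2 * a + 3 * ε * u) := by
  have hv : 1 ≤ v := by
    rcases Nat.eq_zero_or_pos v with h0 | h0
    · exfalso
      rw [h0] at h
      push_cast at h
      rcases lt_or_gt_of_ne hc with h1 | h1
      · nlinarith
      · nlinarith
    · exact h0
  obtain ⟨w, rfl⟩ : ∃ w, v = w + 1 := ⟨v - 1, by omega⟩
  set k : ℕ := (2 * c + 1).natAbs with hk
  have hk2 : (k : ℤ) ^ 2 = (2 * c + 1) ^ 2 := by
    rw [hk, Int.natAbs_sq]
  have hprod : (2 * w + 1) * (2 * w + 3) = 3 * k ^ 2 := by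
    zify
    rw [hk2]
    push_cast at h
    linear_combination 4 * h
  have hcop : (2 * w + 1).Coprime (2 * w + 3) := by
    have h1 : Nat.Coprime (2 * w + 1) 2 := by
      rw [Nat.coprime_two_right]
      exact ⟨w, rfl⟩
    have h2 : 2 * w + 3 = 2 + (2 * w + 1) := by ring
    rw [h2, Nat.coprime_add_self_right]
    exact h1
  have hsq : Squarefree 3 := Nat.prime_three.squarefree
  obtain ⟨α, β, s, r, hab, h1, h2⟩ := split_sq 3 hsq _ _ k (by omega) (by omega) hcop hprod
  have hα : α = 1 ∨ α = 3 := (Nat.dvd_prime Nat.prime_three).1 ⟨β, hab.symm⟩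
  rcases hα with hα | hα
  · subst hα
    rw [one_mul] at hab h1
    subst hab
    -- `2 w + 1 = s ^ 2`, `2 w + 3 = 3 * r ^ 2`
    have hrs : 3 * r ^ 2 = s ^ 2 + 2 := by omega
    have hks : k = r * s := by
      have h3 : k ^ 2 = (r * s) ^ 2 := by
        have h4 : 3 * k ^ 2 = 3 * (r * s) ^ 2 := by
          rw [← hprod, h1, h2]
          ring
        omega
      exact Nat.pow_left_injective (two_ne_zero) h3
    have hr0 : 1 ≤ r := by
      rcases Nat.eq_zero_or_pos r with h0 | h0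
      · rw [h0] at hrs
        omega
      · exact h0
    have hle : r ≤ s := by
      by_contra hcon
      push Not at hcon
      nlinarith
    have hsodd : s % 2 = 1 := by
      rcases Nat.even_or_odd s with h0 | h0
      · exfalso
        obtain ⟨m, hm⟩ := h0
        have h5 : s ^ 2 = 2 * (2 * m ^ 2) := by rw [hm]; ring
        omega
      · exact Nat.odd_iff.1 h0
    have hrodd : r % 2 = 1 := by
      rcases Nat.even_or_odd r with h0 | h0
      · exfalso
        obtain ⟨m, hm⟩ := h0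
        have h5 : r ^ 2 = 2 * (2 * m ^ 2) := by rw [hm]; ring
        omega
      · exact Nat.odd_iff.1 h0
    obtain ⟨u, hu⟩ : ∃ u, s = r + 2 * u := ⟨(s - r) / 2, by omega⟩
    have hur : u < r := by
      by_contra hcon
      push Not at hcon
      have h5 : 3 * r ≤ s := by omega
      nlinarith
    obtain ⟨a, ha⟩ : ∃ a, r = a + u := ⟨r - u, by omega⟩
    have ha0 : 0 < a := by omega
    subst hu
    subst ha
    have hpell : a ^ 2 = 3 * u ^ 2 + 1 := by
      zify at hrs ⊢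
      have h9 : 2 * (a : ℤ) ^ 2 = 2 * (3 * (u : ℤ) ^ 2 + 1) := by linear_combination hrs
      linarith
    have hpellZ : (a : ℤ) ^ 2 = 3 * (u : ℤ) ^ 2 + 1 := by exact_mod_cast hpell
    have hkZ : (k : ℤ) = ((a : ℤ) + u) * ((a : ℤ) + u + 2 * u) := by
      rw [hks]
      push_cast
      ring
    rcases le_or_gt 0 (2 * c + 1) with hpos | hneg
    · have h6 : (k : ℤ) = 2 * c + 1 := by
        rw [hk]
        exact Int.natAbs_of_nonneg hpos
      have h7 : c = (u : ℤ) * (2 * a + 3 * u) := by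
        have h8 : 2 * c + 1 = ((a : ℤ) + u) * ((a : ℤ) + u + 2 * u) := by rw [← h6, hkZ]
        have h9 : 2 * c = 2 * ((u : ℤ) * (2 * a + 3 * u)) := by linear_combination h8 + hpellZ
        linarith
      have hu0 : 0 < u := by
        rcases Nat.eq_zero_or_pos u with h0 | h0
        · exfalso
          apply hc
          rw [h7, h0]
          simp
        · exact h0
      refine ⟨a, u, 1, Or.inl rfl, hu0, ha0, hpell, ?_⟩
      rw [abs_of_nonneg (by omega : 0 ≤ c), h7]
      ring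
    · have h6 : (k : ℤ) = -(2 * c + 1) := by
        rw [hk]
        exact Int.ofNat_natAbs_of_nonpos hneg.le
      have h7 : -c = (a : ℤ) * (a + 2 * u) := by
        have h8 : -(2 * c + 1) = ((a : ℤ) + u) * ((a : ℤ) + u + 2 * u) := by rw [← h6, hkZ]
        have h9 : 2 * (-c) = 2 * ((a : ℤ) * (a + 2 * u)) := by
          linear_combination h8 - hpellZ
        linarith
      refine ⟨2 * a + 3 * u, a + 2 * u, -1, Or.inr rfl, by omega, by omega, ?_, ?_⟩
      · zify
        linear_combination hpellZ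
      · rw [abs_of_nonpos (by omega : c ≤ 0), h7]
        push_cast
        ring
  · exfalso
    subst hα
    have hβ : β = 1 := by omega
    subst hβ
    rw [one_mul] at h2
    -- `2 w + 1 = 3 s ^ 2`, `2 w + 3 = r ^ 2`
    have h3 : r ^ 2 = 3 * s ^ 2 + 2 := by omega
    have h4 : r ^ 2 % 3 = 2 := by rw [h3]; omega
    have h5 : r % 3 = 0 ∨ r % 3 = 1 ∨ r % 3 = 2 := by omega
    rcases h5 with h5 | h5 | h5 <;> simp [Nat.pow_mod, h5] at h4

end Pool.Agent.Wal
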