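import Pool.Agent.Lib.MP_6498db_nt.W.Split

/-! WALSH, row A3f: `z^4 = 3B^2 + 1` only for `B = 0` (3 is not a congruent number). -/

set_option autoImplicit false

namespace Pool.Agent.Wal

private theorem a3f_sq8 (n : ℕ) : (n % 2 = 1 ∧ n ^ 2 % 8 = 1) ∨ (n % 2 = 0 ∧ (n ^ 2 % 8 = 0 ∨ n ^ 2 % 8 = 4)) := by
  have h : n % 8 = 0 ∨ n % 8 = 1 ∨ n % 8 = 2 ∨ n % 8 = 3 ∨ n % 8 = 4 ∨ n % 8 = 5 ∨ n % 8 = 6 ∨ n % 8 = 7 := by omega
  rcases h with h | h | h | h | h | h | h | h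
  all_goals
    have h2 : n ^ 2 % 8 = (n % 8) ^ 2 % 8 := Nat.pow_mod n 2 8
    rw [h] at h2
    norm_num at h2
    omega

private theorem a3f_sq3 (n : ℕ) : (n % 3 = 0 ∧ n ^ 2 % 3 = 0) ∨ (n % 3 ≠ 0 ∧ n ^ 2 % 3 = 1) := by
  have h : n % 3 = 0 ∨ n % 3 = 1 ∨ n % 3 = 2 := by omega
  rcases h with h | h | h
  all_goals
    have h2 : n ^ 2 % 3 = (n % 3) ^ 2 % 3 := Nat.pow_mod n 2 3
    rw [h] at h2
    norm_num at h2
    omega

private theorem a3f_not3 {y z : ℕ} (h : (y ^ 2).Coprime (z ^ 2)) : ¬ (y % 3 = 0 ∧ z % 3 = 0) := by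
  rintro ⟨h1, h2⟩
  have h3 : 3 ∣ y ^ 2 := Dvd.dvd.pow (Nat.dvd_of_mod_eq_zero h1) two_ne_zero
  have h4 : 3 ∣ z ^ 2 := Dvd.dvd.pow (Nat.dvd_of_mod_eq_zero h2) two_ne_zero
  have h5 := Nat.dvd_gcd h3 h4
  rw [h] at h5
  omega

/-- splitting `u v = 3 k^2` -/
private theorem a3f_split3 {u v k : ℕ} (hu : u ≠ 0) (hv : v ≠ 0) (hc : u.Coprime v) (h : u * v = 3 * k ^ 2) :
    (∃ r s : ℕ, u = r ^ 2 ∧ v = 3 * s ^ 2) ∨ (∃ r s : ℕ, u = 3 * r ^ 2 ∧ v = s ^ 2) := by
  obtain ⟨a, b, r, s, hab, h1, h2⟩ := split_sq 3 (Nat.prime_three.squarefree) u v k hu hv hc h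
  have ha : a ∣ 3 := ⟨b, hab.symm⟩
  rcases (Nat.dvd_prime Nat.prime_three).1 ha with rfl | rfl
  · left
    have hb : b = 3 := by omega
    subst hb
    exact ⟨r, s, by rw [h1, one_mul], h2⟩
  · right
    have hb : b = 1 := by omega
    subst hb
    exact ⟨r, s, h1, by rw [h2, one_mul]⟩

private theorem a3f_split1 {u v k : ℕ} (hu : u ≠ 0) (hv : v ≠ 0) (hc : u.Coprime v) (h : u * v = k ^ 2) :
    ∃ r s : ℕ, u = r ^ 2 ∧ v = s ^ 2 := by
  obtain ⟨a, b, r, s, hab, h1, h2⟩ := split_sq 1 squarefree_one u v k hu hv hc (by rw [h, one_mul])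
  have ha := Nat.eq_one_of_mul_eq_one_right hab
  have hb := Nat.eq_one_of_mul_eq_one_left hab
  subst ha hb
  exact ⟨r, s, by rw [h1, one_mul], by rw [h2, one_mul]⟩

private theorem a3f_four (T D γ : ℕ) (hT : 0 < T) (hD : 0 < D) (hc : T.Coprime D) (hpar : D % 2 = 1)
    (h : (T + D) * T * (D * (2 * T + D)) = 3 * γ ^ 2) :
    ∃ x y z w : ℕ, T = 3 * x ^ 2 ∧ T + D = y ^ 2 ∧ D = z ^ 2 ∧ 2 * T + D = w ^ 2 := by
  have c1 : (T + D).Coprime T := by
    have : (D + T).Coprime T := (Nat.coprime_add_self_left).2 hc.symm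
    rwa [add_comm] at this
  have c2 : (T + D).Coprime D := (Nat.coprime_add_self_left).2 hc
  have c3 : D.Coprime (2 * T + D) := by
    have h2 : D.Coprime (2 * T) := by
      refine Nat.Coprime.mul_right ?_ hc.symm
      rw [Nat.coprime_comm, Nat.Prime.coprime_iff_not_dvd Nat.prime_two]
      omega
    exact (Nat.coprime_add_self_right).2 h2
  have c4 : T.Coprime (2 * T + D) := by
    have h2 : 2 * T + D = D + T * 2 := by ring
    rw [h2]
    exact (Nat.coprime_add_mul_left_right T D 2).2 hc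
  have c5 : (T + D).Coprime (2 * T + D) := by
    have h2 : 2 * T + D = T + (T + D) := by ring
    rw [h2]
    exact (Nat.coprime_add_self_right).2 c1
  have c6 : ((T + D) * T).Coprime (D * (2 * T + D)) :=
    Nat.Coprime.mul_left (Nat.Coprime.mul_right c2 c5) (Nat.Coprime.mul_right hc c4)
  have n1 : (T + D) ≠ 0 := by omega
  have n2 : 2 * T + D ≠ 0 := by omega
  rcases a3f_split3 (mul_ne_zero n1 hT.ne') (mul_ne_zero hD.ne' n2) c6 h with ⟨r, s, h1, h2⟩ | ⟨r, s, h1, h2⟩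
  · exfalso
    obtain ⟨y, x, h3, h4⟩ := a3f_split1 n1 hT.ne' c1 h1
    have c7 : (y ^ 2).Coprime (x ^ 2) := by rw [← h3, ← h4]; exact c1
    have h7 := a3f_not3 c7
    rcases a3f_split3 hD.ne' n2 c3 h2 with ⟨z, w, h5, h6⟩ | ⟨z, w, h5, h6⟩
    · rcases a3f_sq3 y with h8 | h8 <;> rcases a3f_sq3 x with h9 | h9 <;> omega
    · rcases a3f_sq3 y with h8 | h8 <;> rcases a3f_sq3 x with h9 | h9 <;> rcases a3f_sq3 w with h10 | h10 <;> omega
  · obtain ⟨z, w, h3, h4⟩ := a3f_split1 hD.ne' n2 c3 h2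
    rcases a3f_split3 n1 hT.ne' c1 h1 with ⟨y, x, h5, h6⟩ | ⟨y, x, h5, h6⟩
    · exact ⟨x, y, z, w, h6, h5, h3, h4⟩
    · exfalso
      have c7 : (x ^ 2).Coprime (z ^ 2) := by rw [← h3, ← h6]; exact hc
      have h7 := a3f_not3 c7
      rcases a3f_sq3 x with h8 | h8 <;> rcases a3f_sq3 z with h9 | h9 <;> omega

private theorem a3f_aux (β : ℕ) : 0 < β → ∀ p q r : ℕ, p.Coprime q → q ^ 2 = p ^ 2 + 3 * β ^ 2 →
    r ^ 2 = q ^ 2 + 3 * β ^ 2 → False := by
  induction β using Nat.strong_induction_on with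
  | _ β ih =>
    intro hβ p q r hpq h1 h2
    have hne : ¬ (p % 2 = 0 ∧ q % 2 = 0) := by
      rintro ⟨h3, h4⟩
      have h5 := Nat.dvd_gcd (Nat.dvd_of_mod_eq_zero h3) (Nat.dvd_of_mod_eq_zero h4)
      rw [hpq] at h5
      omega
    have hpar : p % 2 = 1 ∧ q % 2 = 1 ∧ r % 2 = 1 ∧ β % 2 = 0 := by
      rcases a3f_sq8 p with h3 | h3 <;> rcases a3f_sq8 q with h4 | h4 <;> rcases a3f_sq8 r with h5 | h5 <;>
        rcases a3f_sq8 β with h6 | h6 <;> omega
    obtain ⟨hp1, hq1, hr1, hb0⟩ := hpar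
    have hβ2 : 0 < β ^ 2 := by positivity
    have hpr : p < r := by
      by_contra hle
      have : r ^ 2 ≤ p ^ 2 := Nat.pow_le_pow_left (by omega) 2
      omega
    obtain ⟨V, hV⟩ : ∃ V, r = p + 2 * V := ⟨(r - p) / 2, by omega⟩
    have hV0 : 0 < V := by omega
    have e1 : (p + V) ^ 2 + V ^ 2 = q ^ 2 := by
      rw [hV] at h2
      have h3 : (p + 2 * V) ^ 2 = p ^ 2 + 4 * (p * V) + 4 * V ^ 2 := by ring
      have h4 : (p + V) ^ 2 = p ^ 2 + 2 * (p * V) + V ^ 2 := by ring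
      omega
    have e2 : 2 * ((p + V) * V) = 3 * β ^ 2 := by
      have h4 : (p + V) ^ 2 = p ^ 2 + 2 * (p * V) + V ^ 2 := by ring
      have h5 : (p + V) * V = p * V + V ^ 2 := by ring
      omega
    have cUV : (p + V).Coprime V := by
      rw [Nat.coprime_add_self_left]
      refine Nat.Coprime.symm ?_
      by_contra hc
      obtain ⟨d, hd, hd1, hd2⟩ := Nat.Prime.not_coprime_iff_dvd.1 hc
      have h3 : d ∣ q ^ 2 := by
        rw [← e1]
        exact dvd_add (Dvd.dvd.pow (dvd_add hd2 hd1) two_ne_zero) (Dvd.dvd.pow hd1 two_ne_zero)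
      exact Nat.Prime.not_coprime_iff_dvd.2 ⟨d, hd, hd2, hd.dvd_of_dvd_pow h3⟩ hpq
    obtain ⟨γ, hγ⟩ : ∃ γ, β = 2 * γ := ⟨β / 2, by omega⟩
    -- the parametrisation
    have key : ∃ S T : ℕ, 0 < T ∧ T < S ∧ S.Coprime T ∧ (S + T) % 2 = 1 ∧ ((p : ℤ) + V) * V = 2 * S * T * ((S : ℤ) ^ 2 - T ^ 2) := by
      have hcase : ∀ x y : ℤ, 0 < x → 0 < y → x % 2 = 1 → Int.gcd x y = 1 → x * x + y * y = (q : ℤ) * q →
          ∃ S T : ℕ, 0 < T ∧ T < S ∧ S.Coprime T ∧ (S + T) % 2 = 1 ∧ x * y = 2 * S * T * ((S : ℤ) ^ 2 - T ^ 2) := by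
        intro x y hx hy hx1 hg hxy
        have hq0 : (0 : ℤ) < q := by
          have : 0 < q := by omega
          exact_mod_cast this
        obtain ⟨m, n, e3, e4, e5, e6, e7, e8⟩ := PythagoreanTriple.coprime_classification' hxy hg hx1 hq0
        have hm : 0 < m := by
          rcases e8.lt_or_eq with h3 | h3
          · exact h3
          · rw [← h3] at e4; omega
        have hn : 0 < n := by
          by_contra hn
          have : 2 * m * n ≤ 0 := mul_nonpos_of_nonneg_of_nonpos (by omega) (by omega)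
          omega
        have hmn : n < m := by
          by_contra hle
          have : m ^ 2 ≤ n ^ 2 := pow_le_pow_left₀ e8 (not_lt.1 hle) 2
          omega
        lift m to ℕ using e8
        lift n to ℕ using hn.le
        refine ⟨m, n, by exact_mod_cast hn, by exact_mod_cast hmn, ?_, by omega, ?_⟩
        · rw [Int.gcd_natCast_natCast] at e6
          exact e6
        · rw [e3, e4]; ring
      have hU0 : (0 : ℤ) < (p : ℤ) + V := by
        have : 0 < p + V := by omega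
        exact_mod_cast this
      have hVz : (0 : ℤ) < V := by exact_mod_cast hV0
      have e1z : ((p : ℤ) + V) * (p + V) + V * V = (q : ℤ) * q := by
        have : (((p + V) ^ 2 + V ^ 2 : ℕ) : ℤ) = ((q ^ 2 : ℕ) : ℤ) := by rw [e1]
        push_cast at this
        linear_combination this
      have hg : Int.gcd ((p : ℤ) + V) V = 1 := by
        have : ((p : ℤ) + V) = ((p + V : ℕ) : ℤ) := by push_cast; ring
        rw [this, Int.gcd_natCast_natCast]
        exact cUV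
      rcases Nat.even_or_odd V with hev | hodd
      · have hV2 : V % 2 = 0 := Nat.even_iff.1 hev
        exact hcase _ _ hU0 hVz (by omega) hg e1z
      · have hV2 : V % 2 = 1 := Nat.odd_iff.1 hodd
        obtain ⟨S, T, k1, k2, k3, k4, k5⟩ := hcase V ((p : ℤ) + V) hVz hU0 (by omega)
          (by rw [Int.gcd_comm]; exact hg) (by rw [add_comm]; exact e1z)
        exact ⟨S, T, k1, k2, k3, k4, by rw [mul_comm]; exact k5⟩
    obtain ⟨S, T, hT, hTS, hST, hpar2, hprod⟩ := key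
    obtain ⟨D, rfl⟩ : ∃ D, S = T + D := ⟨S - T, by omega⟩
    have hD : 0 < D := by omega
    have hTD : T.Coprime D := by
      have : (D + T).Coprime T := by rw [add_comm]; exact hST
      exact ((Nat.coprime_add_self_left).1 this).symm
    have e3 : (T + D) * T * (D * (2 * T + D)) = 3 * γ ^ 2 := by
      have e2z : 2 * (((p : ℤ) + V) * V) = 3 * (β : ℤ) ^ 2 := by exact_mod_cast e2
      rw [hprod, hγ] at e2z
      push_cast at e2z
      have e4 : (((T + D) * T * (D * (2 * T + D)) : ℕ) : ℤ) = ((3 * γ ^ 2 : ℕ) : ℤ) := by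
        push_cast
        have e5 : 4 * (((T : ℤ) + D) * T * (D * (2 * T + D))) = 4 * (3 * (γ : ℤ) ^ 2) := by
          linear_combination e2z
        linarith
      exact_mod_cast e4
    obtain ⟨x, y, z, w, g1, g2, g3, g4⟩ := a3f_four T D γ hT hD hTD (by omega) e3
    have hx : 0 < x := by
      rcases Nat.eq_zero_or_pos x with rfl | h3
      · norm_num at g1; omega
      · exact h3
    have hyzw : 0 < y ^ 2 ∧ 0 < z ^ 2 ∧ 0 < w ^ 2 := by
      refine ⟨?_, ?_, ?_⟩ <;> omega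
    have hxγ : x ≤ γ := by
      have e5 : γ ^ 2 = x ^ 2 * (y ^ 2 * (z ^ 2 * w ^ 2)) := by
        rw [g2, g4, g3, g1] at e3
        have e6 : y ^ 2 * (3 * x ^ 2) * (z ^ 2 * w ^ 2) = 3 * (x ^ 2 * (y ^ 2 * (z ^ 2 * w ^ 2))) := by ring
        omega
      have e6 : x ^ 2 ≤ γ ^ 2 := by
        rw [e5]
        exact Nat.le_mul_of_pos_right _ (Nat.mul_pos hyzw.1 (Nat.mul_pos hyzw.2.1 hyzw.2.2))
      exact (Nat.pow_le_pow_iff_left two_ne_zero).1 e6
    refine ih x (by omega) hx z y w ?_ (by omega) (by omega)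
    have c8 : (z ^ 2).Coprime (y ^ 2) := by
      rw [← g3, ← g2, Nat.coprime_add_self_right]
      exact hTD.symm
    exact (Nat.coprime_pow_left_iff (by norm_num) z _).1 ((Nat.coprime_pow_right_iff (by norm_num) _ y).1 c8)

/-- Descent: there are no `p, q, r` and `β > 0` with `gcd(p, q) = 1`, `q^2 - p^2 = r^2 - q^2 = 3 β^2`.
Proof by strong induction on `β`. `p, q, r` are odd (mod 4 / mod 8) and pairwise coprime; put `U = (r+p)/2`,
`V = (r-p)/2`: `U^2 + V^2 = q^2`, `2UV = 3β^2`, `gcd(U,V) = 1`. Primitive Pythagorean triple (Mathlib: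
`PythagoreanTriple.coprime_classification'`): `{U, V} = {S^2 - T^2, 2ST}`, `S > T > 0` coprime of opposite parity,
`S T (S-T)(S+T) = 3 γ^2`, `2γ = β`. The four factors are pairwise coprime: one is 3 times a square, the others are
squares (signs: all positive). `S = 3x^2` or `S + T = 3x^2`: `z^2 + y^2 = 3x^2`, impossible mod 3 (coprime).
`S - T = 3x^2`: `S = y^2, T = z^2`, `y^2 ≡ z^2` mod 3 both nonzero, `S + T = w^2 ≡ 2` mod 3, impossible.
`T = 3x^2`: `S = y^2`, `S - T = z^2`, `S + T = w^2`: `y^2 - z^2 = w^2 - y^2 = 3x^2` with `0 < x < β`. -/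
theorem no_ap3 (β : ℕ) (hβ : 0 < β) (p q r : ℤ) (hpq : IsCoprime p q)
    (h1 : q ^ 2 - p ^ 2 = 3 * (β : ℤ) ^ 2) (h2 : r ^ 2 - q ^ 2 = 3 * (β : ℤ) ^ 2) : False := by
  refine a3f_aux β hβ p.natAbs q.natAbs r.natAbs (Int.isCoprime_iff_gcd_eq_one.1 hpq) ?_ ?_
  · have h3 : ((q.natAbs ^ 2 : ℕ) : ℤ) = ((p.natAbs ^ 2 + 3 * β ^ 2 : ℕ) : ℤ) := by
      push_cast
      rw [sq_abs, sq_abs]
      linarith
    exact_mod_cast h3
  · have h3 : ((r.natAbs ^ 2 : ℕ) : ℤ) = ((q.natAbs ^ 2 + 3 * β ^ 2 : ℕ) : ℤ) := by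
      push_cast
      rw [sq_abs, sq_abs]
      linarith
    exact_mod_cast h3

/-- Proof. `A = z^2`, `A^2 = 3B^2 + 1`. If `B > 0`: `A` odd case: `B` even, `(A-1)/2 · (A+1)/2 = 3 (B/2)^2`,
`(A+1)/2 = α^2`, `(A-1)/2 = 3β^2` (the other case is impossible mod 3), so `z^2 = A = 2α^2 - 1 = 6β^2 + 1`,
`α^2 = 3β^2 + 1`: `1, α, z` satisfy `α^2 - 1 = z^2 - α^2 = 3β^2`, contradiction with `no_ap3`, unless `β = 0`, i.e.
`A = 1`, `B = 0`. -/
theorem fourth_pell (z B : ℕ) (hz : Odd z) (h : z ^ 4 = 3 * B ^ 2 + 1) : B = 0 := by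
  have hz2 : z ^ 2 % 8 = 1 := by
    rcases a3f_sq8 z with h1 | h1
    · exact h1.2
    · have := Nat.odd_iff.1 hz; omega
  obtain ⟨C, hC⟩ : ∃ C, z ^ 2 = 2 * C + 1 := ⟨z ^ 2 / 2, by omega⟩
  have h4 : z ^ 4 = (z ^ 2) ^ 2 := by ring
  rw [h4, hC] at h
  have hB : 4 * (C * (C + 1)) = 3 * B ^ 2 := by
    have h5 : (2 * C + 1) ^ 2 = 4 * (C * (C + 1)) + 1 := by ring
    omega
  have hBe : B % 2 = 0 := by
    rcases a3f_sq8 B with h1 | h1
    · omega
    · exact h1.1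
  obtain ⟨D, rfl⟩ : ∃ D, B = 2 * D := ⟨B / 2, by omega⟩
  have hD : C * (C + 1) = 3 * D ^ 2 := by
    have h5 : (2 * D) ^ 2 = 4 * D ^ 2 := by ring
    omega
  rcases Nat.eq_zero_or_pos C with rfl | hC0
  · have : D ^ 2 = 0 := by omega
    have : D = 0 := by simpa using this
    omega
  · exfalso
    have hcop : C.Coprime (C + 1) := by simp
    rcases a3f_split3 hC0.ne' (by omega) hcop hD with ⟨r, s, h1, h2⟩ | ⟨r, s, h1, h2⟩
    · rcases a3f_sq3 r with h3 | h3 <;> omega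
    · have hr : 0 < r := by
        rcases Nat.eq_zero_or_pos r with rfl | h3
        · norm_num at h1; omega
        · exact h3
      exact a3f_aux r hr 1 s z (Nat.coprime_one_left s) (by omega) (by omega)

end Pool.Agent.Wal
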