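import Pool.Agent.Lib.MP_6498db_nt.W.A3e
import Pool.Agent.Lib.MP_6498db_nt.W.A3f

/-! WALSH, row A3g: `A^2 = 3B^2 + 1` with `A` odd: the datum `dat3`. -/

set_option autoImplicit false

namespace Pool.Agent.Wal

private theorem a3g_one {p : ℕ} [Fact p.Prime] {x s : ℕ} {z : ZMod p} (hz : z ≠ 0)
    (h : (x : ZMod p) * (s : ZMod p) ^ 2 = z ^ 2) : jacobiSym ((1 * x : ℕ) : ℤ) p = 1 := by
  have hs : (s : ZMod p) ≠ 0 := by
    intro h0
    rw [h0] at h
    exact pow_ne_zero 2 hz (by rw [← h]; ring)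
  have hx : (x : ZMod p) ≠ 0 := by
    intro h0
    rw [h0, zero_mul] at h
    exact pow_ne_zero 2 hz h.symm
  rw [one_mul, ← jacobiSym.legendreSym.to_jacobiSym,
    legendreSym.eq_one_iff p (by rw [Int.cast_natCast]; exact hx), Int.cast_natCast]
  refine ⟨z / (s : ZMod p), ?_⟩
  rw [div_mul_div_comm, eq_div_iff (mul_ne_zero hs hs), ← pow_two, ← pow_two, h]

private theorem a3g_ne {p : ℕ} (hp : p.Prime) (h3 : 3 < p) :
    (2 : ZMod p) ≠ 0 ∧ (3 : ZMod p) ≠ 0 := by
  constructor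
  · intro h
    have h1 : ((2 : ℕ) : ZMod p) = 0 := by exact_mod_cast h
    rw [ZMod.natCast_eq_zero_iff] at h1
    exact absurd (Nat.le_of_dvd (by norm_num) h1) (by omega)
  · intro h
    have h1 : ((3 : ℕ) : ZMod p) = 0 := by exact_mod_cast h
    rw [ZMod.natCast_eq_zero_iff] at h1
    exact absurd (Nat.le_of_dvd (by norm_num) h1) (by omega)

/-- `-3` a square. -/
private theorem a3g_three {p : ℕ} (hp : p.Prime) (h3 : 3 < p) {y : ZMod p}
    (h : y ^ 2 = -3) : p % 3 = 1 := by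
  have := Fact.mk hp
  obtain ⟨h2, h3'⟩ := a3g_ne hp h3
  have hw : ((y - 1) / 2) ^ 3 = 1 := by
    field_simp
    linear_combination (y - 3) * h
  have hw1 : (y - 1) / 2 ≠ 1 := by
    intro h1
    have h4 : y = 3 := by
      field_simp at h1
      linear_combination h1
    rw [h4] at h
    have h5 : (2 : ZMod p) * 2 * 3 = 0 := by linear_combination h
    exact mul_ne_zero (mul_ne_zero h2 h2) h3' h5
  have ho : orderOf ((y - 1) / 2) = 3 := orderOf_eq_prime hw hw1
  have hw0 : (y - 1) / 2 ≠ 0 := by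
    intro h0
    rw [h0] at hw
    norm_num at hw
  have h5 : ((y - 1) / 2) ^ (p - 1) = 1 := ZMod.pow_card_sub_one_eq_one hw0
  have h6 := orderOf_dvd_of_pow_eq_one h5
  rw [ho] at h6
  have h7 := hp.one_lt
  omega

private theorem a3g_mod {p : ℕ} (hp : p.Prime) (h3 : 3 < p) (h : p % 3 = 1) : p % 12 = 1 ∨ p % 12 = 7 := by
  have h2 : p % 2 = 1 := (hp.eq_two_or_odd).resolve_left (by omega)
  omega

private theorem a3g_sq3 {p : ℕ} (hp : p.Prime) (h : p % 12 = 1) : ∃ y : ZMod p, y ^ 2 = 3 := by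
  have := Fact.mk hp
  have : Fact (Nat.Prime 3) := ⟨Nat.prime_three⟩
  have h1 : IsSquare ((3 : ℕ) : ZMod p) := by
    rw [ZMod.exists_sq_eq_prime_iff_of_mod_four_eq_one (p := p) (q := 3) (by omega) (by norm_num)]
    have h2 : ((p : ℕ) : ZMod 3) = 1 := by
      have h3 : ((p : ℕ) : ZMod 3) = ((1 : ℕ) : ZMod 3) := by
        rw [ZMod.natCast_eq_natCast_iff']
        omega
      rw [h3, Nat.cast_one]
    rw [h2]
    exact ⟨1, by norm_num⟩
  obtain ⟨y, hy⟩ := h1
  exact ⟨y, by rw [pow_two, ← hy]; norm_num⟩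

private theorem a3g_sqm {p : ℕ} (hp : p.Prime) (h : p % 4 = 1) : ∃ y : ZMod p, y ^ 2 = -1 := by
  have := Fact.mk hp
  have h1 : IsSquare (-1 : ZMod p) := ZMod.exists_sq_eq_neg_one_iff.2 (by omega)
  obtain ⟨y, hy⟩ := h1
  exact ⟨y, by rw [pow_two, ← hy]⟩

private theorem a3g_nsq {b : ℕ} (hb : Squarefree b) (h1 : b ≠ 1) : ¬ IsSquare (1 * b) := by
  rintro ⟨r, hr⟩
  rw [one_mul] at hr
  have h2 : IsUnit r := hb r (by rw [hr])
  rw [Nat.isUnit_iff] at h2
  rw [h2] at hr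
  exact h1 (by simpa using hr)

/-- Proof. `H = A^2 + 3εAB + 3B^2 > 0` (`4H = (2A + 3εB)^2 + 3B^2`), `A, B, H` pairwise coprime (`3 ∤ A`), `B` even,
`H` odd. `split_sq` twice: `H = m1 □`, `A = m2 □`, `B = m3 □`, `m = m1 m2 m3`.
Primes `p > 3`: `p ∣ H`: `p ≡ 1` mod 12 (`h_primes`). `p ∣ A`: `-3B^2 ≡ 1`, so `(-3/p) = 1`, `p ≡ 1` mod 3, and
`H ≡ 3B^2`, so `(m1/p) = (3/p)`. `p ∣ B`: `H ≡ A^2`, `(m1/p) = 1`.
(i) `m1 > 1`: `b = m1`, `a = m2 m3`: `p ∣ a`, `p % 12 ≠ 7`: if `p ∣ B` fine; if `p ∣ A`: `p ≡ 1` mod 3 and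
`p % 12 ≠ 7`, so `p ≡ 1` mod 12 and `(3/p) = 1`.
(ii) `m1 = 1`, `m2 > 1`: `b = m2` (odd), `a = m3`. `p ∣ A`: `(3/p) = (m1/p) = 1` and `(-3/p) = 1`: `p ≡ 1` mod 12.
For `p ∣ m3`, `p % 12 ≠ 7`: as in `fourth_pell` `A = 2α^2 - 1 = 6β^2 + 1`, `B = 2αβ`, `α^2 = 3β^2 + 1`. `p ∣ β`:
`A ≡ 1`, `(m2/p) = (A/p) = 1`. `p ∣ α`: `A ≡ -1`, `(m2/p) = (-1/p)`, and `-3β^2 ≡ 1` gives `p ≡ 1` mod 3, so
`p ≡ 1` mod 12 and `(-1/p) = 1`.
(iii) `m1 = m2 = 1`: `A = z^2`, `z^4 = 3B^2 + 1`, contradiction with `fourth_pell` (`B > 0`). -/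
theorem a3_Aodd (m : ℕ) (hm : Squarefree m) (A B : ℕ) (ε : ℤ) (hε : ε = 1 ∨ ε = -1) (hA : Odd A) (hB : 0 < B)
    (h : A ^ 2 = 3 * B ^ 2 + 1) (t : ℕ) (ht : t ≠ 0)
    (hm' : (A : ℤ) * B * ((A : ℤ) ^ 2 + 3 * ε * A * B + 3 * B ^ 2) = (m : ℤ) * (t : ℤ) ^ 2) :
    ∃ a b : ℕ, a * b = m ∧ Fits dat3 a b := by
  have hBe : Even B := by
    rcases Nat.even_or_odd B with h0 | h0
    · exact h0
    · exfalso
      obtain ⟨x, hx⟩ := hA
      obtain ⟨y, hy⟩ := h0
      rw [hx, hy] at h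
      have h1 : (2 * x + 1) ^ 2 = 4 * (x * x + x) + 1 := by ring
      have h2 : 3 * (2 * y + 1) ^ 2 + 1 = 4 * (3 * (y * y + y) + 1) := by ring
      rw [h1, h2] at h
      omega
  have hA0 : 0 < A := hA.pos
  have hA3 : ¬ 3 ∣ A := by
    rintro ⟨x, hx⟩
    rw [hx] at h
    have h1 : (3 * x) ^ 2 = 3 * (3 * x ^ 2) := by ring
    rw [h1] at h
    omega
  have hAB : A.Coprime B := by
    rw [Nat.coprime_iff_gcd_eq_one, ← Nat.dvd_one]
    have h1 : A.gcd B ∣ 3 * B ^ 2 := Dvd.dvd.mul_left (dvd_pow (Nat.gcd_dvd_right A B) two_ne_zero) _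
    have h2 : A.gcd B ∣ 3 * B ^ 2 + 1 := by
      rw [← h]
      exact dvd_pow (Nat.gcd_dvd_left A B) two_ne_zero
    exact (Nat.dvd_add_right h1).1 h2
  have hH0 : 0 < (A : ℤ) ^ 2 + 3 * ε * A * B + 3 * B ^ 2 := by
    have hB' : (0 : ℤ) < B := by exact_mod_cast hB
    have he2 : ε ^ 2 = 1 := by rcases hε with rfl | rfl <;> norm_num
    nlinarith [sq_nonneg (2 * (A : ℤ) + 3 * ε * B), pow_pos hB' 2]
  obtain ⟨H, hH⟩ : ∃ H : ℕ, (H : ℤ) = (A : ℤ) ^ 2 + 3 * ε * A * B + 3 * B ^ 2 :=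
    ⟨((A : ℤ) ^ 2 + 3 * ε * A * B + 3 * B ^ 2).toNat, Int.toNat_of_nonneg hH0.le⟩
  have hHpos : 0 < H := by
    have h1 : (0 : ℤ) < H := by rw [hH]; exact hH0
    exact_mod_cast h1
  have hmul : A * B * H = m * t ^ 2 := by
    have h1 : ((A * B * H : ℕ) : ℤ) = ((m * t ^ 2 : ℕ) : ℤ) := by
      push_cast
      rw [hH]
      exact hm'
    exact_mod_cast h1
  have hHodd : Odd H := by
    have h1 : Odd ((H : ℕ) : ℤ) := by
      rw [hH]
      obtain ⟨y, hy⟩ := hBe
      obtain ⟨x, hx⟩ := hA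
      refine ⟨2 * x ^ 2 + 2 * x + 3 * ε * A * y + 6 * y ^ 2, ?_⟩
      rw [hy, hx]
      push_cast
      ring
    exact_mod_cast h1
  -- the identity modulo a prime
  have hHp : ∀ p : ℕ, (H : ZMod p) = (A : ZMod p) ^ 2 + 3 * (ε : ZMod p) * A * B + 3 * B ^ 2 := by
    intro p
    have h1 := congrArg (Int.cast : ℤ → ZMod p) hH
    push_cast at h1
    exact h1
  have hp2 : ∀ p : ℕ, (A : ZMod p) ^ 2 = 3 * (B : ZMod p) ^ 2 + 1 := by
    intro p
    have h1 := congrArg (Nat.cast : ℕ → ZMod p) h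
    push_cast at h1
    exact h1
  have hABn : ∀ p : ℕ, p.Prime → p ∣ A → ¬ p ∣ B := by
    intro p hp h1 h2
    have h3 := Nat.dvd_gcd h1 h2
    rw [hAB] at h3
    exact hp.one_lt.ne' (Nat.dvd_one.1 h3)
  have hcop : (A * B).Coprime H := by
    refine Nat.Coprime.mul_left ?_ ?_
    · refine Nat.coprime_of_dvd fun p hp h1 h2 => ?_
      have h3 := hHp p
      rw [(ZMod.natCast_eq_zero_iff _ _).2 h1, (ZMod.natCast_eq_zero_iff _ _).2 h2] at h3
      have h4 : ((3 * B ^ 2 : ℕ) : ZMod p) = 0 := by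
        push_cast
        linear_combination -h3
      rw [ZMod.natCast_eq_zero_iff] at h4
      rcases hp.dvd_mul.1 h4 with h5 | h5
      · rw [Nat.prime_dvd_prime_iff_eq hp Nat.prime_three] at h5
        rw [h5] at h1
        exact hA3 h1
      · exact hABn p hp h1 (hp.dvd_of_dvd_pow h5)
    · refine Nat.coprime_of_dvd fun p hp h1 h2 => ?_
      have h3 := hHp p
      rw [(ZMod.natCast_eq_zero_iff _ _).2 h1, (ZMod.natCast_eq_zero_iff _ _).2 h2] at h3
      have h4 : ((A ^ 2 : ℕ) : ZMod p) = 0 := by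
        push_cast
        linear_combination -h3
      rw [ZMod.natCast_eq_zero_iff] at h4
      exact hABn p hp (hp.dvd_of_dvd_pow h4) h1
  obtain ⟨a', m1, r, s, ha', hAB', hHs⟩ :=
    split_sq m hm (A * B) H t (Nat.mul_ne_zero hA0.ne' hB.ne') hHpos.ne' hcop hmul
  have hsa : Squarefree a' := hm.squarefree_of_dvd ⟨m1, ha'.symm⟩
  have hsm : Squarefree m1 := hm.squarefree_of_dvd ⟨a', by rw [← ha', mul_comm]⟩
  obtain ⟨m2, m3, x, y, hm23, hAx, hBy⟩ := split_sq a' hsa A B r hA0.ne' hB.ne' hAB hAB'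
  have hsm2 : Squarefree m2 := hsa.squarefree_of_dvd ⟨m3, hm23.symm⟩
  -- a prime divisor of `A` is `1` modulo `3`
  have hpA : ∀ p : ℕ, p.Prime → 3 < p → p ∣ A → p % 3 = 1 := by
    intro p hp h3 h1
    have := Fact.mk hp
    have h2 := hp2 p
    rw [(ZMod.natCast_eq_zero_iff _ _).2 h1] at h2
    refine a3g_three hp h3 (y := 3 * (B : ZMod p)) ?_
    linear_combination -3 * h2
  have hBne : ∀ p : ℕ, p.Prime → p ∣ A → (B : ZMod p) ≠ 0 := by
    intro p hp h1 h2
    rw [ZMod.natCast_eq_zero_iff] at h2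
    exact hABn p hp h1 h2
  by_cases hm1 : m1 = 1
  · by_cases hm2 : m2 = 1
    · -- both trivial
      exfalso
      have h1 : A = x ^ 2 := by rw [hAx, hm2, one_mul]
      have h2 : x ^ 4 = 3 * B ^ 2 + 1 := by
        rw [← h, h1]
        ring
      have h3 : Odd x := by
        rw [h1] at hA
        exact Nat.Odd.of_mul_left (by rwa [pow_two] at hA)
      exact hB.ne' (fourth_pell x B h3 h2)
    · refine ⟨m3, m2, by rw [mul_comm, hm23, ← ha', hm1, mul_one], ?_⟩
      refine ⟨a3g_nsq hsm2 hm2, ?_, ?_, ?_, ?_⟩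
      · rw [hAx] at hA
        exact Nat.Odd.of_mul_left hA
      · intro p hp h3 hd
        have := Fact.mk hp
        obtain ⟨h2', h3'⟩ := a3g_ne hp h3
        have hdA : p ∣ A := by
          rw [hAx]
          exact Dvd.dvd.mul_right hd _
        have h1 := hpA p hp h3 hdA
        have h2 := hHp p
        have h4 := hp2 p
        have hB0 := hBne p hp hdA
        rw [(ZMod.natCast_eq_zero_iff _ _).2 hdA] at h2 h4
        rw [hHs, hm1] at h2
        push_cast at h2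
        have h5 : p % 4 = 1 := by
          have h6 : IsSquare (-1 : ZMod p) := by
            refine ⟨3 * (B : ZMod p) ^ 2 / s, ?_⟩
            have hs : (s : ZMod p) ≠ 0 := by
              intro h0
              rw [h0] at h2
              have h7 : (3 : ZMod p) * (B : ZMod p) ^ 2 = 0 := by linear_combination -h2
              exact mul_ne_zero h3' (pow_ne_zero 2 hB0) h7
            rw [div_mul_div_comm, eq_div_iff (mul_ne_zero hs hs)]
            linear_combination -h2 + 3 * (B : ZMod p) ^ 2 * h4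
          have h7 := ZMod.exists_sq_eq_neg_one_iff.1 h6
          have h8 : p % 2 = 1 := (hp.eq_two_or_odd).resolve_left (by omega)
          omega
        show p % 12 = 1
        omega
      · intro p hp h3 hd hc
        have := Fact.mk hp
        obtain ⟨h2', h3'⟩ := a3g_ne hp h3
        change p % 12 ≠ 7 at hc
        show jacobiSym ((1 * m2 : ℕ) : ℤ) p = 1
        obtain ⟨α, β, hα0, hβ0, hαβ, hB2, hA2⟩ := a3_even A B hBe hB h
        have hdB : p ∣ B := by
          rw [hBy]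
          exact Dvd.dvd.mul_right hd _
        have hA2' : (A : ZMod p) + 1 = 2 * (α : ZMod p) ^ 2 := by exact_mod_cast congrArg (Nat.cast : ℕ → ZMod p) hA2
        have hαβ' : (α : ZMod p) ^ 2 = 3 * (β : ZMod p) ^ 2 + 1 := by exact_mod_cast congrArg (Nat.cast : ℕ → ZMod p) hαβ
        have hAx' : (A : ZMod p) = (m2 : ZMod p) * (x : ZMod p) ^ 2 := by exact_mod_cast congrArg (Nat.cast : ℕ → ZMod p) hAx
        have h4 : p ∣ α ∨ p ∣ β := by
          rw [hB2] at hdB
          rcases hp.dvd_mul.1 hdB with h5 | h5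
          · rcases hp.dvd_mul.1 h5 with h6 | h6
            · exact absurd (Nat.le_of_dvd (by norm_num) h6) (by omega)
            · exact Or.inl h6
          · exact Or.inr h5
        rcases h4 with h4 | h4
        · have h5 : (α : ZMod p) = 0 := (ZMod.natCast_eq_zero_iff _ _).2 h4
          rw [h5] at hA2' hαβ'
          have h6 : p % 3 = 1 := by
            refine a3g_three hp h3 (y := 3 * (β : ZMod p)) ?_
            linear_combination -3 * hαβ'
          have h7 : p % 12 = 1 := (a3g_mod hp h3 h6).resolve_right hc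
          obtain ⟨i, hi⟩ := a3g_sqm hp (by omega : p % 4 = 1)
          refine a3g_one (s := x) (z := i) ?_ ?_
          · rintro rfl
            have h8 : (1 : ZMod p) = 0 := by linear_combination hi
            exact one_ne_zero h8
          · rw [← hAx', hi]
            linear_combination hA2'
        · have h5 : (β : ZMod p) = 0 := (ZMod.natCast_eq_zero_iff _ _).2 h4
          rw [h5] at hαβ'
          refine a3g_one (s := x) (z := 1) one_ne_zero ?_
          rw [← hAx']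
          linear_combination hA2' + 2 * hαβ'
      · intro q _ _ _ hc
        exact hc.elim
  · refine ⟨a', m1, ha', a3g_nsq hsm hm1, ?_, ?_, ?_, ?_⟩
    · rw [hHs] at hHodd
      exact Nat.Odd.of_mul_left hHodd
    · intro p hp h3 hd
      show p % 12 = 1
      refine h_primes A B ε hε h p hp h3 ?_
      rw [← hH]
      have h1 : p ∣ H := by
        rw [hHs]
        exact Dvd.dvd.mul_right hd _
      exact_mod_cast h1
    · intro p hp h3 hd hc
      have := Fact.mk hp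
      obtain ⟨h2', h3'⟩ := a3g_ne hp h3
      change p % 12 ≠ 7 at hc
      show jacobiSym ((1 * m1 : ℕ) : ℤ) p = 1
      have hHs' : (H : ZMod p) = (m1 : ZMod p) * (s : ZMod p) ^ 2 := by exact_mod_cast congrArg (Nat.cast : ℕ → ZMod p) hHs
      have h1 : p ∣ A * B := by
        rw [hAB']
        exact Dvd.dvd.mul_right hd _
      have h2 := hHp p
      rcases hp.dvd_mul.1 h1 with h4 | h4
      · have h5 : (A : ZMod p) = 0 := (ZMod.natCast_eq_zero_iff _ _).2 h4
        have h7 : p % 12 = 1 := (a3g_mod hp h3 (hpA p hp h3 h4)).resolve_right hc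
        obtain ⟨i, hi⟩ := a3g_sq3 hp h7
        rw [h5] at h2
        refine a3g_one (s := s) (z := i * B) ?_ ?_
        · refine mul_ne_zero ?_ (hBne p hp h4)
          rintro rfl
          exact h3' (by linear_combination -hi)
        · rw [← hHs', h2]
          linear_combination -(B : ZMod p) ^ 2 * hi
      · have h5 : (B : ZMod p) = 0 := (ZMod.natCast_eq_zero_iff _ _).2 h4
        rw [h5] at h2
        refine a3g_one (s := s) (z := (A : ZMod p)) ?_ ?_
        · intro h0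
          rw [ZMod.natCast_eq_zero_iff] at h0
          exact hABn p hp h0 h4
        · rw [← hHs', h2]
          ring
    · intro q _ _ _ hc
      exact hc.elim

end Pool.Agent.Wal
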