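import Pool.Agent.Lib.MP_6498db_nt.W.A3a
import Pool.Agent.Lib.MP_6498db_nt.W.A3b
import Pool.Agent.Lib.MP_6498db_nt.W.A3c
import Pool.Agent.Lib.MP_6498db_nt.W.A3g

/-! WALSH, row Arith3: the arithmetic of the exponent 3. -/

set_option autoImplicit false

namespace Pool.Agent.Wal

private theorem sq_dvd_aux (p m k : ℕ) (hp : p.Prime) (hm : Squarefree m) (h : p ^ 2 ∣ m * k ^ 2) : p ∣ k := by
  by_contra hk
  have hc : Nat.Coprime p k := (Nat.Prime.coprime_iff_not_dvd hp).2 hk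
  have hc2 : Nat.Coprime (p ^ 2) (k ^ 2) := Nat.Coprime.pow 2 2 hc
  have h9 : p ^ 2 ∣ m := hc2.dvd_of_dvd_mul_right h
  have h1 : IsUnit p := hm p (by rw [← pow_two]; exact h9)
  exact hp.one_lt.ne' (Nat.isUnit_iff.1 h1)

private theorem even_case (m : ℕ) (hm : Squarefree m) (a u : ℕ) (ε : ℤ) (hε : ε = 1 ∨ ε = -1) (hu : Even u)
    (hu0 : 0 < u) (h : a ^ 2 = 3 * u ^ 2 + 1) (t : ℕ) (ht : t ≠ 0)
    (hm' : (u : ℤ) * (2 * a + 3 * ε * u) = (m : ℤ) * (t : ℤ) ^ 2) :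
    (∀ p : ℕ, p.Prime → p % 24 = 7 → ¬ p ∣ m) ∨ ∃ a b : ℕ, a * b = m ∧ Fits dat3 a b := by
  obtain ⟨A, B, hA0, hB0, hAB, huAB, haA⟩ := a3_even a u hu hu0 h
  have hABz : (A : ℤ) ^ 2 = 3 * (B : ℤ) ^ 2 + 1 := by exact_mod_cast hAB
  have huz : (u : ℤ) = 2 * A * B := by exact_mod_cast huAB
  have haz : (a : ℤ) + 1 = 2 * (A : ℤ) ^ 2 := by exact_mod_cast haA
  have key : (m : ℤ) * (t : ℤ) ^ 2 = 4 * ((A : ℤ) * B * ((A : ℤ) ^ 2 + 3 * ε * A * B + 3 * B ^ 2)) := by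
    have ha2 : (a : ℤ) = 2 * (A : ℤ) ^ 2 - 1 := by linarith
    rw [← hm', huz, ha2]
    linear_combination (4 * A * B : ℤ) * hABz
  have hd : 2 ^ 2 ∣ m * t ^ 2 := by
    have : ((2 ^ 2 : ℕ) : ℤ) ∣ ((m * t ^ 2 : ℕ) : ℤ) := by
      push_cast
      rw [key]
      exact Dvd.intro _ rfl
    exact Int.natCast_dvd_natCast.1 this
  obtain ⟨s, hs⟩ := sq_dvd_aux 2 m t Nat.prime_two hm hd
  have hs0 : s ≠ 0 := by
    rintro rfl
    exact ht (by simpa using hs)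
  have key2 : (A : ℤ) * B * ((A : ℤ) ^ 2 + 3 * ε * A * B + 3 * B ^ 2) = (m : ℤ) * (s : ℤ) ^ 2 := by
    have hsz : (t : ℤ) = 2 * s := by exact_mod_cast hs
    rw [hsz] at key
    linarith
  rcases Nat.even_or_odd A with hAe | hAo
  · refine Or.inl fun p hp h7 hpm => ?_
    apply a3_Aeven A B ε hε hAe hAB p hp h7
    rw [key2]
    exact Dvd.dvd.mul_right (Int.natCast_dvd_natCast.2 hpm) _
  · exact Or.inr (a3_Aodd m hm A B ε hε hAo hB0 hAB s hs0 key2)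

/-- Assembly of `a3_coprime, a3_three, a3_pell, a3_odd, a3_even, a3_Aeven, a3_Aodd`.
If `3 ∣ w - 1`, `w = 1 + 3c`: `|w^3 - 1| = 9 |c| (3c^2 + 3c + 1)`, so `3 ∣ k` (`9 ∣ m k^2`, `m` squarefree) and
`a3_three` applies. In its second alternative `|c| = u (2a + 3εu) = m t^2`, `u > 0`. `u` odd: first alternative of the
theorem. `u` even: `u (2a + 3εu) = 4 A B H`, `H = A^2 + 3εAB + 3B^2` (`2a = 4A^2 - 2`, `1 = A^2 - 3B^2`), `t` is even
(`4 ∣ m t^2`), `A B H = m (t/2)^2`. `A` even: second alternative; `A` odd: `a3_Aodd`. -/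
theorem arith3 (m : ℕ) (hm : Squarefree m) (w : ℤ) (hw : 2 ≤ |w|) (k : ℕ) (hk : k ≠ 0)
    (h : |w ^ 3 - 1| = (m : ℤ) * (k : ℤ) ^ 2) :
    (∀ p : ℕ, p.Prime → p % 24 = 13 → ¬ p ∣ m) ∨ (∀ p : ℕ, p.Prime → p % 24 = 7 → ¬ p ∣ m) ∨
      ∃ a b : ℕ, a * b = m ∧ (Fits dat1 a b ∨ Fits dat2 a b ∨ Fits dat3 a b) := by
  by_cases h3 : (3 : ℤ) ∣ w - 1
  · obtain ⟨c, hcw⟩ := h3
    have hw1 : w = 1 + 3 * c := by linarith
    have hc0 : c ≠ 0 := by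
      rintro rfl
      rw [hw1] at hw
      norm_num at hw
    have hpos : 0 < 3 * c ^ 2 + 3 * c + 1 := by nlinarith [sq_nonneg (2 * c + 1)]
    have habs : |w ^ 3 - 1| = 9 * (|c| * (3 * c ^ 2 + 3 * c + 1)) := by
      have e : w ^ 3 - 1 = 9 * (c * (3 * c ^ 2 + 3 * c + 1)) := by rw [hw1]; ring
      rw [e, abs_mul, abs_mul, abs_of_pos hpos]
      norm_num
    have hd : 3 ^ 2 ∣ m * k ^ 2 := by
      have : ((3 ^ 2 : ℕ) : ℤ) ∣ ((m * k ^ 2 : ℕ) : ℤ) := by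
        push_cast
        rw [← h, habs]
        exact Dvd.intro _ rfl
      exact Int.natCast_dvd_natCast.1 this
    obtain ⟨k', hk'⟩ := sq_dvd_aux 3 m k Nat.prime_three hm hd
    have hk0 : k' ≠ 0 := by
      rintro rfl
      exact hk (by simpa using hk')
    have hkey : |c| * (3 * c ^ 2 + 3 * c + 1) = (m : ℤ) * (k' : ℤ) ^ 2 := by
      have hkz : (k : ℤ) = 3 * k' := by exact_mod_cast hk'
      rw [habs, hkz] at h
      linarith
    rcases a3_three m hm c hc0 k' hk0 hkey with ⟨a, b, hab, hf⟩ | ⟨v, t, ht, hv, hct⟩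
    · exact Or.inr (Or.inr ⟨a, b, hab, Or.inl hf⟩)
    · obtain ⟨a, u, ε, hε, hu, ha, hau, hcu⟩ := a3_pell c hc0 v hv
      rcases Nat.even_or_odd u with hue | huo
      · rcases even_case m hm a u ε hε hue hu hau t ht (hcu.symm.trans hct) with h1 | ⟨a', b', hab, hf⟩
        · exact Or.inr (Or.inl h1)
        · exact Or.inr (Or.inr ⟨a', b', hab, Or.inr (Or.inr hf)⟩)
      · refine Or.inl fun p hp h13 hpm => ?_
        apply a3_odd a u ε hε huo hau p hp h13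
        rw [← hcu, hct]
        exact Dvd.dvd.mul_right (Int.natCast_dvd_natCast.2 hpm) _
  · obtain ⟨a, b, hab, hf⟩ := a3_coprime m hm w hw k hk h h3
    exact Or.inr (Or.inr ⟨a, b, hab, Or.inr (Or.inl hf)⟩)

end Pool.Agent.Wal
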