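import Pool.Agent.Lib.MP_6498db_nt.W.A4a
import Pool.Agent.Lib.MP_6498db_nt.W.A4b
import Pool.Agent.Lib.MP_6498db_nt.W.A4c
import Pool.Agent.Lib.MP_6498db_nt.W.Arith3

/-! WALSH, row Arith4: the arithmetic of the exponent 4, and of all `n` divisible by 3 or 4. -/

set_option autoImplicit false

namespace Pool.Agent.Wal

/-- Assembly: `a4_even`, `a4_odd` + `a4_pell` + `a4_fits` (`8 (m t^2) + 1 = x^2 = 8 n l (n+l)(n+2l) + 1`). -/
theorem arith4 (m : ℕ) (hm : Squarefree m) (x : ℕ) (hx : 2 ≤ x) (k : ℕ) (h : x ^ 4 = m * k ^ 2 + 1) :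
    ∃ a b : ℕ, a * b = m ∧ (Fits dat5 a b ∨ Fits dat6 a b ∨ Fits (dat7 1) a b ∨ Fits (dat7 (-1)) a b) := by
  rcases Nat.even_or_odd x with he | ho
  · obtain ⟨a, b, hab, hf⟩ := a4_even m hm x he hx k h
    exact ⟨a, b, hab, Or.inr (Or.inl hf)⟩
  · rcases a4_odd m hm x ho hx k h with ⟨a, b, hab, hf⟩ | ⟨v, t, _, hv, ht⟩
    · exact ⟨a, b, hab, Or.inl hf⟩
    · obtain ⟨n, l, η, hη, hn, hl, hpell, hx2⟩ := a4_pell x v hx ho hv
      have hmt : n * l * (n + l) * (n + 2 * l) = m * t ^ 2 := by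
        rw [ht] at hx2
        omega
      obtain ⟨a, b, hab, hf⟩ := a4_fits m hm n l t hn hl η hη hpell hmt
      rcases hη with rfl | rfl
      · exact ⟨a, b, hab, Or.inr (Or.inr (Or.inl hf))⟩
      · exact ⟨a, b, hab, Or.inr (Or.inr (Or.inr hf))⟩

/-- Assembly: `3 ∣ n`: `x^n = (x^(n/3))^3`, `w = x^(n/3)` or `w = -x^(n/3)`, `|w^3 - 1| = m k^2` (`arith3`; `k ≠ 0`
because `x^n ≥ 8`). `4 ∣ n`: `x^n = (x^(n/4))^4`, sign `-`: `arith4`, sign `+`: `a4_plus` (second alternative: 7 mod 24 is 3 mod 4).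
(`n = 0` is excluded by `2 < n`.) -/
theorem arith (m : ℕ) (hm : Squarefree m) (x n k : ℕ) (hx : 1 < x) (hn : 2 < n) (hn' : 3 ∣ n ∨ 4 ∣ n)
    (h : x ^ n = m * k ^ 2 + 1 ∨ x ^ n + 1 = m * k ^ 2) :
    (∀ p : ℕ, p.Prime → p % 24 = 13 → ¬ p ∣ m) ∨ (∀ p : ℕ, p.Prime → p % 24 = 7 → ¬ p ∣ m) ∨
      ∃ a b : ℕ, a * b = m ∧ (Fits dat1 a b ∨ Fits dat2 a b ∨ Fits dat3 a b ∨ Fits dat5 a b ∨
        Fits dat6 a b ∨ Fits (dat7 1) a b ∨ Fits (dat7 (-1)) a b) := by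
  have hpow : ∀ j : ℕ, j ≠ 0 → 2 ≤ x ^ j := by
    intro j hj
    calc 2 ≤ x := hx
      _ ≤ x ^ j := Nat.le_self_pow hj x
  have hk : k ≠ 0 := by
    rintro rfl
    have h1 := hpow n (by omega)
    rcases h with h | h
    · rw [h] at h1
      simp at h1
    · simp at h
  rcases hn' with ⟨j, rfl⟩ | ⟨j, rfl⟩
  · have hj : j ≠ 0 := by
      rintro rfl
      simp at hn
    have hy := hpow j hj
    obtain ⟨y, hy'⟩ : ∃ y, y = x ^ j := ⟨_, rfl⟩
    rw [mul_comm 3 j, pow_mul, ← hy'] at h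
    rw [← hy'] at hy
    have key : ∃ w : ℤ, 2 ≤ |w| ∧ |w ^ 3 - 1| = (m : ℤ) * (k : ℤ) ^ 2 := by
      rcases h with h | h
      · refine ⟨(y : ℤ), ?_, ?_⟩
        · rw [abs_of_nonneg (Int.natCast_nonneg y)]
          exact_mod_cast hy
        · have h1 : (y : ℤ) ^ 3 - 1 = (m : ℤ) * (k : ℤ) ^ 2 := by
            have h2 : ((y ^ 3 : ℕ) : ℤ) = ((m * k ^ 2 + 1 : ℕ) : ℤ) := by rw [h]
            push_cast at h2
            linarith
          rw [h1, abs_of_nonneg (by positivity)]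
      · refine ⟨-(y : ℤ), ?_, ?_⟩
        · rw [abs_neg, abs_of_nonneg (Int.natCast_nonneg y)]
          exact_mod_cast hy
        · have h1 : (-(y : ℤ)) ^ 3 - 1 = -((m : ℤ) * (k : ℤ) ^ 2) := by
            have h2 : ((y ^ 3 + 1 : ℕ) : ℤ) = ((m * k ^ 2 : ℕ) : ℤ) := by rw [h]
            push_cast at h2
            linear_combination -h2
          rw [h1, abs_neg, abs_of_nonneg (by positivity)]
    obtain ⟨w, hw, hwe⟩ := key
    rcases arith3 m hm w hw k hk hwe with h1 | h1 | ⟨a, b, hab, h1⟩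
    · exact Or.inl h1
    · exact Or.inr (Or.inl h1)
    · refine Or.inr (Or.inr ⟨a, b, hab, ?_⟩)
      rcases h1 with h1 | h1 | h1
      · exact Or.inl h1
      · exact Or.inr (Or.inl h1)
      · exact Or.inr (Or.inr (Or.inl h1))
  · have hj : j ≠ 0 := by
      rintro rfl
      simp at hn
    have hy := hpow j hj
    rw [mul_comm 4 j, pow_mul] at h
    rcases h with h | h
    · obtain ⟨a, b, hab, h1⟩ := arith4 m hm (x ^ j) hy k h
      exact Or.inr (Or.inr ⟨a, b, hab, Or.inr (Or.inr (Or.inr h1))⟩)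
    · refine Or.inr (Or.inl fun p hp hp7 hd => ?_)
      have h1 := a4_plus m (x ^ j) k h p hp hd
      omega

end Pool.Agent.Wal
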