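import Pool.Agent.Lib.MP_6498db_nt.W.Defs

/-! WALSH, row GoodDat: the seven data are good. -/

set_option autoImplicit false

namespace Pool.Agent.Wal

private theorem gd_prod (lam : ℕ → ℝ) : ∏ r ∈ cls, lam r =
    lam 1 * lam 5 * lam 7 * lam 11 * lam 13 * lam 17 * lam 19 * lam 23 := by
  unfold cls
  rw [Finset.prod_insert (by decide), Finset.prod_insert (by decide),
    Finset.prod_insert (by decide), Finset.prod_insert (by decide),
    Finset.prod_insert (by decide), Finset.prod_insert (by decide),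
    Finset.prod_insert (by decide), Finset.prod_singleton]
  ring

/-- The data with one class condition for `b` and all of `a` prescribed. -/
private theorem gd_aux (c m : ℕ) (hc : 1 ≤ c) (hc' : c ≤ 3) (hm : m ∣ 24)
    (hprod : 1 < ∏ r ∈ cls, (if r % m = 1 then (2 / 3 : ℝ) else 2))
    (hout : ∃ r ∈ cls, r % m ≠ 1) :
    Good ⟨c, fun p => p % m = 1, fun _ => True, fun _ => 1, fun _ => False, fun _ => 1⟩ := by
  have hmod : ∀ p : ℕ, p % 24 % m = p % m := fun p => Nat.mod_mod_of_dvd p hm
  refine ⟨hc, hc', fun _ => Or.inl rfl, fun _ => Or.inl rfl, fun _ _ _ _ => ⟨trivial, rfl⟩,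
    ⟨fun r => if r % m = 1 then (2 / 3 : ℝ) else 2, fun r => ?_, fun p _ _ => ?_, hprod⟩, ?_⟩
  · dsimp only
    split_ifs <;> norm_num
  · unfold ka kb
    dsimp only
    rw [hmod, if_pos trivial]
    by_cases h : p % m = 1
    · rw [if_pos h, if_pos h, if_neg not_false]
      norm_num
    · rw [if_neg h, if_neg h]
      norm_num
  · obtain ⟨r, hr, hr'⟩ := hout
    refine ⟨r, hr, fun p _ hpr h => hr' ?_⟩
    rw [← hpr, hmod]
    exact h

/-- With `g(r) = ka + kb` on the class `r` mod 24 (both depend only on `p % 24`), take `lam r = 1/g(r)`: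
`g = 3/2` on the classes of `bP`, `1/2` on the others; product `(3/4)^4 < 1`. -/
theorem good1 : Good dat1 := by
  refine gd_aux 1 3 (by norm_num) (by norm_num) (by norm_num) ?_ ⟨5, by decide, by decide⟩
  rw [gd_prod]
  norm_num

theorem good2 : Good dat2 := by
  refine gd_aux 3 3 (by norm_num) (by norm_num) (by norm_num) ?_ ⟨5, by decide, by decide⟩
  rw [gd_prod]
  norm_num

/-- `g(1) = g(13) = 3/2`, `g(7) = g(19) = 1`, `g = 1/2` on `5, 11, 17, 23`. -/
theorem good3 : Good dat3 := by
  have hmod : ∀ p : ℕ, p % 24 % 12 = p % 12 := fun p => Nat.mod_mod_of_dvd p (by norm_num)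
  refine ⟨le_rfl, by norm_num [dat3], fun _ => Or.inl rfl, fun _ => Or.inl rfl,
    fun p _ _ h => ⟨?_, rfl⟩,
    ⟨fun r => if r % 12 = 1 then (2 / 3 : ℝ) else if r % 12 = 7 then 1 else 2, fun r => ?_,
      fun p _ _ => ?_, ?_⟩, ⟨5, by decide, fun p _ hp h => ?_⟩⟩
  · change p % 12 ≠ 7
    omega
  · dsimp only
    split_ifs <;> norm_num
  · unfold ka kb dat3
    dsimp only
    rw [hmod]
    by_cases h : p % 12 = 1
    · rw [if_pos h, if_pos h, if_neg not_false, if_pos (by omega)]
      norm_num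
    · rw [if_neg h, if_neg h]
      by_cases h7 : p % 12 = 7
      · rw [if_pos h7, if_neg (not_not.2 h7)]
        norm_num
      · rw [if_neg h7, if_pos h7]
        norm_num
  · rw [gd_prod]
    norm_num
  · change p % 12 = 1 at h
    omega

theorem good5 : Good dat5 := by
  refine gd_aux 1 4 (by norm_num) (by norm_num) (by norm_num) ?_ ⟨7, by decide, by decide⟩
  rw [gd_prod]
  norm_num

theorem good6 : Good dat6 := by
  refine gd_aux 2 4 (by norm_num) (by norm_num) (by norm_num) ?_ ⟨7, by decide, by decide⟩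
  rw [gd_prod]
  norm_num

/-- `g = 1` on the six classes `≠ 5` mod 8, `g(5) = g(13) = 1/2`. -/
theorem good7 (η : ℤ) (hη : η = 1 ∨ η = -1) : Good (dat7 η) := by
  have hmod : ∀ p : ℕ, p % 24 % 8 = p % 8 := fun p => Nat.mod_mod_of_dvd p (by norm_num)
  refine ⟨le_rfl, by norm_num [dat7], fun p => ?_, fun p => ?_, fun p _ _ h => ⟨trivial, ?_⟩,
    ⟨fun r => if r % 8 = 5 then (2 : ℝ) else 1, fun r => ?_, fun p _ _ => ?_, ?_⟩,
    ⟨5, by decide, fun p _ hp h => ?_⟩⟩
  · change (if p % 4 = 1 then (1 : ℤ) else η) = 1 ∨ (if p % 4 = 1 then (1 : ℤ) else η) = -1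
    split_ifs
    · exact Or.inl rfl
    · exact hη
  · change (if p % 8 = 1 then (1 : ℤ) else if p % 8 = 3 then η else -η) = 1 ∨
      (if p % 8 = 1 then (1 : ℤ) else if p % 8 = 3 then η else -η) = -1
    split_ifs
    · exact Or.inl rfl
    · exact hη
    · rcases hη with h | h
      · rw [h]
        exact Or.inr rfl
      · rw [h]
        exact Or.inl rfl
  · change (if p % 4 = 1 then (1 : ℤ) else η) = 1
    rw [if_pos h]
  · dsimp only
    split_ifs <;> norm_num
  · unfold ka kb dat7
    dsimp only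
    rw [hmod, if_pos trivial]
    by_cases h : p % 8 = 5
    · rw [if_pos h, if_neg (not_not.2 h)]
      norm_num
    · rw [if_neg h, if_pos h]
      norm_num
  · rw [gd_prod]
    norm_num
  · change p % 8 ≠ 5 at h
    omega

end Pool.Agent.Wal
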