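import Pool.Agent.Lib.MP_6498db_nt.W.Split

/-! WALSH, row A3a: `n = 3`, `w - 1` prime to 3. -/

set_option autoImplicit false

namespace Pool.Agent.Wal

private theorem a3a_mod (w : ℤ) (h3 : ¬ (3 : ℤ) ∣ w - 1) : (w ^ 2 + w + 1) % 3 = 1 := by
  have h : w % 3 = 0 ∨ w % 3 = 2 := by omega
  obtain ⟨q, hq⟩ : ∃ q, w = 3 * q ∨ w = 3 * q + 2 := by
    rcases h with h | h
    · exact ⟨w / 3, Or.inl (by omega)⟩
    · exact ⟨w / 3, Or.inr (by omega)⟩
  rcases hq with rfl | rfl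
  · have : (3 * q) ^ 2 + 3 * q + 1 = 3 * (3 * q ^ 2 + q) + 1 := by ring
    omega
  · have : (3 * q + 2) ^ 2 + (3 * q + 2) + 1 = 3 * (3 * q ^ 2 + 5 * q + 2) + 1 := by ring
    omega

/-- A prime divisor `p > 3` of `w^2 + w + 1` is `1` mod `3`. -/
private theorem a3a_prime {p : ℕ} (hp : p.Prime) (h3 : 3 < p) {w : ℤ}
    (h : (p : ℤ) ∣ w ^ 2 + w + 1) : p % 3 = 1 := by
  have : Fact p.Prime := ⟨hp⟩
  have h0 : ((w : ZMod p)) ^ 2 + w + 1 = 0 := by
    have := (ZMod.intCast_zmod_eq_zero_iff_dvd (w ^ 2 + w + 1) p).2 h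
    push_cast at this
    exact this
  have h3' : (3 : ZMod p) ≠ 0 := by
    intro h1
    have h2 : ((3 : ℕ) : ZMod p) = 0 := by exact_mod_cast h1
    rw [ZMod.natCast_eq_zero_iff] at h2
    have := Nat.le_of_dvd (by norm_num) h2
    omega
  have hw1 : (w : ZMod p) ≠ 1 := by
    intro h1
    rw [h1] at h0
    apply h3'
    linear_combination h0
  have hw3 : (w : ZMod p) ^ 3 = 1 := by linear_combination ((w : ZMod p) - 1) * h0
  have hw0 : (w : ZMod p) ≠ 0 := by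
    intro h1
    rw [h1] at hw3
    norm_num at hw3
  have hord : orderOf (w : ZMod p) = 3 := by
    have : Fact (Nat.Prime 3) := ⟨Nat.prime_three⟩
    exact orderOf_eq_prime hw3 hw1
  have hd : 3 ∣ p - 1 := by
    rw [← hord]
    exact orderOf_dvd_of_pow_eq_one (ZMod.pow_card_sub_one_eq_one hw0)
  have := hp.two_le
  omega

/-- Proof. `A = w^2 + w + 1 > 0`, `u = |w - 1| > 0`, `u A = m k^2`; `A = (w - 1)(w + 2) + 3`, so `gcd(u, A) = 1` (as
`3` does not divide `w - 1`). By `split_sq`: `u = a r^2`, `A = b s^2`, `a b = m`. `3 ∤ A` (`A ≡ 3` mod `w - 1` ... :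
`w ≡ 0, 2` mod 3 gives `A ≡ 1` mod 3). `b` is odd (`A` odd). `b ≠ 1` because `A` is not a square for `|w| ≥ 2`
(strictly between consecutive squares: `w > 0`: `w^2 < A < (w+1)^2`; `w ≤ -2`: `(|w|-1)^2 < A < w^2`).
`3 b` is not a square since `3 ∤ b`. A prime `p > 3` dividing `A` is `1` mod 3 (`-3` is a square mod `p`:
`(2w+1)^2 ≡ -3`; use `ZMod.exists_sq_eq_neg...` or `orderOf w = 3`: `w^3 = 1, w ≠ 1` mod `p`, so `3 ∣ p - 1`).
For `p ∣ a`, `p > 3`: `w ≡ 1`, so `b s^2 = A ≡ 3` mod `p`, hence `3 b` is a nonzero square mod `p`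
(`3 b ≡ 3 b · ...`: `3 b s^2 ≡ 9`), i.e. `jacobiSym (3 b) p = 1`. -/
theorem a3_coprime (m : ℕ) (hm : Squarefree m) (w : ℤ) (hw : 2 ≤ |w|) (k : ℕ) (hk : k ≠ 0)
    (h : |w ^ 3 - 1| = (m : ℤ) * (k : ℤ) ^ 2) (h3 : ¬ (3 : ℤ) ∣ w - 1) :
    ∃ a b : ℕ, a * b = m ∧ Fits dat2 a b := by
  have hA : 0 < w ^ 2 + w + 1 := by nlinarith [sq_nonneg (2 * w + 1)]
  obtain ⟨V, hV⟩ := Int.eq_ofNat_of_zero_le hA.le
  have hw1 : w - 1 ≠ 0 := by
    intro h1
    have : w = 1 := by omega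
    rw [this] at hw
    norm_num at hw
  set U : ℕ := (w - 1).natAbs with hU
  have hUV : U * V = m * k ^ 2 := by
    have h1 : ((U * V : ℕ) : ℤ) = ((m * k ^ 2 : ℕ) : ℤ) := by
      push_cast
      rw [← h, hU, Int.natCast_natAbs, ← hV, ← abs_of_pos hA, ← abs_mul]
      congr 1
      ring
    exact_mod_cast h1
  have hV0 : V ≠ 0 := by
    rintro rfl
    rw [hV] at hA
    simp at hA
  have hU0 : U ≠ 0 := Int.natAbs_ne_zero.2 hw1
  have hc : U.Coprime V := by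
    have h1 : IsCoprime (w - 1) (3 : ℤ) :=
      ((Int.prime_three.coprime_iff_not_dvd).2 h3).symm
    have h2 : IsCoprime (w - 1) (w ^ 2 + w + 1) := by
      have e : w ^ 2 + w + 1 = 3 + (w - 1) * (w + 2) := by ring
      rw [e]
      exact h1.add_mul_left_right (w + 2)
    have h4 := Int.isCoprime_iff_gcd_eq_one.1 h2
    rw [hV] at h4
    exact h4
  obtain ⟨a, b, r, s, hab, hUa, hVb⟩ := split_sq m hm U V k hU0 hV0 hc hUV
  have hmod := a3a_mod w h3
  have hb3 : ¬ 3 ∣ b := by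
    intro h1
    have h2 : (3 : ℕ) ∣ V := by rw [hVb]; exact h1.mul_right _
    have h4 : (3 : ℤ) ∣ w ^ 2 + w + 1 := by
      rw [hV]
      exact_mod_cast h2
    omega
  refine ⟨a, b, hab, ?_, ?_, ?_, ?_, ?_⟩
  · rintro ⟨x, hx⟩
    have hx' : 3 * b = x * x := hx
    have h1 : 3 ∣ x := by
      have : 3 ∣ x * x := by rw [← hx']; exact dvd_mul_right 3 b
      exact (Nat.prime_three.dvd_mul.1 this).elim id id
    obtain ⟨y, rfl⟩ := h1
    apply hb3
    refine ⟨y * y, ?_⟩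
    have : 3 * b = 3 * (3 * (y * y)) := by rw [hx']; ring
    exact Nat.eq_of_mul_eq_mul_left (by norm_num) this
  · have hodd : ¬ (2 : ℤ) ∣ w ^ 2 + w + 1 := by
      intro h1
      have h2 : (2 : ℤ) ∣ w * (w + 1) := (Int.even_mul_succ_self w).two_dvd
      have e : w ^ 2 + w + 1 = w * (w + 1) + 1 := by ring
      rw [e] at h1
      omega
    rw [← Nat.not_even_iff_odd]
    intro h1
    apply hodd
    have h2 : (2 : ℕ) ∣ V := by rw [hVb]; exact h1.two_dvd.mul_right _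
    rw [hV]
    exact_mod_cast h2
  · intro p hp hp3 hpb
    refine a3a_prime hp hp3 (w := w) ?_
    rw [hV]
    have : p ∣ V := by rw [hVb]; exact hpb.mul_right _
    exact_mod_cast this
  · intro p hp hp3 hpa _
    have : Fact p.Prime := ⟨hp⟩
    have h1 : (p : ℤ) ∣ w - 1 := by
      have : p ∣ U := by rw [hUa]; exact hpa.mul_right _
      exact Int.natCast_dvd.2 this
    have h2 : (p : ℤ) ∣ ((3 * b : ℕ) : ℤ) * (s : ℤ) ^ 2 - 3 ^ 2 := by
      have e : ((3 * b : ℕ) : ℤ) * (s : ℤ) ^ 2 - 3 ^ 2 = (w - 1) * (3 * (w + 2)) := by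
        have e1 : ((b : ℤ)) * (s : ℤ) ^ 2 = w ^ 2 + w + 1 := by
          rw [hV, hVb]
          push_cast
          ring
        push_cast
        linear_combination 3 * e1
      rw [e]
      exact h1.mul_right _
    have hs : (s : ℤ).gcd p = 1 := by
      rw [Int.gcd_natCast_natCast]
      refine ((Nat.Prime.coprime_iff_not_dvd hp).2 fun h4 => ?_).symm
      have h5 : (p : ℤ) ∣ 3 ^ 2 := by
        have h6 : (p : ℤ) ∣ ((3 * b : ℕ) : ℤ) * (s : ℤ) ^ 2 := by
          refine Dvd.dvd.mul_left ?_ _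
          rw [sq]
          exact (Int.natCast_dvd_natCast.2 h4).mul_right _
        have h7 := dvd_sub h6 h2
        rwa [sub_sub_cancel] at h7
      have h8 : p ∣ 3 ^ 2 := by exact_mod_cast h5
      have h9 := (Nat.prime_dvd_prime_iff_eq hp Nat.prime_three).1 (hp.dvd_of_dvd_pow h8)
      omega
    have h3p : (3 : ℤ).gcd p = 1 := by
      have : (3 : ℤ) = ((3 : ℕ) : ℤ) := by norm_num
      rw [this, Int.gcd_natCast_natCast]
      exact (Nat.coprime_primes Nat.prime_three hp).2 (by omega)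
    have h10 : jacobiSym (((3 * b : ℕ) : ℤ) * (s : ℤ) ^ 2) p = jacobiSym (3 ^ 2) p :=
      jacobiSym.mod_left' (Int.ModEq.symm ((Int.modEq_iff_dvd).2 h2))
    rw [jacobiSym.mul_left, jacobiSym.sq_one' hs, jacobiSym.sq_one' h3p, mul_one] at h10
    exact h10
  · intro q _ _ _ hq
    exact absurd hq id

end Pool.Agent.Wal
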