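import Pool.Agent.Lib.MP_6498db_nt.W.Split

/-! WALSH, row A3d: `a^2 = 3u^2 + 1` with `u` odd: no prime `13` mod 24. -/

set_option autoImplicit false

namespace Pool.Agent.Wal

private theorem a3d_sq {a b c : ℕ} (h : a.Coprime b) (e : a * b = c ^ 2) : ∃ d, a = d ^ 2 :=
  exists_eq_pow_of_mul_eq_pow (by
    rw [Nat.isUnit_iff]
    exact h) e

/-- `a^2 = 3 u^2 + 1`, `u` odd: then `a` is even, `(a-1)(a+1) = 3u^2` with coprime odd factors, `a - 1 = y^2`,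
`a + 1 = 3x^2`, `u = x y` (the other case `a + 1 = y^2, a - 1 = 3x^2` gives `y^2 ≡ 2` mod 3). -/
theorem pell_odd (a u : ℕ) (hu : Odd u) (h : a ^ 2 = 3 * u ^ 2 + 1) :
    ∃ x y : ℕ, Odd x ∧ Odd y ∧ x.Coprime y ∧ 3 * x ^ 2 = y ^ 2 + 2 ∧ a = y ^ 2 + 1 ∧ u = x * y := by
  have ha0 : a ≠ 0 := by
    rintro rfl
    omega
  obtain ⟨n, rfl⟩ := Nat.exists_eq_succ_of_ne_zero ha0
  have h1 : n * (n + 2) = 3 * u ^ 2 := by
    have h2 : (n + 1) ^ 2 = 3 * u ^ 2 + 1 := h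
    nlinarith
  have hodd : Odd (n * (n + 2)) := by
    rw [h1]
    exact Odd.mul (by decide) hu.pow
  have hn : Odd n := (Nat.odd_mul.1 hodd).1
  have hcop : n.Coprime (n + 2) := by
    rw [Nat.coprime_self_add_right]
    exact (Nat.coprime_two_right).2 hn
  have h3 : 3 ∣ n * (n + 2) := ⟨u ^ 2, h1⟩
  rcases (Nat.Prime.dvd_mul Nat.prime_three).1 h3 with h4 | h4
  · exfalso
    obtain ⟨b, rfl⟩ := h4
    have h5 : (3 * b + 2) * b = u ^ 2 := by nlinarith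
    have hc : (3 * b + 2).Coprime b := Nat.Coprime.symm (Nat.Coprime.coprime_mul_left hcop)
    obtain ⟨y, hy⟩ := a3d_sq hc h5
    have h6 : y ^ 2 % 3 = 2 := by omega
    have h7 : y % 3 = 0 ∨ y % 3 = 1 ∨ y % 3 = 2 := by omega
    rcases h7 with h8 | h8 | h8 <;> simp [Nat.pow_mod, h8] at h6
  · obtain ⟨b, hb⟩ := h4
    have h5 : n * b = u ^ 2 := by
      rw [hb] at h1
      nlinarith
    have hc : n.Coprime b := by
      rw [hb] at hcop
      exact Nat.Coprime.coprime_mul_left_right hcop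
    obtain ⟨y, hy⟩ := a3d_sq hc h5
    obtain ⟨x, hx⟩ := a3d_sq hc.symm (by rw [mul_comm]; exact h5)
    have h6 : u = x * y := by
      have h7 : u ^ 2 = (x * y) ^ 2 := by rw [← h5, hx, hy]; ring
      exact Nat.pow_left_injective (n := 2) (by norm_num) h7
    have h7 : Odd (x * y) := by rw [← h6]; exact hu
    refine ⟨x, y, (Nat.odd_mul.1 h7).1, (Nat.odd_mul.1 h7).2, ?_, ?_, ?_, h6⟩
    · have h8 : (y ^ 2).Coprime (x ^ 2) := by rw [← hx, ← hy]; exact hc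
      exact Nat.Coprime.symm ((Nat.coprime_pow_left_iff (by norm_num) _ _).1
        ((Nat.coprime_pow_right_iff (by norm_num) _ _).1 h8))
    · rw [← hx, ← hb, hy]
    · rw [Nat.succ_eq_add_one, hy]

/-- Proof, with `x, y` from `pell_odd`; `p ≡ 13` mod 24: `(-1/p) = 1`, `(2/p) = -1`, `(3/p) = 1`.
If `p ∣ x`: `y^2 ≡ -2`, so `(-2/p) = 1`, contradiction. If `p ∣ y`: `3x^2 ≡ 2`, `(6/p) = 1`, contradiction.
If `p ∣ h = 2a + 3εu`: `h = y^2 + 3εxy + 3x^2` (because `2 = 3x^2 - y^2`). Put `τ = 2y + 3εx`, `τ^2 ≡ -3x^2` mod `h`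
(`4h = τ^2 + 3x^2`); then `(8x)^2 ≡ -6 (x + ετ)^4` mod `h` (in fact
`8 = 12x^2 - 4y^2 = 12x^2 - (τ - 3εx)^2 ≡ 6x(x + ετ)` and `(x+ετ)^2 ≡ -2x(x - ετ)`, `(x+ετ)(x-ετ) ≡ 4x^2`), `p ∤ x`,
so `(-6/p) = 1`, contradiction. (Any other way to see `(2/p) = 1` from `p ∣ h`, `3x^2 = y^2 + 2`, `p ≡ 13` mod 24 is
fine: in `ZMod p` put `ρ = y/x`, `ρ^2 + 3ερ + 3 = 0`, `2/x^2 = 3 - ρ^2 = 6 + 3ερ`.) -/
theorem a3_odd (a u : ℕ) (ε : ℤ) (hε : ε = 1 ∨ ε = -1) (hu : Odd u) (h : a ^ 2 = 3 * u ^ 2 + 1)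
    (p : ℕ) (hp : p.Prime) (h13 : p % 24 = 13) : ¬ (p : ℤ) ∣ (u : ℤ) * (2 * a + 3 * ε * u) := by
  intro hd
  have hF : Fact p.Prime := ⟨hp⟩
  have hF3 : Fact (Nat.Prime 3) := ⟨Nat.prime_three⟩
  have hp2 : p ≠ 2 := by
    rintro rfl
    omega
  have hn2 : ¬ IsSquare (2 : ZMod p) := by
    rw [ZMod.exists_sq_eq_two_iff hp2]
    omega
  have hnn2 : ¬ IsSquare (-2 : ZMod p) := by
    rw [ZMod.exists_sq_eq_neg_two_iff hp2]
    omega
  have hs1 : IsSquare (-1 : ZMod p) := by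
    rw [ZMod.exists_sq_eq_neg_one_iff]
    omega
  have hs3 : IsSquare (3 : ZMod p) := by
    have h1 := (ZMod.exists_sq_eq_prime_iff_of_mod_four_eq_one (p := p) (q := 3) (by omega)
      (by norm_num)).2 (by
        have h2 : ((p : ℕ) : ZMod 3) = ((1 : ℕ) : ZMod 3) := by
          rw [ZMod.natCast_eq_natCast_iff']
          omega
        rw [h2, Nat.cast_one]
        exact IsSquare.one)
    exact_mod_cast h1
  have h30 : (3 : ZMod p) ≠ 0 := by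
    intro h0
    have h1 : ((3 : ℕ) : ZMod p) = 0 := by exact_mod_cast h0
    rw [ZMod.natCast_eq_zero_iff] at h1
    have h2 := (Nat.prime_dvd_prime_iff_eq hp Nat.prime_three).1 h1
    rw [h2] at h13
    omega
  obtain ⟨x, y, -, -, -, h3, h4, h5⟩ := pell_odd a u hu h
  have hZ : (3 : ZMod p) * (x : ZMod p) ^ 2 = (y : ZMod p) ^ 2 + 2 := by
    exact_mod_cast congrArg (Nat.cast : ℕ → ZMod p) h3
  have hE : ((ε : ℤ) : ZMod p) ^ 2 = 1 := by
    rcases hε with rfl | rfl <;> simp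
  have hz : ((u : ℕ) : ZMod p) * (2 * (a : ZMod p) + 3 * ((ε : ℤ) : ZMod p) * (u : ZMod p)) = 0 := by
    have h6 := (ZMod.intCast_zmod_eq_zero_iff_dvd _ p).2 hd
    push_cast at h6
    exact h6
  rw [h4, h5] at hz
  push_cast at hz
  rcases mul_eq_zero.1 hz with h6 | h6
  · rcases mul_eq_zero.1 h6 with h7 | h7
    · apply hnn2
      refine ⟨(y : ZMod p), ?_⟩
      rw [h7] at hZ
      linear_combination hZ
    · apply hn2
      rw [h7] at hZ
      have h8 : (2 : ZMod p) = 3 * ((x : ZMod p) * (x : ZMod p)) := by linear_combination -hZ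
      rw [h8]
      exact hs3.mul ⟨_, rfl⟩
  · apply hn2
    have h8 : IsSquare (-6 : ZMod p) := by
      refine ⟨3 * ((x : ZMod p) + ((ε : ℤ) : ZMod p) * (y : ZMod p)), ?_⟩
      linear_combination (-6) * h6 - 3 * hZ - 9 * (y : ZMod p) ^ 2 * hE
    have h9 : (2 : ZMod p) = (-6) * (-1) * 3 / (3 * 3) := by
      field_simp
      norm_num
    rw [h9]
    exact ((h8.mul hs1).mul hs3).div ⟨3, rfl⟩

end Pool.Agent.Wal
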