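import Pool.Agent.Lib.MP_6498db_nt.W.A3d

/-! WALSH, row A3e: `a^2 = 3u^2 + 1` with `u` even; `A` even: no prime `7` mod 24. -/

set_option autoImplicit false

namespace Pool.Agent.Wal

/-- `a` is odd, `((a-1)/2) ((a+1)/2) = 3 (u/2)^2`, consecutive, so coprime: `(a+1)/2 = A^2`, `(a-1)/2 = 3B^2`
(the other case gives `A^2 ≡ -1` mod 3), `u = 2AB`. -/
theorem a3_even (a u : ℕ) (hu : Even u) (hu0 : 0 < u) (h : a ^ 2 = 3 * u ^ 2 + 1) :
    ∃ A B : ℕ, 0 < A ∧ 0 < B ∧ A ^ 2 = 3 * B ^ 2 + 1 ∧ u = 2 * A * B ∧ a + 1 = 2 * A ^ 2 := by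
  obtain ⟨w, hw⟩ := hu
  obtain rfl : u = 2 * w := by omega
  have hw0 : 0 < w := by omega
  have ha : a % 2 = 1 := by
    rcases Nat.even_or_odd a with h0 | h0
    · exfalso
      obtain ⟨m, hm⟩ := h0
      have h5 : a ^ 2 = 2 * (2 * m ^ 2) := by rw [hm]; ring
      have h6 : (2 * w) ^ 2 = 2 * (2 * w ^ 2) := by ring
      omega
    · exact Nat.odd_iff.1 h0
  obtain ⟨k, hk⟩ : ∃ k, a = 2 * k + 1 := ⟨a / 2, by omega⟩
  subst hk
  have hprod : k * (k + 1) = 3 * w ^ 2 := by
    have h1 : 4 * (k * (k + 1)) = 4 * (3 * w ^ 2) := by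
      zify at h ⊢
      linear_combination h
    omega
  have hk0 : k ≠ 0 := by
    rintro rfl
    have : 0 < w ^ 2 := by positivity
    omega
  have hsq : Squarefree 3 := Nat.prime_three.squarefree
  obtain ⟨α, β, r, s, hab, h1, h2⟩ := split_sq 3 hsq _ _ w hk0 (by omega)
    (by rw [Nat.coprime_self_add_right]; exact Nat.coprime_one_right k) hprod
  have hα : α = 1 ∨ α = 3 := (Nat.dvd_prime Nat.prime_three).1 ⟨β, hab.symm⟩
  rcases hα with hα | hα
  · exfalso
    subst hα
    rw [one_mul] at hab h1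
    subst hab
    have h4 : r ^ 2 % 3 = 2 := by omega
    have h5 : r % 3 = 0 ∨ r % 3 = 1 ∨ r % 3 = 2 := by omega
    rcases h5 with h5 | h5 | h5 <;> simp [Nat.pow_mod, h5] at h4
  · subst hα
    have hβ : β = 1 := by omega
    subst hβ
    rw [one_mul] at h2
    have hws : w = s * r := by
      have h3 : w ^ 2 = (s * r) ^ 2 := by
        have h4 : 3 * w ^ 2 = 3 * (s * r) ^ 2 := by
          rw [← hprod, h2, h1]
          ring
        omega
      exact Nat.pow_left_injective (two_ne_zero) h3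
    refine ⟨s, r, ?_, ?_, by omega, ?_, by omega⟩
    · rcases Nat.eq_zero_or_pos s with h0 | h0
      · rw [h0] at h2
        simp at h2
      · exact h0
    · rcases Nat.eq_zero_or_pos r with h0 | h0
      · rw [h0] at h1
        simp at h1
        exact absurd h1 hk0
      · exact h0
    · rw [hws]
      ring

/-- What divides `h = A^2 + 3εAB + 3B^2` when `A^2 - 3B^2 = 1`: `(-3/p) = 1` and `(3/p) = 1`, so `p ≡ 1` mod 12.
Proof: `τ = 2A + 3εB`, `4h = τ^2 + 3B^2`, so `(-3/p) = 1` (`p ∤ B`, otherwise `p ∣ A`); and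
`4 = 4A^2 - 12B^2 ≡ -6B(B + ετ)`, `(B+ετ)^2 ≡ -2B(B-ετ)`, `(B+ετ)(B-ετ) ≡ 4B^2`, so
`(8B)^2 ≡ 12·((B+ετ)^2)^2` mod `h` (up to checking the constant): `3` is a square mod `p`. -/
theorem h_primes (A B : ℕ) (ε : ℤ) (hε : ε = 1 ∨ ε = -1) (h : A ^ 2 = 3 * B ^ 2 + 1)
    (p : ℕ) (hp : p.Prime) (h3 : 3 < p) (hd : (p : ℤ) ∣ (A : ℤ) ^ 2 + 3 * ε * A * B + 3 * B ^ 2) :
    p % 12 = 1 := by
  haveI : Fact p.Prime := ⟨hp⟩
  have hpodd : p % 2 = 1 := by
    rcases hp.eq_two_or_odd with h0 | h0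
    · omega
    · exact h0
  set x : ZMod p := (A : ZMod p) with hx
  set y : ZMod p := (B : ZMod p) with hy
  set e : ZMod p := (ε : ZMod p) with he
  have he2 : e ^ 2 = 1 := by
    rcases hε with h0 | h0 <;> · rw [he, h0]; push_cast; ring
  have h1 : x ^ 2 = 3 * y ^ 2 + 1 := by
    have := congrArg (Nat.cast : ℕ → ZMod p) h
    push_cast at this
    exact this
  have h2 : x ^ 2 + 3 * e * x * y + 3 * y ^ 2 = 0 := by
    have := (ZMod.intCast_zmod_eq_zero_iff_dvd _ p).2 hd
    push_cast at this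
    exact this
  have hne : ∀ n : ℕ, 0 < n → n < p → (n : ZMod p) ≠ 0 := by
    intro n hn hnp h0
    rw [ZMod.natCast_eq_zero_iff] at h0
    exact absurd (Nat.le_of_dvd hn h0) (by omega)
  have two : (2 : ZMod p) ≠ 0 := by exact_mod_cast hne 2 (by omega) (by omega)
  have three : (3 : ZMod p) ≠ 0 := by exact_mod_cast hne 3 (by omega) (by omega)
  have hy0 : y ≠ 0 := by
    intro h0
    rw [h0] at h1 h2
    have h4 : x ^ 2 = 1 := by rw [h1]; ring
    have h5 : x ^ 2 = 0 := by linear_combination h2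
    rw [h4] at h5
    exact one_ne_zero h5
  -- a square root of -3
  set t : ZMod p := (2 * x + 3 * e * y) / y with ht
  have ht1 : t * y = 2 * x + 3 * e * y := by rw [ht]; field_simp
  have ht2 : t ^ 2 = -3 := by
    have h5 : y ^ 2 * (t ^ 2 + 3) = 0 := by
      linear_combination (t * y + 2 * x + 3 * e * y) * ht1 + 4 * h2 + 9 * y ^ 2 * he2
    rcases mul_eq_zero.1 h5 with h6 | h6
    · exact absurd (pow_eq_zero_iff (two_ne_zero) |>.1 h6) hy0
    · linear_combination h6
  -- `p % 3 = 1`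
  have hmod3 : p % 3 = 1 := by
    set ω : ZMod p := (t - 1) / 2 with hω
    have hω1 : 2 * ω = t - 1 := by rw [hω]; field_simp
    have hω2 : ω ^ 2 + ω + 1 = 0 := by
      have h5 : 4 * (ω ^ 2 + ω + 1) = 0 := by
        linear_combination (2 * ω + t - 1 + 2) * hω1 + ht2
      have four : (4 : ZMod p) ≠ 0 := by
        have : (4 : ZMod p) = 2 * 2 := by norm_num
        rw [this]
        exact mul_ne_zero two two
      exact (mul_eq_zero.1 h5).resolve_left four
    have hω3 : ω ^ 3 = 1 := by linear_combination (ω - 1) * hω2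
    have hωne : ω ≠ 1 := by
      intro h0
      rw [h0] at hω2
      apply three
      linear_combination hω2
    have hω0 : ω ≠ 0 := by
      intro h0
      rw [h0] at hω3
      simp at hω3
    have hord : orderOf ω = 3 := by
      haveI : Fact (Nat.Prime 3) := ⟨Nat.prime_three⟩
      exact orderOf_eq_prime hω3 hωne
    have hdvd := ZMod.orderOf_dvd_card_sub_one hω0
    rw [hord] at hdvd
    omega
  -- `3` is a square
  have h3sq : ∃ z : ZMod p, z ^ 2 = 3 := by
    set ζ : ZMod p := (1 + e * t) / 2 with hζ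
    have hζ1 : 2 * ζ = 1 + e * t := by rw [hζ]; field_simp
    have hζ2 : ζ ^ 2 - ζ + 1 = 0 := by
      have h5 : 4 * (ζ ^ 2 - ζ + 1) = 0 := by
        linear_combination (2 * ζ + 1 + e * t - 2) * hζ1 + e ^ 2 * ht2 - 3 * he2
      have four : (4 : ZMod p) ≠ 0 := by
        have : (4 : ZMod p) = 2 * 2 := by norm_num
        rw [this]
        exact mul_ne_zero two two
      exact (mul_eq_zero.1 h5).resolve_left four
    have hζ3 : ζ ^ 3 = -1 := by linear_combination (ζ + 1) * hζ2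
    -- `y ^ 2 * (-3 * ζ) = 1`
    have h6 : y ^ 2 * (-3 * ζ) = 1 := by
      have h7 : 2 * (y ^ 2 * (-3 * ζ)) = 2 * 1 := by
        linear_combination (-3 * y ^ 2) * hζ1 - 3 * e * y * ht1 + 2 * h1 - 2 * h2
          - 9 * y ^ 2 * he2
      exact mul_left_cancel₀ two h7
    refine ⟨3 * y * ζ ^ 2, ?_⟩
    linear_combination 3 * h6 + 9 * y ^ 2 * ζ * hζ3
  have hm1 : IsSquare (-1 : ZMod p) := by
    obtain ⟨z, hz⟩ := h3sq
    refine ⟨t / z, ?_⟩
    have hz0 : z ≠ 0 := by
      rintro rfl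
      apply three
      rw [← hz]
      ring
    field_simp
    linear_combination - hz - ht2
  rw [ZMod.exists_sq_eq_neg_one_iff] at hm1
  omega

/-- Proof. `A` even, so `B` odd and `pell_odd` applies to `A^2 = 3B^2 + 1`: `A = y^2 + 1`, `B = x y`,
`3x^2 = y^2 + 2`. `p ≡ 7` mod 24: `(-1/p) = -1`, `(2/p) = 1`, `(3/p) = -1`. `p ∣ A`: `(-1/p) = 1`, no.
`p ∣ y`: `(6/p) = 1`, no. `p ∣ x`: `(-2/p) = 1`, no. `p ∣ h`: `h_primes`, no. -/
theorem a3_Aeven (A B : ℕ) (ε : ℤ) (hε : ε = 1 ∨ ε = -1) (hA : Even A) (h : A ^ 2 = 3 * B ^ 2 + 1)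
    (p : ℕ) (hp : p.Prime) (h7 : p % 24 = 7) :
    ¬ (p : ℤ) ∣ (A : ℤ) * B * ((A : ℤ) ^ 2 + 3 * ε * A * B + 3 * B ^ 2) := by
  haveI : Fact p.Prime := ⟨hp⟩
  have hp3 : 3 < p := by omega
  intro hd
  have hB : Odd B := by
    rcases Nat.even_or_odd B with h0 | h0
    · exfalso
      obtain ⟨m, hm⟩ := h0
      obtain ⟨l, hl⟩ := hA
      have h5 : B ^ 2 = 2 * (2 * m ^ 2) := by rw [hm]; ring
      have h6 : A ^ 2 = 2 * (2 * l ^ 2) := by rw [hl]; ring
      omega
    · exact h0
  obtain ⟨x, y, hxo, hyo, hxy, e1, e2, e3⟩ := pell_odd A B hB h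
  have hpZ : Prime (p : ℤ) := Nat.prime_iff_prime_int.1 hp
  have hm1 : ¬ IsSquare (-1 : ZMod p) := by
    rw [ZMod.exists_sq_eq_neg_one_iff]
    omega
  have hm2 : ¬ IsSquare (-2 : ZMod p) := by
    rw [ZMod.exists_sq_eq_neg_two_iff (by omega)]
    omega
  have h2s : IsSquare (2 : ZMod p) := by
    rw [ZMod.exists_sq_eq_two_iff (by omega)]
    omega
  have h3n : ¬ IsSquare (3 : ZMod p) := by
    haveI : Fact (Nat.Prime 3) := ⟨Nat.prime_three⟩
    have h5 := ZMod.exists_sq_eq_prime_iff_of_mod_four_eq_three (p := p) (q := 3) (by omega)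
      (by norm_num) (by omega)
    have h6 : IsSquare ((3 : ℕ) : ZMod p) ↔ IsSquare (3 : ZMod p) := by push_cast; rfl
    rw [← h6, h5, not_not]
    have h8 : (p : ZMod 3) = 1 := by
      have h10 : ((p : ℕ) : ZMod 3) = ((1 : ℕ) : ZMod 3) :=
        (ZMod.natCast_eq_natCast_iff p 1 3).2 (by unfold Nat.ModEq; omega)
      rw [h10, Nat.cast_one]
    rw [h8]
    exact ⟨1, by ring⟩
  rcases hpZ.dvd_or_dvd hd with h0 | h0
  · rcases hpZ.dvd_or_dvd h0 with h5 | h5
    · -- `p ∣ A`
      apply hm1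
      have h6 : (A : ZMod p) = 0 := by
        rw [ZMod.natCast_eq_zero_iff]
        exact_mod_cast h5
      rw [e2] at h6
      push_cast at h6
      exact ⟨(y : ZMod p), by linear_combination - h6⟩
    · have h6 : p ∣ x * y := by
        rw [← e3]
        exact_mod_cast h5
      have e1' : 3 * (x : ZMod p) ^ 2 = (y : ZMod p) ^ 2 + 2 := by
        have := congrArg (Nat.cast : ℕ → ZMod p) e1
        push_cast at this
        exact this
      rcases hp.dvd_mul.1 h6 with h8 | h8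
      · apply hm2
        have h9 : (x : ZMod p) = 0 := by rwa [ZMod.natCast_eq_zero_iff]
        rw [h9] at e1'
        exact ⟨(y : ZMod p), by linear_combination e1'⟩
      · apply h3n
        have h9 : (y : ZMod p) = 0 := by rwa [ZMod.natCast_eq_zero_iff]
        rw [h9] at e1'
        obtain ⟨z, hz⟩ := h2s
        have two : (2 : ZMod p) ≠ 0 := by
          intro h10
          have h11 : ((2 : ℕ) : ZMod p) = 0 := by exact_mod_cast h10
          rw [ZMod.natCast_eq_zero_iff] at h11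
          have := Nat.le_of_dvd (by omega) h11
          omega
        have hz0 : z ≠ 0 := by
          rintro rfl
          apply two
          rw [hz]
          ring
        have hx0 : (x : ZMod p) ≠ 0 := by
          intro h10
          rw [h10] at e1'
          apply two
          linear_combination - e1'
        refine ⟨z / (x : ZMod p), ?_⟩
        field_simp
        linear_combination e1' + hz
  · have := h_primes A B ε hε h p hp hp3 h0
    omega

end Pool.Agent.Wal
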