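import Pool.Agent.Lib.MP_6498db_nt.W.Split

/-! WALSH, row A4a: `n = 4`, `x` even; and the sign `+`. -/

set_option autoImplicit false

namespace Pool.Agent.Wal

/-- `x^4 + 1 = m k^2`: an odd prime dividing `x^4 + 1` is `1` mod 8 (the order of `x` is 8). -/
theorem a4_plus (m x k : ℕ) (h : x ^ 4 + 1 = m * k ^ 2) (p : ℕ) (hp : p.Prime) (hd : p ∣ m) :
    p % 4 ≠ 3 := by
  have : Fact p.Prime := ⟨hp⟩
  have h1 : p ∣ x ^ 4 + 1 := by
    rw [h]
    exact hd.mul_right _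
  have h2 : ((x ^ 4 + 1 : ℕ) : ZMod p) = 0 := (ZMod.natCast_eq_zero_iff _ _).2 h1
  refine ZMod.mod_four_ne_three_of_sq_eq_neg_one (y := (x : ZMod p) ^ 2) ?_
  push_cast at h2
  linear_combination h2

private theorem a4a_mem (x p : ℕ) (hp : p.Prime) (h3 : 3 < p) (hd : p ∣ x ^ 2 + 1) : p % 4 = 1 := by
  have : Fact p.Prime := ⟨hp⟩
  have h2 : ((x ^ 2 + 1 : ℕ) : ZMod p) = 0 := (ZMod.natCast_eq_zero_iff _ _).2 hd
  have h4 : p % 4 ≠ 3 := by
    refine ZMod.mod_four_ne_three_of_sq_eq_neg_one (y := (x : ZMod p)) ?_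
    push_cast at h2
    linear_combination h2
  have h5 : p % 2 = 1 := by
    rcases hp.eq_two_or_odd with h | h
    · omega
    · exact h
  omega

/-- Proof. `x` even: `x^2 - 1`, `x^2 + 1` coprime, product `m k^2`: `x^2 - 1 = a r^2`, `x^2 + 1 = b s^2`, `a b = m`
(`split_sq`). `b` odd, `b ≠ 1` (`x^2 + 1` is not a square), `2 b` is not a square (`b` odd). Primes of `b` are `1` mod
4. `p ∣ a`, `p` odd: `b s^2 = x^2 + 1 ≡ 2`, so `(2b/p) = 1`. -/
theorem a4_even (m : ℕ) (hm : Squarefree m) (x : ℕ) (hx : Even x) (hx2 : 2 ≤ x) (k : ℕ)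
    (h : x ^ 4 = m * k ^ 2 + 1) : ∃ a b : ℕ, a * b = m ∧ Fits dat6 a b := by
  have hx4 : 4 ≤ x ^ 2 := by nlinarith
  obtain ⟨u, hu⟩ : ∃ u, x ^ 2 = u + 1 := ⟨x ^ 2 - 1, by omega⟩
  have hodd : ¬ 2 ∣ u := by
    intro h2
    have h3 : 2 ∣ x ^ 2 := dvd_pow (even_iff_two_dvd.1 hx) two_ne_zero
    omega
  have hprod : u * (u + 2) = m * k ^ 2 := by
    have h1 : x ^ 4 = (x ^ 2) ^ 2 := by ring
    rw [h1, hu] at h
    nlinarith
  have hcop : u.Coprime (u + 2) := by
    rw [Nat.coprime_self_add_right]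
    exact (Nat.coprime_comm.1 ((Nat.Prime.coprime_iff_not_dvd Nat.prime_two).2 hodd))
  obtain ⟨a, b, r, s, hab, hur, hus⟩ := split_sq m hm u (u + 2) k (by omega) (by omega) hcop hprod
  have hbs : b ∣ x ^ 2 + 1 := by
    rw [hu]
    exact ⟨s ^ 2, by omega⟩
  have hbodd : Odd b := by
    rw [← Nat.not_even_iff_odd, even_iff_two_dvd]
    intro h2
    have h3 : 2 ∣ u + 2 := by
      rw [hus]
      exact h2.mul_right _
    omega
  refine ⟨a, b, hab, ⟨?_, hbodd, ?_, ?_, ?_⟩⟩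
  · rintro ⟨y, hy⟩
    have h1 : dat6.c = 2 := rfl
    rw [h1] at hy
    have h2 : 2 ∣ y := by
      have h3 : 2 ∣ y * y := ⟨b, hy.symm⟩
      rcases (Nat.Prime.dvd_mul Nat.prime_two).1 h3 with h4 | h4 <;> exact h4
    obtain ⟨z, rfl⟩ := h2
    have h4 : b = 2 * (z * z) := by nlinarith
    rw [← Nat.not_even_iff_odd] at hbodd
    exact hbodd ⟨z * z, by omega⟩
  · intro p hp h3 hd
    exact a4a_mem x p hp h3 (hd.trans hbs)
  · intro p hp h3 hd _
    have : Fact p.Prime := ⟨hp⟩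
    have h1 : ((dat6.c * b : ℕ) : ℤ) = 2 * b := by
      have : dat6.c = 2 := rfl
      rw [this]
      push_cast
      ring
    have hs : dat6.s p = 1 := rfl
    rw [h1, hs, ← jacobiSym.legendreSym.to_jacobiSym]
    have hu0 : (u : ZMod p) = 0 := by
      rw [ZMod.natCast_eq_zero_iff, hur]
      exact hd.mul_right _
    have h2 : (b : ZMod p) * (s : ZMod p) ^ 2 = 2 := by
      have h4 : ((u + 2 : ℕ) : ZMod p) = ((b * s ^ 2 : ℕ) : ZMod p) := by rw [hus]
      push_cast at h4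
      rw [hu0, zero_add] at h4
      exact h4.symm
    have h20 : (2 : ZMod p) ≠ 0 := by
      intro h5
      have h6 : ((2 : ℕ) : ZMod p) = 0 := by exact_mod_cast h5
      rw [ZMod.natCast_eq_zero_iff] at h6
      have := Nat.le_of_dvd (by norm_num) h6
      omega
    have hs0 : (s : ZMod p) ≠ 0 := by
      intro h5
      rw [h5] at h2
      apply h20
      rw [← h2]
      ring
    have hb0 : (b : ZMod p) ≠ 0 := by
      intro h5
      rw [h5] at h2
      apply h20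
      rw [← h2]
      ring
    have hne : ((2 * (b : ℤ) : ℤ) : ZMod p) ≠ 0 := by
      push_cast
      exact mul_ne_zero h20 hb0
    rw [legendreSym.eq_one_iff p hne]
    refine ⟨2 / (s : ZMod p), ?_⟩
    push_cast
    field_simp
    linear_combination h2
  · intro q _ _ _ hF
    exact absurd hF (fun h => h)

end Pool.Agent.Wal
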