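import Pool.Agent.Lib.MP_6498db_nt.W.Defs

/-! WALSH, row BlA: the number of solutions of `x₁ x₂ x₃ = y₁ y₂ y₃`. -/

set_option autoImplicit false

namespace Pool.Agent.Wal

open Finset

/-- triples of positive integers `≤ E` -/
def tri (E : ℕ) : Finset (ℕ × ℕ × ℕ) := Icc 1 E ×ˢ Icc 1 E ×ˢ Icc 1 E

private theorem bla_harm (E : ℕ) : ∑ x ∈ Icc 1 E, ((x : ℝ))⁻¹ ≤ 1 + Real.log E := by
  have h := harmonic_le_one_add_log E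
  have h1 : ((harmonic E : ℚ) : ℝ) = ∑ x ∈ Icc 1 E, ((x : ℝ))⁻¹ := by
    rw [harmonic_eq_sum_Icc]
    push_cast
    rfl
  rw [← h1]
  exact h

private theorem bla_inner {E x y : ℕ} (hx : 1 ≤ x) (hy : 1 ≤ y) :
    ((∑ z ∈ Icc 1 E, if x * y * z ≤ E then 1 else 0 : ℕ) : ℝ) ≤ E * ((x : ℝ)⁻¹ * (y : ℝ)⁻¹) := by
  rw [← Finset.card_filter]
  have hsub : (Icc 1 E).filter (fun z => x * y * z ≤ E) ⊆ Icc 1 (E / (x * y)) := by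
    intro z hz
    rw [mem_filter, mem_Icc] at hz
    rw [mem_Icc]
    refine ⟨hz.1.1, ?_⟩
    rw [Nat.le_div_iff_mul_le (Nat.mul_pos hx hy), mul_comm]
    exact hz.2
  have h1 : ((Icc 1 E).filter (fun z => x * y * z ≤ E)).card ≤ E / (x * y) := by
    have := Finset.card_le_card hsub
    rwa [Nat.card_Icc, Nat.add_sub_cancel] at this
  calc (((Icc 1 E).filter (fun z => x * y * z ≤ E)).card : ℝ) ≤ ((E / (x * y) : ℕ) : ℝ) := by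
        exact_mod_cast h1
    _ ≤ (E : ℝ) / ((x * y : ℕ) : ℝ) := Nat.cast_div_le
    _ = E * ((x : ℝ)⁻¹ * (y : ℝ)⁻¹) := by
        push_cast
        rw [div_eq_mul_inv, mul_inv]

/-- Proof. `∑_{n ≤ E} τ_3(n) = #{(x,y,z) : x y z ≤ E} ≤ E (1 + log E)^2`. -/
theorem tri_count (E : ℕ) (hE : 1 ≤ E) :
    (((tri E).filter (fun t => t.1 * t.2.1 * t.2.2 ≤ E)).card : ℝ) ≤ E * (1 + Real.log E) ^ 2 := by
  have h0 : ((tri E).filter (fun t => t.1 * t.2.1 * t.2.2 ≤ E)).card =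
      ∑ x ∈ Icc 1 E, ∑ y ∈ Icc 1 E, ∑ z ∈ Icc 1 E, if x * y * z ≤ E then 1 else 0 := by
    rw [Finset.card_filter, tri, Finset.sum_product]
    refine Finset.sum_congr rfl fun x _ => ?_
    rw [Finset.sum_product]
  rw [h0]
  push_cast
  have h1 : ∀ x ∈ Icc 1 E, ∀ y ∈ Icc 1 E,
      (∑ z ∈ Icc 1 E, if x * y * z ≤ E then (1 : ℝ) else 0) ≤ E * ((x : ℝ)⁻¹ * (y : ℝ)⁻¹) := by
    intro x hx y hy
    have h := bla_inner (E := E) (mem_Icc.1 hx).1 (mem_Icc.1 hy).1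
    push_cast at h
    exact h
  calc (∑ x ∈ Icc 1 E, ∑ y ∈ Icc 1 E, ∑ z ∈ Icc 1 E, if x * y * z ≤ E then (1 : ℝ) else 0)
      ≤ ∑ x ∈ Icc 1 E, ∑ y ∈ Icc 1 E, (E : ℝ) * ((x : ℝ)⁻¹ * (y : ℝ)⁻¹) :=
        Finset.sum_le_sum fun x hx => Finset.sum_le_sum fun y hy => h1 x hx y hy
    _ = E * ((∑ x ∈ Icc 1 E, (x : ℝ)⁻¹) * (∑ y ∈ Icc 1 E, (y : ℝ)⁻¹)) := by
        rw [Finset.sum_mul_sum, Finset.mul_sum]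
        refine Finset.sum_congr rfl fun x _ => ?_
        rw [Finset.mul_sum]
    _ ≤ E * (1 + Real.log E) ^ 2 := by
        have hh := bla_harm E
        have hn : 0 ≤ ∑ x ∈ Icc 1 E, (x : ℝ)⁻¹ :=
          Finset.sum_nonneg fun x _ => inv_nonneg.2 (Nat.cast_nonneg x)
        refine mul_le_mul_of_nonneg_left ?_ (Nat.cast_nonneg E)
        rw [sq]
        exact mul_le_mul hh hh hn (hn.trans hh)

private theorem bla_dvd {x a b c : ℕ} (h : x ∣ a * b * c) :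
    ∃ w₁ w₂ w₃, w₁ ∣ a ∧ w₂ ∣ b ∧ w₃ ∣ c ∧ x = w₁ * w₂ * w₃ := by
  obtain ⟨u, w₃, hu, h₃, rfl⟩ := exists_dvd_and_dvd_of_dvd_mul h
  obtain ⟨w₁, w₂, h₁, h₂, rfl⟩ := exists_dvd_and_dvd_of_dvd_mul hu
  exact ⟨w₁, w₂, w₃, h₁, h₂, h₃, rfl⟩

private theorem bla_mat {x₁ x₂ x₃ y₁ y₂ y₃ : ℕ} (h₁ : 1 ≤ x₁) (h₂ : 1 ≤ x₂)
    (h : x₁ * x₂ * x₃ = y₁ * y₂ * y₃) :
    ∃ a₁ a₂ a₃ b₁ b₂ b₃ c₁ c₂ c₃, x₁ = a₁ * a₂ * a₃ ∧ x₂ = b₁ * b₂ * b₃ ∧ x₃ = c₁ * c₂ * c₃ ∧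
      y₁ = a₁ * b₁ * c₁ ∧ y₂ = a₂ * b₂ * c₂ ∧ y₃ = a₃ * b₃ * c₃ := by
  obtain ⟨a₁, a₂, a₃, ⟨u₁, hu₁⟩, ⟨u₂, hu₂⟩, ⟨u₃, hu₃⟩, hx₁⟩ := bla_dvd
    (show x₁ ∣ y₁ * y₂ * y₃ from ⟨x₂ * x₃, by rw [← h, mul_assoc]⟩)
  have e1 : x₂ * x₃ = u₁ * u₂ * u₃ := by
    have e : x₁ * (x₂ * x₃) = x₁ * (u₁ * u₂ * u₃) := by
      calc x₁ * (x₂ * x₃) = x₁ * x₂ * x₃ := (mul_assoc _ _ _).symm
        _ = y₁ * y₂ * y₃ := h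
        _ = x₁ * (u₁ * u₂ * u₃) := by rw [hu₁, hu₂, hu₃, hx₁]; ring
    exact Nat.eq_of_mul_eq_mul_left h₁ e
  obtain ⟨b₁, b₂, b₃, ⟨v₁, hv₁⟩, ⟨v₂, hv₂⟩, ⟨v₃, hv₃⟩, hx₂⟩ := bla_dvd
    (show x₂ ∣ u₁ * u₂ * u₃ from ⟨x₃, e1.symm⟩)
  have e2 : x₃ = v₁ * v₂ * v₃ := by
    have e : x₂ * x₃ = x₂ * (v₁ * v₂ * v₃) := by
      rw [e1, hv₁, hv₂, hv₃, hx₂]
      ring
    exact Nat.eq_of_mul_eq_mul_left h₂ e
  refine ⟨a₁, a₂, a₃, b₁, b₂, b₃, v₁, v₂, v₃, hx₁, hx₂, e2, ?_, ?_, ?_⟩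
  · rw [hu₁, hv₁, mul_assoc]
  · rw [hu₂, hv₂, mul_assoc]
  · rw [hu₃, hv₃, mul_assoc]

private theorem bla_row {E x a b c : ℕ} (h1 : 1 ≤ x) (hE : x ≤ E) (h : x = a * b * c) :
    (a, b, c) ∈ (tri E).filter (fun t => t.1 * t.2.1 * t.2.2 ≤ E) := by
  have hpos : 0 < a * b * c := by rw [← h]; exact h1
  have hab : 0 < a * b := Nat.pos_of_mul_pos_right hpos
  have hc : 0 < c := Nat.pos_of_mul_pos_left hpos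
  have ha : 0 < a := Nat.pos_of_mul_pos_right hab
  have hb : 0 < b := Nat.pos_of_mul_pos_left hab
  have hle : a * b * c ≤ E := by rw [← h]; exact hE
  rw [mem_filter, tri, mem_product, mem_product, mem_Icc, mem_Icc, mem_Icc]
  refine ⟨⟨⟨ha, ?_⟩, ⟨hb, ?_⟩, ⟨hc, ?_⟩⟩, hle⟩
  · exact (Nat.le_mul_of_pos_right a hb).trans ((Nat.le_mul_of_pos_right _ hc).trans hle)
  · exact (Nat.le_mul_of_pos_left b ha).trans ((Nat.le_mul_of_pos_right _ hc).trans hle)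
  · exact (Nat.le_mul_of_pos_left c hab).trans hle

/-- Proof. Every solution comes from a `3 × 3` matrix of positive integers `w_ij` with row products `x_i` and column
products `y_j`: `x₁ ∣ y₁ y₂ y₃`, so `x₁ = w₁₁ w₁₂ w₁₃`, `w₁ⱼ ∣ y_j` (`exists_dvd_and_dvd_of_dvd_mul` twice);
`x₂ ∣ ∏ y_j / w₁ⱼ`, so `x₂ = w₂₁ w₂₂ w₂₃`, `w₂ⱼ ∣ y_j / w₁ⱼ`; `w₃ⱼ = y_j / (w₁ⱼ w₂ⱼ)`, `x₃ = w₃₁ w₃₂ w₃₃`. The row
products are `≤ E`, so there are at most `(#{w : w₁ w₂ w₃ ≤ E})^3` matrices. -/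
theorem bl_triples (E : ℕ) (hE : 1 ≤ E) :
    (((tri E ×ˢ tri E).filter (fun q => q.1.1 * q.1.2.1 * q.1.2.2 = q.2.1 * q.2.2.1 * q.2.2.2)).card : ℝ) ≤
      (E * (1 + Real.log E) ^ 2) ^ 3 := by
  let W := (tri E).filter (fun t => t.1 * t.2.1 * t.2.2 ≤ E)
  let f : (ℕ × ℕ × ℕ) × (ℕ × ℕ × ℕ) × (ℕ × ℕ × ℕ) → (ℕ × ℕ × ℕ) × (ℕ × ℕ × ℕ) := fun w =>
    ((w.1.1 * w.1.2.1 * w.1.2.2, w.2.1.1 * w.2.1.2.1 * w.2.1.2.2, w.2.2.1 * w.2.2.2.1 * w.2.2.2.2),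
      (w.1.1 * w.2.1.1 * w.2.2.1, w.1.2.1 * w.2.1.2.1 * w.2.2.2.1,
        w.1.2.2 * w.2.1.2.2 * w.2.2.2.2))
  have hsub : (tri E ×ˢ tri E).filter
      (fun q => q.1.1 * q.1.2.1 * q.1.2.2 = q.2.1 * q.2.2.1 * q.2.2.2) ⊆
        (W ×ˢ W ×ˢ W).image f := by
    rintro ⟨⟨x₁, x₂, x₃⟩, ⟨y₁, y₂, y₃⟩⟩ hq
    rw [mem_filter, mem_product, tri, mem_product, mem_product, mem_Icc, mem_Icc, mem_Icc] at hq
    obtain ⟨⟨⟨h1, h2, h3⟩, -⟩, h⟩ := hq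
    obtain ⟨a₁, a₂, a₃, b₁, b₂, b₃, c₁, c₂, c₃, e1, e2, e3, e4, e5, e6⟩ :=
      bla_mat h1.1 h2.1 h
    rw [mem_image]
    refine ⟨((a₁, a₂, a₃), (b₁, b₂, b₃), (c₁, c₂, c₃)), ?_, ?_⟩
    · rw [mem_product, mem_product]
      exact ⟨bla_row h1.1 h1.2 e1, bla_row h2.1 h2.2 e2, bla_row h3.1 h3.2 e3⟩
    · exact (Prod.ext (Prod.ext e1 (Prod.ext e2 e3)) (Prod.ext e4 (Prod.ext e5 e6))).symm
  have hcard : ((tri E ×ˢ tri E).filter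
      (fun q => q.1.1 * q.1.2.1 * q.1.2.2 = q.2.1 * q.2.2.1 * q.2.2.2)).card ≤ W.card ^ 3 := by
    refine (Finset.card_le_card hsub).trans (Finset.card_image_le.trans ?_)
    rw [Finset.card_product, Finset.card_product]
    exact le_of_eq (by ring)
  calc (((tri E ×ˢ tri E).filter
        (fun q => q.1.1 * q.1.2.1 * q.1.2.2 = q.2.1 * q.2.2.1 * q.2.2.2)).card : ℝ)
      ≤ ((W.card ^ 3 : ℕ) : ℝ) := by exact_mod_cast hcard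
    _ = (W.card : ℝ) ^ 3 := by push_cast; rfl
    _ ≤ (E * (1 + Real.log E) ^ 2) ^ 3 :=
        pow_le_pow_left₀ (Nat.cast_nonneg _) (tri_count E hE) 3

end Pool.Agent.Wal
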