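import Pool.Agent.Lib.MP_6498db_nt.W.Defs

/-! WALSH, row BlB: mean square over the numerators. -/

set_option autoImplicit false

namespace Pool.Agent.Wal

open Finset

private theorem blB_exists_neg (n : ℕ) (hn : Odd n) (hsq : ¬ IsSquare n) :
    ∃ h : ℕ, jacobiSym (h : ℤ) n = -1 := by
  obtain ⟨a, b, hab, ha⟩ := Nat.sq_mul_squarefree n
  have hn0 : n ≠ 0 := by rintro rfl; exact absurd hn (by decide)
  have ha1 : a ≠ 1 := by
    rintro rfl
    exact hsq ⟨b, by rw [← hab]; ring⟩
  obtain ⟨p, hp, hpa⟩ := Nat.exists_prime_and_dvd ha1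
  have hb0 : b ≠ 0 := by rintro rfl; apply hn0; rw [← hab]; ring
  have ha0 : a ≠ 0 := ha.ne_zero
  have hpn : p ∣ n := by rw [← hab]; exact Dvd.dvd.mul_left hpa _
  have hp2 : p ≠ 2 := by
    rintro rfl
    exact (Nat.not_even_iff_odd.mpr hn) (even_iff_two_dvd.mpr hpn)
  have : Fact p.Prime := ⟨hp⟩
  have hfa : a.factorization p = 1 := by
    have h1 : a.factorization p ≤ 1 := ha.natFactorization_le_one p
    have h2 : 0 < a.factorization p := hp.factorization_pos_of_dvd ha0 hpa
    omega
  have hfn : n.factorization p = 2 * b.factorization p + 1 := by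
    rw [← hab, Nat.factorization_mul (pow_ne_zero 2 hb0) ha0, Nat.factorization_pow]
    simp [hfa]
  obtain ⟨x, hx⟩ : ∃ x : ZMod p, ¬ IsSquare x := FiniteField.exists_nonsquare (by
    rw [ZMod.ringChar_zmod_n]; exact hp2)
  set e := n.factorization p with he
  set m := n / p ^ e with hm
  have hmn : p ^ e * m = n := Nat.ordProj_mul_ordCompl_eq_self n p
  have hcop : Nat.Coprime p m := Nat.coprime_ordCompl hp hn0
  have hm0 : m ≠ 0 := by
    intro h
    rw [h, mul_zero] at hmn
    exact hn0 hmn.symm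
  obtain ⟨h, hh1, hh2⟩ := Nat.chineseRemainder hcop x.val 1
  refine ⟨h, ?_⟩
  have e1 : jacobiSym (h : ℤ) p = -1 := by
    rw [← jacobiSym.legendreSym.to_jacobiSym, legendreSym.eq_neg_one_iff]
    have h1 : ((h : ℤ) : ZMod p) = x := by
      rw [Int.cast_natCast]
      have h2 : (h : ZMod p) = (x.val : ZMod p) := (ZMod.natCast_eq_natCast_iff h x.val p).mpr hh1
      rw [h2, ZMod.natCast_zmod_val]
    rw [h1]
    exact hx
  have e2 : jacobiSym (h : ℤ) m = 1 := by
    rw [jacobiSym.mod_left]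
    have h1 : (h : ℤ) % (m : ℤ) = ((1 : ℕ) : ℤ) % (m : ℤ) := by
      have : (h : ℤ) ≡ ((1 : ℕ) : ℤ) [ZMOD (m : ℤ)] := (Int.natCast_modEq_iff).mpr hh2
      exact this
    rw [h1, ← jacobiSym.mod_left]
    simp
  rw [← hmn, jacobiSym.mul_right' _ (pow_ne_zero e hp.ne_zero) hm0, jacobiSym.pow_right, e1, e2,
    mul_one]
  have : Odd e := ⟨b.factorization p, hfn⟩
  exact this.neg_one_pow

private theorem blB_mod (n h : ℕ) : jj (h % n) n = jj h n := by
  unfold jj
  rw [jacobiSym.mod_left (h : ℤ) n]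
  norm_num

private theorem blB_mul_left (n a b : ℕ) : jj (a * b) n = jj a n * jj b n := by
  unfold jj
  push_cast
  rw [jacobiSym.mul_left]
  push_cast
  ring

private theorem blB_period (n : ℕ) (hn : Odd n) (hsq : ¬ IsSquare n) :
    ∑ h ∈ range n, jj h n = 0 := by
  obtain ⟨n0, hJ⟩ := blB_exists_neg n hn hsq
  have hn0 : n ≠ 0 := by rintro rfl; exact absurd hn (by decide)
  have : NeZero n := ⟨hn0⟩
  have h1 : ∑ h ∈ range n, jj h n = ∑ r : ZMod n, jj r.val n := by
    rw [← Fin.sum_univ_eq_sum_range (fun h => jj h n)]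
    have hequiv : ∀ (q : ℕ) [NeZero q] (f : ℕ → ℝ), ∑ i : Fin q, f i = ∑ r : ZMod q, f r.val := by
      intro q hq f
      cases q with
      | zero => exact absurd rfl hq.out
      | succ q => rfl
    exact hequiv n (fun h => jj h n)
  have hcop : Nat.Coprime n0 n := by
    by_contra hcon
    have h3 : jacobiSym (n0 : ℤ) n = 0 := jacobiSym.eq_zero_iff.mpr ⟨hn0, by simpa using hcon⟩
    rw [h3] at hJ
    norm_num at hJ
  let u := ZMod.unitOfCoprime n0 hcop
  have h2 : ∑ r : ZMod n, jj r.val n = ∑ r : ZMod n, jj ((u : ZMod n) * r).val n :=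
    (Equiv.sum_comp (Units.mulLeft u) (fun r : ZMod n => jj r.val n)).symm
  have h3 : ∀ r : ZMod n, jj ((u : ZMod n) * r).val n = - jj r.val n := by
    intro r
    have e1 : ((u : ZMod n) * r).val = (n0 * r.val) % n := by
      rw [ZMod.coe_unitOfCoprime]
      have : (n0 : ZMod n) * r = ((n0 * r.val : ℕ) : ZMod n) := by
        push_cast
        rw [ZMod.natCast_zmod_val]
      rw [this, ZMod.val_natCast]
    rw [e1, blB_mod, blB_mul_left]
    have : jj n0 n = -1 := by unfold jj; rw [hJ]; norm_num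
    rw [this]; ring
  have h4 : ∑ r : ZMod n, jj r.val n = - ∑ r : ZMod n, jj r.val n := by
    conv_lhs => rw [h2]
    rw [← Finset.sum_neg_distrib]
    exact Finset.sum_congr rfl (fun r _ => h3 r)
  rw [h1]
  linarith

private theorem blB_abs_le (m n : ℕ) : |jj m n| ≤ 1 := by
  unfold jj
  rcases jacobiSym.trichotomy (m : ℤ) n with h | h | h <;> rw [h] <;> norm_num

/-- Proof. `n` odd, not a square: `h ↦ (h/n)` is periodic mod `n` and its sum over a period is `0` (there is `h₀` prime
to `n` with `(h₀/n) = -1`: take a prime `p` with odd exponent in `n`, a nonresidue mod `p` and `1` mod the other primes,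
CRT; multiply by `h₀`). Hence every partial sum is at most `n`. (See also `exists_neg`, `jchi_sum_period` in
`Lib/MP_695920_nt/JacobiChar.lean` for the same argument in the other variable.) -/
theorem period_sum (n : ℕ) (hn : Odd n) (hsq : ¬ IsSquare n) (H : ℕ) : |∑ h ∈ Icc 1 H, jj h n| ≤ n := by
  have hn0 : n ≠ 0 := by rintro rfl; exact absurd hn (by decide)
  have hn1 : n ≠ 1 := by rintro rfl; exact hsq ⟨1, by norm_num⟩
  have h1 := blB_period n hn hsq
  have hstep : ∀ M, ∑ h ∈ range (n + M), jj h n = ∑ h ∈ range M, jj h n := by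
    intro M
    rw [Finset.sum_range_add, h1, zero_add]
    apply Finset.sum_congr rfl
    intro i _
    rw [← blB_mod n (n + i), Nat.add_mod_left, blB_mod]
  have hbound : ∀ M, |∑ h ∈ range M, jj h n| ≤ n := by
    intro M
    induction M using Nat.strong_induction_on with
    | _ M ih =>
      by_cases hM : M < n
      · refine (Finset.abs_sum_le_sum_abs _ _).trans ?_
        refine (Finset.sum_le_card_nsmul _ _ 1 fun h _ => blB_abs_le h n).trans ?_
        simp only [card_range, nsmul_eq_mul, mul_one]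
        exact_mod_cast hM.le
      · push Not at hM
        obtain ⟨M', rfl⟩ := Nat.exists_eq_add_of_le hM
        rw [hstep]
        exact ih M' (by omega)
  have hz : jj 0 n = 0 := by
    unfold jj
    have h3 : jacobiSym ((0 : ℕ) : ℤ) n = 0 := jacobiSym.eq_zero_iff.mpr ⟨hn0, by simpa using hn1⟩
    rw [h3]; norm_num
  have h2 : ∑ h ∈ Icc 1 H, jj h n = ∑ h ∈ range (H + 1), jj h n := by
    rw [Finset.sum_range_succ', hz, add_zero]
    rw [← Finset.sum_image (s := range H) (g := fun i => i + 1) (f := fun h => jj h n)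
      (by intro a _ b _ h; simpa using h)]
    apply Finset.sum_congr _ (fun _ _ => rfl)
    ext x
    simp only [mem_Icc, mem_image, mem_range]
    constructor
    · intro ⟨h, h'⟩
      exact ⟨x - 1, by omega, by omega⟩
    · rintro ⟨a, ha, rfl⟩
      omega
  rw [h2]
  exact hbound _

private theorem blB_not_square {a b : ℕ} (ha : Squarefree a) (hb : Squarefree b) (hab : a ≠ b) :
    ¬ IsSquare (a * b) := by
  rintro ⟨s, hs⟩
  apply hab
  have ha0 := ha.ne_zero
  have hb0 := hb.ne_zero
  have key : ∀ {x y : ℕ}, Squarefree x → Squarefree y → x * y = s * s → x ∣ y := by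
    intro x y hx hy h
    rw [← Nat.factorization_le_iff_dvd hx.ne_zero hy.ne_zero]
    intro p
    have h1 : x.factorization p ≤ 1 := hx.natFactorization_le_one p
    have h2 : y.factorization p ≤ 1 := hy.natFactorization_le_one p
    have hs0 : s ≠ 0 := by
      rintro rfl
      simp only [mul_zero, mul_eq_zero] at h
      rcases h with h | h
      · exact hx.ne_zero h
      · exact hy.ne_zero h
    have h3 : x.factorization p + y.factorization p = 2 * s.factorization p := by
      have := congrArg (fun z => z.factorization p) h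
      simp only [Nat.factorization_mul hx.ne_zero hy.ne_zero, Nat.factorization_mul hs0 hs0,
        Finsupp.add_apply] at this
      omega
    omega
  exact Nat.dvd_antisymm (key ha hb hs) (key hb ha (by rw [mul_comm]; exact hs))

/-- Proof. Expand the square: `∑_{d, d'} α_d α_d' ∑_{h ≤ H} (h/(d d'))`; `d = d'`: at most `H` each, `D H` in total;
`d ≠ d'` squarefree odd: `d d'` is not a square, `period_sum`: `≤ d d'`, total `≤ (∑_{d ≤ D} d)^2 ≤ D^4`. -/
theorem bl_quad (α : ℕ → ℝ) (h1 : ∀ n, |α n| ≤ 1) (h0 : ∀ n, α n ≠ 0 → Odd n ∧ Squarefree n) (D H : ℕ) :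
    ∑ h ∈ Icc 1 H, (∑ d ∈ Icc 1 D, α d * jj h d) ^ 2 ≤ (H : ℝ) * D + (D : ℝ) ^ 4 := by
  have hexp : ∑ h ∈ Icc 1 H, (∑ d ∈ Icc 1 D, α d * jj h d) ^ 2 =
      ∑ d ∈ Icc 1 D, ∑ e ∈ Icc 1 D, α d * α e * ∑ h ∈ Icc 1 H, jj h d * jj h e := by
    calc ∑ h ∈ Icc 1 H, (∑ d ∈ Icc 1 D, α d * jj h d) ^ 2
        = ∑ h ∈ Icc 1 H, ∑ d ∈ Icc 1 D, ∑ e ∈ Icc 1 D, α d * α e * (jj h d * jj h e) := by
          apply Finset.sum_congr rfl
          intro h _
          rw [sq, Finset.sum_mul_sum]
          apply Finset.sum_congr rfl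
          intro d _
          apply Finset.sum_congr rfl
          intro e _
          ring
      _ = ∑ d ∈ Icc 1 D, ∑ h ∈ Icc 1 H, ∑ e ∈ Icc 1 D, α d * α e * (jj h d * jj h e) :=
          Finset.sum_comm
      _ = _ := by
          apply Finset.sum_congr rfl
          intro d _
          rw [Finset.sum_comm]
          apply Finset.sum_congr rfl
          intro e _
          rw [Finset.mul_sum]
  have hpair : ∀ d e : ℕ, α d * α e * ∑ h ∈ Icc 1 H, jj h d * jj h e ≤
      (if d = e then (H : ℝ) else 0) + (d : ℝ) * e := by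
    intro d e
    have hde : (0 : ℝ) ≤ (d : ℝ) * e := by positivity
    have hH : (0 : ℝ) ≤ if d = e then (H : ℝ) else 0 := by
      split_ifs
      · positivity
      · exact le_rfl
    by_cases hd : α d = 0
    · rw [hd, zero_mul, zero_mul]; linarith
    by_cases he : α e = 0
    · rw [he, mul_zero, zero_mul]; linarith
    obtain ⟨hd1, hd2⟩ := h0 d hd
    obtain ⟨he1, he2⟩ := h0 e he
    have hα : |α d * α e| ≤ 1 := by
      rw [abs_mul]
      exact mul_le_one₀ (h1 d) (abs_nonneg _) (h1 e)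
    have hle : α d * α e * ∑ h ∈ Icc 1 H, jj h d * jj h e ≤ |∑ h ∈ Icc 1 H, jj h d * jj h e| := by
      refine (le_abs_self _).trans ?_
      rw [abs_mul]
      exact mul_le_of_le_one_left (abs_nonneg _) hα
    refine hle.trans ?_
    by_cases hde' : d = e
    · subst hde'
      rw [if_pos rfl]
      have : |∑ h ∈ Icc 1 H, jj h d * jj h d| ≤ H := by
        refine (Finset.abs_sum_le_sum_abs _ _).trans ?_
        refine (Finset.sum_le_card_nsmul _ _ 1 fun h _ => ?_).trans ?_
        · rw [abs_mul]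
          exact mul_le_one₀ (blB_abs_le _ _) (abs_nonneg _) (blB_abs_le _ _)
        · simp
      linarith
    · rw [if_neg hde', zero_add]
      have heq : ∀ h : ℕ, jj h d * jj h e = jj h (d * e) := by
        intro h
        unfold jj
        rw [jacobiSym.mul_right' _ hd2.ne_zero he2.ne_zero]
        push_cast
        ring
      simp only [heq]
      have := period_sum (d * e) (hd1.mul he1) (blB_not_square hd2 he2 hde') H
      push_cast at this
      exact this
  rw [hexp]
  calc ∑ d ∈ Icc 1 D, ∑ e ∈ Icc 1 D, α d * α e * ∑ h ∈ Icc 1 H, jj h d * jj h e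
      ≤ ∑ d ∈ Icc 1 D, ∑ e ∈ Icc 1 D, ((if d = e then (H : ℝ) else 0) + (d : ℝ) * e) :=
        Finset.sum_le_sum fun d _ => Finset.sum_le_sum fun e _ => hpair d e
    _ = ∑ d ∈ Icc 1 D, (H : ℝ) + (∑ d ∈ Icc 1 D, (d : ℝ)) * ∑ e ∈ Icc 1 D, (e : ℝ) := by
        rw [Finset.sum_mul_sum, ← Finset.sum_add_distrib]
        apply Finset.sum_congr rfl
        intro d hd
        rw [Finset.sum_add_distrib, Finset.sum_ite_eq, if_pos hd]
    _ ≤ (H : ℝ) * D + (D : ℝ) ^ 4 := by
        have hs : ∑ d ∈ Icc 1 D, (d : ℝ) ≤ (D : ℝ) ^ 2 := by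
          refine (Finset.sum_le_card_nsmul _ _ (D : ℝ) fun d hd => ?_).trans ?_
          · rw [mem_Icc] at hd
            exact_mod_cast hd.2
          · simp [sq]
        have hs0 : 0 ≤ ∑ d ∈ Icc 1 D, (d : ℝ) := Finset.sum_nonneg fun d _ => by positivity
        have h4 : (∑ d ∈ Icc 1 D, (d : ℝ)) * ∑ e ∈ Icc 1 D, (e : ℝ) ≤ (D : ℝ) ^ 2 * (D : ℝ) ^ 2 :=
          mul_le_mul hs hs hs0 (by positivity)
        have h5 : ∑ d ∈ Icc 1 D, (H : ℝ) = (H : ℝ) * D := by
          rw [Finset.sum_const, nsmul_eq_mul]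
          simp [mul_comm]
        have h6 : (D : ℝ) ^ 2 * (D : ℝ) ^ 2 = (D : ℝ) ^ 4 := by ring
        rw [h5]
        linarith

end Pool.Agent.Wal
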