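import Pool.Agent.Lib.MP_6498db_nt.W.BlA
import Pool.Agent.Lib.MP_6498db_nt.W.BlB

/-! WALSH, row BlC: the bilinear estimate, `D ≤ E`. -/

set_option autoImplicit false

namespace Pool.Agent.Wal

open Finset

private theorem jj_mul3 (a b c d : ℕ) : jj (a * b * c) d = jj a d * jj b d * jj c d := by
  unfold jj
  push_cast
  rw [jacobiSym.mul_left, jacobiSym.mul_left]
  push_cast
  ring

/-- the product of a triple -/
private def pr3 (t : ℕ × ℕ × ℕ) : ℕ := t.1 * t.2.1 * t.2.2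

/-- the number of triples with the product `h` -/
private noncomputable def rr (E h : ℕ) : ℝ := (((tri E).filter (fun t => pr3 t = h)).card : ℝ)

private theorem pr3_mem {E : ℕ} {t : ℕ × ℕ × ℕ} (ht : t ∈ tri E) : pr3 t ∈ Icc 1 (E ^ 3) := by
  unfold tri at ht
  rw [mem_product, mem_product, mem_Icc, mem_Icc, mem_Icc] at ht
  obtain ⟨⟨a1, a2⟩, ⟨b1, b2⟩, c1, c2⟩ := ht
  rw [mem_Icc]
  unfold pr3
  refine ⟨Nat.mul_pos (Nat.mul_pos a1 b1) c1, ?_⟩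
  calc t.1 * t.2.1 * t.2.2 ≤ E * E * E := Nat.mul_le_mul (Nat.mul_le_mul a2 b2) c2
    _ = E ^ 3 := by ring

private theorem rr_sq (E : ℕ) : ∑ h ∈ Icc 1 (E ^ 3), rr E h ^ 2 =
    (((tri E ×ˢ tri E).filter (fun q => q.1.1 * q.1.2.1 * q.1.2.2 = q.2.1 * q.2.2.1 * q.2.2.2)).card
      : ℝ) := by
  classical
  have h1 : (((tri E ×ˢ tri E).filter
      (fun q => q.1.1 * q.1.2.1 * q.1.2.2 = q.2.1 * q.2.2.1 * q.2.2.2)).card : ℝ) =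
      ∑ t ∈ tri E, rr E (pr3 t) := by
    rw [card_filter, sum_product]
    push_cast
    refine sum_congr rfl fun t _ => ?_
    unfold rr
    rw [card_filter]
    push_cast
    refine sum_congr rfl fun u _ => ?_
    unfold pr3
    by_cases h : t.1 * t.2.1 * t.2.2 = u.1 * u.2.1 * u.2.2
    · rw [if_pos h, if_pos h.symm]
    · rw [if_neg h, if_neg fun h' => h h'.symm]
  rw [h1, ← sum_fiberwise_of_maps_to (fun t ht => pr3_mem ht)]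
  refine sum_congr rfl fun h _ => ?_
  have h2 : ∑ t ∈ (tri E).filter (fun t => pr3 t = h), rr E (pr3 t) =
      ∑ t ∈ (tri E).filter (fun t => pr3 t = h), rr E h := by
    refine sum_congr rfl fun t ht => ?_
    rw [(mem_filter.1 ht).2]
  rw [h2, sum_const, nsmul_eq_mul, sq]
  rfl

private theorem cube_expand (β : ℕ → ℝ) (E d : ℕ) :
    (∑ e ∈ Icc 1 E, β e * jj e d) ^ 3 =
      ∑ h ∈ Icc 1 (E ^ 3), (∑ t ∈ (tri E).filter (fun t => pr3 t = h),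
        β t.1 * β t.2.1 * β t.2.2) * jj h d := by
  classical
  have h1 : (∑ e ∈ Icc 1 E, β e * jj e d) ^ 3 =
      ∑ t ∈ tri E, (β t.1 * β t.2.1 * β t.2.2) * jj (pr3 t) d := by
    unfold tri
    rw [sum_product]
    simp_rw [sum_product]
    have e : (∑ e ∈ Icc 1 E, β e * jj e d) ^ 3 = (∑ e ∈ Icc 1 E, β e * jj e d) *
        ((∑ e ∈ Icc 1 E, β e * jj e d) * (∑ e ∈ Icc 1 E, β e * jj e d)) := by ring
    rw [e, sum_mul]
    refine sum_congr rfl fun a _ => ?_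
    rw [sum_mul_sum, mul_sum]
    refine sum_congr rfl fun b _ => ?_
    rw [mul_sum]
    refine sum_congr rfl fun c _ => ?_
    unfold pr3
    rw [jj_mul3]
    ring
  rw [h1, ← sum_fiberwise_of_maps_to (fun t ht => pr3_mem ht)]
  refine sum_congr rfl fun h _ => ?_
  rw [sum_mul]
  refine sum_congr rfl fun t ht => ?_
  rw [(mem_filter.1 ht).2]

private theorem B_le {β : ℕ → ℝ} (g1 : ∀ n, |β n| ≤ 1) (E h : ℕ) :
    |∑ t ∈ (tri E).filter (fun t => pr3 t = h), β t.1 * β t.2.1 * β t.2.2| ≤ rr E h := by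
  refine (abs_sum_le_sum_abs _ _).trans ?_
  unfold rr
  have h1 : ∑ t ∈ (tri E).filter (fun t => pr3 t = h), |β t.1 * β t.2.1 * β t.2.2| ≤
      ∑ t ∈ (tri E).filter (fun t => pr3 t = h), (1 : ℝ) := by
    refine sum_le_sum fun t _ => ?_
    rw [abs_mul, abs_mul]
    have := abs_nonneg (β t.1)
    have := abs_nonneg (β t.2.1)
    have := abs_nonneg (β t.2.2)
    exact mul_le_one₀ (mul_le_one₀ (g1 _) (abs_nonneg _) (g1 _)) (abs_nonneg _) (g1 _)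
  refine h1.trans ?_
  rw [sum_const, nsmul_eq_mul, mul_one]

/-- Proof. `S = ∑_d α_d T_d`, `T_d = ∑_e β_e (e/d)`. Hölder: `|S|^3 ≤ (∑_d |α_d T_d|)^3 ≤ D^2 ∑_d |α_d| |T_d|^3`
(`inner_le_nnorm_mul_nnorm`-type or `Finset.inner_le_Lp_mul_Lq`; also `(∑ x_d)^3 ≤ D^2 ∑ x_d^3` for `x_d ≥ 0`:
`inner_mul_le_norm`, `Finset.pow_sum_le...`/`inner` convexity `Real.pow_arith_mean_le_arith_mean_pow`).
`|α_d| |T_d|^3 = ε_d T_d^3` with `|ε_d| ≤ 1` supported where `α` is, `T_d^3 = ∑_{h ≤ E^3} B_h (h/d)` with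
`B_h = ∑_{e₁e₂e₃ = h} β β β` (`jj (e₁ e₂ e₃) d` multiplicative), so
`∑_d ε_d T_d^3 = ∑_h B_h ∑_d ε_d (h/d) ≤ (∑_h B_h^2)^(1/2) (∑_{h ≤ E^3} (∑_d ε_d (h/d))^2)^(1/2)`,
`∑_h B_h^2 ≤` number of solutions in `bl_triples` `≤ E^3 (1+log E)^6`, and `bl_quad` with `H = E^3`:
`≤ E^3 D + D^4 ≤ 2 E^3 D`. So `|S|^3 ≤ D^2 · √2 E^3 D^(1/2) (1 + log E)^3`. -/
theorem bl_le (α β : ℕ → ℝ) (h1 : ∀ n, |α n| ≤ 1) (h0 : ∀ n, α n ≠ 0 → Odd n ∧ Squarefree n)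
    (g1 : ∀ n, |β n| ≤ 1) (D E : ℕ) (hD : 1 ≤ D) (hDE : D ≤ E) :
    |∑ d ∈ Icc 1 D, ∑ e ∈ Icc 1 E, α d * β e * jj e d| ≤
      2 * (D : ℝ) ^ (5 / 6 : ℝ) * E * (1 + Real.log E) := by
  classical
  have hE : 1 ≤ E := hD.trans hDE
  have hD' : (1 : ℝ) ≤ D := by exact_mod_cast hD
  have hE' : (1 : ℝ) ≤ E := by exact_mod_cast hE
  have hDE' : (D : ℝ) ≤ E := by exact_mod_cast hDE
  have hlog : 0 ≤ Real.log E := Real.log_nonneg hE'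
  obtain ⟨T, hT⟩ : ∃ T : ℕ → ℝ, ∀ d, T d = ∑ e ∈ Icc 1 E, β e * jj e d := ⟨_, fun _ => rfl⟩
  obtain ⟨B, hB⟩ : ∃ B : ℕ → ℝ, ∀ h, B h = ∑ t ∈ (tri E).filter (fun t => pr3 t = h),
      β t.1 * β t.2.1 * β t.2.2 := ⟨_, fun _ => rfl⟩
  obtain ⟨L, hL⟩ : ∃ L : ℝ, L = 1 + Real.log E := ⟨_, rfl⟩
  have hL1 : 1 ≤ L := by rw [hL]; linarith
  -- the signs
  obtain ⟨ε, hε⟩ : ∃ ε : ℕ → ℝ, ∀ d, ε d = if 0 ≤ T d then |α d| else -|α d| := ⟨_, fun _ => rfl⟩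
  have hε1 : ∀ d, |ε d| ≤ 1 := by
    intro d
    rw [hε]
    split_ifs
    · rw [abs_abs]; exact h1 d
    · rw [abs_neg, abs_abs]; exact h1 d
  have hε0 : ∀ d, ε d ≠ 0 → Odd d ∧ Squarefree d := by
    intro d hd
    refine h0 d fun h => hd ?_
    rw [hε, h, abs_zero, neg_zero]
    exact ite_self _
  have hεT : ∀ d, |α d| * |T d| ^ 3 = ε d * T d ^ 3 := by
    intro d
    rw [hε]
    split_ifs with h
    · rw [abs_of_nonneg h]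
    · push Not at h
      rw [abs_of_neg h]
      ring
  have hS : ∑ d ∈ Icc 1 D, ∑ e ∈ Icc 1 E, α d * β e * jj e d = ∑ d ∈ Icc 1 D, α d * T d := by
    refine sum_congr rfl fun d _ => ?_
    rw [hT, mul_sum]
    refine sum_congr rfl fun e _ => ?_
    ring
  rw [hS]
  obtain ⟨S, hSd⟩ : ∃ S : ℝ, S = ∑ d ∈ Icc 1 D, α d * T d := ⟨_, rfl⟩
  rw [← hSd]
  -- Hoelder
  have s1 : |S| ≤ ∑ d ∈ Icc 1 D, |α d| * |T d| := by
    rw [hSd]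
    refine (abs_sum_le_sum_abs _ _).trans (le_of_eq ?_)
    exact sum_congr rfl fun d _ => abs_mul _ _
  have s2 : (∑ d ∈ Icc 1 D, |α d| * |T d|) ^ 3 ≤ (D : ℝ) ^ 2 * ∑ d ∈ Icc 1 D, ε d * T d ^ 3 := by
    have h2 := pow_sum_div_card_le_sum_pow (s := Icc 1 D) (f := fun d => |α d| * |T d|)
      (fun d _ => mul_nonneg (abs_nonneg _) (abs_nonneg _)) 2
    rw [Nat.card_Icc, Nat.add_sub_cancel, div_le_iff₀ (by positivity)] at h2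
    refine h2.trans ?_
    rw [mul_comm]
    refine mul_le_mul_of_nonneg_left (sum_le_sum fun d _ => ?_) (by positivity)
    rw [← hεT, mul_pow]
    refine mul_le_mul_of_nonneg_right ?_ (by positivity)
    have h3 := abs_nonneg (α d)
    have h4 := h1 d
    calc |α d| ^ 3 = |α d| * (|α d| * |α d|) := by ring
      _ ≤ |α d| * 1 := mul_le_mul_of_nonneg_left (mul_le_one₀ h4 h3 h4) h3
      _ = |α d| := mul_one _
  -- expansion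
  have s3 : ∑ d ∈ Icc 1 D, ε d * T d ^ 3 =
      ∑ h ∈ Icc 1 (E ^ 3), B h * ∑ d ∈ Icc 1 D, ε d * jj h d := by
    have h2 : ∀ d ∈ Icc 1 D, ε d * T d ^ 3 = ∑ h ∈ Icc 1 (E ^ 3), ε d * (B h * jj h d) := by
      intro d _
      rw [hT, cube_expand, mul_sum]
      refine sum_congr rfl fun h _ => ?_
      rw [hB]
    rw [sum_congr rfl h2, sum_comm]
    refine sum_congr rfl fun h _ => ?_
    rw [mul_sum]
    refine sum_congr rfl fun d _ => ?_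
    ring
  have s4 : (∑ h ∈ Icc 1 (E ^ 3), B h * ∑ d ∈ Icc 1 D, ε d * jj h d) ^ 2 ≤
      (∑ h ∈ Icc 1 (E ^ 3), B h ^ 2) *
        ∑ h ∈ Icc 1 (E ^ 3), (∑ d ∈ Icc 1 D, ε d * jj h d) ^ 2 :=
    sum_mul_sq_le_sq_mul_sq _ _ _
  have s5 : ∑ h ∈ Icc 1 (E ^ 3), B h ^ 2 ≤ (E * L ^ 2) ^ 3 := by
    have h2 : ∑ h ∈ Icc 1 (E ^ 3), B h ^ 2 ≤ ∑ h ∈ Icc 1 (E ^ 3), rr E h ^ 2 := by
      refine sum_le_sum fun h _ => ?_
      rw [← sq_abs (B h), hB]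
      exact pow_le_pow_left₀ (abs_nonneg _) (B_le g1 E h) 2
    refine h2.trans ?_
    rw [rr_sq, hL]
    exact bl_triples E hE
  have s6 : ∑ h ∈ Icc 1 (E ^ 3), (∑ d ∈ Icc 1 D, ε d * jj h d) ^ 2 ≤ 2 * (E : ℝ) ^ 3 * D := by
    refine (bl_quad ε hε1 hε0 D (E ^ 3)).trans ?_
    push_cast
    have h2 : (D : ℝ) ^ 3 ≤ (E : ℝ) ^ 3 := pow_le_pow_left₀ (by linarith) hDE' 3
    have h3 : (D : ℝ) ^ 4 ≤ (E : ℝ) ^ 3 * D := by
      calc (D : ℝ) ^ 4 = (D : ℝ) ^ 3 * D := by ring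
        _ ≤ (E : ℝ) ^ 3 * D := mul_le_mul_of_nonneg_right h2 (by linarith)
    linarith
  -- the conclusion
  have hq : 0 ≤ ∑ h ∈ Icc 1 (E ^ 3), (∑ d ∈ Icc 1 D, ε d * jj h d) ^ 2 :=
    sum_nonneg fun h _ => sq_nonneg _
  have s7 : (∑ d ∈ Icc 1 D, ε d * T d ^ 3) ^ 2 ≤ (E * L ^ 2) ^ 3 * (2 * (E : ℝ) ^ 3 * D) := by
    rw [s3]
    refine s4.trans (mul_le_mul s5 s6 hq (by positivity))
  have hx0 : 0 ≤ ∑ d ∈ Icc 1 D, ε d * T d ^ 3 := by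
    refine sum_nonneg fun d _ => ?_
    rw [← hεT]
    positivity
  have s8 : |S| ^ 3 ≤ (D : ℝ) ^ 2 * ∑ d ∈ Icc 1 D, ε d * T d ^ 3 :=
    (pow_le_pow_left₀ (abs_nonneg _) s1 3).trans s2
  have s9 : (|S| ^ 3) ^ 2 ≤ (D : ℝ) ^ 4 * ((E * L ^ 2) ^ 3 * (2 * (E : ℝ) ^ 3 * D)) := by
    calc (|S| ^ 3) ^ 2 ≤ ((D : ℝ) ^ 2 * ∑ d ∈ Icc 1 D, ε d * T d ^ 3) ^ 2 :=
          pow_le_pow_left₀ (by positivity) s8 2
      _ = (D : ℝ) ^ 4 * (∑ d ∈ Icc 1 D, ε d * T d ^ 3) ^ 2 := by ring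
      _ ≤ _ := mul_le_mul_of_nonneg_left s7 (by positivity)
  have hp : ((D : ℝ) ^ (5 / 6 : ℝ)) ^ 6 = (D : ℝ) ^ 5 := by
    rw [← Real.rpow_natCast, ← Real.rpow_mul (by linarith)]
    norm_num
  refine le_of_pow_le_pow_left₀ (n := 6) (by norm_num) (by rw [← hL]; positivity) ?_
  rw [← hL]
  calc |S| ^ 6 = (|S| ^ 3) ^ 2 := by ring
    _ ≤ (D : ℝ) ^ 4 * ((E * L ^ 2) ^ 3 * (2 * (E : ℝ) ^ 3 * D)) := s9
    _ = 2 * ((D : ℝ) ^ 5 * (E : ℝ) ^ 6 * L ^ 6) := by ring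
    _ ≤ 64 * ((D : ℝ) ^ 5 * (E : ℝ) ^ 6 * L ^ 6) := by
        refine mul_le_mul_of_nonneg_right (by norm_num) (by positivity)
    _ = (2 * (D : ℝ) ^ (5 / 6 : ℝ) * E * L) ^ 6 := by
        rw [← hp]
        ring

end Pool.Agent.Wal
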