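import Pool.Agent.Lib.MP_6498db_nt.W.BlC

/-! WALSH, row BlD: the bilinear estimate. -/

set_option autoImplicit false

namespace Pool.Agent.Wal

open Finset

/-- the character mod 4 on odd numbers -/
private noncomputable def bldChi (n : ℕ) : ℝ := if n % 4 = 1 then 1 else -1

private theorem bldChi_abs (n : ℕ) : |bldChi n| = 1 := by
  unfold bldChi
  split_ifs <;> simp

private theorem bld_recip {d e : ℕ} (hd : Odd d) (he : Odd e) :
    jj e d = (1 + bldChi d + bldChi e - bldChi d * bldChi e) / 2 * jj d e := by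
  have hd4 : d % 4 = 1 ∨ d % 4 = 3 := by
    have := Nat.odd_iff.1 hd
    omega
  have he4 : e % 4 = 1 ∨ e % 4 = 3 := by
    have := Nat.odd_iff.1 he
    omega
  unfold jj bldChi
  rcases hd4 with h1 | h1
  · have e1 := jacobiSym.quadratic_reciprocity_one_mod_four (a := d) (b := e) h1 he
    rw [if_pos h1, ← e1]
    split_ifs <;> ring
  · rcases he4 with h2 | h2
    · have e1 := jacobiSym.quadratic_reciprocity_one_mod_four (a := e) (b := d) h2 hd
      rw [if_pos h2, e1]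
      split_ifs <;> ring
    · have e1 := jacobiSym.quadratic_reciprocity_three_mod_four (a := e) (b := d) h2 h1
      rw [if_neg (by omega), if_neg (by omega), e1]
      push_cast
      ring

/-- one of the four sums -/
private theorem bld_one (α β : ℕ → ℝ) (h1 : ∀ n, |α n| ≤ 1) (g1 : ∀ n, |β n| ≤ 1)
    (g0 : ∀ n, β n ≠ 0 → Odd n ∧ Squarefree n) (D E : ℕ) (hE : 1 ≤ E) (hED : E ≤ D) :
    |∑ d ∈ Icc 1 D, ∑ e ∈ Icc 1 E, α d * β e * jj d e| ≤
      2 * (E : ℝ) ^ (5 / 6 : ℝ) * D * (1 + Real.log D) := by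
  have h := bl_le β α g1 g0 h1 E D hE hED
  have e : ∑ d ∈ Icc 1 D, ∑ e ∈ Icc 1 E, α d * β e * jj d e =
      ∑ d ∈ Icc 1 E, ∑ e ∈ Icc 1 D, β d * α e * jj e d := by
    rw [Finset.sum_comm]
    refine Finset.sum_congr rfl fun d _ => Finset.sum_congr rfl fun e _ => ?_
    ring
  rw [e]
  exact h

private theorem bld_mul {α : ℕ → ℝ} (h1 : ∀ n, |α n| ≤ 1) (n : ℕ) : |α n * bldChi n| ≤ 1 := by
  rw [abs_mul, bldChi_abs, mul_one]
  exact h1 n

private theorem bld_pow (m : ℕ) (hm : 1 ≤ m) :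
    (m : ℝ) ^ (5 / 6 : ℝ) = m * (m : ℝ) ^ (-(1 / 6 : ℝ)) := by
  have h0 : (0 : ℝ) < m := by exact_mod_cast hm
  have e : (5 / 6 : ℝ) = 1 + -(1 / 6 : ℝ) := by norm_num
  rw [e, Real.rpow_add h0, Real.rpow_one]

/-- Proof. `D ≤ E`: `bl_le` (`D^(5/6) = D · D^(-1/6)`). `D > E`: for odd `d, e` (both supports are odd) quadratic
reciprocity for the Jacobi symbol (`jacobiSym.quadratic_reciprocity'`; if `gcd(d,e) > 1` both sides are 0):
`(e/d) = (d/e) · (1 + χ(d) + χ(e) - χ(d)χ(e))/2`, `χ(n) = 1` if `n ≡ 1` mod 4, `-1` if `n ≡ 3`. So `S` is half the sum of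
four sums of the same shape with the roles of `(d, α)` and `(e, β)` exchanged, each `≤ 2 E^(5/6) D (1 + log D)`. -/
theorem bilin (α β : ℕ → ℝ) (h1 : ∀ n, |α n| ≤ 1) (h0 : ∀ n, α n ≠ 0 → Odd n ∧ Squarefree n)
    (g1 : ∀ n, |β n| ≤ 1) (g0 : ∀ n, β n ≠ 0 → Odd n ∧ Squarefree n) (D E : ℕ) (hD : 1 ≤ D) (hE : 1 ≤ E) :
    |∑ d ∈ Icc 1 D, ∑ e ∈ Icc 1 E, α d * β e * jj e d| ≤
      8 * D * E * ((min D E : ℕ) : ℝ) ^ (-(1 / 6 : ℝ)) * (1 + Real.log ((max D E : ℕ) : ℝ)) := by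
  rcases le_total D E with hDE | hED
  · have h := bl_le α β h1 h0 g1 D E hD hDE
    rw [min_eq_left hDE, max_eq_right hDE]
    refine h.trans ?_
    rw [bld_pow D hD]
    have hE1 : (1 : ℝ) ≤ E := by exact_mod_cast hE
    have hlog : 0 ≤ Real.log (E : ℝ) := Real.log_nonneg hE1
    have hpos : 0 ≤ (D : ℝ) * (D : ℝ) ^ (-(1 / 6 : ℝ)) * E * (1 + Real.log E) := by positivity
    nlinarith
  · rw [min_eq_right hED, max_eq_left hED]
    have a0 := bld_one α β h1 g1 g0 D E hE hED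
    have a1 := bld_one (fun n => α n * bldChi n) β (bld_mul h1) g1 g0 D E hE hED
    have a2 := bld_one α (fun n => β n * bldChi n) h1 (bld_mul g1)
      (fun n hn => g0 n (left_ne_zero_of_mul hn)) D E hE hED
    have a3 := bld_one (fun n => α n * bldChi n) (fun n => β n * bldChi n) (bld_mul h1) (bld_mul g1)
      (fun n hn => g0 n (left_ne_zero_of_mul hn)) D E hE hED
    have e : ∑ d ∈ Icc 1 D, ∑ e ∈ Icc 1 E, α d * β e * jj e d =
        ((∑ d ∈ Icc 1 D, ∑ e ∈ Icc 1 E, α d * β e * jj d e)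
        + (∑ d ∈ Icc 1 D, ∑ e ∈ Icc 1 E, (α d * bldChi d) * β e * jj d e)
        + (∑ d ∈ Icc 1 D, ∑ e ∈ Icc 1 E, α d * (β e * bldChi e) * jj d e)
        - (∑ d ∈ Icc 1 D, ∑ e ∈ Icc 1 E, (α d * bldChi d) * (β e * bldChi e) * jj d e)) / 2 := by
      rw [← Finset.sum_add_distrib, ← Finset.sum_add_distrib, ← Finset.sum_sub_distrib, Finset.sum_div]
      refine Finset.sum_congr rfl fun d _ => ?_
      rw [← Finset.sum_add_distrib, ← Finset.sum_add_distrib, ← Finset.sum_sub_distrib, Finset.sum_div]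
      refine Finset.sum_congr rfl fun e _ => ?_
      by_cases hα : α d = 0
      · rw [hα]; ring
      · by_cases hβ : β e = 0
        · rw [hβ]; ring
        · rw [bld_recip (h0 d hα).1 (g0 e hβ).1]
          ring
    rw [e]
    have b0 := abs_le.1 a0
    have b1 := abs_le.1 a1
    have b2 := abs_le.1 a2
    have b3 := abs_le.1 a3
    have hD1 : (1 : ℝ) ≤ D := by exact_mod_cast hD
    have hlog : 0 ≤ Real.log (D : ℝ) := Real.log_nonneg hD1
    have hE0 : (0 : ℝ) ≤ E := Nat.cast_nonneg E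
    have hpos : 0 ≤ (E : ℝ) * (E : ℝ) ^ (-(1 / 6 : ℝ)) * D * (1 + Real.log D) := by positivity
    rw [bld_pow E hE] at b0 b1 b2 b3
    rw [abs_le]
    constructor
    · nlinarith [b0.1, b1.1, b2.1, b3.2]
    · nlinarith [b0.2, b1.2, b2.2, b3.1]

end Pool.Agent.Wal
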