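import Pool.Agent.Lib.MP_6498db_nt.W.BlD

/-! WALSH, row Four: the bilinear estimate summed over two outer variables. -/

set_option autoImplicit false

namespace Pool.Agent.Wal

open Finset

private theorem four_harm (P : ℕ) : ∑ u ∈ Icc 1 P, (1 : ℝ) / u ≤ 1 + Real.log P := by
  have h1 := harmonic_le_one_add_log P
  have h2 : ((harmonic P : ℚ) : ℝ) = ∑ u ∈ Icc 1 P, (1 : ℝ) / u := by
    rw [harmonic_eq_sum_Icc]
    push_cast
    exact Finset.sum_congr rfl fun u _ => by rw [one_div]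
  rw [← h2]
  exact h1

/-- the inner sum -/
private theorem four_inner (z P Q : ℕ) (hz : 1 ≤ z) (hP : 1 ≤ P) (hQ : 1 ≤ Q) (u e : ℕ) (hu : 1 ≤ u)
    (he : 1 ≤ e) (α β : ℕ → ℝ)
    (ha : ∀ d, |α d| ≤ 1) (ha0 : ∀ d, α d ≠ 0 → Odd d ∧ Squarefree d ∧ z < d ∧ d * u ≤ P)
    (hb : ∀ v, |β v| ≤ 1) (hb0 : ∀ v, β v ≠ 0 → Odd v ∧ Squarefree v ∧ z < v ∧ e * v ≤ Q) :
    |∑ d ∈ Icc 1 P, ∑ v ∈ Icc 1 Q, α d * β v * jj v d| ≤
      8 * (P * (1 / (u : ℝ))) * (Q * (1 / (e : ℝ))) * (z : ℝ) ^ (-(1 / 6 : ℝ)) *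
        (1 + Real.log (P * Q)) := by
  have hu0 : (0 : ℝ) < u := by exact_mod_cast hu
  have he0 : (0 : ℝ) < e := by exact_mod_cast he
  have hz0 : (0 : ℝ) < z := by exact_mod_cast hz
  have hP0 : (1 : ℝ) ≤ P := by exact_mod_cast hP
  have hQ0 : (1 : ℝ) ≤ Q := by exact_mod_cast hQ
  have hPQ : (1 : ℝ) ≤ (P : ℝ) * Q := by nlinarith
  have hlog : 0 ≤ Real.log (P * Q) := Real.log_nonneg hPQ
  have hzp : (0 : ℝ) < (z : ℝ) ^ (-(1 / 6 : ℝ)) := Real.rpow_pos_of_pos hz0 _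
  set D : ℕ := P / u with hD
  set E : ℕ := Q / e with hE
  have hDP : D ≤ P := Nat.div_le_self _ _
  have hEQ : E ≤ Q := Nat.div_le_self _ _
  have haD : ∀ d, α d ≠ 0 → z < d ∧ d ≤ D := fun d hd => by
    obtain ⟨_, _, h3, h4⟩ := ha0 d hd
    exact ⟨h3, (Nat.le_div_iff_mul_le hu).2 h4⟩
  have hbE : ∀ v, β v ≠ 0 → z < v ∧ v ≤ E := fun v hv => by
    obtain ⟨_, _, h3, h4⟩ := hb0 v hv
    exact ⟨h3, (Nat.le_div_iff_mul_le he).2 (by rw [mul_comm]; exact h4)⟩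
  have hR : 0 ≤ 8 * (P * (1 / (u : ℝ))) * (Q * (1 / (e : ℝ))) * (z : ℝ) ^ (-(1 / 6 : ℝ)) *
      (1 + Real.log (P * Q)) := by positivity
  have hres : ∑ d ∈ Icc 1 P, ∑ v ∈ Icc 1 Q, α d * β v * jj v d =
      ∑ d ∈ Icc 1 D, ∑ v ∈ Icc 1 E, α d * β v * jj v d := by
    have hs1 : Icc 1 D ⊆ Icc 1 P := Finset.Icc_subset_Icc le_rfl hDP
    have hs2 : Icc 1 E ⊆ Icc 1 Q := Finset.Icc_subset_Icc le_rfl hEQ
    rw [← Finset.sum_subset hs1]
    · refine Finset.sum_congr rfl fun d _ => ?_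
      rw [← Finset.sum_subset hs2]
      intro v hv hv2
      have : β v = 0 := by
        by_contra hne
        have h1 := hbE v hne
        exact hv2 (mem_Icc.2 ⟨(mem_Icc.1 hv).1, h1.2⟩)
      rw [this]
      ring
    · intro d hd hd2
      have : α d = 0 := by
        by_contra hne
        have h1 := haD d hne
        exact hd2 (mem_Icc.2 ⟨(mem_Icc.1 hd).1, h1.2⟩)
      refine Finset.sum_eq_zero fun v _ => ?_
      rw [this]
      ring
  rw [hres]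
  by_cases hDz : D ≤ z
  · have : ∑ d ∈ Icc 1 D, ∑ v ∈ Icc 1 E, α d * β v * jj v d = 0 := by
      refine Finset.sum_eq_zero fun d _ => Finset.sum_eq_zero fun v _ => ?_
      have : α d = 0 := by
        by_contra hne
        have h1 := haD d hne
        omega
      rw [this]
      ring
    rw [this, abs_zero]
    exact hR
  by_cases hEz : E ≤ z
  · have : ∑ d ∈ Icc 1 D, ∑ v ∈ Icc 1 E, α d * β v * jj v d = 0 := by
      refine Finset.sum_eq_zero fun d _ => Finset.sum_eq_zero fun v _ => ?_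
      have : β v = 0 := by
        by_contra hne
        have h1 := hbE v hne
        omega
      rw [this]
      ring
    rw [this, abs_zero]
    exact hR
  push Not at hDz hEz
  have hD1 : 1 ≤ D := by omega
  have hE1 : 1 ≤ E := by omega
  have hbl := bilin α β ha (fun n hn => ⟨(ha0 n hn).1, (ha0 n hn).2.1⟩) hb
    (fun n hn => ⟨(hb0 n hn).1, (hb0 n hn).2.1⟩) D E hD1 hE1
  refine hbl.trans ?_
  have h1 : (D : ℝ) ≤ P * (1 / (u : ℝ)) := by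
    rw [mul_one_div]
    exact Nat.cast_div_le
  have h2 : (E : ℝ) ≤ Q * (1 / (e : ℝ)) := by
    rw [mul_one_div]
    exact Nat.cast_div_le
  have h3 : ((min D E : ℕ) : ℝ) ^ (-(1 / 6 : ℝ)) ≤ (z : ℝ) ^ (-(1 / 6 : ℝ)) := by
    apply Real.rpow_le_rpow_of_nonpos hz0
    · exact_mod_cast (le_min hDz.le hEz.le)
    · norm_num
  have h4 : Real.log ((max D E : ℕ) : ℝ) ≤ Real.log (P * Q) := by
    apply Real.log_le_log
    · exact_mod_cast lt_of_lt_of_le hD1 (le_max_left _ _)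
    · have h5 : max D E ≤ P * Q := by
        refine max_le ?_ ?_
        · exact hDP.trans (Nat.le_mul_of_pos_right _ hQ)
        · exact hEQ.trans (Nat.le_mul_of_pos_left _ hP)
      exact_mod_cast h5
  have h5 : 0 ≤ Real.log ((max D E : ℕ) : ℝ) := by
    apply Real.log_nonneg
    exact_mod_cast hD1.trans (le_max_left _ _)
  have h6 : (0 : ℝ) ≤ ((min D E : ℕ) : ℝ) ^ (-(1 / 6 : ℝ)) := by positivity
  have hD0 : (0 : ℝ) ≤ D := Nat.cast_nonneg _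
  have hE0 : (0 : ℝ) ≤ E := Nat.cast_nonneg _
  gcongr

/-- Proof. Fix `u, e`. The summand vanishes unless `z < d ≤ P/u` and `z < v ≤ Q/e`, so the inner sum is a sum over
`d ≤ P/u`, `v ≤ Q/e`; it is `0` unless `P/u > z` and `Q/e > z`, and then `bilin` gives
`≤ 8 (P/u) (Q/e) z^(-1/6) (1 + log (P Q))`. Sum over `u ≤ P`, `e ≤ Q`: `∑ 1/u ≤ 1 + log P`, `∑ 1/e ≤ 1 + log Q`
(`harmonic`). -/
theorem fourfold : ∃ C : ℝ, 0 < C ∧ ∀ (z P Q : ℕ), 1 ≤ z → 1 ≤ P → 1 ≤ Q → ∀ (a b : ℕ → ℕ → ℕ → ℝ),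
    (∀ d u e, |a d u e| ≤ 1) → (∀ d u e, a d u e ≠ 0 → Odd d ∧ Squarefree d ∧ z < d ∧ d * u ≤ P) →
    (∀ v u e, |b v u e| ≤ 1) → (∀ v u e, b v u e ≠ 0 → Odd v ∧ Squarefree v ∧ z < v ∧ e * v ≤ Q) →
    |∑ u ∈ Icc 1 P, ∑ e ∈ Icc 1 Q, ∑ d ∈ Icc 1 P, ∑ v ∈ Icc 1 Q, a d u e * b v u e * jj v d| ≤
      C * P * Q * (z : ℝ) ^ (-(1 / 6 : ℝ)) * (1 + Real.log (P * Q)) ^ 3 := by
  refine ⟨8, by norm_num, ?_⟩
  intro z P Q hz hP hQ a b ha1 ha0 hb1 hb0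
  have hz0 : (0 : ℝ) < z := by exact_mod_cast hz
  have hP0 : (1 : ℝ) ≤ P := by exact_mod_cast hP
  have hQ0 : (1 : ℝ) ≤ Q := by exact_mod_cast hQ
  have hPQ : (1 : ℝ) ≤ (P : ℝ) * Q := by nlinarith
  have hlog : 0 ≤ Real.log (P * Q) := Real.log_nonneg hPQ
  have hzp : (0 : ℝ) < (z : ℝ) ^ (-(1 / 6 : ℝ)) := Real.rpow_pos_of_pos hz0 _
  have hlP : 1 + Real.log P ≤ 1 + Real.log (P * Q) := by
    have : Real.log P ≤ Real.log (P * Q) := Real.log_le_log (by linarith) (by nlinarith)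
    linarith
  have hlQ : 1 + Real.log Q ≤ 1 + Real.log (P * Q) := by
    have : Real.log Q ≤ Real.log (P * Q) := Real.log_le_log (by linarith) (by nlinarith)
    linarith
  set L : ℝ := 1 + Real.log (P * Q) with hL
  set Z : ℝ := (z : ℝ) ^ (-(1 / 6 : ℝ)) with hZ
  have hL0 : 0 ≤ L := by linarith
  calc |∑ u ∈ Icc 1 P, ∑ e ∈ Icc 1 Q, ∑ d ∈ Icc 1 P, ∑ v ∈ Icc 1 Q, a d u e * b v u e * jj v d|
      ≤ ∑ u ∈ Icc 1 P, ∑ e ∈ Icc 1 Q, 8 * (P * (1 / (u : ℝ))) * (Q * (1 / (e : ℝ))) * Z * L := by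
        refine (Finset.abs_sum_le_sum_abs _ _).trans (Finset.sum_le_sum fun u hu => ?_)
        refine (Finset.abs_sum_le_sum_abs _ _).trans (Finset.sum_le_sum fun e he => ?_)
        have hu' := mem_Icc.1 hu
        have he' := mem_Icc.1 he
        exact four_inner z P Q hz hP hQ u e hu'.1 he'.1 (fun d => a d u e)
          (fun v => b v u e) (fun d => ha1 d u e) (fun d => ha0 d u e) (fun v => hb1 v u e)
          (fun v => hb0 v u e)
    _ = 8 * P * Q * Z * L * ((∑ u ∈ Icc 1 P, (1 : ℝ) / u) * ∑ e ∈ Icc 1 Q, (1 : ℝ) / e) := by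
        rw [Finset.sum_mul_sum, Finset.mul_sum]
        refine Finset.sum_congr rfl fun u _ => ?_
        rw [Finset.mul_sum]
        refine Finset.sum_congr rfl fun e _ => ?_
        ring
    _ ≤ 8 * P * Q * Z * L * (L * L) := by
        have h1 : ∑ u ∈ Icc 1 P, (1 : ℝ) / u ≤ L := (four_harm P).trans hlP
        have h2 : ∑ e ∈ Icc 1 Q, (1 : ℝ) / e ≤ L := (four_harm Q).trans hlQ
        have h3 : 0 ≤ ∑ e ∈ Icc 1 Q, (1 : ℝ) / e := Finset.sum_nonneg fun e _ => by positivity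
        have h4 : (∑ u ∈ Icc 1 P, (1 : ℝ) / u) * ∑ e ∈ Icc 1 Q, (1 : ℝ) / e ≤ L * L :=
          mul_le_mul h1 h2 h3 hL0
        exact mul_le_mul_of_nonneg_left h4 (by positivity)
    _ = 8 * P * Q * Z * L ^ 3 := by ring

end Pool.Agent.Wal
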