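import Pool.Agent.Lib.MP_6498db_nt.W.BxA
import Pool.Agent.Lib.MP_6498db_nt.W.Four

/-! WALSH, row BxC: the linked terms `d > 1, v > 1`. -/

set_option autoImplicit false

namespace Pool.Agent.Wal

open Finset

private theorem bxC_lt {z d : ℕ} (hd : 1 < d) (hr : Rough z d) : z < d := by
  obtain ⟨p, hp, hpd⟩ := Nat.exists_prime_and_dvd (show d ≠ 1 by omega)
  exact lt_of_lt_of_le (hr p hp hpd) (Nat.le_of_dvd (by omega) hpd)

private theorem bxC_odd {z d : ℕ} (hz : 2 ≤ z) (hr : Rough z d) : Odd d := by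
  by_contra h
  rw [Nat.not_odd_iff_even] at h
  have := hr 2 Nat.prime_two h.two_dvd
  omega

private theorem bxC_dvd {z a b : ℕ} (h : a ∣ b) (hr : Rough z b) : Rough z a :=
  fun p hp hpa => hr p hp (hpa.trans h)

private theorem bxC_mul {z a b : ℕ} (ha : Rough z a) (hb : Rough z b) : Rough z (a * b) :=
  fun p hp hpab => (hp.dvd_mul.mp hpab).elim (ha p hp) (hb p hp)

private theorem bxC_jj {v d : ℕ} (hd : d ≠ 0) (h : jj v d ≠ 0) : Nat.Coprime v d := by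
  by_contra hc
  apply h
  unfold jj
  haveI : NeZero d := ⟨hd⟩
  have : jacobiSym (v : ℤ) d = 0 := by
    rw [jacobiSym.eq_zero_iff_not_coprime]
    rw [Int.gcd_natCast_natCast]
    exact hc
  rw [this]
  simp

open Classical in
private noncomputable def bxCa (D : Dat) (z N B0 : ℕ) (VA : ℕ → ℝ) (K : ℕ → ℕ → Prop)
    (d u e : ℕ) : ℝ :=
  if 1 < d ∧ N ≤ d * u ∧ d * u < 2 * N ∧ Squarefree (d * u * e) ∧ Rough z d ∧ Rough z u ∧
      Rough z e ∧ K u e then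
    VA (d * u) * (sg D.aC D.s d) * jj B0 d * jj e d * jj d e else 0

open Classical in
private noncomputable def bxCb (D : Dat) (z M A0 : ℕ) (VB : ℕ → ℝ) (v u e : ℕ) : ℝ :=
  if 1 < v ∧ e * v ≤ M ∧ Squarefree (u * e * v) ∧ Rough z v then
    VB (e * v) * (sg D.bC D.t e) * jj A0 e * jj u e else 0

private theorem bxC_abs4 {a b c d : ℝ} (ha : |a| ≤ 1) (hb : |b| ≤ 1) (hc : |c| ≤ 1)
    (hd : |d| ≤ 1) : |a * b * c * d| ≤ 1 := by
  rw [abs_mul, abs_mul, abs_mul]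
  have h1 : |a| * |b| ≤ 1 := mul_le_one₀ ha (abs_nonneg _) hb
  have h2 : |a| * |b| * |c| ≤ 1 := mul_le_one₀ h1 (abs_nonneg _) hc
  exact mul_le_one₀ h2 (abs_nonneg _) hd

private theorem bxC_V {x : ℝ} (h : 0 ≤ x ∧ x ≤ 1) : |x| ≤ 1 := by
  rw [abs_of_nonneg h.1]; exact h.2

private theorem bxC_term (D : Dat) {z N M A0 B0 : ℕ} {VA VB : ℕ → ℝ} {K : ℕ → ℕ → Prop}
    {d u e v : ℕ} (hu : 1 ≤ u) (he : 1 ≤ e)
    (inst : Decidable (BX z N M d u e v ∧ 1 < d ∧ 1 < v ∧ K u e)) :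
    (if BX z N M d u e v ∧ 1 < d ∧ 1 < v ∧ K u e then trm D A0 B0 VA VB d u e v else 0)
      = bxCa D z N B0 VA K d u e * bxCb D z M A0 VB v u e * jj v d := by
  classical
  by_cases hQ : BX z N M d u e v ∧ 1 < d ∧ 1 < v ∧ K u e
  · obtain ⟨⟨h1, h2, h3, h4, h5, h6, h7, h8⟩, hd, hv, hK⟩ := hQ
    rw [if_pos ⟨⟨h1, h2, h3, h4, h5, h6, h7, h8⟩, hd, hv, hK⟩]
    have hru : Rough z u := bxC_dvd (Dvd.intro_left d rfl) h5
    have hrd : Rough z d := bxC_dvd (Dvd.intro u rfl) h5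
    have hre : Rough z e := bxC_dvd (Dvd.intro v rfl) h6
    have hrv : Rough z v := bxC_dvd (Dvd.intro_left e rfl) h6
    have hs1 : Squarefree (d * u * e) :=
      h4.squarefree_of_dvd ⟨v, by ring⟩
    have hs2 : Squarefree (u * e * v) :=
      h4.squarefree_of_dvd ⟨d, by ring⟩
    unfold bxCa bxCb trm
    rw [if_pos ⟨hd, h1, h2, hs1, hrd, hru, hre, hK⟩, if_pos ⟨hv, h3, hs2, hrv⟩]
    ring
  · rw [if_neg hQ]
    symm
    by_contra hne
    apply hQ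
    have hj : jj v d ≠ 0 := right_ne_zero_of_mul hne
    have hab := left_ne_zero_of_mul hne
    have ha := left_ne_zero_of_mul hab
    have hb := right_ne_zero_of_mul hab
    unfold bxCa at ha
    unfold bxCb at hb
    rw [ite_ne_right_iff] at ha hb
    obtain ⟨⟨hd, h1, h2, hs1, hrd, hru, hre, hK⟩, -⟩ := ha
    obtain ⟨⟨hv, h3, hs2, hrv⟩, -⟩ := hb
    have hcop := bxC_jj (by omega) hj
    rw [Nat.squarefree_mul_iff] at hs2
    obtain ⟨hc2, -, hsv⟩ := hs2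
    have hcv : Nat.Coprime (d * u * e) v := by
      have h9 : Nat.Coprime (u * e) v := hc2
      have h10 : Nat.Coprime (d * (u * e)) v := Nat.Coprime.mul_left hcop.symm h9
      rwa [← mul_assoc] at h10
    refine ⟨⟨h1, h2, h3, ?_, bxC_mul hrd hru, bxC_mul hre hrv, ?_, ?_⟩, hd, hv, hK⟩
    · rw [show d * u * (e * v) = (d * u * e) * v by ring]
      exact (Nat.squarefree_mul_iff).mpr ⟨hcv, hs1, hsv⟩
    · nlinarith
    · nlinarith

/-- Proof. Exchange the order of summation: outer `u, e`, inner `d, v`, `P = 2N`, `Q = M`. Under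
`BX z N M d u e v ∧ 1 < d ∧ 1 < v ∧ K u e` the term is `a d u e * b v u e * jj v d` with
`a d u e = [1 < d, N ≤ d u < 2N, Squarefree (d u e), Rough z d, Rough z u, Rough z e, K u e] VA(d u) sg(d) jj B0 d jj e d jj d e`,
`b v u e = [1 < v, e v ≤ M, Squarefree (u e v), Rough z v] VB(e v) sg(e) jj A0 e jj u e`; conversely if the product
`a * b * jj v d` is not `0` then `gcd(v, d) = 1` and `(d,u,e,v)` is in the box (`Squarefree (d u e v)` from pairwise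
coprimality; also `1 < d u`, `1 < e v`). `Rough z d`, `1 < d` give `z < d`; `z ≥ 2` gives `d`, `v` odd. Then
`fourfold` and `1 + log (2 N M) ≤ 2 (1 + log (N M))`. -/
theorem link_one : ∃ C : ℝ, 0 < C ∧ ∀ (D : Dat), (∀ p, D.s p = 1 ∨ D.s p = -1) →
    (∀ p, D.t p = 1 ∨ D.t p = -1) → ∀ (z N M A0 B0 : ℕ), 2 ≤ z → 1 ≤ N → 1 ≤ M →
    ∀ VA VB : ℕ → ℝ, (∀ n, 0 ≤ VA n ∧ VA n ≤ 1) → (∀ n, 0 ≤ VB n ∧ VB n ≤ 1) →
    ∀ K : ℕ → ℕ → Prop,
    |W4 N M (fun d u e v => BX z N M d u e v ∧ 1 < d ∧ 1 < v ∧ K u e) (trm D A0 B0 VA VB)| ≤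
      C * N * M * (z : ℝ) ^ (-(1 / 6 : ℝ)) * (1 + Real.log (N * M)) ^ 3 := by
  classical
  obtain ⟨C, hC, hf⟩ := fourfold
  refine ⟨16 * C, by positivity, ?_⟩
  intro D hs ht z N M A0 B0 hz hN hM VA VB hVA hVB K
  have key := hf z (2 * N) M (by omega) (by omega) hM (bxCa D z N B0 VA K) (bxCb D z M A0 VB)
    ?_ ?_ ?_ ?_
  · have hW : W4 N M (fun d u e v => BX z N M d u e v ∧ 1 < d ∧ 1 < v ∧ K u e)
        (trm D A0 B0 VA VB) = ∑ u ∈ Icc 1 (2 * N), ∑ e ∈ Icc 1 M, ∑ d ∈ Icc 1 (2 * N),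
          ∑ v ∈ Icc 1 M, bxCa D z N B0 VA K d u e * bxCb D z M A0 VB v u e * jj v d := by
      unfold W4
      rw [sum_comm]
      refine sum_congr rfl (fun u hu => ?_)
      rw [sum_comm]
      refine sum_congr rfl (fun e he => ?_)
      refine sum_congr rfl (fun d _ => sum_congr rfl (fun v _ => ?_))
      exact bxC_term D (mem_Icc.mp hu).1 (mem_Icc.mp he).1 _
    rw [hW]
    refine key.trans ?_
    have hN1 : (1 : ℝ) ≤ N := by exact_mod_cast hN
    have hM1 : (1 : ℝ) ≤ M := by exact_mod_cast hM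
    have hL : 0 ≤ Real.log ((N : ℝ) * M) := Real.log_nonneg (by nlinarith)
    have h1 : Real.log (((2 * N : ℕ) : ℝ) * M) = Real.log 2 + Real.log ((N : ℝ) * M) := by
      rw [← Real.log_mul (by norm_num) (by positivity)]
      push_cast
      ring_nf
    have h2 : Real.log 2 ≤ 1 := by
      have := Real.log_two_lt_d9
      linarith
    have h2' : 0 ≤ Real.log 2 := Real.log_nonneg (by norm_num)
    have h3 : (1 + Real.log (((2 * N : ℕ) : ℝ) * M)) ^ 3 ≤ (2 * (1 + Real.log ((N : ℝ) * M))) ^ 3 := by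
      rw [h1]
      exact pow_le_pow_left₀ (by linarith) (by linarith) 3
    have hz0 : 0 ≤ (z : ℝ) ^ (-(1 / 6 : ℝ)) := by positivity
    calc C * ((2 * N : ℕ) : ℝ) * M * (z : ℝ) ^ (-(1 / 6 : ℝ))
          * (1 + Real.log (((2 * N : ℕ) : ℝ) * M)) ^ 3
        ≤ C * ((2 * N : ℕ) : ℝ) * M * (z : ℝ) ^ (-(1 / 6 : ℝ))
          * (2 * (1 + Real.log ((N : ℝ) * M))) ^ 3 :=
          mul_le_mul_of_nonneg_left h3 (by positivity)
      _ = 16 * C * N * M * (z : ℝ) ^ (-(1 / 6 : ℝ)) * (1 + Real.log (N * M)) ^ 3 := by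
          push_cast; ring
  · intro d u e
    unfold bxCa
    split_ifs
    · have h1 := bxC_abs4 (bxC_V (hVA (d * u))) (sg_abs D.aC D.s hs d) (jj_abs B0 d) (jj_abs e d)
      rw [abs_mul]
      exact mul_le_one₀ h1 (abs_nonneg _) (jj_abs d e)
    · simp
  · intro d u e h
    unfold bxCa at h
    rw [ite_ne_right_iff] at h
    obtain ⟨⟨hd, h1, h2, hs1, hrd, hru, hre, hK⟩, -⟩ := h
    exact ⟨bxC_odd hz hrd, hs1.squarefree_of_dvd ⟨u * e, by ring⟩, bxC_lt hd hrd, h2.le⟩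
  · intro v u e
    unfold bxCb
    split_ifs
    · exact bxC_abs4 (bxC_V (hVB (e * v))) (sg_abs D.bC D.t ht e) (jj_abs A0 e) (jj_abs u e)
    · simp
  · intro v u e h
    unfold bxCb at h
    rw [ite_ne_right_iff] at h
    obtain ⟨⟨hv, h3, hs2, hrv⟩, -⟩ := h
    exact ⟨bxC_odd hz hrv, hs2.squarefree_of_dvd ⟨u * e, by ring⟩, bxC_lt hv hrv, h3⟩

end Pool.Agent.Wal
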