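import Pool.Agent.Lib.MP_6498db_nt.W.BxA
import Pool.Agent.Lib.MP_6498db_nt.W.Four

/-! WALSH, row BxD: the linked terms `e > 1, u > 1`. -/

set_option autoImplicit false

namespace Pool.Agent.Wal

open Finset

private theorem bxD_comm {D U E V : Finset ℕ} (f : ℕ → ℕ → ℕ → ℕ → ℝ) :
    ∑ d ∈ D, ∑ u ∈ U, ∑ e ∈ E, ∑ v ∈ V, f d u e v =
      ∑ v ∈ V, ∑ d ∈ D, ∑ e ∈ E, ∑ u ∈ U, f d u e v := by
  rw [Finset.sum_comm (s := V) (t := D)]
  refine Finset.sum_congr rfl fun d _ => ?_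
  have h1 : ∑ u ∈ U, ∑ e ∈ E, ∑ v ∈ V, f d u e v = ∑ u ∈ U, ∑ v ∈ V, ∑ e ∈ E, f d u e v :=
    Finset.sum_congr rfl fun u _ => Finset.sum_comm
  rw [h1, Finset.sum_comm]
  exact Finset.sum_congr rfl fun v _ => Finset.sum_comm

private theorem bxD_lt {z n : ℕ} (h : Rough z n) (hn : 1 < n) : z < n := by
  obtain ⟨p, hp, hpn⟩ := Nat.exists_prime_and_dvd (Nat.ne_of_gt hn)
  exact lt_of_lt_of_le (h p hp hpn) (Nat.le_of_dvd (by omega) hpn)

private theorem bxD_odd {z n : ℕ} (hz : 2 ≤ z) (h : Rough z n) : Odd n := by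
  rw [← Nat.not_even_iff_odd]
  intro he
  have := h 2 Nat.prime_two he.two_dvd
  omega

private theorem bxD_rough_mul {z a b : ℕ} (ha : Rough z a) (hb : Rough z b) : Rough z (a * b) := by
  intro p hp hpab
  rcases (hp.dvd_mul).1 hpab with h | h
  · exact ha p hp h
  · exact hb p hp h

private theorem bxD_rough_left {z a b : ℕ} (h : Rough z (a * b)) : Rough z a :=
  fun p hp hpa => h p hp (hpa.mul_right b)

private theorem bxD_rough_right {z a b : ℕ} (h : Rough z (a * b)) : Rough z b :=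
  fun p hp hpa => h p hp (hpa.mul_left a)

/-- the condition on `e, v, d` -/
private def bxDA (z M e v d : ℕ) : Prop :=
  1 < e ∧ e * v ≤ M ∧ Squarefree (e * (v * d)) ∧ Rough z e ∧ Rough z v ∧ Rough z d

/-- the condition on `u, v, d` -/
private def bxDB (z N u v d : ℕ) : Prop :=
  1 < u ∧ N ≤ d * u ∧ d * u < 2 * N ∧ Squarefree (u * (v * d)) ∧ Rough z u

private theorem bxD_iff {z N M d u e v : ℕ} (hd : 1 ≤ d) (hv : 1 ≤ v) :
    (BX z N M d u e v ∧ 1 < e ∧ 1 < u) ↔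
      (bxDA z M e v d ∧ bxDB z N u v d ∧ Nat.Coprime u e) := by
  constructor
  · rintro ⟨⟨h1, h2, h3, h4, h5, h6, h7, h8⟩, he, hu⟩
    have e1 : d * u * (e * v) = e * (v * d) * u := by ring
    have e2 : d * u * (e * v) = u * (v * d) * e := by ring
    have e3 : d * u * (e * v) = u * e * (d * v) := by ring
    refine ⟨⟨he, h3, ?_, bxD_rough_left h6, bxD_rough_right h6, bxD_rough_left h5⟩,
      ⟨hu, h1, h2, ?_, bxD_rough_right h5⟩, ?_⟩
    · rw [e1] at h4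
      exact h4.of_mul_left
    · rw [e2] at h4
      exact h4.of_mul_left
    · rw [e3] at h4
      exact (Nat.squarefree_mul_iff.1 h4.of_mul_left).1
  · rintro ⟨⟨he, h3, h4, h5, h6, h7⟩, ⟨hu, h8, h9, h10, h11⟩, h12⟩
    have hdu : 1 < d * u := lt_of_lt_of_le hu (Nat.le_mul_of_pos_left u hd)
    have hev : 1 < e * v := lt_of_lt_of_le he (Nat.le_mul_of_pos_right e hv)
    refine ⟨⟨h8, h9, h3, ?_, bxD_rough_mul h7 h11, bxD_rough_mul h5 h6, hdu, hev⟩, he, hu⟩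
    have e1 : d * u * (e * v) = u * (e * (v * d)) := by ring
    rw [e1]
    have s1 := Nat.squarefree_mul_iff.1 h10
    refine Nat.squarefree_mul_iff.2 ⟨?_, s1.2.1, h4⟩
    exact Nat.Coprime.mul_right h12 s1.1

/-- Proof. Same as `link_one` with the roles exchanged: outer `v` (cofactor of `e`), `d` (cofactor of `u`), inner `e, u`
with kernel `jj u e`: `fourfold` with `P = M`, `Q = 2N`, its variables `(d, u, e, v)` being our `(e, v, d, u)`. -/
theorem link_two : ∃ C : ℝ, 0 < C ∧ ∀ (D : Dat), (∀ p, D.s p = 1 ∨ D.s p = -1) →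
    (∀ p, D.t p = 1 ∨ D.t p = -1) → ∀ (z N M A0 B0 : ℕ), 2 ≤ z → 1 ≤ N → 1 ≤ M →
    ∀ VA VB : ℕ → ℝ, (∀ n, 0 ≤ VA n ∧ VA n ≤ 1) → (∀ n, 0 ≤ VB n ∧ VB n ≤ 1) →
    |W4 N M (fun d u e v => BX z N M d u e v ∧ 1 < e ∧ 1 < u) (trm D A0 B0 VA VB)| ≤
      C * N * M * (z : ℝ) ^ (-(1 / 6 : ℝ)) * (1 + Real.log (N * M)) ^ 3 := by
  classical
  obtain ⟨C, hC, hF⟩ := fourfold
  refine ⟨16 * C, by positivity, ?_⟩
  intro D hs ht z N M A0 B0 hz hN hM VA VB hVA hVB
  let a : ℕ → ℕ → ℕ → ℝ := fun e v d => if bxDA z M e v d then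
    VB (e * v) * (sg D.bC D.t e * jj A0 e) * (jj e d * jj v d * jj d e) else 0
  let b : ℕ → ℕ → ℕ → ℝ := fun u v d => if bxDB z N u v d then
    VA (d * u) * (sg D.aC D.s d * jj B0 d) else 0
  have hVA' : ∀ n, |VA n| ≤ 1 := fun n => by
    rw [abs_of_nonneg (hVA n).1]
    exact (hVA n).2
  have hVB' : ∀ n, |VB n| ≤ 1 := fun n => by
    rw [abs_of_nonneg (hVB n).1]
    exact (hVB n).2
  have hm : ∀ x y : ℝ, |x| ≤ 1 → |y| ≤ 1 → |x * y| ≤ 1 := fun x y hx hy => by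
    rw [abs_mul]
    exact mul_le_one₀ hx (abs_nonneg _) hy
  have ha1 : ∀ e v d, |a e v d| ≤ 1 := by
    intro e v d
    by_cases h : bxDA z M e v d
    · have : a e v d = VB (e * v) * (sg D.bC D.t e * jj A0 e) * (jj e d * jj v d * jj d e) :=
        if_pos h
      rw [this]
      exact hm _ _ (hm _ _ (hVB' _) (hm _ _ (sg_abs _ _ ht _) (jj_abs _ _)))
        (hm _ _ (hm _ _ (jj_abs _ _) (jj_abs _ _)) (jj_abs _ _))
    · have : a e v d = 0 := if_neg h
      rw [this, abs_zero]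
      exact zero_le_one
  have hb1 : ∀ u v d, |b u v d| ≤ 1 := by
    intro u v d
    by_cases h : bxDB z N u v d
    · have : b u v d = VA (d * u) * (sg D.aC D.s d * jj B0 d) := if_pos h
      rw [this]
      exact hm _ _ (hVA' _) (hm _ _ (sg_abs _ _ hs _) (jj_abs _ _))
    · have : b u v d = 0 := if_neg h
      rw [this, abs_zero]
      exact zero_le_one
  have ha2 : ∀ e v d, a e v d ≠ 0 → Odd e ∧ Squarefree e ∧ z < e ∧ e * v ≤ M := by
    intro e v d h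
    have h1 : bxDA z M e v d := by
      by_contra hcon
      exact h (if_neg hcon)
    obtain ⟨he, h3, h4, h5, -, -⟩ := h1
    exact ⟨bxD_odd hz h5, h4.of_mul_left, bxD_lt h5 he, h3⟩
  have hb2 : ∀ u v d, b u v d ≠ 0 → Odd u ∧ Squarefree u ∧ z < u ∧ d * u ≤ 2 * N := by
    intro u v d h
    have h1 : bxDB z N u v d := by
      by_contra hcon
      exact h (if_neg hcon)
    obtain ⟨hu, -, h3, h4, h5⟩ := h1
    exact ⟨bxD_odd hz h5, h4.of_mul_left, bxD_lt h5 hu, h3.le⟩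
  have key := hF z M (2 * N) (by omega) hM (by omega) a b ha1 ha2 hb1 hb2
  have hsum : W4 N M (fun d u e v => BX z N M d u e v ∧ 1 < e ∧ 1 < u) (trm D A0 B0 VA VB) =
      ∑ v ∈ Icc 1 M, ∑ d ∈ Icc 1 (2 * N), ∑ e ∈ Icc 1 M, ∑ u ∈ Icc 1 (2 * N),
        a e v d * b u v d * jj u e := by
    unfold W4
    rw [bxD_comm]
    refine Finset.sum_congr rfl fun v hv => Finset.sum_congr rfl fun d hd =>
      Finset.sum_congr rfl fun e he => Finset.sum_congr rfl fun u hu => ?_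
    have hv1 : 1 ≤ v := (Finset.mem_Icc.1 hv).1
    have hd1 : 1 ≤ d := (Finset.mem_Icc.1 hd).1
    have he1 : 1 ≤ e := (Finset.mem_Icc.1 he).1
    by_cases hQ : BX z N M d u e v ∧ 1 < e ∧ 1 < u
    · have h1 := (bxD_iff hd1 hv1).1 hQ
      rw [if_pos hQ]
      have h2 : a e v d = VB (e * v) * (sg D.bC D.t e * jj A0 e) *
          (jj e d * jj v d * jj d e) := if_pos h1.1
      have h3 : b u v d = VA (d * u) * (sg D.aC D.s d * jj B0 d) := if_pos h1.2.1
      rw [h2, h3]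
      unfold trm
      ring
    · rw [if_neg hQ]
      by_cases h1 : bxDA z M e v d
      · by_cases h2 : bxDB z N u v d
        · have h3 : ¬ Nat.Coprime u e := fun h3 => hQ ((bxD_iff hd1 hv1).2 ⟨h1, h2, h3⟩)
          have h4 : jj u e = 0 := by
            have hne : NeZero e := ⟨by omega⟩
            have h5 : jacobiSym (u : ℤ) e = 0 := by
              rw [jacobiSym.eq_zero_iff_not_coprime]
              exact h3
            unfold jj
            rw [h5, Int.cast_zero]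
          rw [h4, mul_zero]
        · have h3 : b u v d = 0 := if_neg h2
          rw [h3, mul_zero, zero_mul]
      · have h3 : a e v d = 0 := if_neg h1
        rw [h3, zero_mul, zero_mul]
  rw [hsum]
  refine key.trans ?_
  have hN' : (1 : ℝ) ≤ N := by exact_mod_cast hN
  have hM' : (1 : ℝ) ≤ M := by exact_mod_cast hM
  have hNM : (1 : ℝ) ≤ (N : ℝ) * M := by nlinarith
  have hlog : 0 ≤ Real.log ((N : ℝ) * M) := Real.log_nonneg hNM
  have hlog2 : Real.log 2 ≤ 1 := by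
    have := Real.log_two_lt_d9
    linarith
  have h1 : 1 + Real.log ((M : ℝ) * ((2 * N : ℕ) : ℝ)) ≤ 2 * (1 + Real.log ((N : ℝ) * M)) := by
    have h2 : (M : ℝ) * ((2 * N : ℕ) : ℝ) = 2 * ((N : ℝ) * M) := by
      push_cast
      ring
    rw [h2, Real.log_mul (by norm_num) (by positivity)]
    linarith
  have h0 : 0 ≤ 1 + Real.log ((M : ℝ) * ((2 * N : ℕ) : ℝ)) := by
    have h2 : (1 : ℝ) ≤ (M : ℝ) * ((2 * N : ℕ) : ℝ) := by
      push_cast
      nlinarith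
    have := Real.log_nonneg h2
    linarith
  have h3 : (1 + Real.log ((M : ℝ) * ((2 * N : ℕ) : ℝ))) ^ 3 ≤
      8 * (1 + Real.log ((N : ℝ) * M)) ^ 3 := by
    calc (1 + Real.log ((M : ℝ) * ((2 * N : ℕ) : ℝ))) ^ 3
        ≤ (2 * (1 + Real.log ((N : ℝ) * M))) ^ 3 := pow_le_pow_left₀ h0 h1 3
      _ = 8 * (1 + Real.log ((N : ℝ) * M)) ^ 3 := by ring
  have hz0 : 0 ≤ (z : ℝ) ^ (-(1 / 6 : ℝ)) := Real.rpow_nonneg (Nat.cast_nonneg z) _
  calc C * (M : ℝ) * ((2 * N : ℕ) : ℝ) * (z : ℝ) ^ (-(1 / 6 : ℝ)) *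
        (1 + Real.log ((M : ℝ) * ((2 * N : ℕ) : ℝ))) ^ 3
      ≤ C * (M : ℝ) * ((2 * N : ℕ) : ℝ) * (z : ℝ) ^ (-(1 / 6 : ℝ)) *
        (8 * (1 + Real.log ((N : ℝ) * M)) ^ 3) :=
        mul_le_mul_of_nonneg_left h3 (by positivity)
    _ = 16 * C * N * M * (z : ℝ) ^ (-(1 / 6 : ℝ)) * (1 + Real.log (N * M)) ^ 3 := by
        push_cast
        ring

end Pool.Agent.Wal
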