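import Pool.Agent.Lib.MP_6498db_nt.W.BxB
import Pool.Agent.Lib.MP_6498db_nt.W.BxC
import Pool.Agent.Lib.MP_6498db_nt.W.BxD

/-! WALSH, row Box: the estimate in a box. -/

set_option autoImplicit false

namespace Pool.Agent.Wal

open Finset

/-- Assembly: `box_expand`, `W4_split`, `main_one`, `main_two`, `link_one` (with `K = True` and with
`K u e = (1 < e ∧ 1 < u)`), `link_two`. -/
theorem box : ∃ C : ℝ, 0 < C ∧ ∀ (D : Dat), (∀ p, D.s p = 1 ∨ D.s p = -1) →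
    (∀ p, D.t p = 1 ∨ D.t p = -1) → ∀ (z N M A0 B0 : ℕ), 2 ≤ z → 1 ≤ N → 1 ≤ M →
    ∀ VA VB : ℕ → ℝ, (∀ n, 0 ≤ VA n ∧ VA n ≤ 1) → (∀ n, 0 ≤ VB n ∧ VB n ≤ 1) →
    W2 z N M VA VB (fun a b => gA D B0 b a * gB D A0 a b) ≤
      2 * W2 z N M VA VB (fun _ _ => 1) +
        C * N * M * (z : ℝ) ^ (-(1 / 6 : ℝ)) * (1 + Real.log (N * M)) ^ 3 := by
  obtain ⟨C₁, hC₁, h1⟩ := link_one
  obtain ⟨C₂, hC₂, h2⟩ := link_two
  refine ⟨2 * C₁ + C₂, by linarith, ?_⟩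
  intro D hs ht z N M A0 B0 hz hN hM VA VB hA hB
  have e1 := h1 D hs ht z N M A0 B0 hz hN hM VA VB hA hB (fun _ _ => True)
  have e2 := h1 D hs ht z N M A0 B0 hz hN hM VA VB hA hB (fun u e => 1 < e ∧ 1 < u)
  have e3 := h2 D hs ht z N M A0 B0 hz hN hM VA VB hA hB
  have e4 := main_two D hs ht z N M A0 B0 hN VA VB (fun n => (hA n).1) (fun n => (hB n).1)
  simp only [and_true] at e1
  rw [box_expand D z N M A0 B0 hN VA VB, W4_split, main_one D z N M A0 B0 hN VA VB]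
  have f1 := (abs_le.1 e1).2
  have f2 := (abs_le.1 e2).1
  have f3 := (abs_le.1 e3).2
  obtain ⟨T, hT⟩ : ∃ T : ℝ, T = (N : ℝ) * M * (z : ℝ) ^ (-(1 / 6 : ℝ)) *
    (1 + Real.log (N * M)) ^ 3 := ⟨_, rfl⟩
  have g : ∀ C : ℝ, C * N * M * (z : ℝ) ^ (-(1 / 6 : ℝ)) * (1 + Real.log (N * M)) ^ 3 =
      C * T := fun C => by
    rw [hT]
    ring
  rw [g] at f1 f2 f3 ⊢
  linarith

end Pool.Agent.Wal
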