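import Pool.Agent.Lib.MP_6498db_nt.W.BxDefs

/-! WALSH, row BxA: expansion of the products. -/

set_option autoImplicit false

namespace Pool.Agent.Wal

open Finset

/-- `∏_{p ∣ a} (1 + g p) = ∑_{d ∣ a} ∏_{p ∣ d} g p` for squarefree `a`
(Mathlib `Finset.prod_one_add`, or `ArithmeticFunction.IsMultiplicative.prodPrimeFactors_one_add_of_squarefree`,
`Nat.sum_divisors_filter_squarefree`). -/
theorem PF_one_add (g : ℕ → ℝ) (a : ℕ) (ha : Squarefree a) :
    PF (fun p => 1 + g p) a = ∑ d ∈ a.divisors, PF g d := by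
  have hm := ArithmeticFunction.IsMultiplicative.prodPrimeFactors g
  have h := hm.prodPrimeFactors_one_add_of_squarefree ha
  have h1 : ∀ n : ℕ, n ≠ 0 → ArithmeticFunction.prodPrimeFactors g n = PF g n := by
    intro n hn
    rw [ArithmeticFunction.prodPrimeFactors_apply hn]
    rfl
  have h2 : PF (fun p => 1 + g p) a = ∏ p ∈ a.primeFactors, (1 + ArithmeticFunction.prodPrimeFactors g p) := by
    unfold PF
    refine Finset.prod_congr rfl fun p hp => ?_
    have hpp := Nat.prime_of_mem_primeFactors hp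
    rw [h1 p hpp.ne_zero]
    unfold PF
    rw [hpp.primeFactors, Finset.prod_singleton]
  rw [h2, h]
  refine Finset.sum_congr rfl fun d hd => ?_
  rw [h1 d (Nat.pos_of_mem_divisors hd).ne']

private theorem jac_prod (m : ℤ) (s : Finset ℕ) (hs : ∀ p ∈ s, p ≠ 0) :
    jacobiSym m (∏ p ∈ s, p) = ∏ p ∈ s, jacobiSym m p := by
  classical
  induction s using Finset.induction_on with
  | empty => simp
  | insert a s ha ih =>
    rw [Finset.prod_insert ha, Finset.prod_insert ha,
      jacobiSym.mul_right' m (hs a (Finset.mem_insert_self _ _))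
        (Finset.prod_ne_zero_iff.2 fun p hp => hs p (Finset.mem_insert_of_mem hp)),
      ih fun p hp => hs p (Finset.mem_insert_of_mem hp)]

/-- the Jacobi symbol of a squarefree number is the product over its prime factors -/
theorem jj_prod (m d : ℕ) (hd : Squarefree d) : jj m d = PF (fun p => jj m p) d := by
  unfold PF jj
  rw [← Int.cast_prod, ← jac_prod (m : ℤ) d.primeFactors
    (fun p hp => (Nat.prime_of_mem_primeFactors hp).ne_zero), Nat.prod_primeFactors_of_squarefree hd]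

theorem jj_mul_left (a b d : ℕ) : jj (a * b) d = jj a d * jj b d := by
  unfold jj
  rw [Nat.cast_mul, jacobiSym.mul_left, Int.cast_mul]

theorem jj_abs (m d : ℕ) : |jj m d| ≤ 1 := by
  unfold jj
  rcases jacobiSym.trichotomy (m : ℤ) d with h | h | h <;> rw [h] <;> norm_num

theorem sg_abs (P : ℕ → Prop) (s : ℕ → ℤ) (hs : ∀ p, s p = 1 ∨ s p = -1) (d : ℕ) : |sg P s d| ≤ 1 := by
  unfold sg PF
  rw [Finset.abs_prod]
  refine Finset.prod_le_one (fun p _ => abs_nonneg _) fun p _ => ?_
  split_ifs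
  · rcases hs p with h | h <;> rw [h] <;> norm_num
  · simp

private theorem expand_aux (P : ℕ → Prop) (s : ℕ → ℤ) (m a : ℕ) (ha : Squarefree a) :
    (open Classical in PF (fun p => if P p then 1 + (s p : ℝ) * jj m p else 1) a) =
      ∑ d ∈ a.divisors, sg P s d * jj m d := by
  classical
  have h := PF_one_add (fun p => if P p then (s p : ℝ) * jj m p else 0) a ha
  have h2 : PF (fun p => if P p then 1 + (s p : ℝ) * jj m p else 1) a =
      PF (fun p => 1 + (if P p then (s p : ℝ) * jj m p else 0)) a := by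
    unfold PF
    refine Finset.prod_congr rfl fun p _ => ?_
    dsimp only
    split_ifs
    · rfl
    · simp
  rw [h2, h]
  refine Finset.sum_congr rfl fun d hd => ?_
  have hd2 : Squarefree d := ha.squarefree_of_dvd (Nat.dvd_of_mem_divisors hd)
  rw [jj_prod m d hd2]
  unfold sg PF
  rw [← Finset.prod_mul_distrib]
  refine Finset.prod_congr rfl fun p _ => ?_
  dsimp only
  split_ifs
  · rfl
  · simp

theorem gA_expand (D : Dat) (B0 b a : ℕ) (ha : Squarefree a) :
    gA D B0 b a = ∑ d ∈ a.divisors, sg D.aC D.s d * jj B0 d * jj b d := by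
  unfold gA
  rw [expand_aux D.aC D.s (B0 * b) a ha]
  refine Finset.sum_congr rfl fun d _ => ?_
  rw [jj_mul_left, mul_assoc]

theorem gB_expand (D : Dat) (A0 a b : ℕ) (hb : Squarefree b) :
    gB D A0 a b = ∑ e ∈ b.divisors, sg D.bC D.t e * jj A0 e * jj a e := by
  unfold gB
  rw [expand_aux D.bC D.t (A0 * a) b hb]
  refine Finset.sum_congr rfl fun d _ => ?_
  rw [jj_mul_left, mul_assoc]

private theorem sum_div (S : Finset ℕ) (L : ℕ) (hS : ∀ a ∈ S, 1 ≤ a ∧ a ≤ L) (F : ℕ → ℕ → ℝ) :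
    ∑ a ∈ S, ∑ d ∈ a.divisors, F d (a / d) =
      ∑ d ∈ Icc 1 L, ∑ u ∈ Icc 1 L, if d * u ∈ S then F d u else 0 := by
  have h1 : ∀ a ∈ S, ∑ d ∈ a.divisors, F d (a / d) =
      ∑ p ∈ Icc 1 L ×ˢ Icc 1 L, if p.1 * p.2 = a then F p.1 p.2 else 0 := by
    intro a ha
    obtain ⟨ha1, haL⟩ := hS a ha
    rw [← Nat.sum_divisorsAntidiagonal (f := F), ← Finset.sum_filter]
    refine Finset.sum_congr ?_ fun _ _ => rfl
    ext ⟨d, u⟩
    simp only [Nat.mem_divisorsAntidiagonal, Finset.mem_filter, Finset.mem_product, Finset.mem_Icc]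
    constructor
    · rintro ⟨h, h0⟩
      have hd0 : d ≠ 0 := by rintro rfl; simp at h; omega
      have hu0 : u ≠ 0 := by rintro rfl; simp at h; omega
      have hd : d ≤ a := by rw [← h]; exact Nat.le_mul_of_pos_right d (Nat.pos_of_ne_zero hu0)
      have hu : u ≤ a := by rw [← h]; exact Nat.le_mul_of_pos_left u (Nat.pos_of_ne_zero hd0)
      exact ⟨⟨⟨by omega, by omega⟩, ⟨by omega, by omega⟩⟩, h⟩
    · rintro ⟨_, h⟩
      exact ⟨h, by omega⟩
  rw [Finset.sum_congr rfl h1, Finset.sum_comm, Finset.sum_product]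
  refine Finset.sum_congr rfl fun d _ => Finset.sum_congr rfl fun u _ => ?_
  rw [Finset.sum_ite_eq]

/-- the sum over the box is the fourfold sum: `∑_{a} ∑_{d ∣ a} = ∑_{d, u}` with `a = d u`, `b = e v`;
`jj (e v) d = jj e d * jj v d`, `jj (d u) e = jj d e * jj u e`. -/
theorem box_expand (D : Dat) (z N M A0 B0 : ℕ) (hN : 1 ≤ N) (VA VB : ℕ → ℝ) :
    W2 z N M VA VB (fun a b => gA D B0 b a * gB D A0 a b) = W4 N M (BX z N M) (trm D A0 B0 VA VB) := by
  classical
  set K : ℕ → ℕ → ℕ → ℕ → ℝ := fun a b d e => if RS z a b then VA a * VB b *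
    ((sg D.aC D.s d * jj B0 d * jj b d) * (sg D.bC D.t e * jj A0 e * jj a e)) else 0 with hK
  have h1 : W2 z N M VA VB (fun a b => gA D B0 b a * gB D A0 a b) =
      ∑ a ∈ Ico N (2 * N), ∑ d ∈ a.divisors, ∑ b ∈ Icc 1 M, ∑ e ∈ b.divisors, K a b d e := by
    unfold W2
    refine Finset.sum_congr rfl fun a _ => ?_
    rw [Finset.sum_comm]
    refine Finset.sum_congr rfl fun b _ => ?_
    by_cases h : RS z a b
    · have ha : Squarefree a := h.1.squarefree_of_dvd (Dvd.intro _ rfl)
      have hb : Squarefree b := h.1.squarefree_of_dvd (Dvd.intro_left _ rfl)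
      rw [if_pos h]
      show VA a * VB b * (gA D B0 b a * gB D A0 a b) = _
      rw [gA_expand D B0 b a ha, gB_expand D A0 a b hb, Finset.sum_mul_sum, Finset.mul_sum]
      refine Finset.sum_congr rfl fun d _ => ?_
      rw [Finset.mul_sum]
      refine Finset.sum_congr rfl fun e _ => ?_
      simp only [hK, if_pos h]
    · rw [if_neg h]
      symm
      refine Finset.sum_eq_zero fun d _ => Finset.sum_eq_zero fun e _ => ?_
      simp only [hK, if_neg h]
  have h2 : ∑ a ∈ Ico N (2 * N), ∑ d ∈ a.divisors, ∑ b ∈ Icc 1 M, ∑ e ∈ b.divisors, K a b d e =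
      ∑ a ∈ Ico N (2 * N), ∑ d ∈ a.divisors,
        (fun d u => ∑ b ∈ Icc 1 M, ∑ e ∈ b.divisors, K (d * u) b d e) d (a / d) := by
    refine Finset.sum_congr rfl fun a _ => Finset.sum_congr rfl fun d hd => ?_
    simp only [Nat.mul_div_cancel' (Nat.dvd_of_mem_divisors hd)]
  rw [h1, h2]
  refine (sum_div (Ico N (2 * N)) (2 * N) (fun a ha => by rw [Finset.mem_Ico] at ha; omega)
    (fun d u => ∑ b ∈ Icc 1 M, ∑ e ∈ b.divisors, K (d * u) b d e)).trans ?_
  unfold W4
  refine Finset.sum_congr rfl fun d _ => Finset.sum_congr rfl fun u _ => ?_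
  have h3 : ∑ b ∈ Icc 1 M, ∑ e ∈ b.divisors, K (d * u) b d e =
      ∑ e ∈ Icc 1 M, ∑ v ∈ Icc 1 M, if e * v ∈ Icc 1 M then K (d * u) (e * v) d e else 0 := by
    rw [← sum_div (Icc 1 M) M (fun a ha => by rw [Finset.mem_Icc] at ha; omega)
      (fun e v => K (d * u) (e * v) d e)]
    refine Finset.sum_congr rfl fun b _ => Finset.sum_congr rfl fun e he => ?_
    simp only [Nat.mul_div_cancel' (Nat.dvd_of_mem_divisors he)]
  have h4 : ∀ e ∈ Icc 1 M, ∀ v ∈ Icc 1 M,
      (if d * u ∈ Ico N (2 * N) then (if e * v ∈ Icc 1 M then K (d * u) (e * v) d e else 0) else 0) =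
      if BX z N M d u e v then trm D A0 B0 VA VB d u e v else 0 := by
    intro e he v hv
    rw [Finset.mem_Icc] at he hv
    have hev : 1 ≤ e * v := Nat.one_le_iff_ne_zero.2 (Nat.mul_ne_zero (by omega) (by omega))
    by_cases hb : BX z N M d u e v
    · obtain ⟨b1, b2, b3, b4⟩ := hb
      rw [if_pos (Finset.mem_Ico.2 ⟨b1, b2⟩), if_pos (Finset.mem_Icc.2 ⟨hev, b3⟩),
        if_pos (show BX z N M d u e v from ⟨b1, b2, b3, b4⟩)]
      simp only [hK, if_pos b4]
      unfold trm
      rw [jj_mul_left e v d, jj_mul_left d u e]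
      ring
    · rw [if_neg hb]
      split_ifs with c1 c2
      · rw [Finset.mem_Ico] at c1
        rw [Finset.mem_Icc] at c2
        have : ¬ RS z (d * u) (e * v) := fun hr => hb ⟨c1.1, c1.2, c2.2, hr⟩
        simp only [hK, if_neg this]
      · rfl
      · rfl
  rw [← Finset.sum_congr rfl fun e he => Finset.sum_congr rfl fun v hv => h4 e he v hv]
  by_cases hc : d * u ∈ Ico N (2 * N)
  · simp only [if_pos hc]
    exact h3
  · simp only [if_neg hc, Finset.sum_const_zero]

end Pool.Agent.Wal
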