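import Pool.Agent.Lib.MP_6498db_nt.W.BxA

/-! WALSH, row BxB: splitting of the fourfold sum, unlinked terms. -/

set_option autoImplicit false

namespace Pool.Agent.Wal

open Finset

/-- pointwise splitting of one term -/
private theorem bxb_point (z N M : ℕ) (x : ℝ) (d u e v : ℕ) {i0 : Decidable (BX z N M d u e v)}
    {i1 : Decidable (BX z N M d u e v ∧ d = 1 ∧ e = 1)} {i2 : Decidable (BX z N M d u e v ∧ u = 1 ∧ v = 1)}
    {i3 : Decidable (BX z N M d u e v ∧ 1 < d ∧ 1 < v)} {i4 : Decidable (BX z N M d u e v ∧ 1 < e ∧ 1 < u)}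
    {i5 : Decidable (BX z N M d u e v ∧ 1 < d ∧ 1 < v ∧ 1 < e ∧ 1 < u)} :
    (if BX z N M d u e v then x else 0) =
      (if BX z N M d u e v ∧ d = 1 ∧ e = 1 then x else 0) +
      (if BX z N M d u e v ∧ u = 1 ∧ v = 1 then x else 0) +
      (if BX z N M d u e v ∧ 1 < d ∧ 1 < v then x else 0) +
      (if BX z N M d u e v ∧ 1 < e ∧ 1 < u then x else 0) -
      (if BX z N M d u e v ∧ 1 < d ∧ 1 < v ∧ 1 < e ∧ 1 < u then x else 0) := by
  by_cases h : BX z N M d u e v
  · obtain ⟨-, -, -, -, -, -, h1, h2⟩ := id h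
    have hd0 : d ≠ 0 := by rintro rfl; simp at h1
    have hu0 : u ≠ 0 := by rintro rfl; simp at h1
    have he0 : e ≠ 0 := by rintro rfl; simp at h2
    have hv0 : v ≠ 0 := by rintro rfl; simp at h2
    by_cases hd : d = 1
    · have hu : 1 < u := by rw [hd, one_mul] at h1; exact h1
      have hu' : u ≠ 1 := by omega
      have hd' : ¬ 1 < d := by omega
      by_cases he : e = 1
      · have he' : ¬ 1 < e := by omega
        rw [if_pos h, if_pos ⟨h, hd, he⟩, if_neg (fun t => hu' t.2.1), if_neg (fun t => hd' t.2.1),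
          if_neg (fun t => he' t.2.1), if_neg (fun t => hd' t.2.1)]
        ring
      · have he' : 1 < e := by omega
        rw [if_pos h, if_neg (fun t => he t.2.2), if_neg (fun t => hu' t.2.1), if_neg (fun t => hd' t.2.1),
          if_pos ⟨h, he', hu⟩, if_neg (fun t => hd' t.2.1)]
        ring
    · have hd' : 1 < d := by omega
      by_cases hu : u = 1
      · have hu' : ¬ 1 < u := by omega
        by_cases hv : v = 1
        · have hv' : ¬ 1 < v := by omega
          rw [if_pos h, if_neg (fun t => hd t.2.1), if_pos ⟨h, hu, hv⟩, if_neg (fun t => hv' t.2.2),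
            if_neg (fun t => hu' t.2.2), if_neg (fun t => hv' t.2.2.1)]
          ring
        · have hv' : 1 < v := by omega
          rw [if_pos h, if_neg (fun t => hd t.2.1), if_neg (fun t => hv t.2.2), if_pos ⟨h, hd', hv'⟩,
            if_neg (fun t => hu' t.2.2), if_neg (fun t => hu' t.2.2.2.2)]
          ring
      · have hu' : 1 < u := by omega
        by_cases he : e = 1
        · have he' : ¬ 1 < e := by omega
          have hv' : 1 < v := by rw [he, one_mul] at h2; exact h2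
          rw [if_pos h, if_neg (fun t => hd t.2.1), if_neg (fun t => hu t.2.1), if_pos ⟨h, hd', hv'⟩,
            if_neg (fun t => he' t.2.1), if_neg (fun t => he' t.2.2.2.1)]
          ring
        · have he' : 1 < e := by omega
          by_cases hv : v = 1
          · have hv' : ¬ 1 < v := by omega
            rw [if_pos h, if_neg (fun t => hd t.2.1), if_neg (fun t => hu t.2.1), if_neg (fun t => hv' t.2.2),
              if_pos ⟨h, he', hu'⟩, if_neg (fun t => hv' t.2.2.1)]
            ring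
          · have hv' : 1 < v := by omega
            rw [if_pos h, if_neg (fun t => hd t.2.1), if_neg (fun t => hu t.2.1), if_pos ⟨h, hd', hv'⟩,
              if_pos ⟨h, he', hu'⟩, if_pos ⟨h, hd', hv', he', hu'⟩]
            ring
  · rw [if_neg h, if_neg (fun t => h t.1), if_neg (fun t => h t.1), if_neg (fun t => h t.1),
      if_neg (fun t => h t.1), if_neg (fun t => h t.1)]
    ring

/-- Pointwise: in `BX` one has `d u > 1`, `e v > 1`, all four `≥ 1`. With `P = [d > 1]`, `Q = [v > 1]`, `R = [e > 1]`,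
`S = [u > 1]`: `1 = [d = 1 ∧ e = 1] + [u = 1 ∧ v = 1] + [P Q] + [R S] - [P Q R S]`. -/
theorem W4_split (z N M : ℕ) (F : ℕ → ℕ → ℕ → ℕ → ℝ) :
    W4 N M (BX z N M) F =
      W4 N M (fun d u e v => BX z N M d u e v ∧ d = 1 ∧ e = 1) F +
      W4 N M (fun d u e v => BX z N M d u e v ∧ u = 1 ∧ v = 1) F +
      W4 N M (fun d u e v => BX z N M d u e v ∧ 1 < d ∧ 1 < v) F +
      W4 N M (fun d u e v => BX z N M d u e v ∧ 1 < e ∧ 1 < u) F -
      W4 N M (fun d u e v => BX z N M d u e v ∧ 1 < d ∧ 1 < v ∧ 1 < e ∧ 1 < u) F := by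
  classical
  unfold W4
  simp only [← Finset.sum_add_distrib, ← Finset.sum_sub_distrib]
  refine Finset.sum_congr rfl fun d _ => Finset.sum_congr rfl fun u _ =>
    Finset.sum_congr rfl fun e _ => Finset.sum_congr rfl fun v _ => ?_
  exact bxb_point z N M (F d u e v) d u e v

private theorem bxb_PF_one (f : ℕ → ℝ) : PF f 1 = 1 := by
  unfold PF
  rw [Nat.primeFactors_one, Finset.prod_empty]

private theorem bxb_jj_one (m : ℕ) : jj m 1 = 1 := by
  unfold jj
  rw [jacobiSym.one_right]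
  norm_num

private theorem bxb_trm_one (D : Dat) (A0 B0 : ℕ) (VA VB : ℕ → ℝ) (u v : ℕ) :
    trm D A0 B0 VA VB 1 u 1 v = VA u * VB v := by
  unfold trm sg
  rw [bxb_PF_one, bxb_PF_one, bxb_jj_one, bxb_jj_one, bxb_jj_one, bxb_jj_one, bxb_jj_one]
  simp

/-- a sum over `Icc 1 (2 N)` of terms supported on `[N, 2N)` -/
private theorem bxb_Ico (N : ℕ) (_hN : 1 ≤ N) (f : ℕ → ℝ) (hf : ∀ a, ¬ (N ≤ a ∧ a < 2 * N) → f a = 0) :
    ∑ a ∈ Icc 1 (2 * N), f a = ∑ a ∈ Ico N (2 * N), f a := by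
  symm
  refine Finset.sum_subset (fun a ha => ?_) (fun a _ ha => ?_)
  · rw [mem_Ico] at ha
    rw [mem_Icc]
    omega
  · rw [mem_Ico] at ha
    exact hf a ha

/-- the terms `d = e = 1`: `trm = VA u * VB v` -/
theorem main_one (D : Dat) (z N M A0 B0 : ℕ) (hN : 1 ≤ N) (VA VB : ℕ → ℝ) :
    W4 N M (fun d u e v => BX z N M d u e v ∧ d = 1 ∧ e = 1) (trm D A0 B0 VA VB) =
      W2 z N M VA VB (fun _ _ => 1) := by
  classical
  unfold W4 W2
  rw [Finset.sum_eq_single 1]
  · rw [bxb_Ico N hN]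
    · refine Finset.sum_congr rfl fun u hu => ?_
      rw [mem_Ico] at hu
      rw [Finset.sum_eq_single 1]
      · refine Finset.sum_congr rfl fun v hv => ?_
        rw [mem_Icc] at hv
        rw [bxb_trm_one]
        have hiff : (BX z N M 1 u 1 v ∧ 1 = 1 ∧ 1 = 1) ↔ RS z u v := by
          unfold BX
          rw [one_mul, one_mul]
          exact ⟨fun t => t.1.2.2.2, fun t => ⟨⟨hu.1, hu.2, hv.2, t⟩, rfl, rfl⟩⟩
        by_cases h : RS z u v
        · rw [if_pos (hiff.2 h), if_pos h, mul_one]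
        · rw [if_neg (fun t => h (hiff.1 t)), if_neg h]
      · intro e _ he
        refine Finset.sum_eq_zero fun v _ => ?_
        rw [if_neg (fun t => he t.2.2)]
      · intro h1
        have hM : M = 0 := by
          rw [mem_Icc] at h1
          omega
        subst hM
        simp
    · intro u hu
      refine Finset.sum_eq_zero fun e _ => Finset.sum_eq_zero fun v _ => ?_
      rw [if_neg]
      rintro ⟨h, -, -⟩
      have h1 := h.1
      have h2 := h.2.1
      rw [one_mul] at h1 h2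
      exact hu ⟨h1, h2⟩
  · intro d _ hd
    refine Finset.sum_eq_zero fun u _ => Finset.sum_eq_zero fun e _ => Finset.sum_eq_zero fun v _ => ?_
    rw [if_neg (fun t => hd t.2.1)]
  · intro h1
    exfalso
    apply h1
    rw [mem_Icc]
    omega

private theorem bxb_mul_le (x y : ℝ) (hx : |x| ≤ 1) (hy : |y| ≤ 1) : |x * y| ≤ 1 := by
  rw [abs_mul]
  have := abs_nonneg x
  have := abs_nonneg y
  nlinarith

private theorem bxb_trm_le (D : Dat) (hs : ∀ p, D.s p = 1 ∨ D.s p = -1) (ht : ∀ p, D.t p = 1 ∨ D.t p = -1)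
    (A0 B0 : ℕ) (VA VB : ℕ → ℝ) (hA : ∀ n, 0 ≤ VA n) (hB : ∀ n, 0 ≤ VB n) (d e : ℕ) :
    trm D A0 B0 VA VB d 1 e 1 ≤ VA d * VB e := by
  unfold trm
  rw [mul_one, mul_one]
  have h1 : |(sg D.aC D.s d * jj B0 d)| ≤ 1 := bxb_mul_le _ _ (sg_abs _ _ hs _) (jj_abs _ _)
  have h2 : |(sg D.bC D.t e * jj A0 e)| ≤ 1 := bxb_mul_le _ _ (sg_abs _ _ ht _) (jj_abs _ _)
  have h3 : |(jj e d * jj 1 d * jj d e * jj 1 e)| ≤ 1 :=
    bxb_mul_le _ _ (bxb_mul_le _ _ (bxb_mul_le _ _ (jj_abs _ _) (jj_abs _ _)) (jj_abs _ _)) (jj_abs _ _)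
  have h4 : |(sg D.aC D.s d * jj B0 d) * ((sg D.bC D.t e * jj A0 e) *
      (jj e d * jj 1 d * jj d e * jj 1 e))| ≤ 1 :=
    bxb_mul_le _ _ h1 (bxb_mul_le _ _ h2 h3)
  have h5 : 0 ≤ VA d * VB e := mul_nonneg (hA d) (hB e)
  calc VA d * VB e * (sg D.aC D.s d * jj B0 d) * (sg D.bC D.t e * jj A0 e) *
        (jj e d * jj 1 d * jj d e * jj 1 e)
      = VA d * VB e * ((sg D.aC D.s d * jj B0 d) * ((sg D.bC D.t e * jj A0 e) *
      (jj e d * jj 1 d * jj d e * jj 1 e))) := by ring
    _ ≤ VA d * VB e * 1 := mul_le_mul_of_nonneg_left ((abs_le.1 h4).2) h5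
    _ = VA d * VB e := mul_one _

/-- the terms `u = v = 1`: `|trm| ≤ VA d * VB e` -/
theorem main_two (D : Dat) (hs : ∀ p, D.s p = 1 ∨ D.s p = -1) (ht : ∀ p, D.t p = 1 ∨ D.t p = -1)
    (z N M A0 B0 : ℕ) (hN : 1 ≤ N) (VA VB : ℕ → ℝ) (hA : ∀ n, 0 ≤ VA n) (hB : ∀ n, 0 ≤ VB n) :
    W4 N M (fun d u e v => BX z N M d u e v ∧ u = 1 ∧ v = 1) (trm D A0 B0 VA VB) ≤
      W2 z N M VA VB (fun _ _ => 1) := by
  classical
  unfold W4 W2
  rw [bxb_Ico N hN]
  · refine Finset.sum_le_sum fun d hd => ?_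
    rw [mem_Ico] at hd
    rw [Finset.sum_eq_single 1]
    · refine Finset.sum_le_sum fun e he => ?_
      rw [mem_Icc] at he
      rw [Finset.sum_eq_single 1]
      · have hiff : (BX z N M d 1 e 1 ∧ 1 = 1 ∧ 1 = 1) ↔ RS z d e := by
          unfold BX
          rw [mul_one, mul_one]
          exact ⟨fun t => t.1.2.2.2, fun t => ⟨⟨hd.1, hd.2, he.2, t⟩, rfl, rfl⟩⟩
        by_cases h : RS z d e
        · rw [if_pos (hiff.2 h), if_pos h, mul_one]
          exact bxb_trm_le D hs ht A0 B0 VA VB hA hB d e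
        · rw [if_neg (fun t => h (hiff.1 t)), if_neg h]
      · intro v _ hv
        rw [if_neg (fun t => hv t.2.2)]
      · intro h1
        exfalso
        apply h1
        rw [mem_Icc]
        omega
    · intro u _ hu
      refine Finset.sum_eq_zero fun e _ => Finset.sum_eq_zero fun v _ => ?_
      rw [if_neg (fun t => hu t.2.1)]
    · intro h1
      exfalso
      apply h1
      rw [mem_Icc]
      omega
  · intro d hd
    refine Finset.sum_eq_zero fun u _ => Finset.sum_eq_zero fun e _ => Finset.sum_eq_zero fun v _ => ?_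
    rw [if_neg]
    rintro ⟨h, hu, -⟩
    have h1 := h.1
    have h2 := h.2.1
    rw [hu, mul_one] at h1 h2
    exact hd ⟨h1, h2⟩

end Pool.Agent.Wal
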