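import Pool.Agent.Lib.MP_6498db_nt.W.Defs

/-! WALSH: definitions for the box. DO NOT EDIT (owner helper52). -/

set_option autoImplicit false

namespace Pool.Agent.Wal

open Finset

/-- coprime squarefree `z`-rough numbers `a, b > 1` -/
def RS (z a b : ℕ) : Prop := Squarefree (a * b) ∧ Rough z a ∧ Rough z b ∧ 1 < a ∧ 1 < b

open Classical in
/-- `∏_{p ∣ a, aC p} (1 + s p (B0 b / p))` -/
noncomputable def gA (D : Dat) (B0 b a : ℕ) : ℝ :=
  PF (fun p => if D.aC p then 1 + (D.s p : ℝ) * jj (B0 * b) p else 1) a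

open Classical in
/-- `∏_{q ∣ b, bC q} (1 + t q (A0 a / q))` -/
noncomputable def gB (D : Dat) (A0 a b : ℕ) : ℝ :=
  PF (fun q => if D.bC q then 1 + (D.t q : ℝ) * jj (A0 * a) q else 1) b

open Classical in
/-- `∏_{p ∣ d} s p` if all primes of `d` satisfy `P`, else 0 -/
noncomputable def sg (P : ℕ → Prop) (s : ℕ → ℤ) (d : ℕ) : ℝ := PF (fun p => if P p then (s p : ℝ) else 0) d

/-- the term of the fourfold sum (`a = d u`, `b = e v`) -/
noncomputable def trm (D : Dat) (A0 B0 : ℕ) (VA VB : ℕ → ℝ) (d u e v : ℕ) : ℝ :=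
  VA (d * u) * VB (e * v) * (sg D.aC D.s d * jj B0 d) * (sg D.bC D.t e * jj A0 e) *
    (jj e d * jj v d * jj d e * jj u e)

/-- the box -/
def BX (z N M d u e v : ℕ) : Prop := N ≤ d * u ∧ d * u < 2 * N ∧ e * v ≤ M ∧ RS z (d * u) (e * v)

open Classical in
/-- sums over the quadruples satisfying `Q` -/
noncomputable def W4 (N M : ℕ) (Q : ℕ → ℕ → ℕ → ℕ → Prop) (F : ℕ → ℕ → ℕ → ℕ → ℝ) : ℝ :=
  ∑ d ∈ Icc 1 (2 * N), ∑ u ∈ Icc 1 (2 * N), ∑ e ∈ Icc 1 M, ∑ v ∈ Icc 1 M, if Q d u e v then F d u e v else 0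

open Classical in
/-- the sum over the box of `VA a * VB b * w a b` -/
noncomputable def W2 (z N M : ℕ) (VA VB : ℕ → ℝ) (w : ℕ → ℕ → ℝ) : ℝ :=
  ∑ a ∈ Ico N (2 * N), ∑ b ∈ Icc 1 M, if RS z a b then VA a * VB b * w a b else 0

end Pool.Agent.Wal
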