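import Mathlib

/-! Project WALSH (MP_6498db_nt): definitions.  DO NOT EDIT (owner helper52). -/

set_option autoImplicit false

namespace Pool.Agent.Wal

open Finset

/-- A datum: a multiplier `c`, the primes allowed in `b`, the primes of `a` at which the symbol `(c b / p)` is
prescribed with the value `s p`, the primes of `b` at which the symbol `(a / q)` is prescribed with the value `t q`. -/
structure Dat where
  c : ℕ
  bP : ℕ → Prop
  aC : ℕ → Prop
  s : ℕ → ℤ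
  bC : ℕ → Prop
  t : ℕ → ℤ

/-- The pair `(a, b)` satisfies the conditions of the datum `D`. -/
structure Fits (D : Dat) (a b : ℕ) : Prop where
  nsq : ¬ IsSquare (D.c * b)
  odd : Odd b
  mem : ∀ p : ℕ, p.Prime → 3 < p → p ∣ b → D.bP p
  ca : ∀ p : ℕ, p.Prime → 3 < p → p ∣ a → D.aC p → jacobiSym ((D.c * b : ℕ) : ℤ) p = D.s p
  cb : ∀ q : ℕ, q.Prime → 3 < q → q ∣ b → D.bC q → jacobiSym (a : ℤ) q = D.t q

/-- weight of a prime in `a` -/
noncomputable def ka (D : Dat) (p : ℕ) : ℝ := by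
  classical exact if D.aC p then 1 / 2 else 1

/-- weight of a prime in `b` -/
noncomputable def kb (D : Dat) (p : ℕ) : ℝ := by
  classical exact if D.bP p then (if D.bC p then 1 / 2 else 1) else 0

/-- the eight classes mod 24 -/
def cls : Finset ℕ := {1, 5, 7, 11, 13, 17, 19, 23}

/-- what the analytic theorem needs about a datum -/
structure Good (D : Dat) : Prop where
  c1 : 1 ≤ D.c
  c3 : D.c ≤ 3
  s1 : ∀ p, D.s p = 1 ∨ D.s p = -1
  t1 : ∀ p, D.t p = 1 ∨ D.t p = -1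
  four : ∀ p : ℕ, p.Prime → 3 < p → p % 4 = 1 → D.aC p ∧ D.s p = 1
  lam : ∃ lam : ℕ → ℝ, (∀ r, 0 < lam r) ∧
    (∀ p : ℕ, p.Prime → 3 < p → lam (p % 24) * (ka D p + kb D p) ≤ 1) ∧ 1 < ∏ r ∈ cls, lam r
  out : ∃ r ∈ cls, ∀ p : ℕ, p.Prime → p % 24 = r → ¬ D.bP p

/-- the data of the exponent 3 -/
def dat1 : Dat := ⟨1, fun p => p % 3 = 1, fun _ => True, fun _ => 1, fun _ => False, fun _ => 1⟩
def dat2 : Dat := ⟨3, fun p => p % 3 = 1, fun _ => True, fun _ => 1, fun _ => False, fun _ => 1⟩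
def dat3 : Dat := ⟨1, fun p => p % 12 = 1, fun p => p % 12 ≠ 7, fun _ => 1, fun _ => False, fun _ => 1⟩
/-- the data of the exponent 4 -/
def dat5 : Dat := ⟨1, fun p => p % 4 = 1, fun _ => True, fun _ => 1, fun _ => False, fun _ => 1⟩
def dat6 : Dat := ⟨2, fun p => p % 4 = 1, fun _ => True, fun _ => 1, fun _ => False, fun _ => 1⟩
def dat7 (η : ℤ) : Dat := ⟨1, fun p => p % 8 ≠ 5, fun _ => True, fun p => if p % 4 = 1 then 1 else η,
  fun _ => True, fun q => if q % 8 = 1 then 1 else if q % 8 = 3 then η else -η⟩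

/-- all prime factors of `n` are larger than `z` -/
def Rough (z n : ℕ) : Prop := ∀ p : ℕ, p.Prime → p ∣ n → z < p

/-- product of `f` over the prime factors -/
noncomputable def PF (f : ℕ → ℝ) (n : ℕ) : ℝ := ∏ p ∈ n.primeFactors, f p

/-- the `z`-smooth part and the `z`-rough part of a squarefree number -/
def sm (z n : ℕ) : ℕ := ∏ p ∈ n.primeFactors with p ≤ z, p
def ro (z n : ℕ) : ℕ := ∏ p ∈ n.primeFactors with z < p, p

/-- the parameter `z = exp((log X)^δ)` -/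
noncomputable def zz (δ : ℝ) (X : ℕ) : ℕ := ⌊Real.exp (Real.log X ^ δ)⌋₊

/-- the Jacobi symbol `(m / n)` as a real number -/
noncomputable def jj (m n : ℕ) : ℝ := (jacobiSym (m : ℤ) n : ℝ)

/-- the sum over the squarefree `n ≤ Y` -/
noncomputable def sqs (Y : ℕ) : Finset ℕ := by
  classical exact (Icc 1 Y).filter Squarefree

theorem mem_sqs {Y n : ℕ} : n ∈ sqs Y ↔ 1 ≤ n ∧ n ≤ Y ∧ Squarefree n := by
  classical
  unfold sqs
  rw [mem_filter, mem_Icc, and_assoc]

/-- the primes `≤ Y` -/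
def prs (Y : ℕ) : Finset ℕ := (Icc 1 Y).filter Nat.Prime

theorem mem_prs {Y p : ℕ} : p ∈ prs Y ↔ p.Prime ∧ p ≤ Y := by
  unfold prs
  rw [mem_filter, mem_Icc]
  exact ⟨fun h => ⟨h.2, h.1.2⟩, fun h => ⟨⟨h.1.one_le, h.2⟩, h.1⟩⟩

end Pool.Agent.Wal
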