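import Pool.Agent.Lib.MP_6498db_nt.W.Defs

/-! WALSH, row HrA: the two steps of the Halberstam-Richert inequality. -/

set_option autoImplicit false

namespace Pool.Agent.Wal

open Finset

private theorem hrA_pf_nonneg (f : ℕ → ℝ) (h0 : ∀ p, 0 ≤ f p) (n : ℕ) : 0 ≤ PF f n :=
  Finset.prod_nonneg fun p _ => h0 p

private theorem hrA_pf_mul (f : ℕ → ℝ) {p k : ℕ} (hp : p.Prime) (hk : Squarefree (p * k)) :
    PF f (p * k) = f p * PF f k := by
  have hk0 : k ≠ 0 := by
    rintro rfl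
    rw [mul_zero] at hk
    exact not_squarefree_zero hk
  have hco : p.Coprime k := Nat.coprime_of_squarefree_mul hk
  have hpk : p ∉ k.primeFactors := by
    intro h
    have h1 : p ∣ k := Nat.dvd_of_mem_primeFactors h
    have h2 : p ∣ Nat.gcd p k := Nat.dvd_gcd dvd_rfl h1
    rw [hco] at h2
    exact hp.one_lt.ne' (Nat.dvd_one.1 h2)
  unfold PF
  rw [Nat.primeFactors_mul hp.ne_zero hk0, hp.primeFactors, Finset.singleton_union,
    Finset.prod_insert hpk]

private theorem hrA_log {n : ℕ} (hn : Squarefree n) :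
    Real.log n = ∑ p ∈ n.primeFactors, Real.log p := by
  have h1 : (n : ℝ) = ∏ p ∈ n.primeFactors, (p : ℝ) := by
    rw [← Nat.cast_prod, Nat.prod_primeFactors_of_squarefree hn]
  conv_lhs => rw [h1]
  rw [Real.log_prod]
  intro p hp
  exact_mod_cast (Nat.prime_of_mem_primeFactors hp).ne_zero

/-- Proof. For squarefree `n`: `log n = ∑_{p ∣ n} log p`, `n = p k` with `k` squarefree, `p ∤ k`,
`PF f n = f p * PF f k`. So the left side is at most `∑_{k ≤ Y} PF f k ∑_{p ≤ Y/k} f p log p`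
`≤ ∑_k PF f k * 4 θ(Y/k)`, and `θ(x) ≤ x log 4 ≤ 2 x` (Mathlib `Chebyshev.theta_le_log4_mul_x`). -/
theorem hr_log (f : ℕ → ℝ) (h0 : ∀ p, 0 ≤ f p) (h4 : ∀ p, f p ≤ 4) (Y : ℕ) (hY : 1 ≤ Y) :
    ∑ n ∈ sqs Y, PF f n * Real.log n ≤ 8 * Y * ∑ k ∈ sqs Y, PF f k / k := by
  classical
  -- step 1: write the logarithm as a sum over the primes up to `Y`
  have h1 : ∀ n ∈ sqs Y, PF f n * Real.log n =
      ∑ p ∈ prs Y, if p ∣ n then PF f n * Real.log p else 0 := by
    intro n hn
    obtain ⟨hn1, hnY, hns⟩ := mem_sqs.1 hn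
    rw [hrA_log hns, Finset.mul_sum, ← Finset.sum_filter]
    refine Finset.sum_congr ?_ fun _ _ => rfl
    ext p
    rw [Finset.mem_filter, mem_prs, Nat.mem_primeFactors]
    constructor
    · rintro ⟨hp, hpn, -⟩
      exact ⟨⟨hp, (Nat.le_of_dvd (by omega) hpn).trans hnY⟩, hpn⟩
    · rintro ⟨⟨hp, -⟩, hpn⟩
      exact ⟨hp, hpn, by omega⟩
  rw [Finset.sum_congr rfl h1, Finset.sum_comm]
  -- step 2: the sum over the multiples of `p`
  have h2 : ∀ p ∈ prs Y, (∑ n ∈ sqs Y, if p ∣ n then PF f n * Real.log p else 0) ≤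
      ∑ k ∈ sqs Y, if p * k ≤ Y then 4 * PF f k * Real.log p else 0 := by
    intro p hp
    obtain ⟨hpp, -⟩ := mem_prs.1 hp
    have hlog : 0 ≤ Real.log p := Real.log_natCast_nonneg p
    rw [← Finset.sum_filter, ← Finset.sum_filter]
    have hinj : Set.InjOn (fun n => n / p) (((sqs Y).filter fun n => p ∣ n : Finset ℕ) : Set ℕ) := by
      intro a ha b hb hab
      have ha' := (Finset.mem_filter.1 (Finset.mem_coe.1 ha)).2
      have hb' := (Finset.mem_filter.1 (Finset.mem_coe.1 hb)).2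
      have : a / p = b / p := hab
      rw [← Nat.mul_div_cancel' ha', ← Nat.mul_div_cancel' hb', this]
    have hle : ∑ n ∈ (sqs Y).filter (fun n => p ∣ n), PF f n * Real.log p ≤
        ∑ n ∈ (sqs Y).filter (fun n => p ∣ n), 4 * PF f (n / p) * Real.log p := by
      refine Finset.sum_le_sum fun n hn => ?_
      obtain ⟨hn', hpn⟩ := Finset.mem_filter.1 hn
      obtain ⟨-, -, hns⟩ := mem_sqs.1 hn'
      obtain ⟨k, rfl⟩ := hpn
      rw [hrA_pf_mul f hpp hns, Nat.mul_div_cancel_left k hpp.pos]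
      exact mul_le_mul_of_nonneg_right
        (mul_le_mul_of_nonneg_right (h4 p) (hrA_pf_nonneg f h0 k)) hlog
    refine hle.trans ?_
    rw [← Finset.sum_image (f := fun k => 4 * PF f k * Real.log p) hinj]
    refine Finset.sum_le_sum_of_subset_of_nonneg ?_ ?_
    · intro k hk
      obtain ⟨n, hn, rfl⟩ := Finset.mem_image.1 hk
      obtain ⟨hn', hpn⟩ := Finset.mem_filter.1 hn
      obtain ⟨hn1, hnY, hns⟩ := mem_sqs.1 hn'
      obtain ⟨k, rfl⟩ := hpn
      have e : p * k / p = k := Nat.mul_div_cancel_left k hpp.pos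
      simp only [e]
      rw [Finset.mem_filter, mem_sqs]
      have hk1 : 1 ≤ k := by
        rcases Nat.eq_zero_or_pos k with h | h
        · subst h; omega
        · exact h
      exact ⟨⟨hk1, (Nat.le_mul_of_pos_left k hpp.pos).trans hnY, hns.of_mul_right⟩, hnY⟩
    · intro k _ _
      have := hrA_pf_nonneg f h0 k
      positivity
  refine (Finset.sum_le_sum h2).trans ?_
  rw [Finset.sum_comm, Finset.mul_sum]
  refine Finset.sum_le_sum fun k hk => ?_
  obtain ⟨hk1, hkY, -⟩ := mem_sqs.1 hk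
  have hk0 : (0 : ℝ) < k := by exact_mod_cast hk1
  have hx : (0 : ℝ) ≤ (Y : ℝ) / k := by positivity
  have hth : ∑ p ∈ (prs Y).filter (fun p => p * k ≤ Y), Real.log p ≤ Chebyshev.theta ((Y : ℝ) / k) := by
    unfold Chebyshev.theta
    refine Finset.sum_le_sum_of_subset_of_nonneg ?_ fun p _ _ => Real.log_natCast_nonneg p
    intro p hp
    obtain ⟨hp', hpk⟩ := Finset.mem_filter.1 hp
    obtain ⟨hpp, -⟩ := mem_prs.1 hp'
    rw [Finset.mem_filter, Finset.mem_Ioc]
    refine ⟨⟨hpp.pos, ?_⟩, hpp⟩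
    refine Nat.le_floor ?_
    rw [le_div_iff₀ hk0]
    exact_mod_cast hpk
  have hth2 := Chebyshev.theta_le_log4_mul_x hx
  have hlog4 : Real.log 4 ≤ 2 := by
    have h : Real.log 4 = 2 * Real.log 2 := by
      have : (4 : ℝ) = 2 ^ 2 := by norm_num
      rw [this, Real.log_pow]
      norm_num
    rw [h]
    have := Real.log_two_lt_d9
    linarith
  have hpf := hrA_pf_nonneg f h0 k
  rw [← Finset.sum_filter]
  calc ∑ p ∈ (prs Y).filter (fun p => p * k ≤ Y), 4 * PF f k * Real.log p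
      = 4 * PF f k * ∑ p ∈ (prs Y).filter (fun p => p * k ≤ Y), Real.log p := by
        rw [Finset.mul_sum]
    _ ≤ 4 * PF f k * (2 * ((Y : ℝ) / k)) := by
        refine mul_le_mul_of_nonneg_left ?_ (by positivity)
        refine hth.trans (hth2.trans ?_)
        exact mul_le_mul_of_nonneg_right hlog4 hx
    _ = 8 * Y * (PF f k / k) := by ring

end Pool.Agent.Wal
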