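import Pool.Agent.Lib.MP_6498db_nt.W.Box
import Pool.Agent.Lib.MP_6498db_nt.W.RDefs

/-! WALSH, row Rl: the engine for rough numbers. -/

set_option autoImplicit false

namespace Pool.Agent.Wal

open Finset

private theorem rl_jj (m n : ℕ) : jj m n = 1 ∨ jj m n = -1 ∨ jj m n = 0 := by
  unfold jj
  rcases jacobiSym.trichotomy (m : ℤ) n with h | h | h
  · right; right; rw [h]; norm_num
  · left; rw [h]; norm_num
  · right; left; rw [h]; norm_num

private theorem rl_fac (s : ℤ) (hs : s = 1 ∨ s = -1) (m n : ℕ) : 0 ≤ 1 + (s : ℝ) * jj m n := by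
  rcases hs with h | h <;> rcases rl_jj m n with h2 | h2 | h2 <;> rw [h, h2] <;> norm_num

open Classical in
private theorem rl_PF0 (P : ℕ → Prop) (s : ℕ → ℤ) (hs : ∀ p, s p = 1 ∨ s p = -1) (m n : ℕ) :
    0 ≤ PF (fun p => if P p then 1 + (s p : ℝ) * jj m p else 1) n := by
  unfold PF
  refine Finset.prod_nonneg fun p _ => ?_
  by_cases h : P p
  · simp only [if_pos h]; exact rl_fac _ (hs p) m p
  · simp only [if_neg h]; exact zero_le_one

open Classical in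
private theorem rl_PF2 (P : ℕ → Prop) (s : ℕ → ℤ) (hs : ∀ p, s p = 1 ∨ s p = -1) (m n : ℕ)
    (h : ∀ p : ℕ, p.Prime → p ∣ n → P p → jacobiSym (m : ℤ) p = s p) :
    PF (fun p => if P p then 1 + (s p : ℝ) * jj m p else 1) n = (2 : ℝ) ^ wt P 0 n := by
  have h1 : PF (fun p => if P p then 1 + (s p : ℝ) * jj m p else 1) n
      = ∏ p ∈ n.primeFactors, if (0 < p ∧ P p) then (2 : ℝ) else 1 := by
    unfold PF
    refine Finset.prod_congr rfl fun p hp => ?_
    have hpp := Nat.prime_of_mem_primeFactors hp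
    have hpd := Nat.dvd_of_mem_primeFactors hp
    beta_reduce
    by_cases hP : P p
    · rw [if_pos hP, if_pos ⟨hpp.pos, hP⟩]
      have h3 : jj m p = (s p : ℝ) := by unfold jj; rw [h p hpp hpd hP]
      rw [h3]
      rcases hs p with h4 | h4 <;> rw [h4] <;> norm_num
    · rw [if_neg hP, if_neg (fun h4 => hP h4.2)]
  rw [h1, ← Finset.prod_filter, Finset.prod_const]
  unfold wt
  congr 1

/-- Under `FitsR` every factor of `gA`, `gB` equals 2 at a conditioned prime and 1 at the others: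
`2^(wt aC 0 a + wt bC 0 b) = gA D B0 b a * gB D A0 a b` if `FitsR`, and `gA, gB ≥ 0` always. -/
theorem fits_le (D : Dat) (hs : ∀ p, D.s p = 1 ∨ D.s p = -1) (ht : ∀ p, D.t p = 1 ∨ D.t p = -1)
    (A0 B0 a b : ℕ) : 0 ≤ gA D B0 b a ∧ 0 ≤ gB D A0 a b ∧
      (FitsR D A0 B0 a b → (2 : ℝ) ^ (wt D.aC 0 a + wt D.bC 0 b) = gA D B0 b a * gB D A0 a b) := by
  refine ⟨rl_PF0 D.aC D.s hs _ _, rl_PF0 D.bC D.t ht _ _, fun h => ?_⟩
  rw [pow_add]
  unfold gA gB
  rw [rl_PF2 D.aC D.s hs (B0 * b) a h.ca, rl_PF2 D.bC D.t ht (A0 * a) b h.cb]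

private theorem rl_dyadic (g : ℕ → ℝ) (n : ℕ) :
    ∑ i ∈ range n, ∑ a ∈ Ico (2 ^ i) (2 * 2 ^ i), g a = ∑ a ∈ Ico 1 (2 ^ n), g a := by
  induction n with
  | zero => simp
  | succ n ih =>
    rw [Finset.sum_range_succ, ih]
    have h1 : 1 ≤ 2 ^ n := Nat.one_le_two_pow
    have h2 : 2 ^ n ≤ 2 * 2 ^ n := by omega
    rw [Finset.sum_Ico_consecutive _ h1 h2, pow_succ, mul_comm (2 ^ n) 2]

/-- Proof. Cover the pairs `(a, b)`, `a b ≤ X`, by the boxes `a ∈ [2^i, 2^(i+1))`, `b ≤ X / 2^i`, `0 ≤ i ≤ log₂ X`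
(each pair lies in exactly one, `b ≤ X/a ≤ X/2^i`; the terms are `≥ 0`), `fits_le`, `box` with `N = 2^i`,
`M = X / 2^i ≥ 1`. A pair in a box has `a b < 2^(i+1) (X / 2^i) ≤ 2X`, so the main terms sum to at most the full main
sum (different boxes: different `a`). Errors: `∑_i C 2^i (X/2^i) z^(-1/6) (1 + log X)^3 ≤ C' X z^(-1/6) (1 + log X)^4`. -/
theorem rough_engine : ∃ C : ℝ, 0 < C ∧ ∀ (D : Dat), (∀ p, D.s p = 1 ∨ D.s p = -1) →
    (∀ p, D.t p = 1 ∨ D.t p = -1) → ∀ (z X A0 B0 : ℕ), 2 ≤ z → 1 ≤ X →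
    ∀ VA VB : ℕ → ℝ, (∀ n, 0 ≤ VA n ∧ VA n ≤ 1) → (∀ n, 0 ≤ VB n ∧ VB n ≤ 1) →
    S2 X (fun a b => RS z a b ∧ FitsR D A0 B0 a b)
        (fun a b => VA a * VB b * 2 ^ (wt D.aC 0 a + wt D.bC 0 b)) ≤
      2 * S2 (2 * X) (fun a b => RS z a b) (fun a b => VA a * VB b) +
        C * X * (z : ℝ) ^ (-(1 / 6 : ℝ)) * (1 + Real.log X) ^ 5 := by
  classical
  obtain ⟨C, hC, hbox⟩ := box
  refine ⟨2 * C, by positivity, ?_⟩
  intro D hs ht z X A0 B0 hz hX VA VB hVA hVB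
  set t : ℕ → ℕ → ℝ := fun a b => if RS z a b then VA a * VB b * (gA D B0 b a * gB D A0 a b) else 0 with ht0
  have htnn : ∀ a b, 0 ≤ t a b := by
    intro a b
    by_cases h : RS z a b
    · have h1 := fits_le D hs ht A0 B0 a b
      simp only [ht0, if_pos h]
      exact mul_nonneg (mul_nonneg (hVA a).1 (hVB b).1) (mul_nonneg h1.1 h1.2.1)
    · simp only [ht0, if_neg h]; exact le_refl 0
  set u : ℕ → ℕ → ℝ := fun a b => if RS z a b then VA a * VB b else 0 with hu0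
  have hunn : ∀ a b, 0 ≤ u a b := by
    intro a b
    by_cases h : RS z a b
    · simp only [hu0, if_pos h]
      exact mul_nonneg (hVA a).1 (hVB b).1
    · simp only [hu0, if_neg h]; exact le_refl 0
  -- step 1
  have h1 : S2 X (fun a b => RS z a b ∧ FitsR D A0 B0 a b)
        (fun a b => VA a * VB b * 2 ^ (wt D.aC 0 a + wt D.bC 0 b)) ≤
      ∑ a ∈ Icc 1 X, ∑ b ∈ Icc 1 (X / a), t a b := by
    unfold S2
    refine Finset.sum_le_sum fun a _ => Finset.sum_le_sum fun b _ => ?_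
    beta_reduce
    by_cases h : RS z a b ∧ FitsR D A0 B0 a b
    · rw [if_pos h, (fits_le D hs ht A0 B0 a b).2.2 h.2]
      simp only [ht0, if_pos h.1]
      exact le_refl _
    · rw [if_neg h]; exact htnn a b
  set L := Nat.log 2 X with hL
  have hXL : X < 2 ^ (L + 1) := Nat.lt_pow_succ_log_self (by norm_num) X
  have hLX : ∀ i, i ∈ range (L + 1) → 2 ^ i ≤ X := by
    intro i hi
    have h2 : i ≤ L := by rw [mem_range] at hi; omega
    exact Nat.pow_le_of_le_log (by omega) h2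
  -- step 2
  have h2 : ∑ a ∈ Icc 1 X, ∑ b ∈ Icc 1 (X / a), t a b ≤
      ∑ i ∈ range (L + 1), W2 z (2 ^ i) (X / 2 ^ i) VA VB (fun a b => gA D B0 b a * gB D A0 a b) := by
    have h3 : ∑ a ∈ Icc 1 X, ∑ b ∈ Icc 1 (X / a), t a b ≤ ∑ a ∈ Ico 1 (2 ^ (L + 1)), ∑ b ∈ Icc 1 (X / a), t a b := by
      refine Finset.sum_le_sum_of_subset_of_nonneg ?_ fun a _ _ => Finset.sum_nonneg fun b _ => htnn a b
      intro a ha
      rw [mem_Icc] at ha
      rw [mem_Ico]
      omega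
    refine h3.trans ?_
    rw [← rl_dyadic]
    refine Finset.sum_le_sum fun i _ => ?_
    unfold W2
    refine Finset.sum_le_sum fun a ha => ?_
    have h4 : ∑ b ∈ Icc 1 (X / a), t a b ≤ ∑ b ∈ Icc 1 (X / 2 ^ i), t a b := by
      refine Finset.sum_le_sum_of_subset_of_nonneg ?_ fun b _ _ => htnn a b
      intro b hb
      rw [mem_Icc] at hb ⊢
      rw [mem_Ico] at ha
      exact ⟨hb.1, hb.2.trans (Nat.div_le_div_left ha.1 (by positivity))⟩
    refine h4.trans (Finset.sum_le_sum fun b _ => ?_)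
    by_cases h : RS z a b
    · simp only [ht0, if_pos h]; exact le_refl _
    · simp only [ht0, if_neg h]; exact le_refl _
  -- step 3
  have hXr : (1 : ℝ) ≤ X := by exact_mod_cast hX
  have hlog0 : 0 ≤ Real.log X := Real.log_nonneg hXr
  have hz0 : (0 : ℝ) ≤ (z : ℝ) ^ (-(1 / 6 : ℝ)) := Real.rpow_nonneg (Nat.cast_nonneg z) _
  have h3 : ∀ i ∈ range (L + 1), W2 z (2 ^ i) (X / 2 ^ i) VA VB (fun a b => gA D B0 b a * gB D A0 a b) ≤
      2 * W2 z (2 ^ i) (X / 2 ^ i) VA VB (fun _ _ => 1) +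
        C * X * (z : ℝ) ^ (-(1 / 6 : ℝ)) * (1 + Real.log X) ^ 3 := by
    intro i hi
    have hi2 := hLX i hi
    have hN : 1 ≤ 2 ^ i := Nat.one_le_two_pow
    have hM : 1 ≤ X / 2 ^ i := (Nat.one_le_div_iff (by positivity)).2 hi2
    refine (hbox D hs ht z (2 ^ i) (X / 2 ^ i) A0 B0 hz hN hM VA VB hVA hVB).trans ?_
    have hNM : ((2 ^ i : ℕ) : ℝ) * ((X / 2 ^ i : ℕ) : ℝ) ≤ X := by
      rw [← Nat.cast_mul]
      exact_mod_cast Nat.mul_div_le X (2 ^ i)
    have hNM1 : (1 : ℝ) ≤ ((2 ^ i : ℕ) : ℝ) * ((X / 2 ^ i : ℕ) : ℝ) := by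
      rw [← Nat.cast_mul]
      exact_mod_cast Nat.mul_pos hN hM
    have hl0 : 0 ≤ Real.log (((2 ^ i : ℕ) : ℝ) * ((X / 2 ^ i : ℕ) : ℝ)) := Real.log_nonneg hNM1
    have hl1 : Real.log (((2 ^ i : ℕ) : ℝ) * ((X / 2 ^ i : ℕ) : ℝ)) ≤ Real.log X :=
      Real.log_le_log (by linarith) hNM
    have e1 : C * ((2 ^ i : ℕ) : ℝ) * ((X / 2 ^ i : ℕ) : ℝ) * (z : ℝ) ^ (-(1 / 6 : ℝ)) ≤
        C * X * (z : ℝ) ^ (-(1 / 6 : ℝ)) := by
      refine mul_le_mul_of_nonneg_right ?_ hz0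
      rw [mul_assoc]
      exact mul_le_mul_of_nonneg_left hNM hC.le
    have e2 : (1 + Real.log (((2 ^ i : ℕ) : ℝ) * ((X / 2 ^ i : ℕ) : ℝ))) ^ 3 ≤ (1 + Real.log X) ^ 3 :=
      pow_le_pow_left₀ (by linarith) (by linarith) 3
    have e3 : (0 : ℝ) ≤ C * X * (z : ℝ) ^ (-(1 / 6 : ℝ)) := by positivity
    have e4 := mul_le_mul e1 e2 (by positivity) e3
    linarith [e4]
  -- step 4
  have h4 : ∑ i ∈ range (L + 1), W2 z (2 ^ i) (X / 2 ^ i) VA VB (fun _ _ => 1) ≤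
      S2 (2 * X) (fun a b => RS z a b) (fun a b => VA a * VB b) := by
    have h5 : ∀ i ∈ range (L + 1), W2 z (2 ^ i) (X / 2 ^ i) VA VB (fun _ _ => 1) ≤
        ∑ a ∈ Ico (2 ^ i) (2 * 2 ^ i), ∑ b ∈ Icc 1 (2 * X / a), u a b := by
      intro i hi
      have hi2 := hLX i hi
      unfold W2
      refine Finset.sum_le_sum fun a ha => ?_
      rw [mem_Ico] at ha
      have ha0 : 0 < a := lt_of_lt_of_le (by positivity) ha.1
      have h6 : ∑ b ∈ Icc 1 (X / 2 ^ i), (if RS z a b then VA a * VB b * 1 else 0) =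
          ∑ b ∈ Icc 1 (X / 2 ^ i), u a b := by
        refine Finset.sum_congr rfl fun b _ => ?_
        simp only [hu0, mul_one]
      have h7 : ∑ b ∈ Icc 1 (X / 2 ^ i), u a b ≤ ∑ b ∈ Icc 1 (2 * X / a), u a b := by
        refine Finset.sum_le_sum_of_subset_of_nonneg ?_ fun b _ _ => hunn a b
        intro b hb
        rw [mem_Icc] at hb ⊢
        refine ⟨hb.1, (Nat.le_div_iff_mul_le ha0).2 ?_⟩
        calc b * a ≤ (X / 2 ^ i) * (2 * 2 ^ i) := Nat.mul_le_mul hb.2 ha.2.le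
          _ = 2 * ((X / 2 ^ i) * 2 ^ i) := by ring
          _ ≤ 2 * X := Nat.mul_le_mul_left 2 (Nat.div_mul_le_self X (2 ^ i))
      calc _ = ∑ b ∈ Icc 1 (X / 2 ^ i), u a b := by
            refine Eq.trans ?_ h6
            refine Finset.sum_congr rfl fun b _ => ?_
            beta_reduce
            by_cases h : RS z a b
            · simp only [if_pos h]
            · simp only [if_neg h]
        _ ≤ _ := h7
    refine (Finset.sum_le_sum h5).trans ?_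
    rw [rl_dyadic]
    have h6 : S2 (2 * X) (fun a b => RS z a b) (fun a b => VA a * VB b) =
        ∑ a ∈ Icc 1 (2 * X), ∑ b ∈ Icc 1 (2 * X / a), u a b := by
      unfold S2
      refine Finset.sum_congr rfl fun a _ => Finset.sum_congr rfl fun b _ => ?_
      by_cases h : RS z a b
      · simp only [hu0, if_pos h]
      · simp only [hu0, if_neg h]
    rw [h6]
    refine Finset.sum_le_sum_of_subset_of_nonneg ?_ fun a _ _ => Finset.sum_nonneg fun b _ => hunn a b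
    intro a ha
    rw [mem_Ico] at ha
    rw [mem_Icc]
    have h8 : 2 ^ (L + 1) ≤ 2 * X := by
      rw [pow_succ, mul_comm]
      exact Nat.mul_le_mul_left 2 (Nat.pow_le_of_le_log (by omega) (le_of_eq hL))
    omega
  -- the number of boxes
  have hLb : ((L : ℝ) + 1) ≤ 2 * (1 + Real.log X) := by
    have h5 : ((2 : ℝ)) ^ L ≤ X := by
      have : 2 ^ L ≤ X := Nat.pow_le_of_le_log (by omega) (le_of_eq hL)
      exact_mod_cast this
    have h6 : (L : ℝ) * Real.log 2 ≤ Real.log X := by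
      rw [← Real.log_pow]
      exact Real.log_le_log (by positivity) h5
    have h7 : (0.6931471803 : ℝ) < Real.log 2 := Real.log_two_gt_d9
    have hL0 : (0 : ℝ) ≤ L := Nat.cast_nonneg L
    nlinarith [mul_le_mul_of_nonneg_left h7.le hL0]
  have hfin : ∑ i ∈ range (L + 1), (2 * W2 z (2 ^ i) (X / 2 ^ i) VA VB (fun _ _ => 1) +
        C * X * (z : ℝ) ^ (-(1 / 6 : ℝ)) * (1 + Real.log X) ^ 3) ≤
      2 * S2 (2 * X) (fun a b => RS z a b) (fun a b => VA a * VB b) +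
        2 * C * X * (z : ℝ) ^ (-(1 / 6 : ℝ)) * (1 + Real.log X) ^ 5 := by
    rw [Finset.sum_add_distrib, ← Finset.mul_sum, Finset.sum_const, Finset.card_range, nsmul_eq_mul]
    push_cast
    refine add_le_add (mul_le_mul_of_nonneg_left h4 (by norm_num)) ?_
    set E := C * X * (z : ℝ) ^ (-(1 / 6 : ℝ)) with hE
    have hE0 : 0 ≤ E := by positivity
    set y := 1 + Real.log X with hy
    have hy1 : 1 ≤ y := by linarith
    have e1 : ((L : ℝ) + 1) * (E * y ^ 3) ≤ 2 * y * (E * y ^ 3) :=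
      mul_le_mul_of_nonneg_right hLb (by positivity)
    have e2 : E * y ^ 4 ≤ E * y ^ 5 := by
      refine mul_le_mul_of_nonneg_left ?_ hE0
      exact pow_le_pow_right₀ hy1 (by norm_num)
    calc ((L : ℝ) + 1) * (E * y ^ 3) ≤ 2 * y * (E * y ^ 3) := e1
      _ = 2 * (E * y ^ 4) := by ring
      _ ≤ 2 * (E * y ^ 5) := by linarith
      _ = 2 * C * X * (z : ℝ) ^ (-(1 / 6 : ℝ)) * y ^ 5 := by rw [hE]; ring
  exact h1.trans (h2.trans ((Finset.sum_le_sum h3).trans hfin))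

end Pool.Agent.Wal
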