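import Pool.Agent.Lib.MP_6498db_nt.W.Hr

/-! WALSH, row Typ: typical integers. -/

set_option autoImplicit false

namespace Pool.Agent.Wal

open Finset

private theorem typ_cls {p : ℕ} (hp : p.Prime) (h3 : 3 < p) : p % 24 ∈ cls := by
  have h2 : p % 2 = 1 := by
    rcases hp.eq_two_or_odd with h | h
    · omega
    · exact h
  have h4 : p % 3 ≠ 0 := by
    intro h
    have h5 : 3 ∣ p := Nat.dvd_of_mod_eq_zero h
    rcases (Nat.dvd_prime hp).1 h5 with h6 | h6
    · omega
    · omega
  have h5 : p % 24 = 1 ∨ p % 24 = 5 ∨ p % 24 = 7 ∨ p % 24 = 11 ∨ p % 24 = 13 ∨ p % 24 = 17 ∨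
      p % 24 = 19 ∨ p % 24 = 23 := by omega
  rcases h5 with h | h | h | h | h | h | h | h <;> rw [h] <;> decide

private theorem typ_log {X : ℕ} (hX : 3 ≤ X) : 1 < Real.log X := by
  rw [Real.lt_log_iff_exp_lt (by positivity)]
  have h1 : Real.exp 1 < 3 := lt_trans Real.exp_one_lt_d9 (by norm_num)
  have h2 : (3 : ℝ) ≤ X := by exact_mod_cast hX
  linarith

/-- facts about the parameter `z` when it is at least `3` -/
private theorem typ_z {δ : ℝ} (hδ : 0 < δ) (hδ2 : δ ≤ 1 / 2) {X : ℕ} (hX : 3 ≤ X)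
    (hz : 3 ≤ zz δ X) : zz δ X ≤ X ∧
      Real.log (Real.log (zz δ X)) ≤ 1 / 2 * Real.log (Real.log X) := by
  have hl := typ_log hX
  have hX0 : (0 : ℝ) < X := by positivity
  have h1 : Real.log X ^ δ ≤ Real.log X := by
    calc Real.log X ^ δ ≤ Real.log X ^ (1 : ℝ) :=
          Real.rpow_le_rpow_of_exponent_le hl.le (by linarith)
      _ = Real.log X := Real.rpow_one _
  have h2 : (zz δ X : ℝ) ≤ Real.exp (Real.log X ^ δ) := Nat.floor_le (Real.exp_pos _).le
  constructor
  · have h3 : (zz δ X : ℝ) ≤ X := by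
      refine h2.trans ?_
      calc Real.exp (Real.log X ^ δ) ≤ Real.exp (Real.log X) := Real.exp_le_exp.2 h1
        _ = X := Real.exp_log hX0
    exact_mod_cast h3
  · have hlz := typ_log hz
    have hz0 : (0 : ℝ) < zz δ X := by
      have : 0 < zz δ X := by omega
      exact_mod_cast this
    have h3 : Real.log (zz δ X) ≤ Real.log X ^ δ := by
      rw [← Real.log_exp (Real.log X ^ δ)]
      exact Real.log_le_log hz0 h2
    have h4 : Real.log (Real.log (zz δ X)) ≤ δ * Real.log (Real.log X) := by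
      rw [← Real.log_rpow (by linarith)]
      exact Real.log_le_log (by linarith) h3
    have h5 : 0 ≤ Real.log (Real.log X) := Real.log_nonneg hl.le
    have h6 : δ * Real.log (Real.log X) ≤ 1 / 2 * Real.log (Real.log X) :=
      mul_le_mul_of_nonneg_right hδ2 h5
    linarith

/-- if `z < 3`, then `log X` is bounded -/
private theorem typ_small {δ : ℝ} (hδ : 0 < δ) {X : ℕ} (hX : 3 ≤ X)
    (hz : ¬ 3 ≤ zz δ X) : Real.log X ≤ (2 : ℝ) ^ (1 / δ) := by
  have hl := typ_log hX
  by_contra hcon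
  push Not at hcon
  apply hz
  have h1 : (2 : ℝ) ≤ Real.log X ^ δ := by
    have h2 : ((2 : ℝ) ^ (1 / δ)) ^ δ ≤ Real.log X ^ δ :=
      Real.rpow_le_rpow (by positivity) hcon.le hδ.le
    rwa [← Real.rpow_mul (by norm_num), one_div_mul_cancel hδ.ne', Real.rpow_one] at h2
  apply Nat.le_floor
  have h3 : Real.exp 2 ≤ Real.exp (Real.log X ^ δ) := Real.exp_le_exp.2 h1
  have h4 : (2 : ℝ) + 1 ≤ Real.exp 2 := Real.add_one_le_exp 2
  push_cast
  linarith

/-- trivial bound for small `X` -/
private theorem typ_triv {δ c : ℝ} (hδ : 0 < δ) (hc : 0 ≤ c) {X : ℕ} (hX : 3 ≤ X)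
    (hz : ¬ 3 ≤ zz δ X) {n : ℝ} (hn : n ≤ X) :
    n ≤ ((2 : ℝ) ^ (1 / δ)) ^ c * X * Real.log X ^ (-c) := by
  have hl := typ_log hX
  have h1 := typ_small hδ hX hz
  have h2 : Real.log X ^ c ≤ ((2 : ℝ) ^ (1 / δ)) ^ c := Real.rpow_le_rpow (by linarith) h1 hc
  have h3 : 0 < Real.log X ^ c := Real.rpow_pos_of_pos (by linarith) _
  have h4 : (1 : ℝ) ≤ ((2 : ℝ) ^ (1 / δ)) ^ c * Real.log X ^ (-c) := by
    rw [Real.rpow_neg (by linarith), ← div_eq_mul_inv, one_le_div h3]
    exact h2
  have h5 : (0 : ℝ) ≤ X := by positivity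
  nlinarith

private theorem typ_card {X : ℕ} {S : Finset ℕ} (h : ∀ m ∈ S, m ∈ sqs X) : (S.card : ℝ) ≤ X := by
  have h1 : S ⊆ Icc 1 X := by
    intro m hm
    obtain ⟨h2, h3, -⟩ := mem_sqs.1 (h m hm)
    exact mem_Icc.2 ⟨h2, h3⟩
  have h2 := Finset.card_le_card h1
  rw [Nat.card_Icc] at h2
  have h3 : S.card ≤ X := by omega
  exact_mod_cast h3

/-- the choice of `θ` -/
private theorem typ_theta (lam : ℕ → ℝ) (hl : ∀ r, 0 < lam r) (h1 : 1 < ∏ r ∈ cls, lam r) :
    0 < ∑ r ∈ cls, Real.log (lam r) ∧ ∃ θ : ℝ, 0 < θ ∧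
      (∀ r ∈ cls, Real.exp (-θ * Real.log (lam r)) ≤ 4) ∧
      ∑ r ∈ cls, (Real.exp (-θ * Real.log (lam r)) - 1) ≤
        -θ * (∑ r ∈ cls, Real.log (lam r)) / 2 := by
  set S := ∑ r ∈ cls, Real.log (lam r) with hS
  have hSpos : 0 < S := by
    have h2 : S = Real.log (∏ r ∈ cls, lam r) := by
      rw [Real.log_prod fun r _ => (hl r).ne']
    rw [h2]
    exact Real.log_pos h1
  set M := 1 + ∑ r ∈ cls, |Real.log (lam r)| with hM
  have hM1 : 1 ≤ M := by
    have : 0 ≤ ∑ r ∈ cls, |Real.log (lam r)| := Finset.sum_nonneg fun _ _ => abs_nonneg _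
    linarith
  have hlM : ∀ r ∈ cls, |Real.log (lam r)| ≤ M := by
    intro r hr
    have : |Real.log (lam r)| ≤ ∑ r ∈ cls, |Real.log (lam r)| :=
      Finset.single_le_sum (f := fun r => |Real.log (lam r)|) (fun _ _ => abs_nonneg _) hr
    linarith
  have hSM : S ≤ M := by
    have : S ≤ ∑ r ∈ cls, |Real.log (lam r)| := Finset.sum_le_sum fun _ _ => le_abs_self _
    linarith
  refine ⟨hSpos, S / (16 * M ^ 2), by positivity, ?_, ?_⟩
  · intro r hr
    have hx : -(S / (16 * M ^ 2)) * Real.log (lam r) ≤ 1 := by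
      calc -(S / (16 * M ^ 2)) * Real.log (lam r)
          ≤ |-(S / (16 * M ^ 2)) * Real.log (lam r)| := le_abs_self _
        _ = S / (16 * M ^ 2) * |Real.log (lam r)| := by
            rw [abs_mul, abs_neg, abs_of_pos (by positivity)]
        _ ≤ S / (16 * M ^ 2) * M := mul_le_mul_of_nonneg_left (hlM r hr) (by positivity)
        _ = S / M / 16 := by field_simp
        _ ≤ 1 := by
            have : S / M ≤ 1 := (div_le_one (by linarith)).2 hSM
            linarith
    calc Real.exp (-(S / (16 * M ^ 2)) * Real.log (lam r)) ≤ Real.exp 1 := Real.exp_le_exp.2 hx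
      _ ≤ 4 := (lt_trans Real.exp_one_lt_d9 (by norm_num)).le
  · have hterm : ∀ r ∈ cls, Real.exp (-(S / (16 * M ^ 2)) * Real.log (lam r)) - 1 ≤
        -(S / (16 * M ^ 2)) * Real.log (lam r) + (S / (16 * M ^ 2) * M) ^ 2 := by
      intro r hr
      have hx : |-(S / (16 * M ^ 2)) * Real.log (lam r)| ≤ S / (16 * M ^ 2) * M := by
        rw [abs_mul, abs_neg, abs_of_pos (by positivity)]
        exact mul_le_mul_of_nonneg_left (hlM r hr) (by positivity)
      have hx1 : S / (16 * M ^ 2) * M ≤ 1 := by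
        have h3 : S / (16 * M ^ 2) * M = S / M / 16 := by field_simp
        rw [h3]
        have : S / M ≤ 1 := (div_le_one (by linarith)).2 hSM
        linarith
      have h4 := Real.abs_exp_sub_one_sub_id_le (hx.trans hx1)
      have h5 := (abs_le.1 h4).2
      have h6 : (-(S / (16 * M ^ 2)) * Real.log (lam r)) ^ 2 ≤ (S / (16 * M ^ 2) * M) ^ 2 := by
        rw [← sq_abs]
        exact pow_le_pow_left₀ (abs_nonneg _) hx 2
      linarith
    refine (Finset.sum_le_sum hterm).trans ?_
    rw [Finset.sum_add_distrib, ← Finset.mul_sum, ← hS, Finset.sum_const]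
    have h7 : cls.card = 8 := by decide
    rw [h7, nsmul_eq_mul]
    have h8 : ((8 : ℕ) : ℝ) * (S / (16 * M ^ 2) * M) ^ 2 = S / (16 * M ^ 2) * S / 2 := by
      push_cast
      field_simp
      ring
    rw [h8]
    apply le_of_eq
    ring

/-- Proof. Let `S = ∑_{r ∈ cls} log (lam r) > 0`. Choose `θ ∈ (0,1)` so small that `lam r ^ (-θ) ≤ 4` and
`∑_{r ∈ cls} (lam r ^ (-θ) - 1) ≤ - θ S / 2` (derivative at `θ = 0`), and `κ = S / 64`.
Markov: the number of `m` is at most `∑_m ((log X)^κ / Λ(m))^θ = (log X)^(κθ) ∑_m PF f m` with `f p = lam (p%24)^(-θ)` for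
`p > z`, `f p = 1` for `p ≤ z`, `z = zz δ X`. For `X ≥ X_0(δ)`: `z ≥ 3`, every prime `p > z` is in a class of `cls`,
`log log z ≤ δ log log X`; `hr` and `mert24` (with `ε` small): the sum is at most
`C X exp(∑_r (lam r^(-θ) - 1) (loglog X - loglog z)/8 + small * loglog X) ≤ C X (log X)^(-θ S/32 + small)`, so the number is
`≤ C X (log X)^(θS/64 - θS/32 + small)`. For `X < X_0`: the number is `≤ X`, enlarge `C`. -/
theorem typ (lam : ℕ → ℝ) (hl : ∀ r, 0 < lam r) (h1 : 1 < ∏ r ∈ cls, lam r) :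
    ∃ κ : ℝ, 0 < κ ∧ ∀ δ : ℝ, 0 < δ → δ ≤ 1 / 2 → ∃ C c : ℝ, 0 < c ∧ ∀ X : ℕ, 3 ≤ X →
      (((sqs X).filter (fun m => PF (fun p => if zz δ X < p then lam (p % 24) else 1) m <
        Real.log X ^ κ)).card : ℝ) ≤ C * X * Real.log X ^ (-c) := by
  classical
  obtain ⟨hS, θ, hθ, hθ4, hθS⟩ := typ_theta lam hl h1
  set S := ∑ r ∈ cls, Real.log (lam r) with hSdef
  refine ⟨S / 64, by positivity, fun δ hδ hδ2 => ?_⟩
  obtain ⟨C₁, hC₁, hhr⟩ := hr
  obtain ⟨C₂, hC₂⟩ := mert24 (θ * S / 3072) (by positivity)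
  refine ⟨max (C₁ * Real.exp (24 * |C₂|)) (((2 : ℝ) ^ (1 / δ)) ^ (θ * S / 128)), θ * S / 128,
    by positivity, fun X hX => ?_⟩
  have hlX := typ_log hX
  have hllX : 0 ≤ Real.log (Real.log X) := Real.log_nonneg hlX.le
  have hpos : 0 ≤ (X : ℝ) * Real.log X ^ (-(θ * S / 128)) := by positivity
  by_cases hz : 3 ≤ zz δ X
  swap
  · have h2 := typ_triv (c := θ * S / 128) hδ (by positivity) hX hz
      (typ_card (S := (sqs X).filter (fun m => PF (fun p => if zz δ X < p then lam (p % 24) else 1) m <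
        Real.log X ^ (S / 64))) fun m hm => (Finset.mem_filter.1 hm).1)
    refine h2.trans ?_
    rw [mul_assoc, mul_assoc]
    exact mul_le_mul_of_nonneg_right (le_max_right _ _) hpos
  obtain ⟨hzX, hzl⟩ := typ_z hδ hδ2 hX hz
  set z := zz δ X with hzdef
  let e : ℕ → ℝ := fun r => Real.exp (-θ * Real.log (lam r))
  let f : ℕ → ℝ := fun p => if z < p ∧ p % 24 ∈ cls then e (p % 24) else 1
  have hf0 : ∀ p, 0 ≤ f p := by
    intro p
    show 0 ≤ if z < p ∧ p % 24 ∈ cls then e (p % 24) else 1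
    split_ifs
    · exact (Real.exp_pos _).le
    · exact zero_le_one
  have hf4 : ∀ p, f p ≤ 4 := by
    intro p
    show (if z < p ∧ p % 24 ∈ cls then e (p % 24) else 1) ≤ 4
    split_ifs with h
    · exact hθ4 _ h.2
    · norm_num
  -- the sum over the primes
  have hsum : ∑ p ∈ prs X, (f p - 1) / p =
      ∑ r ∈ cls, (e r - 1) * ∑ p ∈ (prs X).filter (fun p => z < p ∧ p % 24 = r), (1 : ℝ) / p := by
    have h2 : ∀ p : ℕ, (f p - 1) / p =
        ∑ r ∈ cls, if (z < p ∧ p % 24 = r) then (e r - 1) * (1 / (p : ℝ)) else 0 := by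
      intro p
      show ((if z < p ∧ p % 24 ∈ cls then e (p % 24) else 1) - 1) / (p : ℝ) = _
      by_cases hzp : z < p
      · have h3 : (∑ r ∈ cls, if (z < p ∧ p % 24 = r) then (e r - 1) * (1 / (p : ℝ)) else 0) =
            ∑ r ∈ cls, if (p % 24 = r) then (e r - 1) * (1 / (p : ℝ)) else 0 := by
          refine Finset.sum_congr rfl fun r _ => ?_
          simp only [hzp, true_and]
        rw [h3, Finset.sum_ite_eq]
        by_cases hc : p % 24 ∈ cls
        · rw [if_pos ⟨hzp, hc⟩, if_pos hc]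
          ring
        · rw [if_neg (fun h => hc h.2), if_neg hc]
          simp
      · rw [if_neg (fun h => hzp h.1), sub_self, zero_div]
        symm
        refine Finset.sum_eq_zero fun r _ => ?_
        rw [if_neg (fun h => hzp h.1)]
    rw [Finset.sum_congr rfl fun p _ => h2 p, Finset.sum_comm]
    refine Finset.sum_congr rfl fun r _ => ?_
    rw [← Finset.sum_filter, Finset.mul_sum]
  -- bound of the exponent
  have hexp : ∑ p ∈ prs X, (f p - 1) / p ≤
      -(θ * S / 32) * Real.log (Real.log X) + θ * S / 128 * Real.log (Real.log X) + 24 * |C₂| := by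
    rw [hsum]
    have hterm : ∀ r ∈ cls,
        (e r - 1) * ∑ p ∈ (prs X).filter (fun p => z < p ∧ p % 24 = r), (1 : ℝ) / p ≤
        (e r - 1) * ((Real.log (Real.log X) - Real.log (Real.log z)) / 8) +
          3 * (θ * S / 3072 * Real.log (Real.log X) + |C₂|) := by
      intro r hr
      have h2 := hC₂ r hr z X hz hzX
      set A := ∑ p ∈ (prs X).filter (fun p => z < p ∧ p % 24 = r), (1 : ℝ) / p
      set B := (Real.log (Real.log X) - Real.log (Real.log z)) / 8
      have h3 : |e r - 1| ≤ 3 := by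
        have h4 := hθ4 r hr
        have h5 : 0 < e r := Real.exp_pos _
        rw [abs_le]
        constructor
        · linarith
        · have h6 : e r ≤ 4 := h4
          linarith
      have h4 : (e r - 1) * (A - B) ≤ 3 * (θ * S / 3072 * Real.log (Real.log X) + |C₂|) := by
        calc (e r - 1) * (A - B) ≤ |(e r - 1) * (A - B)| := le_abs_self _
          _ = |e r - 1| * |A - B| := abs_mul _ _
          _ ≤ 3 * (θ * S / 3072 * Real.log (Real.log X) + |C₂|) := by
              refine mul_le_mul h3 (h2.trans ?_) (abs_nonneg _) (by norm_num)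
              have := le_abs_self C₂
              linarith
      have h5 : (e r - 1) * A = (e r - 1) * B + (e r - 1) * (A - B) := by ring
      rw [h5]
      linarith
    refine (Finset.sum_le_sum hterm).trans ?_
    rw [Finset.sum_add_distrib, ← Finset.sum_mul, Finset.sum_const]
    have h7 : cls.card = 8 := by decide
    rw [h7, nsmul_eq_mul]
    have h8 : 0 ≤ (Real.log (Real.log X) - Real.log (Real.log z)) / 8 := by linarith
    have h9 : (∑ r ∈ cls, (e r - 1)) * ((Real.log (Real.log X) - Real.log (Real.log z)) / 8) ≤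
        (-θ * S / 2) * ((Real.log (Real.log X) - Real.log (Real.log z)) / 8) :=
      mul_le_mul_of_nonneg_right hθS h8
    have h10 : (-θ * S / 2) * ((Real.log (Real.log X) - Real.log (Real.log z)) / 8) ≤
        (-θ * S / 2) * (Real.log (Real.log X) / 16) := by
      have h11 : Real.log (Real.log X) / 16 ≤
          (Real.log (Real.log X) - Real.log (Real.log z)) / 8 := by linarith
      have h12 : -θ * S / 2 ≤ 0 := by
        have : 0 < θ * S := by positivity
        linarith
      exact mul_le_mul_of_nonpos_left h11 h12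
    push_cast
    linarith
  -- Markov
  have hmark : ∀ m ∈ (sqs X).filter (fun m => PF (fun p => if z < p then lam (p % 24) else 1) m <
      Real.log X ^ (S / 64)), 1 ≤ Real.exp (θ * S / 64 * Real.log (Real.log X)) * PF f m := by
    intro m hm
    obtain ⟨hm1, hm2⟩ := Finset.mem_filter.1 hm
    set G := PF (fun p => if z < p then lam (p % 24) else 1) m with hG
    have hg0 : ∀ p, 0 < (if z < p then lam (p % 24) else 1) := by
      intro p
      split_ifs
      · exact hl _
      · exact zero_lt_one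
    have hG0 : 0 < G := Finset.prod_pos fun p _ => hg0 p
    have h2 : Real.log G < S / 64 * Real.log (Real.log X) := by
      rw [← Real.log_rpow (by linarith)]
      exact Real.log_lt_log hG0 hm2
    have h3 : PF f m = Real.exp (-θ * Real.log G) := by
      rw [hG]
      unfold PF
      rw [Real.log_prod fun p _ => (hg0 p).ne', Finset.mul_sum, Real.exp_sum]
      refine Finset.prod_congr rfl fun p hp => ?_
      show (if z < p ∧ p % 24 ∈ cls then e (p % 24) else 1) = _
      by_cases hzp : z < p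
      · rw [if_pos ⟨hzp, typ_cls (Nat.prime_of_mem_primeFactors hp) (lt_of_le_of_lt hz hzp)⟩,
          if_pos hzp]
      · rw [if_neg (fun h => hzp h.1), if_neg hzp, Real.log_one, mul_zero, Real.exp_zero]
    rw [h3, ← Real.exp_add]
    apply Real.one_le_exp
    nlinarith
  have hcard : (((sqs X).filter (fun m => PF (fun p => if z < p then lam (p % 24) else 1) m <
      Real.log X ^ (S / 64))).card : ℝ) ≤
      Real.exp (θ * S / 64 * Real.log (Real.log X)) * ∑ m ∈ sqs X, PF f m := by
    have hPF0 : ∀ m, 0 ≤ PF f m := fun m => Finset.prod_nonneg fun p _ => hf0 p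
    calc (((sqs X).filter (fun m => PF (fun p => if z < p then lam (p % 24) else 1) m <
          Real.log X ^ (S / 64))).card : ℝ)
        = ∑ m ∈ (sqs X).filter (fun m => PF (fun p => if z < p then lam (p % 24) else 1) m <
            Real.log X ^ (S / 64)), (1 : ℝ) := by rw [Finset.sum_const, nsmul_eq_mul, mul_one]
      _ ≤ ∑ m ∈ (sqs X).filter (fun m => PF (fun p => if z < p then lam (p % 24) else 1) m <
            Real.log X ^ (S / 64)), Real.exp (θ * S / 64 * Real.log (Real.log X)) * PF f m :=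
          Finset.sum_le_sum hmark
      _ ≤ ∑ m ∈ sqs X, Real.exp (θ * S / 64 * Real.log (Real.log X)) * PF f m :=
          Finset.sum_le_sum_of_subset_of_nonneg (Finset.filter_subset _ _) fun m _ _ =>
            mul_nonneg (Real.exp_pos _).le (hPF0 m)
      _ = _ := (Finset.mul_sum _ _ _).symm
  refine hcard.trans ?_
  have h2 := hhr f hf0 hf4 X (by omega)
  have h3 : Real.exp (∑ p ∈ prs X, (f p - 1) / p) ≤ Real.exp (-(θ * S / 32) *
      Real.log (Real.log X) + θ * S / 128 * Real.log (Real.log X) + 24 * |C₂|) :=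
    Real.exp_le_exp.2 hexp
  have h4 : Real.log X ^ (-(θ * S / 128)) = Real.exp (-(θ * S / 128) * Real.log (Real.log X)) := by
    rw [Real.rpow_def_of_pos (by linarith), mul_comm]
  calc Real.exp (θ * S / 64 * Real.log (Real.log X)) * ∑ m ∈ sqs X, PF f m
      ≤ Real.exp (θ * S / 64 * Real.log (Real.log X)) * (C₁ * X * Real.exp (-(θ * S / 32) *
          Real.log (Real.log X) + θ * S / 128 * Real.log (Real.log X) + 24 * |C₂|)) := by
        refine mul_le_mul_of_nonneg_left (h2.trans ?_) (Real.exp_pos _).le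
        exact mul_le_mul_of_nonneg_left h3 (by positivity)
    _ = C₁ * Real.exp (24 * |C₂|) * (X * Real.log X ^ (-(θ * S / 128))) := by
        rw [h4]
        have h5 : Real.exp (-(θ * S / 32) * Real.log (Real.log X) +
            θ * S / 128 * Real.log (Real.log X) + 24 * |C₂|) = Real.exp (24 * |C₂|) *
            Real.exp (-(θ * S / 32) * Real.log (Real.log X) +
              θ * S / 128 * Real.log (Real.log X)) := by
          rw [← Real.exp_add]
          congr 1
          ring
        have h6 : Real.exp (-(θ * S / 128) * Real.log (Real.log X)) =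
            Real.exp (θ * S / 64 * Real.log (Real.log X)) *
            Real.exp (-(θ * S / 32) * Real.log (Real.log X) +
              θ * S / 128 * Real.log (Real.log X)) := by
          rw [← Real.exp_add]
          congr 1
          ring
        rw [h5, h6]
        ring
    _ ≤ max (C₁ * Real.exp (24 * |C₂|)) (((2 : ℝ) ^ (1 / δ)) ^ (θ * S / 128)) *
          (X * Real.log X ^ (-(θ * S / 128))) :=
        mul_le_mul_of_nonneg_right (le_max_left _ _) hpos
    _ = _ := by rw [← mul_assoc]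

/-- Proof. `hr` with `f p = 0` if `z < p` and `p % 24 = r`, `f p = 1` otherwise, and `mert24`:
`≤ C X exp(-(1-δ) (loglog X)/8 + small loglog X) ≤ C X (log X)^(-1/32)`. (`log log z ≤ δ log log X`.) -/
theorem cls_present (r : ℕ) (hr : r ∈ cls) (δ : ℝ) (hδ : 0 < δ) (hδ2 : δ ≤ 1 / 2) :
    ∃ C : ℝ, ∀ X : ℕ, 3 ≤ X → ∀ S : Finset ℕ,
      (∀ m ∈ S, m ∈ sqs X ∧ ∀ p : ℕ, p.Prime → zz δ X < p → p ∣ m → p % 24 ≠ r) →
      (S.card : ℝ) ≤ C * X * Real.log X ^ (-(1 / 32 : ℝ)) := by
  classical
  obtain ⟨C₁, hC₁, hhr⟩ := Pool.Agent.Wal.hr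
  obtain ⟨C₂, hC₂⟩ := mert24 (1 / 32) (by norm_num)
  refine ⟨max (C₁ * Real.exp C₂) (((2 : ℝ) ^ (1 / δ)) ^ (1 / 32 : ℝ)), fun X hX S hS => ?_⟩
  have hlX := typ_log hX
  have hllX : 0 ≤ Real.log (Real.log X) := Real.log_nonneg hlX.le
  have hpos : 0 ≤ (X : ℝ) * Real.log X ^ (-(1 / 32 : ℝ)) := by positivity
  by_cases hz : 3 ≤ zz δ X
  swap
  · have h2 := typ_triv (c := 1 / 32) hδ (by norm_num) hX hz
      (typ_card (S := S) fun m hm => (hS m hm).1)
    refine h2.trans ?_
    rw [mul_assoc, mul_assoc]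
    exact mul_le_mul_of_nonneg_right (le_max_right _ _) hpos
  obtain ⟨hzX, hzl⟩ := typ_z hδ hδ2 hX hz
  set z := zz δ X with hzdef
  let f : ℕ → ℝ := fun p => if z < p ∧ p % 24 = r then 0 else 1
  have hf0 : ∀ p, 0 ≤ f p := by
    intro p
    show 0 ≤ if z < p ∧ p % 24 = r then (0 : ℝ) else 1
    split_ifs <;> norm_num
  have hf4 : ∀ p, f p ≤ 4 := by
    intro p
    show (if z < p ∧ p % 24 = r then (0 : ℝ) else 1) ≤ 4
    split_ifs <;> norm_num
  have hsum : ∑ p ∈ prs X, (f p - 1) / p =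
      -∑ p ∈ (prs X).filter (fun p => z < p ∧ p % 24 = r), (1 : ℝ) / p := by
    rw [Finset.sum_filter, ← Finset.sum_neg_distrib]
    refine Finset.sum_congr rfl fun p _ => ?_
    show ((if z < p ∧ p % 24 = r then (0 : ℝ) else 1) - 1) / p = _
    split_ifs
    · ring
    · simp
  have h2 := hhr f hf0 hf4 X (by omega)
  rw [hsum] at h2
  have h3 := hC₂ r hr z X hz hzX
  have h4 := (abs_le.1 h3).1
  have hcard : (S.card : ℝ) ≤ ∑ m ∈ sqs X, PF f m := by
    have hPF0 : ∀ m, 0 ≤ PF f m := fun m => Finset.prod_nonneg fun p _ => hf0 p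
    calc (S.card : ℝ) = ∑ m ∈ S, (1 : ℝ) := by rw [Finset.sum_const, nsmul_eq_mul, mul_one]
      _ ≤ ∑ m ∈ S, PF f m := by
          refine Finset.sum_le_sum fun m hm => ?_
          apply le_of_eq
          symm
          unfold PF
          refine Finset.prod_eq_one fun p hp => ?_
          show (if z < p ∧ p % 24 = r then (0 : ℝ) else 1) = 1
          rw [if_neg]
          rintro ⟨h5, h6⟩
          exact (hS m hm).2 p (Nat.prime_of_mem_primeFactors hp) h5
            (Nat.dvd_of_mem_primeFactors hp) h6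
      _ ≤ ∑ m ∈ sqs X, PF f m :=
          Finset.sum_le_sum_of_subset_of_nonneg (fun m hm => (hS m hm).1) fun m _ _ => hPF0 m
  have h5 : Real.log X ^ (-(1 / 32 : ℝ)) = Real.exp (-(1 / 32) * Real.log (Real.log X)) := by
    rw [Real.rpow_def_of_pos (by linarith), mul_comm]
  calc (S.card : ℝ) ≤ C₁ * X * Real.exp (-∑ p ∈ (prs X).filter (fun p => z < p ∧ p % 24 = r),
        (1 : ℝ) / p) := hcard.trans h2
    _ ≤ C₁ * X * Real.exp (C₂ + -(1 / 32) * Real.log (Real.log X)) := by
        refine mul_le_mul_of_nonneg_left (Real.exp_le_exp.2 ?_) (by positivity)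
        linarith
    _ = C₁ * Real.exp C₂ * (X * Real.log X ^ (-(1 / 32 : ℝ))) := by
        rw [h5, Real.exp_add]
        ring
    _ ≤ max (C₁ * Real.exp C₂) (((2 : ℝ) ^ (1 / δ)) ^ (1 / 32 : ℝ)) *
          (X * Real.log X ^ (-(1 / 32 : ℝ))) :=
        mul_le_mul_of_nonneg_right (le_max_left _ _) hpos
    _ = _ := by rw [← mul_assoc]

end Pool.Agent.Wal
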