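import Pool.Agent.Lib.MP_6498db_nt.W.WtA
import Pool.Agent.Lib.MP_6498db_nt.W.Typ
import Pool.Agent.Lib.MP_6498db_nt.W.Rank
import Pool.Agent.Lib.MP_6498db_nt.W.BOne

/-! WALSH, row ThmB: few integers fit a good datum (`weighted` is in W/WtA.lean). -/

set_option autoImplicit false

namespace Pool.Agent.Wal

open Finset

/-- Powers of `L` are bounded by `exp (L^δ / 6)`. -/
private theorem thmB_exp (δ : ℝ) (hδ : 0 < δ) : ∃ C : ℝ, 0 ≤ C ∧ ∀ L : ℝ, 1 ≤ L →
    L ^ 7 ≤ C * Real.exp (L ^ δ / 6) := by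
  refine ⟨6 ^ ⌈7 / δ⌉₊ * (⌈7 / δ⌉₊.factorial : ℝ), by positivity, fun L hL => ?_⟩
  set n := ⌈7 / δ⌉₊ with hn
  have hL0 : 0 < L := by linarith
  have h1 : 7 ≤ δ * n := by
    have := Nat.le_ceil (7 / δ)
    rw [← hn, div_le_iff₀ hδ] at this
    linarith
  have h2 : L ^ 7 ≤ (L ^ δ) ^ n := by
    rw [← Real.rpow_natCast (L ^ δ) n, ← Real.rpow_mul hL0.le, ← Real.rpow_natCast L 7]
    exact Real.rpow_le_rpow_of_exponent_le hL (by exact_mod_cast h1)
  have h3 := Real.pow_div_factorial_le_exp (L ^ δ / 6) (by positivity) n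
  have h4 : (0 : ℝ) < n.factorial := by exact_mod_cast n.factorial_pos
  rw [div_le_iff₀ h4, div_pow, div_le_iff₀ (by positivity)] at h3
  calc L ^ 7 ≤ (L ^ δ) ^ n := h2
    _ ≤ _ := h3
    _ = _ := by ring

/-- The rough part is not one if there is a large prime factor. -/
private theorem thmB_ro {z n p : ℕ} (hn : n ≠ 0) (hp : p.Prime) (hz : z < p) (h : p ∣ n) :
    ro z n ≠ 1 := by
  intro h1
  have h2 : p ∣ ro z n := Finset.dvd_prod_of_mem _
    (Finset.mem_filter.2 ⟨Nat.mem_primeFactors.2 ⟨hp, h, hn⟩, hz⟩)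
  rw [h1] at h2
  exact hp.one_lt.ne' (Nat.dvd_one.1 h2)

/-- If the rough part of `b` is one, `b` divides the smooth part. -/
private theorem thmB_sm {z m a b : ℕ} (hm : Squarefree m) (hab : a * b = m) (h : ro z b = 1) :
    b ≤ sm z m := by
  have hm0 : m ≠ 0 := hm.ne_zero
  have hb0 : b ≠ 0 := by
    rintro rfl
    exact hm0 (by rw [← hab]; simp)
  have hbm : b ∣ m := Dvd.intro_left a hab
  have hbs : Squarefree b := hm.squarefree_of_dvd hbm
  have h1 : b = ∏ p ∈ b.primeFactors with p ≤ z, p := by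
    conv_lhs => rw [← Nat.prod_primeFactors_of_squarefree hbs]
    rw [Finset.filter_true_of_mem]
    intro p hp
    obtain ⟨hp1, hp2, -⟩ := Nat.mem_primeFactors.1 hp
    by_contra hlt
    rw [not_le] at hlt
    exact thmB_ro hb0 hp1 hlt hp2 h
  have h2 : b ∣ sm z m := by
    conv_lhs => rw [h1]
    unfold sm
    refine Finset.prod_dvd_prod_of_subset _ _ _ ?_
    refine Finset.filter_subset_filter _ (Nat.primeFactors_mono hbm hm0)
  refine Nat.le_of_dvd ?_ h2
  unfold sm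
  refine Finset.prod_pos fun p hp => ?_
  exact (Nat.prime_of_mem_primeFactors (Finset.mem_filter.1 hp).1).pos

/-- Proof. `lam` from `hD.lam`, `κ` from `typ`; `δ = min(κ/4, 1/64)`; `z = zz δ X`, `Z = exp((log X)^(2δ))`, `r` from
`hD.out`. For `X ≥ X_0`: `z ≥ 3`. Remove from `S` the `m` with: `PF lam < (log X)^κ` (`typ`); no prime `> z` in the
class `r` (`cls_present`); `sm z m > Z` (`rank`); some fit `(a, b)` with `b ≤ Z` (`b1`, by `hD.four`:
`jacobiSym (c b) p = s p = 1` for `p ∣ a`, `p ≡ 1` mod 4). The others satisfy the hypothesis of `weighted`: the prime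
`p > z ≥ 3`, `p ≡ r` does not divide `b` (`hD.out`, `Fits.mem`), so it divides `a` and `ro z a ≠ 1`; if `ro z b = 1` then
`b ∣ sm z m`, `b ≤ Z`, excluded. So their number is `≤ (log X)^(-κ) C X ((log X)^δ + z^(-1/6) (1+log X)^7)`, and
`z^(-1/6) ≤ 2 exp(-(log X)^δ/6) ≤ C (log X)^(-7)`. For `X < X_0` enlarge `C`. -/
theorem thmB (D : Dat) (hD : Good D) : ∃ C c : ℝ, 0 < c ∧ ∀ X : ℕ, 3 ≤ X → ∀ S : Finset ℕ,
    (∀ m ∈ S, m ∈ sqs X ∧ ∃ a b : ℕ, a * b = m ∧ Fits D a b) →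
    (S.card : ℝ) ≤ C * X * Real.log X ^ (-c) := by
  classical
  obtain ⟨lam, hl, hlam, hprod⟩ := hD.lam
  obtain ⟨κ, hκ, htyp⟩ := typ lam hl hprod
  obtain ⟨r, hr, hout⟩ := hD.out
  set δ : ℝ := min (κ / 4) (1 / 64) with hδd
  have hδ : 0 < δ := lt_min (by linarith) (by norm_num)
  have hδκ : δ ≤ κ / 4 := min_le_left _ _
  have hδ64 : δ ≤ 1 / 64 := min_le_right _ _
  have hδ2 : δ ≤ 1 / 2 := by linarith
  obtain ⟨C₁, c₁, hc₁, h1⟩ := htyp δ hδ hδ2
  obtain ⟨C₂, h2⟩ := cls_present r hr δ hδ hδ2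
  obtain ⟨C₃, h3⟩ := rank δ hδ hδ2
  obtain ⟨C₄, h4⟩ := b1 D.c hD.c1 hD.c3 δ hδ hδ64
  obtain ⟨C₅, h5⟩ := weighted D hD lam hl hlam
  obtain ⟨C₆, hC₆, h6⟩ := thmB_exp δ hδ
  set c : ℝ := min (min c₁ (1 / 32)) (κ / 2) with hcd
  have hc0 : 0 < c := lt_min (lt_min hc₁ (by norm_num)) (by linarith)
  have hcc₁ : c ≤ c₁ := (min_le_left _ _).trans (min_le_left _ _)
  have hc32 : c ≤ 1 / 32 := (min_le_left _ _).trans (min_le_right _ _)
  have hcκ : c ≤ κ / 2 := min_le_right _ _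
  refine ⟨|C₁| + |C₂| + |C₃| + |C₄| + |C₅| * (1 + 2 * 128 * C₆) + ((2 : ℝ) ^ (1 / δ)) ^ c, c, hc0,
    fun X hX S hS => ?_⟩
  have hX3 : (3 : ℝ) ≤ X := by exact_mod_cast hX
  have hX0 : (0 : ℝ) < X := by linarith
  set L := Real.log X with hLd
  have hL : 1 ≤ L := by
    rw [hLd, Real.le_log_iff_exp_le hX0]
    have := Real.exp_one_lt_d9
    linarith
  have hL0 : 0 < L := by linarith
  have hmono : ∀ (A : ℝ) (d : ℝ), c ≤ d → A * X * L ^ (-d) ≤ |A| * (X * L ^ (-c)) := by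
    intro A d hd
    have e1 : L ^ (-d) ≤ L ^ (-c) := Real.rpow_le_rpow_of_exponent_le hL (by linarith)
    calc A * X * L ^ (-d) ≤ |A| * X * L ^ (-d) := by gcongr; exact le_abs_self A
      _ ≤ |A| * X * L ^ (-c) := by gcongr
      _ = _ := by ring
  have hpos : 0 ≤ (X : ℝ) * L ^ (-c) := by positivity
  by_cases hz : 3 ≤ zz δ X
  swap
  · -- small `X`
    have e1 : (S.card : ℝ) ≤ X := by
      have e2 : S ⊆ Icc 1 X := fun m hm => by
        obtain ⟨h7, -⟩ := hS m hm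
        rw [mem_sqs] at h7
        exact Finset.mem_Icc.2 ⟨h7.1, h7.2.1⟩
      have e3 := Finset.card_le_card e2
      rw [Nat.card_Icc] at e3
      exact_mod_cast (by omega : S.card ≤ X)
    have e2 : Real.exp (L ^ δ) < 3 := by
      by_contra hcon
      rw [not_lt] at hcon
      apply hz
      unfold zz
      exact Nat.le_floor (by exact_mod_cast hcon)
    have e3 : L ^ δ ≤ 2 := by
      have e4 := Real.add_one_le_exp (L ^ δ)
      linarith
    have e4 : L ≤ (2 : ℝ) ^ (1 / δ) := by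
      have e5 : L = (L ^ δ) ^ (1 / δ) := by
        rw [← Real.rpow_mul hL0.le, mul_one_div_cancel hδ.ne', Real.rpow_one]
      rw [e5]
      exact Real.rpow_le_rpow (by positivity) e3 (by positivity)
    have e5 : 1 ≤ ((2 : ℝ) ^ (1 / δ)) ^ c * L ^ (-c) := by
      rw [Real.rpow_neg hL0.le, ← div_eq_mul_inv, one_le_div (by positivity)]
      exact Real.rpow_le_rpow hL0.le e4 hc0.le
    calc (S.card : ℝ) ≤ X * 1 := by rw [mul_one]; exact e1
      _ ≤ X * (((2 : ℝ) ^ (1 / δ)) ^ c * L ^ (-c)) := by gcongr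
      _ = ((2 : ℝ) ^ (1 / δ)) ^ c * (X * L ^ (-c)) := by ring
      _ ≤ (|C₁| + |C₂| + |C₃| + |C₄| + |C₅| * (1 + 2 * 128 * C₆) + ((2 : ℝ) ^ (1 / δ)) ^ c) *
          (X * L ^ (-c)) := by
        refine mul_le_mul_of_nonneg_right ?_ hpos
        have : 0 ≤ |C₁| + |C₂| + |C₃| + |C₄| + |C₅| * (1 + 2 * 128 * C₆) := by positivity
        linarith
      _ = _ := by ring
  -- the five parts
  set z := zz δ X with hzd
  set w : ℕ → ℝ := PF (fun p => if z < p then lam (p % 24) else 1) with hwd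
  set S1 := S.filter (fun m => w m < L ^ κ) with hS1
  set S2' := S.filter (fun m => ∀ p : ℕ, p.Prime → z < p → p ∣ m → p % 24 ≠ r) with hS2
  set S3 := S.filter (fun m => Real.exp (L ^ (2 * δ)) < (sm z m : ℝ)) with hS3
  set S4 := S.filter (fun m => ∃ a b : ℕ, a * b = m ∧ (b : ℝ) ≤ Real.exp (L ^ (2 * δ)) ∧
    Fits D a b) with hS4
  set S5 := S \ (S1 ∪ S2' ∪ S3 ∪ S4) with hS5
  have hcard : S.card ≤ S1.card + S2'.card + S3.card + S4.card + S5.card := by
    have e1 : S ⊆ (S1 ∪ S2' ∪ S3 ∪ S4) ∪ S5 := by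
      intro m hm
      by_cases h : m ∈ S1 ∪ S2' ∪ S3 ∪ S4
      · exact Finset.mem_union_left _ h
      · exact Finset.mem_union_right _ (Finset.mem_sdiff.2 ⟨hm, h⟩)
    have e2 := Finset.card_le_card e1
    have e3 := Finset.card_union_le (S1 ∪ S2' ∪ S3 ∪ S4) S5
    have e4 := Finset.card_union_le (S1 ∪ S2' ∪ S3) S4
    have e5 := Finset.card_union_le (S1 ∪ S2') S3
    have e6 := Finset.card_union_le S1 S2'
    omega
  have b1' : (S1.card : ℝ) ≤ |C₁| * (X * L ^ (-c)) := by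
    refine le_trans ?_ (hmono C₁ c₁ hcc₁)
    refine le_trans ?_ (h1 X hX)
    have e1 : S1 ⊆ (sqs X).filter (fun m => PF (fun p => if zz δ X < p then lam (p % 24) else 1) m <
        Real.log X ^ κ) := by
      intro m hm
      rw [hS1, Finset.mem_filter] at hm
      exact Finset.mem_filter.2 ⟨(hS m hm.1).1, hm.2⟩
    exact_mod_cast Finset.card_le_card e1
  have b2' : (S2'.card : ℝ) ≤ |C₂| * (X * L ^ (-c)) := by
    refine le_trans (h2 X hX S2' fun m hm => ?_) (hmono C₂ (1 / 32) hc32)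
    rw [hS2, Finset.mem_filter] at hm
    exact ⟨(hS m hm.1).1, hm.2⟩
  have b3' : (S3.card : ℝ) ≤ |C₃| * (X * L ^ (-c)) := by
    refine le_trans (h3 X hX S3 fun m hm => ?_) (hmono C₃ 1 (by linarith))
    rw [hS3, Finset.mem_filter] at hm
    exact ⟨(hS m hm.1).1, hm.2⟩
  have b4' : (S4.card : ℝ) ≤ |C₄| * (X * L ^ (-c)) := by
    refine le_trans (h4 X hX S4 fun m hm => ?_) (hmono C₄ (1 / 8) (by linarith))
    rw [hS4, Finset.mem_filter] at hm
    obtain ⟨hmS, a, b, hab, hb, hf⟩ := hm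
    refine ⟨(hS m hmS).1, a, b, hab, hb, hf.nsq, fun p hp hp3 hp4 hpa => ?_⟩
    obtain ⟨e1, e2⟩ := hD.four p hp hp3 hp4
    rw [hf.ca p hp hp3 hpa e1, e2]
  have b5' : (S5.card : ℝ) ≤ |C₅| * (1 + 2 * 128 * C₆) * (X * L ^ (-c)) := by
    have hT : 0 < L ^ κ := by positivity
    have e1 := h5 z X (L ^ κ) hz hX hT S5 fun m hm => ?_
    · -- the estimate
      have hzR : (3 : ℝ) ≤ z := by exact_mod_cast hz
      have f1 : (z : ℝ) ≤ Real.exp (L ^ δ) := by
        rw [hzd]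
        unfold zz
        exact Nat.floor_le (Real.exp_pos _).le
      have f2 : Real.log z ≤ L ^ δ := by
        rw [← Real.log_exp (L ^ δ)]
        exact Real.log_le_log (by linarith) f1
      have f3 : Real.exp (L ^ δ) ≤ 2 * z := by
        have g1 : Real.exp (L ^ δ) < z + 1 := by
          rw [hzd]
          unfold zz
          exact Nat.lt_floor_add_one _
        linarith
      have f4 : (z : ℝ) ^ (-(1 / 6 : ℝ)) ≤ 2 * Real.exp (-(L ^ δ / 6)) := by
        rw [Real.rpow_neg (by linarith), Real.exp_neg, ← div_eq_mul_inv,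
          inv_eq_one_div, div_le_div_iff₀ (by positivity) (by positivity), one_mul]
        have g1 : Real.exp (L ^ δ / 6) = Real.exp (L ^ δ) ^ (1 / 6 : ℝ) := by
          rw [← Real.exp_mul]
          congr 1
          ring
        rw [g1]
        calc Real.exp (L ^ δ) ^ (1 / 6 : ℝ) ≤ (2 * z) ^ (1 / 6 : ℝ) :=
              Real.rpow_le_rpow (Real.exp_pos _).le f3 (by norm_num)
          _ = 2 ^ (1 / 6 : ℝ) * (z : ℝ) ^ (1 / 6 : ℝ) := Real.mul_rpow (by norm_num) (by linarith)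
          _ ≤ 2 * (z : ℝ) ^ (1 / 6 : ℝ) := by
            gcongr
            calc (2 : ℝ) ^ (1 / 6 : ℝ) ≤ 2 ^ (1 : ℝ) :=
                  Real.rpow_le_rpow_of_exponent_le (by norm_num) (by norm_num)
              _ = 2 := Real.rpow_one _
      have f5 : (z : ℝ) ^ (-(1 / 6 : ℝ)) * (1 + L) ^ 7 ≤ 2 * 128 * C₆ := by
        have g1 : (1 + L) ^ 7 ≤ 128 * L ^ 7 := by
          calc (1 + L) ^ 7 ≤ (2 * L) ^ 7 := by gcongr; linarith
            _ = 128 * L ^ 7 := by ring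
        have g2 := h6 L hL
        calc (z : ℝ) ^ (-(1 / 6 : ℝ)) * (1 + L) ^ 7
            ≤ (2 * Real.exp (-(L ^ δ / 6))) * (128 * (C₆ * Real.exp (L ^ δ / 6))) := by
              refine mul_le_mul f4 (g1.trans ?_) (by positivity) (by positivity)
              gcongr
          _ = 2 * 128 * C₆ * (Real.exp (-(L ^ δ / 6)) * Real.exp (L ^ δ / 6)) := by ring
          _ = 2 * 128 * C₆ := by rw [← Real.exp_add, neg_add_cancel, Real.exp_zero, mul_one]
      have f6 : 1 ≤ L ^ δ := Real.one_le_rpow hL hδ.le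
      have f7 : L ^ κ * (S5.card : ℝ) ≤ |C₅| * X * ((1 + 2 * 128 * C₆) * L ^ δ) := by
        have g0 : 0 ≤ Real.log z := Real.log_nonneg (by linarith)
        calc L ^ κ * (S5.card : ℝ)
            ≤ C₅ * X * Real.log z + C₅ * X * (z : ℝ) ^ (-(1 / 6 : ℝ)) * (1 + Real.log X) ^ 7 := e1
          _ = C₅ * (X * (Real.log z + (z : ℝ) ^ (-(1 / 6 : ℝ)) * (1 + L) ^ 7)) := by
              rw [← hLd]; ring
          _ ≤ |C₅| * (X * (Real.log z + (z : ℝ) ^ (-(1 / 6 : ℝ)) * (1 + L) ^ 7)) := by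
              refine mul_le_mul_of_nonneg_right (le_abs_self _) (by positivity)
          _ ≤ |C₅| * (X * (L ^ δ + 2 * 128 * C₆ * L ^ δ)) := by
              have g1 : 2 * 128 * C₆ ≤ 2 * 128 * C₆ * L ^ δ :=
                le_mul_of_one_le_right (by positivity) f6
              have g2 : (z : ℝ) ^ (-(1 / 6 : ℝ)) * (1 + L) ^ 7 ≤ 2 * 128 * C₆ * L ^ δ := f5.trans g1
              gcongr
          _ = _ := by ring
      have f8 : (S5.card : ℝ) ≤ |C₅| * X * ((1 + 2 * 128 * C₆) * L ^ δ) * L ^ (-κ) := by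
        rw [Real.rpow_neg hL0.le, ← div_eq_mul_inv, le_div_iff₀ hT]
        linarith
      calc (S5.card : ℝ) ≤ |C₅| * X * ((1 + 2 * 128 * C₆) * L ^ δ) * L ^ (-κ) := f8
        _ = |C₅| * (1 + 2 * 128 * C₆) * (X * L ^ (δ + -κ)) := by
            rw [Real.rpow_add hL0]; ring
        _ ≤ |C₅| * (1 + 2 * 128 * C₆) * (X * L ^ (-c)) := by
            have g1 : L ^ (δ + -κ) ≤ L ^ (-c) :=
              Real.rpow_le_rpow_of_exponent_le hL (by linarith)
            gcongr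
    · -- the conditions
      rw [hS5, Finset.mem_sdiff] at hm
      obtain ⟨hmS, hm'⟩ := hm
      simp only [Finset.mem_union, not_or] at hm'
      obtain ⟨⟨⟨n1, n2⟩, n3⟩, n4⟩ := hm'
      obtain ⟨hsq, a, b, hab, hf⟩ := hS m hmS
      have hsf : Squarefree m := (mem_sqs.1 hsq).2.2
      have hm0 : m ≠ 0 := hsf.ne_zero
      have ha0 : a ≠ 0 := by
        rintro rfl
        exact hm0 (by rw [← hab]; simp)
      refine ⟨hsq, ?_, a, b, hab, hf, ?_, ?_⟩
      · by_contra hlt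
        rw [not_le] at hlt
        exact n1 (Finset.mem_filter.2 ⟨hmS, hlt⟩)
      · have g1 : ¬ ∀ p : ℕ, p.Prime → z < p → p ∣ m → p % 24 ≠ r := fun h =>
          n2 (Finset.mem_filter.2 ⟨hmS, h⟩)
        push Not at g1
        obtain ⟨p, hp, hzp, hpm, hpr⟩ := g1
        rw [← hab] at hpm
        rcases hp.dvd_mul.1 hpm with h | h
        · exact thmB_ro ha0 hp hzp h
        · exact absurd (hf.mem p hp (by omega) h) (hout p hp hpr)
      · intro hro
        have g1 := thmB_sm hsf hab hro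
        have g2 : (sm z m : ℝ) ≤ Real.exp (L ^ (2 * δ)) := by
          by_contra hlt
          rw [not_le] at hlt
          exact n3 (Finset.mem_filter.2 ⟨hmS, hlt⟩)
        have g3 : (b : ℝ) ≤ Real.exp (L ^ (2 * δ)) :=
          le_trans (by exact_mod_cast g1) g2
        exact n4 (Finset.mem_filter.2 ⟨hmS, a, b, hab, g3, hf⟩)
  have hfin : (S.card : ℝ) ≤ S1.card + S2'.card + S3.card + S4.card + S5.card := by
    exact_mod_cast hcard
  have hlast : 0 ≤ ((2 : ℝ) ^ (1 / δ)) ^ c * (X * L ^ (-c)) := by positivity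
  calc (S.card : ℝ) ≤ |C₁| * (X * L ^ (-c)) + |C₂| * (X * L ^ (-c)) + |C₃| * (X * L ^ (-c)) +
        |C₄| * (X * L ^ (-c)) + |C₅| * (1 + 2 * 128 * C₆) * (X * L ^ (-c)) +
        ((2 : ℝ) ^ (1 / δ)) ^ c * (X * L ^ (-c)) := by linarith
    _ = _ := by ring

end Pool.Agent.Wal
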